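import Pool.Agent.Lib.MP_decac5_gt.Defs
import Pool.Agent.Lib.MP_131179_gt.Goals

/-!
# Common definitions for the proof
-/

set_option autoImplicit false

namespace Pool.Agent.Lib.MP_decac5_gt

open Pool.Agent.Lib.MP_131179_gt

variable {C D : Type}

/-! ### Natural correspondences between labellings -/

/-- A natural one-to-one correspondence between the labellings of the word `u` and the labellings of the
word `v`, which have the same labels at the bottom (`m` strands) and are related by moves. -/
structure Tr (u v : Word Unit) (m : List Unit)
    (F : (C : Type) → Palette C → List C → Word C → Word C → Prop) : Prop where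
  fwd : ∀ {C : Type} {P : Palette C} {s t : List C} {W : Word C}, s.map (fun _ => ()) = m →
    Path P W s t → erase W = u → ∃ W', F C P s W W'
  bwd : ∀ {C : Type} {P : Palette C} {s t : List C} {W' : Word C}, s.map (fun _ => ()) = m →
    Path P W' s t → erase W' = v → ∃ W, F C P s W W'
  eqv : ∀ {C : Type} {P : Palette C} {s : List C} {W W' : Word C}, F C P s W W' →
    ∃ t, Eqv P W W' s t
  left : ∀ {C : Type} {P : Palette C} {s : List C} {W W' : Word C}, F C P s W W' → erase W = u
  right : ∀ {C : Type} {P : Palette C} {s : List C} {W W' : Word C}, F C P s W W' → erase W' = v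
  uniq : ∀ {C : Type} {P : Palette C} {s : List C} {W W₁ W₂ : Word C}, F C P s W W₁ →
    F C P s W W₂ → W₁ = W₂
  uniq' : ∀ {C : Type} {P : Palette C} {s : List C} {W' W₁ W₂ : Word C}, F C P s W₁ W' →
    F C P s W₂ W' → W₁ = W₂
  nat : ∀ {C D : Type} {P : Palette C} {Q : Palette D} {f : C → D} {s : List C} {W W' : Word C},
    IsHom P Q f → F C P s W W' → F D Q (s.map f) (wmap f W) (wmap f W')

/-! ### Bundles -/

/-- The label `x` after passing from left to right under strands with labels `B`. -/
def actL (P : Palette C) (x : C) (B : List C) : C := B.foldl P.act x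

/-- The labels `A` after passing from left to right under strands with labels `B`. -/
def actA (P : Palette C) (A B : List C) : List C := A.map fun x => actL P x B

/-- The labels of a bundle read backwards. -/
def barR (P : Palette C) (B : List C) : List C := (B.map P.bar).reverse

/-- The crossing of the bundles number `i` and `i + 1` of `n` strands (as `cableL n (.pos, i)`). -/
def gridP (n i : ℕ) : Word C := (List.range n).flatMap fun r =>
  (List.range n).map fun s => (.pos, n * i + (n - 1 - r) + s)

/-- The crossing of the bundles number `i` and `i + 1` of `n` strands (as `cableL n (.neg, i)`). -/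
def gridN (n i : ℕ) : Word C := (List.range n).flatMap fun r =>
  (List.range n).map fun s => (.neg, n * i + (n - 1 - r) + s)

/-- The maxima of `n` parallel strands. -/
def gridCap (n i : ℕ) : Word C := (List.range n).map fun r => (.cap, n * i + (n - 1 - r))

/-- The minima of `n` parallel strands, with labels. -/
def gridCup (n i : ℕ) (B : List C) : Word C := B.zipIdx.map fun c => (.cup c.1, n * i + c.2)

/-- The labelled version of `cable n fig8`; `B` are the labels of the minima. -/
def blkL (n : ℕ) (B : List C) : Word C :=
  gridCup n 1 B ++ (gridP n 0 ++ (gridN n 1 ++ (gridP n 0 ++ (gridN n 1 ++ gridCap n 0))))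

/-- The labelled diagram; `a b c d` are the labels of the first four minima, `X` are the labels of the
minima of the first block (three parallel strands), `Y` are those of the second block. -/
def kWL (a b c d : C) (X Y : List C) : Word C :=
  [(.cup a, 0), (.cup b, 2), (.cup c, 3), (.cup d, 4), (.neg, 1)] ++
    (shift 1 (blkL 3 X) ++ (shift 5 (blkL 2 Y) ++ [(.cap, 3), (.cap, 2), (.cap, 0), (.cap, 0)]))

theorem erase_kWL (a b c d x1 x2 x3 y1 y2 : C) :
    erase (kWL a b c d [x1, x2, x3] [y1, y2]) = kW := rfl

/-! ### The group of the knot -/

section grp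

variable {G : Type} [Group G]

/-- The element which conjugates the meridian `p` of the figure eight knot to the meridian `r`. -/
def kk (p r : G) : G := r⁻¹ * p * r * p⁻¹

/-- The longitude of the figure eight knot. -/
def lo (p r : G) : G := r⁻¹ * p * r * p⁻¹ * p⁻¹ * r * p * r⁻¹

/-- The relation of the group of the figure eight knot. -/
def Rel41 (p r : G) : Prop := r = (kk p r)⁻¹ * p * kk p r

/-- The relations of the group of the knot: `p, r` generate the group of the first block and `q, s`
generate the group of the second block. -/
structure KRel (p r q s w x : G) : Prop where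
  r1 : Rel41 p r
  r2 : Rel41 q s
  e1 : p = (lo p r)⁻¹ * w * lo p r * w * x⁻¹
  e2 : q = ((lo p r)⁻¹ * x * lo p r)⁻¹ * x
  e3 : w = (lo q s)⁻¹ * x * lo q s

/-- The labelling of the diagram given by the elements of a group subject to `KRel`. -/
def kLab (p r q s w x : G) : Word G :=
  kWL ((lo p r)⁻¹ * w * lo p r)⁻¹ w x⁻¹ ((lo p r)⁻¹ * x * lo p r)
    [(kk p r)⁻¹ * w * kk p r,
      (kk p r)⁻¹ * (w⁻¹ * ((lo p r)⁻¹ * w * lo p r) * w) * kk p r,
      (kk p r)⁻¹ * x⁻¹ * kk p r]
    [(kk q s)⁻¹ * ((lo p r)⁻¹ * x * lo p r)⁻¹ * kk q s, (kk q s)⁻¹ * x * kk q s]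

/-- The longitude of the knot, commuting with the meridian `x`. -/
def lamK (p r q s w x : G) : G :=
  x⁻¹ * lo q s * lo p r * w * lo p r * (lo q s)⁻¹ * (lo p r)⁻¹

end grp

/-! ### Lifts of the labels modulo a subgroup -/

section lonq

variable {G : Type} [Group G]

/-- The set of the cosets `Λ y`. -/
abbrev CosR (Λ : Subgroup G) : Type := Quotient (QuotientGroup.rightRel Λ)

/-- Right multiplication of a coset `Λ y` and left multiplication by an element commuting with `Λ`. -/
def cosAct (Λ : Subgroup G) (x0 : G) (h : ∀ l ∈ Λ, l * x0 = x0 * l) (b : Bool) (g : G) :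
    CosR Λ → CosR Λ :=
  Quotient.map (fun y => (if b then x0⁻¹ else x0) * y * g) fun y y' hy => by
    have h1 : y' * y⁻¹ ∈ Λ := QuotientGroup.rightRel_apply.1 hy
    refine QuotientGroup.rightRel_apply.2 ?_
    have h2 := h _ h1
    cases b
    · have : (if false = true then x0⁻¹ else x0) * y' * g *
          ((if false = true then x0⁻¹ else x0) * y * g)⁻¹ = y' * y⁻¹ := by
        rw [if_neg (by decide)]
        have : x0 * y' * g * (x0 * y * g)⁻¹ = x0 * (y' * y⁻¹) * x0⁻¹ := by group
        rw [this, ← h2]
        group
      rw [this]
      exact h1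
    · have : (if true = true then x0⁻¹ else x0) * y' * g *
          ((if true = true then x0⁻¹ else x0) * y * g)⁻¹ = y' * y⁻¹ := by
        rw [if_pos rfl]
        have : x0⁻¹ * y' * g * (x0⁻¹ * y * g)⁻¹ = x0⁻¹ * (y' * y⁻¹) * x0 := by group
        rw [this, mul_assoc, h2]
        group
      rw [this]
      exact h1

/-- The label covered by the class of `(y, s)`. -/
def lonfQ (Λ : Subgroup G) (x0 : G) (h : ∀ l ∈ Λ, l * x0 = x0 * l) (z : CosR Λ × Bool) : G :=
  Quotient.lift (fun y => lonf x0 (y, z.2)) (fun y y' hy => by
    have h1 : y' * y⁻¹ ∈ Λ := QuotientGroup.rightRel_apply.1 hy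
    have h2 := h _ h1
    have h3 : y' = (y' * y⁻¹) * y := by group
    cases z.2
    · show y⁻¹ * x0⁻¹ * y = y'⁻¹ * x0⁻¹ * y'
      have h4 : (y' * y⁻¹)⁻¹ * x0⁻¹ * (y' * y⁻¹) = x0⁻¹ := by
        have : (y' * y⁻¹)⁻¹ * x0⁻¹ * (y' * y⁻¹) = (x0 * (y' * y⁻¹))⁻¹ * (y' * y⁻¹) := by group
        rw [this, ← h2]
        group
      calc y⁻¹ * x0⁻¹ * y = y⁻¹ * ((y' * y⁻¹)⁻¹ * x0⁻¹ * (y' * y⁻¹)) * y := by rw [h4]
        _ = y'⁻¹ * x0⁻¹ * y' := by group
    · show y⁻¹ * x0 * y = y'⁻¹ * x0 * y'
      have h4 : (y' * y⁻¹)⁻¹ * x0 * (y' * y⁻¹) = x0 := by
        rw [mul_assoc, ← h2]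
        group
      calc y⁻¹ * x0 * y = y⁻¹ * ((y' * y⁻¹)⁻¹ * x0 * (y' * y⁻¹)) * y := by rw [h4]
        _ = y'⁻¹ * x0 * y' := by group) z.1

theorem cosAct_mk (Λ : Subgroup G) (x0 : G) (h : ∀ l ∈ Λ, l * x0 = x0 * l) (b : Bool) (g y : G) :
    cosAct Λ x0 h b g (Quotient.mk _ y) = Quotient.mk _ ((if b then x0⁻¹ else x0) * y * g) := rfl

theorem lonfQ_mk (Λ : Subgroup G) (x0 : G) (h : ∀ l ∈ Λ, l * x0 = x0 * l) (y : G) (s : Bool) :
    lonfQ Λ x0 h (Quotient.mk _ y, s) = lonf x0 (y, s) := rfl

/-- The palette `lonP` modulo a subgroup `Λ` which commutes with `x0`. -/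
def lonQ (Λ : Subgroup G) (x0 : G) (h : ∀ l ∈ Λ, l * x0 = x0 * l) :
    Palette (CosR Λ × Bool) where
  bar := fun x => (x.1, !x.2)
  act := fun x z => (cosAct Λ x0 h z.2 (lonfQ Λ x0 h z) x.1, x.2)
  bar_bar := fun x => by simp
  act_bar := fun x y => rfl
  act_act_bar := fun x y => by
    obtain ⟨x, s⟩ := x
    obtain ⟨y, r⟩ := y
    induction x using Quotient.inductionOn with | h x => ?_
    induction y using Quotient.inductionOn with | h y => ?_
    simp only [lonfQ_mk, cosAct_mk]
    refine Prod.ext ?_ rfl
    refine congrArg (Quotient.mk _) ?_
    cases r <;> simp [lonf] <;> group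
  act_self := fun x => by
    obtain ⟨x, s⟩ := x
    induction x using Quotient.inductionOn with | h x => ?_
    simp only [lonfQ_mk, cosAct_mk]
    refine Prod.ext ?_ rfl
    refine congrArg (Quotient.mk _) ?_
    cases s <;> simp [lonf] <;> group
  act_dist := fun x y z => by
    obtain ⟨x, s⟩ := x
    obtain ⟨y, r⟩ := y
    obtain ⟨z, q⟩ := z
    induction x using Quotient.inductionOn with | h x => ?_
    induction y using Quotient.inductionOn with | h y => ?_
    induction z using Quotient.inductionOn with | h z => ?_
    simp only [lonfQ_mk, cosAct_mk]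
    refine Prod.ext ?_ rfl
    refine congrArg (Quotient.mk _) ?_
    cases r <;> cases q <;> simp [lonf] <;> group

end lonq

/-! ### Framed moves -/

/-- The moves without the first Reidemeister move, and with all versions of the third. -/
inductive FBase : Word Unit → Word Unit → Prop
  | far (k l : Kind Unit) (g : ℕ) : FBase [(k, 0), (l, k.out + g)] [(l, k.inn + g), (k, 0)]
  | zig : FBase [(.cup (), 1), (.cap, 0)] []
  | zag : FBase [(.cup (), 0), (.cap, 1)] []
  | cupOver : FBase [(.cup (), 1), (.pos, 0)] [(.cup (), 0), (.neg, 1)]
  | cupUnder : FBase [(.cup (), 1), (.neg, 0)] [(.cup (), 0), (.pos, 1)]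
  | capOver : FBase [(.pos, 0), (.cap, 1)] [(.neg, 1), (.cap, 0)]
  | capUnder : FBase [(.neg, 0), (.cap, 1)] [(.pos, 1), (.cap, 0)]
  | r2PosNeg : FBase [(.pos, 0), (.neg, 0)] []
  | r2NegPos : FBase [(.neg, 0), (.pos, 0)] []
  | r3 : FBase [(.pos, 0), (.pos, 1), (.pos, 0)] [(.pos, 1), (.pos, 0), (.pos, 1)]
  | r3nnn : FBase [(.neg, 0), (.neg, 1), (.neg, 0)] [(.neg, 1), (.neg, 0), (.neg, 1)]
  | r3ppn : FBase [(.pos, 0), (.pos, 1), (.neg, 0)] [(.neg, 1), (.pos, 0), (.pos, 1)]
  | r3npp : FBase [(.neg, 0), (.pos, 1), (.pos, 0)] [(.pos, 1), (.pos, 0), (.neg, 1)]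
  | r3nnp : FBase [(.neg, 0), (.neg, 1), (.pos, 0)] [(.pos, 1), (.neg, 0), (.neg, 1)]
  | r3pnn : FBase [(.pos, 0), (.neg, 1), (.neg, 0)] [(.neg, 1), (.neg, 0), (.pos, 1)]

/-- Words related by framed moves. -/
inductive FEqv : Word Unit → Word Unit → List Unit → List Unit → Prop
  | refl {w : Word Unit} {s t : List Unit} : Path (triv Unit) w s t → FEqv w w s t
  | move {u v : Word Unit} (i : ℕ) {s t : List Unit} : FBase u v →
      Path (triv Unit) (shift i u) s t → Path (triv Unit) (shift i v) s t →
      FEqv (shift i u) (shift i v) s t
  | symm {u v : Word Unit} {s t : List Unit} : FEqv u v s t → FEqv v u s t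
  | trans {u v w : Word Unit} {s t : List Unit} : FEqv u v s t → FEqv v w s t → FEqv u w s t
  | comp {u u' v v' : Word Unit} {s t r : List Unit} : FEqv u u' s t → FEqv v v' t r →
      FEqv (u ++ v) (u' ++ v') s r

/-! ### Colourings by integers modulo `N` -/

/-- The palette of the colourings of Fox. -/
def fox (N : ℕ) : Palette (ZMod N) where
  bar := fun x => x
  act := fun x y => 2 * y - x
  bar_bar := fun _ => rfl
  act_bar := fun _ _ => rfl
  act_act_bar := fun x y => by ring
  act_self := fun x => by ring
  act_dist := fun x y z => by ring

/-- The colourings of a closed word. -/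
def Col (N : ℕ) (u : Word Unit) : Type :=
  {W : Word (ZMod N) // Path (fox N) W [] [] ∧ erase W = u}

theorem _root_.Pool.Agent.Lib.MP_131179_gt.Step.cast2 {P : Palette C} {k : Kind C} {i : ℕ}
    {s t s' t' : List C} (h : Step P k i s t) (hs : s = s') (ht : t = t') : Step P k i s' t' := by
  subst hs ht
  exact h

theorem path_kW : Path (triv Unit) kW [] [] := by
  have h : ∀ (w : Word Unit) (n : ℕ), (w.foldl (fun (o : Option ℕ) l => o.bind fun m =>
      match l.1 with
      | .cup _ => if l.2 ≤ m then some (m + 2) else none
      | .cap => if l.2 + 2 ≤ m then some (m - 2) else none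
      | .pos => if l.2 + 2 ≤ m then some m else none
      | .neg => if l.2 + 2 ≤ m then some m else none) (some n)) = some 0 →
      Path (triv Unit) w (List.replicate n ()) [] := by
    intro w
    induction w with
    | nil =>
      intro n h
      simp only [List.foldl_nil, Option.some.injEq] at h
      subst h
      exact Path.nil _
    | cons l w ih =>
      intro n h
      obtain ⟨k, i⟩ := l
      have hnone : ∀ v : Word Unit, (v.foldl (fun (o : Option ℕ) l => o.bind fun m =>
          match l.1 with
          | .cup _ => if l.2 ≤ m then some (m + 2) else none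
          | .cap => if l.2 + 2 ≤ m then some (m - 2) else none
          | .pos => if l.2 + 2 ≤ m then some m else none
          | .neg => if l.2 + 2 ≤ m then some m else none) none) = none := by
        intro v
        induction v with
        | nil => rfl
        | cons l v ih => simpa using ih
      rw [List.foldl_cons] at h
      cases k with
      | cup c =>
        simp only [Option.bind_some] at h
        split_ifs at h with hi
        · refine Path.cons (t := List.replicate (n + 2) ()) ?_ (ih _ h)
          have h1 := (Step.cup (P := triv Unit) () (List.replicate (n - i) ())).left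
            (List.replicate i ())
          rw [List.length_replicate, Nat.zero_add] at h1
          have e1 : List.replicate i () ++ List.replicate (n - i) () = List.replicate n () := by
            rw [← List.replicate_add, Nat.add_sub_cancel' hi]
          have e2 : List.replicate i () ++ (() :: (triv Unit).bar () :: List.replicate (n - i) ()) =
              List.replicate (n + 2) () := by
            show List.replicate i () ++ List.replicate (n - i + 2) () = _
            rw [← List.replicate_add]
            congr 1
            omega
          rw [e1, e2] at h1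
          exact h1
        · rw [hnone] at h
          exact absurd h (by simp)
      | cap =>
        simp only [Option.bind_some] at h
        split_ifs at h with hi
        · refine Path.cons (t := List.replicate (n - 2) ()) ?_ (ih _ h)
          have h1 := (Step.cap (P := triv Unit) () (List.replicate (n - 2 - i) ())).left
            (List.replicate i ())
          rw [List.length_replicate, Nat.zero_add] at h1
          have e1 : List.replicate i () ++ List.replicate (n - 2 - i) () =
              List.replicate (n - 2) () := by
            rw [← List.replicate_add]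
            congr 1
            omega
          have e2 : List.replicate i () ++
              (() :: (triv Unit).bar () :: List.replicate (n - 2 - i) ()) =
              List.replicate n () := by
            show List.replicate i () ++ List.replicate (n - 2 - i + 2) () = _
            rw [← List.replicate_add]
            congr 1
            omega
          rw [e1, e2] at h1
          exact h1
        · rw [hnone] at h
          exact absurd h (by simp)
      | pos =>
        simp only [Option.bind_some] at h
        split_ifs at h with hi
        · refine Path.cons (t := List.replicate n ()) ?_ (ih _ h)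
          have h1 := (Step.pos (P := triv Unit) () () (List.replicate (n - 2 - i) ())).left
            (List.replicate i ())
          rw [List.length_replicate, Nat.zero_add] at h1
          have e2 : List.replicate i () ++
              (() :: () :: List.replicate (n - 2 - i) ()) = List.replicate n () := by
            show List.replicate i () ++ List.replicate (n - 2 - i + 2) () = _
            rw [← List.replicate_add]
            congr 1
            omega
          exact h1.cast2 e2 e2
        · rw [hnone] at h
          exact absurd h (by simp)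
      | neg =>
        simp only [Option.bind_some] at h
        split_ifs at h with hi
        · refine Path.cons (t := List.replicate n ()) ?_ (ih _ h)
          have h1 := (Step.neg (P := triv Unit) () () (List.replicate (n - 2 - i) ())).left
            (List.replicate i ())
          rw [List.length_replicate, Nat.zero_add] at h1
          have e2 : List.replicate i () ++
              (() :: () :: List.replicate (n - 2 - i) ()) = List.replicate n () := by
            show List.replicate i () ++ List.replicate (n - 2 - i + 2) () = _
            rw [← List.replicate_add]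
            congr 1
            omega
          exact h1.cast2 e2 e2
        · rw [hnone] at h
          exact absurd h (by simp)
  exact h kW 0 (by decide +kernel)

/-- The knot. -/
def kL : Link := Quotient.mk linkSetoid ⟨kW, path_kW⟩

theorem isDiag_kW : IsDiag kW kL := ⟨path_kW, rfl⟩

end Pool.Agent.Lib.MP_decac5_gt
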