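import Pool.Agent.Lib.MP_decac5_gt.Base

/-!
# More common definitions for the proof
-/

set_option autoImplicit false

namespace Pool.Agent.Lib.MP_decac5_gt

open Pool.Agent.Lib.MP_131179_gt

/-! ### Normal forms in the free product of a group and of an infinite cyclic group -/

section free

variable {A H : Type} [Group A] [Group H]

/-- The element `a w^(±1) a₁ w^(±1) a₂ ⋯`. -/
def evW (i : A →* H) (w : H) (a : A) (l : List (Bool × A)) : H :=
  i a * (l.map fun x => (if x.1 then w else w⁻¹) * i x.2).prod

/-- No cancellation is possible. -/
def RedW (l : List (Bool × A)) : Prop := l.IsChain fun x y => x.2 = 1 → x.1 = y.1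

/-- `H` is the free product of `A` and of the infinite cyclic group generated by `w`. -/
structure FreeBy (i : A →* H) (w : H) : Prop where
  ex : ∀ h : H, ∃ (a : A) (l : List (Bool × A)), RedW l ∧ h = evW i w a l
  uniq : ∀ (a a' : A) (l l' : List (Bool × A)), RedW l → RedW l' → evW i w a l = evW i w a' l' →
    a = a' ∧ l = l'

end free

/-! ### The bracket polynomial at `A = 2` modulo `11` -/

/-- The weights of a minimum. -/
def cupV : Bool → Bool → ZMod 11
  | false, true => 1
  | true, false => 8
  | _, _ => 0

/-- The weights of a maximum. -/
def capV : Bool → Bool → ZMod 11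
  | false, true => 7
  | true, false => 1
  | _, _ => 0

/-- A maximum between the first two strands. -/
def capS (f : List Bool → ZMod 11) (l : List Bool) : ZMod 11 :=
  capV false true * f (false :: true :: l) + capV true false * f (true :: false :: l)

/-- The operator of a letter at position `0`; `f` is a function of the states of the strands at the
bottom. -/
def op0 : Kind Unit → (List Bool → ZMod 11) → List Bool → ZMod 11
  | .cup _, f, a :: b :: l => cupV a b * f l
  | .cap, f, l => capS f l
  | .pos, f, a :: b :: l => 2 * f (a :: b :: l) + 6 * (cupV a b * capS f l)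
  | .neg, f, a :: b :: l => 6 * f (a :: b :: l) + 2 * (cupV a b * capS f l)
  | _, _, _ => 0

/-- The operator of the letter `(k, i)`. -/
def opL (k : Kind Unit) : ℕ → (List Bool → ZMod 11) → List Bool → ZMod 11
  | 0, f, l => op0 k f l
  | i + 1, f, a :: l => opL k i (fun m => f (a :: m)) l
  | _ + 1, _, [] => 0

/-- The operator of a word. -/
def opW (w : Word Unit) (f : List Bool → ZMod 11) : List Bool → ZMod 11 :=
  w.foldl (fun f l => opL l.1 l.2 f) f

/-- The bracket polynomial at `A = 2` modulo `11` of a closed word. -/
def bra (w : Word Unit) : ZMod 11 := opW w (fun l => if l = [] then 1 else 0) []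

end Pool.Agent.Lib.MP_decac5_gt
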