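import Pool.Agent.Lib.MP_decac5_gt.Base2
import Pool.Agent.Lib.MP_131179_gt.Lift

/-!
# The labellings of a block
-/

set_option autoImplicit false

namespace Pool.Agent.Lib.MP_decac5_gt

open Pool.Agent.Lib.MP_131179_gt

variable {C : Type}

/-- The relation which the labels `B` of the minima of a block with input `S` satisfy. -/
def blkRel (P : Palette C) (S B : List C) : Prop :=
  actA P S (barR P B) = barR P (actA P (barR P B) (barR P (actA P B (barR P S))))

/-- The output of a block. -/
def blkOut (P : Palette C) (S B : List C) : List C :=
  actA P (actA P B (barR P S)) (actA P S (barR P B))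

theorem blk_range_succ (n : ℕ) : List.range (n + 1) = 0 :: (List.range n).map Nat.succ :=
  List.range_succ_eq_map

/-- One strand over `n` strands. -/
theorem blk_rowP (P : Palette C) (a : C) (B : List C) :
    Path P ((List.range B.length).map fun s => (Kind.pos, s)) (a :: B)
      ((B.map fun x => P.act x (P.bar a)) ++ [a]) := by
  induction B with
  | nil => exact Path.nil _
  | cons b B ih =>
    rw [List.length_cons, blk_range_succ, List.map_cons, List.map_map]
    have h1 : (List.range B.length).map ((fun s => ((Kind.pos : Kind C), s)) ∘ Nat.succ) =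
        shift 1 ((List.range B.length).map fun s => (Kind.pos, s)) := by
      simp [shift]
    rw [h1]
    exact Path.cons (Step.pos a b B) (ih.left [P.act b (P.bar a)])

/-- One strand under `n` strands. -/
theorem blk_rowN (P : Palette C) (a : C) (B : List C) :
    Path P ((List.range B.length).map fun s => (Kind.neg, s)) (a :: B)
      (B ++ [actL P a B]) := by
  induction B generalizing a with
  | nil => exact Path.nil _
  | cons b B ih =>
    rw [List.length_cons, blk_range_succ, List.map_cons, List.map_map]
    have h1 : (List.range B.length).map ((fun s => ((Kind.neg : Kind C), s)) ∘ Nat.succ) =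
        shift 1 ((List.range B.length).map fun s => (Kind.neg, s)) := by
      simp [shift]
    rw [h1]
    exact Path.cons (Step.neg a b B) ((ih (P.act a b)).left [b])

/-- The crossing of `m` strands with `n` strands. -/
def blk_grid (k : Kind C) (m n : ℕ) : Word C := (List.range m).flatMap fun r =>
  (List.range n).map fun s => (k, (m - 1 - r) + s)

theorem blk_grid_succ (k : Kind C) (m n : ℕ) :
    blk_grid k (m + 1) n = shift m ((List.range n).map fun s => (k, s)) ++ blk_grid k m n := by
  rw [blk_grid, blk_range_succ, List.flatMap_cons, List.flatMap_map]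
  congr 1
  · simp [shift, Nat.add_comm]
  · rw [blk_grid]
    congr 1
    funext r
    have : m + 1 - 1 - Nat.succ r = m - 1 - r := by omega
    rw [this]

theorem blk_gridP_path (P : Palette C) (A B : List C) :
    Path P (blk_grid .pos A.length B.length) (A ++ B) (actA P B (barR P A) ++ A) := by
  induction A using List.reverseRecOn generalizing B with
  | nil =>
    have h : actA P B (barR P []) = B := by simp [actA, barR, actL]
    rw [h, List.append_nil]
    exact Path.nil _
  | append_singleton A a ih =>
    rw [List.length_append, List.length_singleton, blk_grid_succ]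
    have h1 := (blk_rowP P a B).left A
    have h2 := (ih (B.map fun x => P.act x (P.bar a))).right [a]
    rw [List.length_map] at h2
    have h3 : actA P (B.map fun x => P.act x (P.bar a)) (barR P A) =
        actA P B (barR P (A ++ [a])) := by
      simp [actA, barR, actL]
    rw [h3, List.append_assoc, List.append_assoc] at h2
    rw [List.append_assoc, List.singleton_append]
    exact h1.append h2

theorem blk_gridN_path (P : Palette C) (A B : List C) :
    Path P (blk_grid .neg A.length B.length) (A ++ B) (B ++ actA P A B) := by
  induction A using List.reverseRecOn with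
  | nil =>
    have h : actA P [] B = [] := rfl
    rw [h, List.append_nil]
    exact Path.nil _
  | append_singleton A a ih =>
    rw [List.length_append, List.length_singleton, blk_grid_succ]
    have h1 := (blk_rowN P a B).left A
    have h2 := ih.right [actL P a B]
    have h3 : actA P (A ++ [a]) B = actA P A B ++ [actL P a B] := by
      simp [actA]
    rw [List.append_assoc, List.append_assoc, ← h3] at h2
    rw [List.append_assoc, List.singleton_append]
    exact h1.append h2

theorem blk_gridP_zero (n : ℕ) : (gridP n 0 : Word C) = blk_grid .pos n n := by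
  simp [gridP, blk_grid]

theorem blk_gridN_one (n : ℕ) : (gridN n 1 : Word C) = shift n (blk_grid .neg n n) := by
  rw [gridN, blk_grid, shift, List.map_flatMap]
  refine congrArg (fun f => List.flatMap f (List.range n)) ?_
  funext r
  rw [List.map_map]
  refine congrArg (fun f => List.map f (List.range n)) ?_
  funext s
  show ((Kind.neg : Kind C), n * 1 + (n - 1 - r) + s) = (Kind.neg, n - 1 - r + s + n)
  have : n * 1 + (n - 1 - r) + s = n - 1 - r + s + n := by omega
  rw [this]

theorem blk_barR_cons (P : Palette C) (b : C) (B : List C) :
    barR P (b :: B) = barR P B ++ [P.bar b] := by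
  simp [barR]

theorem blk_barR_append (P : Palette C) (b : C) (B : List C) :
    barR P (B ++ [b]) = P.bar b :: barR P B := by
  simp [barR]

theorem blk_cup (P : Palette C) (B : List C) (k : ℕ) (L s : List C) (hL : L.length = k) :
    Path P ((B.zipIdx k).map fun c => (Kind.cup c.1, c.2)) (L ++ s)
      (L ++ (B ++ (barR P B ++ s))) := by
  induction B generalizing k L s with
  | nil => exact Path.nil _
  | cons b B ih =>
    rw [List.zipIdx_cons, List.map_cons]
    have h1 : Step P (.cup b) k (L ++ s) (L ++ (b :: P.bar b :: s)) := by
      have := (Step.cup (P := P) b s).left L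
      rw [Nat.zero_add, hL] at this
      exact this
    have h2 := ih (k + 1) (L ++ [b]) (P.bar b :: s) (by simp [hL])
    rw [List.append_assoc, List.append_assoc, List.singleton_append, List.singleton_append] at h2
    have h3 : b :: (B ++ (barR P B ++ P.bar b :: s)) = b :: B ++ (barR P (b :: B) ++ s) := by
      rw [blk_barR_cons, List.append_assoc, List.singleton_append, List.cons_append]
    rw [h3] at h2
    exact Path.cons h1 h2

theorem blk_gridCup (n : ℕ) (B : List C) :
    gridCup n 1 B = (B.zipIdx n).map fun c => (Kind.cup c.1, c.2) := by
  have h : ∀ (B : List C) (j : ℕ), (B.zipIdx j).map (fun c => ((Kind.cup c.1 : Kind C), n * 1 + c.2)) =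
      (B.zipIdx (n + j)).map fun c => (Kind.cup c.1, c.2) := by
    intro B
    induction B with
    | nil => intro j; rfl
    | cons b B ih =>
      intro j
      rw [List.zipIdx_cons, List.zipIdx_cons, List.map_cons, List.map_cons, ih (j + 1)]
      have h1 : n * 1 + j = n + j := by omega
      show ((Kind.cup b : Kind C), n * 1 + j) :: _ = ((Kind.cup b : Kind C), n + j) :: _
      rw [h1, Nat.add_assoc]
  exact h B 0

theorem blk_gridCap_succ (n : ℕ) :
    (gridCap (n + 1) 0 : Word C) = (.cap, n) :: gridCap n 0 := by
  rw [gridCap, blk_range_succ, List.map_cons, List.map_map]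
  have h1 : (n + 1) * 0 + (n + 1 - 1 - 0) = n := by omega
  rw [h1, gridCap]
  refine congrArg (List.cons ((Kind.cap : Kind C), n)) ?_
  refine congrArg (fun f => List.map f (List.range n)) ?_
  funext r
  show ((Kind.cap : Kind C), (n + 1) * 0 + (n + 1 - 1 - Nat.succ r)) =
    (Kind.cap, n * 0 + (n - 1 - r))
  have : (n + 1) * 0 + (n + 1 - 1 - Nat.succ r) = n * 0 + (n - 1 - r) := by
    simp only [Nat.mul_zero, Nat.zero_add, Nat.succ_eq_add_one]
    omega
  rw [this]

theorem blk_cap_iff (P : Palette C) (B S r t : List C) (hS : S.length = B.length) :
    Path P (gridCap B.length 0) (B ++ (S ++ r)) t ↔ S = barR P B ∧ t = r := by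
  induction B using List.reverseRecOn generalizing S with
  | nil =>
    have h1 : S = [] := List.length_eq_zero_iff.1 hS
    subst h1
    show Path P [] r t ↔ _
    rw [path_nil_iff]
    exact ⟨fun h => ⟨rfl, h.symm⟩, fun h => h.2.symm⟩
  | append_singleton B b ih =>
    rw [List.length_append, List.length_singleton] at hS
    obtain ⟨c, S, rfl⟩ : ∃ c S', S = c :: S' := by
      cases S with
      | nil => simp at hS
      | cons c S => exact ⟨c, S, rfl⟩
    have hS' : S.length = B.length := by
      rw [List.length_cons] at hS
      omega
    rw [List.length_append, List.length_singleton, blk_gridCap_succ, path_cons_iff,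
      blk_barR_append, List.append_assoc, List.singleton_append, List.cons_append]
    constructor
    · rintro ⟨t1, h1, h2⟩
      have h1' : Step P .cap (0 + B.length) (B ++ b :: c :: (S ++ r)) t1 := by
        rw [Nat.zero_add]
        exact h1
      obtain ⟨l, s', t', hl, e1, rfl, h3⟩ := step_add_iff.1 h1'
      obtain ⟨rfl, rfl⟩ := List.append_inj e1 hl.symm
      obtain ⟨d, e2⟩ := step_cap.1 h3
      injection e2 with e3 e4
      injection e4 with e5 e6
      subst e3
      subst e6
      obtain ⟨h4, h5⟩ := (ih S hS').1 h2
      exact ⟨by rw [e5, h4], h5⟩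
    · rintro ⟨h1, rfl⟩
      injection h1 with h2 h3
      refine ⟨B ++ (S ++ t), ?_, (ih S hS').2 ⟨h3, rfl⟩⟩
      have h4 := (Step.cap (P := P) b (S ++ t)).left B
      rw [Nat.zero_add] at h4
      rw [h2]
      exact h4

theorem blk_length_actA (P : Palette C) (A B : List C) : (actA P A B).length = A.length := by
  simp [actA]

theorem blk_length_barR (P : Palette C) (B : List C) : (barR P B).length = B.length := by
  simp [barR]

/-- Remove a known beginning. -/
theorem blk_cut {P : Palette C} {u v : Word C} {s s' t : List C} (h : Path P u s s') :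
    Path P (u ++ v) s t ↔ Path P v s' t := by
  rw [path_append_iff]
  constructor
  · rintro ⟨s1, h1, h2⟩
    cases h.det h1
    exact h2
  · exact fun h1 => ⟨s', h, h1⟩

theorem blk_gridP0 (P : Palette C) {n : ℕ} {A B : List C} (hA : A.length = n) (hB : B.length = n)
    (r : List C) : Path P (gridP n 0) (A ++ (B ++ r)) (actA P B (barR P A) ++ (A ++ r)) := by
  have h := (blk_gridP_path P A B).right r
  rw [hA, hB, ← blk_gridP_zero, List.append_assoc, List.append_assoc] at h
  exact h

theorem blk_gridN1 (P : Palette C) {n : ℕ} {L A B : List C} (hL : L.length = n)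
    (hA : A.length = n) (hB : B.length = n) (r : List C) :
    Path P (gridN n 1) (L ++ (A ++ (B ++ r))) (L ++ (B ++ (actA P A B ++ r))) := by
  have h := ((blk_gridN_path P A B).right r).left L
  rw [hL, hA, hB, ← blk_gridN_one, List.append_assoc, List.append_assoc] at h
  exact h

theorem blkL_path_iff {P : Palette C} {n : ℕ} {S B r t : List C} (hS : S.length = n)
    (hB : B.length = n) :
    Path P (blkL n B) (S ++ r) t ↔ blkRel P S B ∧ t = blkOut P S B ++ r := by
  have l1 : (barR P B).length = n := by rw [blk_length_barR, hB]
  have l2 : (actA P B (barR P S)).length = n := by rw [blk_length_actA, hB]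
  have l3 : (actA P (barR P B) (barR P (actA P B (barR P S)))).length = n := by
    rw [blk_length_actA, l1]
  have l4 : (actA P S (barR P B)).length = n := by rw [blk_length_actA, hS]
  have h0 : Path P (gridCup n 1 B) (S ++ r) (S ++ (B ++ (barR P B ++ r))) := by
    rw [blk_gridCup]
    exact blk_cup P B n S r hS
  have h1 := blk_gridP0 P hS hB (barR P B ++ r)
  have h2 := blk_gridN1 P l2 hS l1 r
  have h3 := blk_gridP0 P l2 l1 (actA P S (barR P B) ++ r)
  have h4 := blk_gridN1 P l3 l2 l4 r
  rw [blkL, blk_cut h0, blk_cut h1, blk_cut h2, blk_cut h3, blk_cut h4]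
  have h5 := blk_cap_iff P (actA P (barR P B) (barR P (actA P B (barR P S))))
    (actA P S (barR P B)) (actA P (actA P B (barR P S)) (actA P S (barR P B)) ++ r) t
    (by rw [l3, l4])
  rw [l3] at h5
  exact h5

end Pool.Agent.Lib.MP_decac5_gt
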