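import Pool.Agent.Lib.MP_decac5_gt.Base2

/-!
# The fifth power of the bracket at `A = 2` modulo `11` is an invariant
-/

set_option autoImplicit false

namespace Pool.Agent.Lib.MP_decac5_gt

open Pool.Agent.Lib.MP_131179_gt

private theorem brk_op0_smul (k : Kind Unit) (c : ZMod 11) (f : List Bool → ZMod 11)
    (l : List Bool) : op0 k (fun m => c * f m) l = c * op0 k f l := by
  rcases k with _ | _ | _ | _
  · rcases l with _ | ⟨a, _ | ⟨b, l⟩⟩
    · simp [op0]
    · simp [op0]
    · simp only [op0]; ring
  · simp only [op0, capS]; ring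
  · rcases l with _ | ⟨a, _ | ⟨b, l⟩⟩
    · simp [op0]
    · simp [op0]
    · simp only [op0, capS]; ring
  · rcases l with _ | ⟨a, _ | ⟨b, l⟩⟩
    · simp [op0]
    · simp [op0]
    · simp only [op0, capS]; ring

private theorem brk_op0_add (k : Kind Unit) (f g : List Bool → ZMod 11)
    (l : List Bool) : op0 k (fun m => f m + g m) l = op0 k f l + op0 k g l := by
  rcases k with _ | _ | _ | _
  · rcases l with _ | ⟨a, _ | ⟨b, l⟩⟩
    · simp [op0]
    · simp [op0]
    · simp only [op0]; ring
  · simp only [op0, capS]; ring
  · rcases l with _ | ⟨a, _ | ⟨b, l⟩⟩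
    · simp [op0]
    · simp [op0]
    · simp only [op0, capS]; ring
  · rcases l with _ | ⟨a, _ | ⟨b, l⟩⟩
    · simp [op0]
    · simp [op0]
    · simp only [op0, capS]; ring

private theorem brk_opL_smul (k : Kind Unit) (i : ℕ) (c : ZMod 11) :
    ∀ (f : List Bool → ZMod 11) (l : List Bool),
      opL k i (fun m => c * f m) l = c * opL k i f l := by
  induction i with
  | zero => intro f l; exact brk_op0_smul k c f l
  | succ i ih =>
    intro f l
    rcases l with _ | ⟨a, l⟩
    · simp [opL]
    · exact ih (fun m => f (a :: m)) l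

private theorem brk_opL_add (k : Kind Unit) (i : ℕ) :
    ∀ (f g : List Bool → ZMod 11) (l : List Bool),
      opL k i (fun m => f m + g m) l = opL k i f l + opL k i g l := by
  induction i with
  | zero => intro f g l; exact brk_op0_add k f g l
  | succ i ih =>
    intro f g l
    rcases l with _ | ⟨a, l⟩
    · simp [opL]
    · exact ih (fun m => f (a :: m)) (fun m => g (a :: m)) l

private theorem brk_opW_cons (k : Kind Unit) (i : ℕ) (w : Word Unit)
    (f : List Bool → ZMod 11) : opW ((k, i) :: w) f = opW w (opL k i f) := rfl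

private theorem brk_opW_append (u v : Word Unit) (f : List Bool → ZMod 11) :
    opW (u ++ v) f = opW v (opW u f) := by
  unfold opW
  rw [List.foldl_append]

private theorem brk_opW_smul (w : Word Unit) (c : ZMod 11) :
    ∀ (f : List Bool → ZMod 11) (l : List Bool),
      opW w (fun m => c * f m) l = c * opW w f l := by
  induction w with
  | nil => intro f l; rfl
  | cons x w ih =>
    intro f l
    obtain ⟨k, i⟩ := x
    rw [brk_opW_cons, brk_opW_cons]
    have h : opL k i (fun m => c * f m) = fun m => c * opL k i f m := by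
      funext m
      exact brk_opL_smul k i c f m
    rw [h]
    exact ih _ l

/-- The far commutation. -/
private theorem brk_far (k l : Kind Unit) (g : ℕ) (f : List Bool → ZMod 11) (x : List Bool) :
    opL l (k.out + g) (op0 k f) x = op0 k (opL l (k.inn + g) f) x := by
  rcases k with _ | _ | _ | _
  · have e : (Kind.cup () : Kind Unit).out + g = g + 1 + 1 := by simp [Kind.out]; omega
    have e' : (Kind.cup () : Kind Unit).inn + g = g := by simp [Kind.inn]
    rcases x with _ | ⟨a, _ | ⟨b, x⟩⟩
    · rw [e]; simp [op0, opL]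
    · rw [e]; simp [op0, opL]
    · rw [e, e']
      simp only [opL, op0]
      exact brk_opL_smul l g (cupV a b) f x
  · have e : (Kind.cap : Kind Unit).out + g = g := by simp [Kind.out]
    have e' : (Kind.cap : Kind Unit).inn + g = g + 1 + 1 := by simp [Kind.inn]; omega
    rw [e, e']
    simp only [op0, capS, opL]
    have h : (fun m => capV false true * f (false :: true :: m) +
        capV true false * f (true :: false :: m)) = op0 (.cap) f := rfl
    have h2 := brk_opL_add l g (fun m => capV false true * f (false :: true :: m))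
      (fun m => capV true false * f (true :: false :: m)) x
    rw [brk_opL_smul l g (capV false true) (fun m => f (false :: true :: m)) x,
      brk_opL_smul l g (capV true false) (fun m => f (true :: false :: m)) x] at h2
    exact h2
  · have e : (Kind.pos : Kind Unit).out + g = g + 1 + 1 := by simp [Kind.out]; omega
    have e' : (Kind.pos : Kind Unit).inn + g = g + 1 + 1 := by simp [Kind.inn]; omega
    rcases x with _ | ⟨a, _ | ⟨b, x⟩⟩
    · rw [e]; simp [op0, opL]
    · rw [e]; simp [op0, opL]
    · rw [e, e']
      simp only [opL, op0, capS]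
      have h1 := brk_opL_add l g (fun m => 2 * f (a :: b :: m))
        (fun m => 6 * (cupV a b * (capV false true * f (false :: true :: m) +
        capV true false * f (true :: false :: m)))) x
      rw [brk_opL_smul l g 2 (fun m => f (a :: b :: m)) x,
        brk_opL_smul l g 6 (fun m => cupV a b * (capV false true * f (false :: true :: m) +
        capV true false * f (true :: false :: m))) x,
        brk_opL_smul l g (cupV a b) (fun m => capV false true * f (false :: true :: m) +
        capV true false * f (true :: false :: m)) x,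
        brk_opL_add l g (fun m => capV false true * f (false :: true :: m))
          (fun m => capV true false * f (true :: false :: m)) x,
        brk_opL_smul l g (capV false true) (fun m => f (false :: true :: m)) x,
        brk_opL_smul l g (capV true false) (fun m => f (true :: false :: m)) x] at h1
      exact h1
  · have e : (Kind.neg : Kind Unit).out + g = g + 1 + 1 := by simp [Kind.out]; omega
    have e' : (Kind.neg : Kind Unit).inn + g = g + 1 + 1 := by simp [Kind.inn]; omega
    rcases x with _ | ⟨a, _ | ⟨b, x⟩⟩
    · rw [e]; simp [op0, opL]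
    · rw [e]; simp [op0, opL]
    · rw [e, e']
      simp only [opL, op0, capS]
      have h1 := brk_opL_add l g (fun m => 6 * f (a :: b :: m))
        (fun m => 2 * (cupV a b * (capV false true * f (false :: true :: m) +
        capV true false * f (true :: false :: m)))) x
      rw [brk_opL_smul l g 6 (fun m => f (a :: b :: m)) x,
        brk_opL_smul l g 2 (fun m => cupV a b * (capV false true * f (false :: true :: m) +
        capV true false * f (true :: false :: m))) x,
        brk_opL_smul l g (cupV a b) (fun m => capV false true * f (false :: true :: m) +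
        capV true false * f (true :: false :: m)) x,
        brk_opL_add l g (fun m => capV false true * f (false :: true :: m))
          (fun m => capV true false * f (true :: false :: m)) x,
        brk_opL_smul l g (capV false true) (fun m => f (false :: true :: m)) x,
        brk_opL_smul l g (capV true false) (fun m => f (true :: false :: m)) x] at h1
      exact h1


private theorem brk_step_len {k : Kind Unit} {i : ℕ} {s t : List Unit}
    (h : Step (triv Unit) k i s t) :
    i + k.inn ≤ s.length ∧ i + k.out ≤ t.length ∧ t.length + k.inn = s.length + k.out := by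
  induction h with
  | cup c s => simp [Kind.inn, Kind.out]
  | cap c s => simp [Kind.inn, Kind.out]
  | pos a b s => simp [Kind.inn, Kind.out]
  | neg a b s => simp [Kind.inn, Kind.out]
  | there a _ ih =>
    obtain ⟨h1, h2, h3⟩ := ih
    simp only [List.length_cons]
    omega

private theorem brk_len2 {k l : Kind Unit} {i j n : ℕ} {s t : List Unit}
    (h : Path (triv Unit) (shift n [(k, i), (l, j)]) s t) :
    ∃ m : ℕ, n + i + k.inn ≤ s.length ∧ n + i + k.out ≤ m ∧ m + k.inn = s.length + k.out ∧
      n + j + l.inn ≤ m ∧ n + j + l.out ≤ t.length ∧ t.length + l.inn = m + l.out := by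
  rw [shift_cons, shift_cons, shift_nil, path_cons_iff] at h
  obtain ⟨r, h1, h2⟩ := h
  rw [path_cons_iff] at h2
  obtain ⟨r', h3, h4⟩ := h2
  rw [path_nil_iff] at h4
  subst h4
  have h5 := brk_step_len h1
  have h6 := brk_step_len h3
  refine ⟨r.length, ?_⟩
  omega

private theorem brk_zig (f : List Bool → ZMod 11) (l : List Bool) (h : 1 ≤ l.length) :
    opW [(.cup (), 1), (.cap, 0)] f l = f l := by
  rcases l with _ | ⟨a, l⟩
  · simp at h
  · cases a <;> simp only [opW, List.foldl_cons, List.foldl_nil, opL, op0, capS, cupV, capV] <;>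
      ring_nf <;> reduce_mod_char

private theorem brk_zag (f : List Bool → ZMod 11) (l : List Bool) (h : 1 ≤ l.length) :
    opW [(.cup (), 0), (.cap, 1)] f l = f l := by
  rcases l with _ | ⟨a, l⟩
  · simp at h
  · cases a <;> simp only [opW, List.foldl_cons, List.foldl_nil, opL, op0, capS, cupV, capV] <;>
      ring_nf <;> reduce_mod_char

private theorem brk_r2 (f : List Bool → ZMod 11) (l : List Bool) (h : 2 ≤ l.length) :
    opW [(.pos, 0), (.neg, 0)] f l = f l ∧ opW [(.neg, 0), (.pos, 0)] f l = f l := by
  rcases l with _ | ⟨a, _ | ⟨b, l⟩⟩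
  · simp at h
  · simp at h
  · cases a <;> cases b <;>
      simp only [opW, List.foldl_cons, List.foldl_nil, opL, op0, capS, cupV, capV] <;>
      constructor <;> ring_nf <;> reduce_mod_char

private theorem brk_r1cup (f : List Bool → ZMod 11) (l : List Bool) :
    opW [(.cup (), 0), (.pos, 0)] f l = 4 * opW [(.cup (), 0)] f l ∧
      opW [(.cup (), 0), (.neg, 0)] f l = 3 * opW [(.cup (), 0)] f l := by
  rcases l with _ | ⟨a, _ | ⟨b, l⟩⟩
  · simp [opW, opL, op0]
  · simp [opW, opL, op0]
  · cases a <;> cases b <;>
      simp only [opW, List.foldl_cons, List.foldl_nil, opL, op0, capS, cupV, capV] <;>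
      constructor <;> ring_nf <;> reduce_mod_char

private theorem brk_r1cap (f : List Bool → ZMod 11) (l : List Bool) :
    opW [(.pos, 0), (.cap, 0)] f l = 4 * opW [(.cap, 0)] f l ∧
      opW [(.neg, 0), (.cap, 0)] f l = 3 * opW [(.cap, 0)] f l := by
  simp only [opW, List.foldl_cons, List.foldl_nil, opL, op0, capS, cupV, capV]
  constructor <;> ring_nf <;> reduce_mod_char

private theorem brk_cup (f : List Bool → ZMod 11) (l : List Bool) :
    opW [(.cup (), 1), (.pos, 0)] f l = opW [(.cup (), 0), (.neg, 1)] f l ∧
      opW [(.cup (), 1), (.neg, 0)] f l = opW [(.cup (), 0), (.pos, 1)] f l := by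
  rcases l with _ | ⟨a, _ | ⟨b, _ | ⟨c, l⟩⟩⟩
  · simp [opW, opL, op0]
  · simp [opW, opL, op0]
  · simp [opW, opL, op0, capS]
  · cases a <;> cases b <;> cases c <;>
      simp only [opW, List.foldl_cons, List.foldl_nil, opL, op0, capS, cupV, capV] <;>
      constructor <;> ring_nf <;> reduce_mod_char

private theorem brk_cap (f : List Bool → ZMod 11) (l : List Bool) :
    opW [(.pos, 0), (.cap, 1)] f l = opW [(.neg, 1), (.cap, 0)] f l ∧
      opW [(.neg, 0), (.cap, 1)] f l = opW [(.pos, 1), (.cap, 0)] f l := by
  rcases l with _ | ⟨a, l⟩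
  · simp [opW, opL, op0, capS]
  · cases a <;>
      simp only [opW, List.foldl_cons, List.foldl_nil, opL, op0, capS, cupV, capV] <;>
      constructor <;> ring_nf <;> reduce_mod_char

private theorem brk_r3 (f : List Bool → ZMod 11) (l : List Bool) :
    opW [(.pos, 0), (.pos, 1), (.pos, 0)] f l = opW [(.pos, 1), (.pos, 0), (.pos, 1)] f l := by
  rcases l with _ | ⟨a, _ | ⟨b, _ | ⟨c, l⟩⟩⟩
  · simp [opW, opL, op0]
  · simp [opW, opL, op0]
  · simp [opW, opL, op0, capS]
  · cases a <;> cases b <;> cases c <;>
      simp only [opW, List.foldl_cons, List.foldl_nil, opL, op0, capS, cupV, capV] <;>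
      ring_nf <;> reduce_mod_char

/-- The moves at position `0`. -/
private theorem brk_base {u v : Word Unit} (h : Base u v) :
    ∃ c : ZMod 11, c ^ 5 = 1 ∧ ∃ n : ℕ, (∀ (f : List Bool → ZMod 11) (l : List Bool),
      n ≤ l.length → opW u f l = c * opW v f l) ∧
      ∀ (i : ℕ) (s t : List Unit), Path (triv Unit) (shift i u) s t → i + n ≤ t.length := by
  have h4 : (4 : ZMod 11) ^ 5 = 1 := by decide
  have h3 : (3 : ZMod 11) ^ 5 = 1 := by decide
  cases h with
  | far k l g =>
    refine ⟨1, one_pow 5, 0, fun f x _ => ?_, fun i s t hp => ?_⟩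
    · rw [one_mul]
      exact brk_far k l g f x
    · obtain ⟨m, h⟩ := brk_len2 hp
      omega
  | zig c =>
    refine ⟨1, one_pow 5, 1, fun f x hx => ?_, fun i s t hp => ?_⟩
    · rw [one_mul]
      exact brk_zig f x hx
    · obtain ⟨m, h⟩ := brk_len2 hp
      simp only [Kind.inn, Kind.out] at h
      omega
  | zag c =>
    refine ⟨1, one_pow 5, 1, fun f x hx => ?_, fun i s t hp => ?_⟩
    · rw [one_mul]
      exact brk_zag f x hx
    · obtain ⟨m, h⟩ := brk_len2 hp
      simp only [Kind.inn, Kind.out] at h
      omega
  | cupOver c d =>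
    refine ⟨1, one_pow 5, 0, fun f x _ => ?_, fun i s t hp => ?_⟩
    · rw [one_mul]
      exact (brk_cup f x).1
    · obtain ⟨m, h⟩ := brk_len2 hp
      omega
  | cupUnder c d =>
    refine ⟨1, one_pow 5, 0, fun f x _ => ?_, fun i s t hp => ?_⟩
    · rw [one_mul]
      exact (brk_cup f x).2
    · obtain ⟨m, h⟩ := brk_len2 hp
      omega
  | capOver =>
    refine ⟨1, one_pow 5, 0, fun f x _ => ?_, fun i s t hp => ?_⟩
    · rw [one_mul]
      exact (brk_cap f x).1
    · obtain ⟨m, h⟩ := brk_len2 hp
      omega
  | capUnder =>
    refine ⟨1, one_pow 5, 0, fun f x _ => ?_, fun i s t hp => ?_⟩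
    · rw [one_mul]
      exact (brk_cap f x).2
    · obtain ⟨m, h⟩ := brk_len2 hp
      omega
  | r1CupPos c d =>
    refine ⟨4, h4, 0, fun f x _ => (brk_r1cup f x).1, fun i s t hp => ?_⟩
    obtain ⟨m, h⟩ := brk_len2 hp
    omega
  | r1CupNeg c d =>
    refine ⟨3, h3, 0, fun f x _ => (brk_r1cup f x).2, fun i s t hp => ?_⟩
    obtain ⟨m, h⟩ := brk_len2 hp
    omega
  | r1CapPos =>
    refine ⟨4, h4, 0, fun f x _ => (brk_r1cap f x).1, fun i s t hp => ?_⟩
    obtain ⟨m, h⟩ := brk_len2 hp
    omega
  | r1CapNeg =>
    refine ⟨3, h3, 0, fun f x _ => (brk_r1cap f x).2, fun i s t hp => ?_⟩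
    obtain ⟨m, h⟩ := brk_len2 hp
    omega
  | r2PosNeg =>
    refine ⟨1, one_pow 5, 2, fun f x hx => ?_, fun i s t hp => ?_⟩
    · rw [one_mul]
      exact (brk_r2 f x hx).1
    · obtain ⟨m, h⟩ := brk_len2 hp
      simp only [Kind.inn, Kind.out] at h
      omega
  | r2NegPos =>
    refine ⟨1, one_pow 5, 2, fun f x hx => ?_, fun i s t hp => ?_⟩
    · rw [one_mul]
      exact (brk_r2 f x hx).2
    · obtain ⟨m, h⟩ := brk_len2 hp
      simp only [Kind.inn, Kind.out] at h
      omega
  | r3 =>
    refine ⟨1, one_pow 5, 0, fun f x _ => ?_, fun i s t hp => ?_⟩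
    · rw [one_mul]
      exact brk_r3 f x
    · rw [shift_cons, path_cons_iff] at hp
      obtain ⟨r, h1, h2⟩ := hp
      obtain ⟨m, h⟩ := brk_len2 h2
      omega

private theorem brk_shift_succ (w : Word Unit) (i : ℕ) (a : Bool) :
    ∀ (f : List Bool → ZMod 11) (l : List Bool),
      opW (shift (i + 1) w) f (a :: l) = opW (shift i w) (fun m => f (a :: m)) l := by
  induction w with
  | nil => intro f l; rfl
  | cons x w ih =>
    intro f l
    obtain ⟨k, j⟩ := x
    rw [shift_cons, shift_cons, brk_opW_cons, brk_opW_cons, ih]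
    have e : j + (i + 1) = (j + i) + 1 := by omega
    rw [e]
    rfl

private theorem brk_shift {u v : Word Unit} {c : ZMod 11} {n : ℕ}
    (h : ∀ (f : List Bool → ZMod 11) (l : List Bool), n ≤ l.length → opW u f l = c * opW v f l)
    (i : ℕ) : ∀ (f : List Bool → ZMod 11) (l : List Bool), i + n ≤ l.length →
      opW (shift i u) f l = c * opW (shift i v) f l := by
  induction i with
  | zero =>
    intro f l hl
    rw [shift_zero, shift_zero]
    exact h f l (by omega)
  | succ i ih =>
    intro f l hl
    rcases l with _ | ⟨a, l⟩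
    · simp at hl
    · rw [brk_shift_succ, brk_shift_succ]
      refine ih _ _ ?_
      simp only [List.length_cons] at hl
      omega

private theorem brk_step_local {k : Kind Unit} {i : ℕ} {s t : List Unit}
    (h : Step (triv Unit) k i s t) : ∀ (f g : List Bool → ZMod 11),
      (∀ m : List Bool, m.length = s.length → f m = g m) →
      ∀ l : List Bool, l.length = t.length → opL k i f l = opL k i g l := by
  induction h with
  | cup c s =>
    intro f g hfg l hl
    rcases l with _ | ⟨a, _ | ⟨b, l⟩⟩
    · simp at hl
    · simp at hl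
    · simp only [List.length_cons] at hl
      simp only [opL, op0]
      rw [hfg l (by omega)]
  | cap c s =>
    intro f g hfg l hl
    simp only [opL, op0, capS]
    rw [hfg (false :: true :: l) (by simp only [List.length_cons]; omega),
      hfg (true :: false :: l) (by simp only [List.length_cons]; omega)]
  | pos a b s =>
    intro f g hfg l hl
    rcases l with _ | ⟨a, _ | ⟨b, l⟩⟩
    · simp at hl
    · simp at hl
    · simp only [List.length_cons] at hl
      simp only [opL, op0, capS]
      rw [hfg (a :: b :: l) (by simp only [List.length_cons]; omega),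
        hfg (false :: true :: l) (by simp only [List.length_cons]; omega),
        hfg (true :: false :: l) (by simp only [List.length_cons]; omega)]
  | neg a b s =>
    intro f g hfg l hl
    rcases l with _ | ⟨a, _ | ⟨b, l⟩⟩
    · simp at hl
    · simp at hl
    · simp only [List.length_cons] at hl
      simp only [opL, op0, capS]
      rw [hfg (a :: b :: l) (by simp only [List.length_cons]; omega),
        hfg (false :: true :: l) (by simp only [List.length_cons]; omega),
        hfg (true :: false :: l) (by simp only [List.length_cons]; omega)]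
  | there a _ ih =>
    intro f g hfg l hl
    rcases l with _ | ⟨b, l⟩
    · simp at hl
    · simp only [List.length_cons] at hl
      exact ih (fun m => f (b :: m)) (fun m => g (b :: m))
        (fun m hm => hfg (b :: m) (by simp only [List.length_cons]; omega)) l (by omega)

private theorem brk_path_local {w : Word Unit} {s t : List Unit}
    (h : Path (triv Unit) w s t) : ∀ (f g : List Bool → ZMod 11),
      (∀ m : List Bool, m.length = s.length → f m = g m) →
      ∀ l : List Bool, l.length = t.length → opW w f l = opW w g l := by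
  induction h with
  | nil s => intro f g hfg l hl; exact hfg l hl
  | cons hs _ ih =>
    intro f g hfg l hl
    rw [brk_opW_cons, brk_opW_cons]
    exact ih _ _ (brk_step_local hs f g hfg) l hl

private theorem brk_eqv {u v : Word Unit} {s t : List Unit} (h : Eqv (triv Unit) u v s t) :
    ∃ c : ZMod 11, c ^ 5 = 1 ∧ ∀ (f : List Bool → ZMod 11) (l : List Bool),
      l.length = t.length → opW u f l = c * opW v f l := by
  induction h with
  | refl _ => exact ⟨1, one_pow 5, fun f l _ => (one_mul _).symm⟩
  | move i hb h1 _ =>
    obtain ⟨c, hc, n, hn, hlen⟩ := brk_base hb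
    refine ⟨c, hc, fun f l hl => brk_shift hn i f l ?_⟩
    have h2 := hlen _ _ _ h1
    omega
  | symm _ ih =>
    obtain ⟨c, hc, h1⟩ := ih
    have hc0 : c ≠ 0 := by
      rintro rfl
      exact absurd hc (by decide)
    haveI : Fact (Nat.Prime 11) := ⟨by norm_num⟩
    refine ⟨c⁻¹, by rw [inv_pow, hc, inv_one], fun f l hl => ?_⟩
    rw [h1 f l hl, ← mul_assoc, inv_mul_cancel₀ hc0, one_mul]
  | trans _ _ ih1 ih2 =>
    obtain ⟨c, hc, h1⟩ := ih1
    obtain ⟨d, hd, h2⟩ := ih2
    refine ⟨c * d, by rw [mul_pow, hc, hd, one_mul], fun f l hl => ?_⟩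
    rw [h1 f l hl, h2 f l hl, mul_assoc]
  | comp h1 h2 ih1 ih2 =>
    obtain ⟨c, hc, e1⟩ := ih1
    obtain ⟨d, hd, e2⟩ := ih2
    refine ⟨c * d, by rw [mul_pow, hc, hd, one_mul], fun f l hl => ?_⟩
    rw [brk_opW_append, brk_opW_append, brk_path_local h2.path_left _ _ (e1 f) l hl,
      brk_opW_smul, e2 _ l hl, mul_assoc]

/-- The fifth power of the bracket is an invariant of links. -/
theorem bra_pow_eq {u v : Word Unit} (h : Eqv (triv Unit) u v [] []) : bra u ^ 5 = bra v ^ 5 := by
  obtain ⟨c, hc, h1⟩ := brk_eqv h
  unfold bra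
  rw [h1 _ [] rfl, mul_pow, hc, one_mul]

end Pool.Agent.Lib.MP_decac5_gt
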