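import Pool.Agent.Lib.MP_decac5_gt.Base2

/-!
# The bracket of the diagram, by evaluation on binary trees
-/

set_option autoImplicit false

namespace Pool.Agent.Lib.MP_decac5_gt

open Pool.Agent.Lib.MP_131179_gt

/-- Functions on lists of booleans with finite support, as binary trees. -/
inductive BT : Type
  | z
  | nd (v : ℕ) (l r : BT)

namespace BT

/-- The function given by a tree. -/
def ev : BT → List Bool → ZMod 11
  | z, _ => 0
  | nd v _ _, [] => (v : ZMod 11)
  | nd _ l _, false :: t => ev l t
  | nd _ _ r, true :: t => ev r t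

/-- Multiplication with a number. -/
def sm (c : ℕ) : BT → BT
  | z => z
  | nd v l r => nd (c * v % 11) (sm c l) (sm c r)

/-- Linear combinations. -/
def cb (a b : ℕ) : BT → BT → BT
  | z, t => sm b t
  | nd v l r, z => sm a (nd v l r)
  | nd v l r, nd v' l' r' => nd ((a * v + b * v') % 11) (cb a b l l') (cb a b r r')

/-- The left branch. -/
def lft : BT → BT
  | z => z
  | nd _ l _ => l

/-- The right branch. -/
def rgt : BT → BT
  | z => z
  | nd _ _ r => r

/-- The value at the empty list. -/
def val : BT → ℕ
  | z => 0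
  | nd v _ _ => v

/-- A letter at position `0`, applied to a tree with the four given branches. -/
def opb : Kind Unit → BT → BT → BT → BT → BT
  | .cup _, _, _, _, _ => z
  | .cap, _, ft, tf, _ => cb 7 1 ft tf
  | .pos, ff, ft, tf, tt => nd 0 (nd 0 (sm 2 ff) (sm 6 tf)) (nd 0 (cb 6 6 ft tf) (sm 2 tt))
  | .neg, ff, ft, tf, tt => nd 0 (nd 0 (sm 6 ff) (cb 9 2 ft tf)) (nd 0 (sm 2 ft) (sm 6 tt))

/-- A letter at position `0`. -/
def op0T (k : Kind Unit) : BT → BT
  | z => z
  | nd v l r => match k with
    | .cup _ => nd 0 (nd 0 z (nd v l r)) (nd 0 (sm 8 (nd v l r)) z)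
    | k => opb k (lft l) (rgt l) (lft r) (rgt r)

/-- A letter. -/
def opT (k : Kind Unit) : ℕ → BT → BT
  | 0, t => op0T k t
  | _ + 1, z => z
  | i + 1, nd _ l r => nd 0 (opT k i l) (opT k i r)

/-- A word. -/
def opWT : Word Unit → BT → BT
  | [], t => t
  | (k, i) :: w, t => opWT w (opT k i t)

theorem lft_nd (v : ℕ) (l r : BT) : lft (nd v l r) = l := rfl

theorem rgt_nd (v : ℕ) (l r : BT) : rgt (nd v l r) = r := rfl

theorem ev_z (l : List Bool) : ev z l = 0 := by cases l <;> rfl

theorem ev_nil (t : BT) : ev t [] = (val t : ZMod 11) := by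
  cases t
  · simp [ev, val]
  · rfl

theorem ev_false (t : BT) (l : List Bool) : ev t (false :: l) = ev (lft t) l := by
  cases t
  · simp [ev_z, lft]
  · rfl

theorem ev_true (t : BT) (l : List Bool) : ev t (true :: l) = ev (rgt t) l := by
  cases t
  · simp [ev_z, rgt]
  · rfl

theorem ev_sm (c : ℕ) (t : BT) : ∀ l, ev (sm c t) l = c * ev t l := by
  induction t with
  | z => intro l; simp [sm, ev_z]
  | nd v a b iha ihb =>
    intro l
    cases l with
    | nil => simp [sm, ev]
    | cons x l =>
      cases x
      · exact iha l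
      · exact ihb l

theorem ev_cb (a b : ℕ) (s : BT) : ∀ (t : BT) (l : List Bool),
    ev (cb a b s t) l = a * ev s l + b * ev t l := by
  induction s with
  | z => intro t l; simp [cb, ev_z, ev_sm]
  | nd v p q ihp ihq =>
    intro t l
    cases t with
    | z =>
      show ev (sm a (nd v p q)) l = _
      rw [ev_sm, ev_z]
      ring
    | nd v' p' q' =>
      cases l with
      | nil => simp [cb, ev]
      | cons x l =>
        cases x
        · exact ihp p' l
        · exact ihq q' l

theorem op0_zero (k : Kind Unit) (l : List Bool) : op0 k (fun _ => 0) l = 0 := by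
  rcases k with _ | _ | _ | _ <;> rcases l with _ | ⟨a, _ | ⟨b, l⟩⟩ <;> simp [op0, capS]

theorem opL_zero (k : Kind Unit) (i : ℕ) : ∀ l : List Bool, opL k i (fun _ => 0) l = 0 := by
  induction i with
  | zero => intro l; exact op0_zero k l
  | succ i ih =>
    intro l
    cases l with
    | nil => rfl
    | cons a l => exact ih l

theorem ev_op0T (k : Kind Unit) (t : BT) (l : List Bool) : ev (op0T k t) l = op0 k (ev t) l := by
  cases t with
  | z =>
    have h : ev z = fun _ => 0 := funext ev_z
    rw [h, op0_zero]
    exact ev_z l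
  | nd v p q =>
    rcases k with c | _ | _ | _
    · rcases l with _ | ⟨a, _ | ⟨b, l⟩⟩
      · simp [op0T, ev, op0]
      · cases a <;> simp [op0T, ev, op0]
      · cases a <;> cases b <;> simp [op0T, ev_false, ev_true, lft_nd, rgt_nd, ev_z, op0, cupV, ev_sm]
    · simp [op0T, opb, op0, capS, capV, ev_cb, ev_false, ev_true, lft_nd, rgt_nd]
    · rcases l with _ | ⟨a, _ | ⟨b, l⟩⟩
      · simp [op0T, opb, ev, op0]
      · cases a <;> simp [op0T, opb, ev, op0]
      · have h1 : (44 : ZMod 11) = 0 := by decide
        have h2 : (336 : ZMod 11) = 6 := by decide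
        have h3 : (50 : ZMod 11) = 6 := by decide
        cases a <;> cases b <;>
          simp only [op0T, opb, ev_false, ev_true, lft_nd, rgt_nd, op0, cupV, capS, capV, ev_sm,
            ev_cb, Nat.cast_ofNat]
        · ring
        · linear_combination (-ev (rgt p) l) * h1
        · linear_combination (-ev (rgt p) l) * h2 - (ev (lft q) l) * h3
        · ring
    · rcases l with _ | ⟨a, _ | ⟨b, l⟩⟩
      · simp [op0T, opb, ev, op0]
      · cases a <;> simp [op0T, opb, ev, op0]
      · have h1 : (22 : ZMod 11) = 0 := by decide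
        have h2 : (112 : ZMod 11) = 2 := by decide
        have h3 : (20 : ZMod 11) = 9 := by decide
        cases a <;> cases b <;>
          simp only [op0T, opb, ev_false, ev_true, lft_nd, rgt_nd, op0, cupV, capS, capV, ev_sm,
            ev_cb, Nat.cast_ofNat]
        · ring
        · linear_combination (-ev (rgt p) l) * h3
        · linear_combination (-ev (rgt p) l) * h2 - (ev (lft q) l) * h1
        · ring

theorem ev_opT (k : Kind Unit) (i : ℕ) : ∀ (t : BT) (l : List Bool),
    ev (opT k i t) l = opL k i (ev t) l := by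
  induction i with
  | zero => intro t l; exact ev_op0T k t l
  | succ i ih =>
    intro t l
    cases t with
    | z =>
      have h : ev z = fun _ => 0 := funext ev_z
      rw [h, opL_zero]
      exact ev_z l
    | nd v p q =>
      cases l with
      | nil => simp [opT, ev, opL]
      | cons x l =>
        cases x
        · exact ih p l
        · exact ih q l

theorem ev_opWT (w : Word Unit) : ∀ (t : BT), ev (opWT w t) = opW w (ev t) := by
  induction w with
  | nil => intro t; rfl
  | cons x w ih =>
    intro t
    obtain ⟨k, i⟩ := x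
    have h : ev (opT k i t) = opL k i (ev t) := funext (ev_opT k i t)
    show ev (opWT w (opT k i t)) = opW w (opL k i (ev t))
    rw [ih, h]

theorem bra_eq (w : Word Unit) : bra w = (val (opWT w (nd 1 z z)) : ZMod 11) := by
  have h : (fun l : List Bool => if l = [] then (1 : ZMod 11) else 0) = ev (nd 1 z z) := by
    funext l
    rcases l with _ | ⟨x, l⟩
    · simp [ev]
    · cases x <;> simp [ev]
  unfold bra
  rw [h, ← ev_opWT, ev_nil]

theorem val_kW : val (opWT kW (nd 1 z z)) = 5 := by decide +kernel

theorem val_mirror_kW : val (opWT (mirror kW) (nd 1 z z)) = 2 := by decide +kernel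

end BT

theorem bra_kW : bra kW = 5 := by
  rw [BT.bra_eq, BT.val_kW]
  rfl

theorem bra_mirror_kW : bra (mirror kW) = 2 := by
  rw [BT.bra_eq, BT.val_mirror_kW]
  rfl

end Pool.Agent.Lib.MP_decac5_gt
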