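import Pool.Agent.Lib.MP_decac5_gt.CabX

/-!
# Parallels of the moves with minima and maxima
-/

set_option autoImplicit false

namespace Pool.Agent.Lib.MP_decac5_gt

open Pool.Agent.Lib.MP_131179_gt

/-! ### Numbers of strands -/

private theorem cabc_rep {s : List Unit} {n : ℕ} (h : s.length = n) : s = List.replicate n () := by
  subst h
  exact List.eq_replicate_of_mem fun _ _ => rfl

private theorem cabc_cup (i m : ℕ) (h : i ≤ m) :
    Step (triv Unit) (.cup ()) i (List.replicate m ()) (List.replicate (m + 2) ()) := by
  have h1 := (Step.cup (P := triv Unit) () (List.replicate (m - i) ())).left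
    (List.replicate i ())
  rw [List.length_replicate, Nat.zero_add] at h1
  refine h1.cast2 (cabc_rep ?_) (cabc_rep ?_)
  · simp only [List.length_append, List.length_replicate]
    omega
  · simp only [List.length_append, List.length_replicate, List.length_cons]
    omega

private theorem cabc_cap (i m : ℕ) (h : i ≤ m) :
    Step (triv Unit) .cap i (List.replicate (m + 2) ()) (List.replicate m ()) := by
  have h1 := (Step.cap (P := triv Unit) () (List.replicate (m - i) ())).left
    (List.replicate i ())
  rw [List.length_replicate, Nat.zero_add] at h1
  refine h1.cast2 (cabc_rep ?_) (cabc_rep ?_)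
  · simp only [List.length_append, List.length_replicate, List.length_cons]
    omega
  · simp only [List.length_append, List.length_replicate]
    omega

/-! ### Nested minima and maxima -/

/-- `n` nested minima. -/
private def cabcU (n : ℕ) : Word Unit := (List.range n).map fun r => (.cup (), r)

/-- `n` nested maxima. -/
private def cabcV (n : ℕ) : Word Unit := (List.range n).map fun r => (.cap, n - 1 - r)

private theorem cabcU_path (n : ℕ) :
    Path (triv Unit) (cabcU n) [] (List.replicate (n + n) ()) := by
  induction n with
  | zero => exact Path.nil _
  | succ n ih =>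
    rw [cabcU, List.range_succ, List.map_append]
    refine Path.append ih (path_single_iff.2 ?_)
    exact (cabc_cup n (n + n) (by omega)).cast2 rfl (cabc_rep (by
      rw [List.length_replicate]
      omega))

private theorem cabcV_succ (n : ℕ) : cabcV (n + 1) = (.cap, n) :: cabcV n := by
  rw [cabcV, cabcV, List.range_succ_eq_map, List.map_cons, List.map_map]
  refine congrArg₂ List.cons rfl (List.map_congr_left fun r _ => ?_)
  simp only [Function.comp_apply, Prod.mk.injEq, true_and]
  omega

private theorem cabcU_succ (n : ℕ) : cabcU (n + 1) = (.cup (), 0) :: shift 1 (cabcU n) := by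
  rw [cabcU, cabcU, List.range_succ_eq_map, List.map_cons, List.map_map, shift, List.map_map]
  rfl

private theorem cabcV_path (n : ℕ) :
    Path (triv Unit) (cabcV n) (List.replicate (n + n) ()) [] := by
  induction n with
  | zero => exact Path.nil _
  | succ n ih =>
    rw [cabcV_succ]
    refine Path.cons ?_ ih
    exact (cabc_cap n (n + n) (by omega)).cast2 (cabc_rep (by
      rw [List.length_replicate]
      omega)) rfl

private theorem cabc_cableU (n i : ℕ) : cableL n (.cup (), i) = shift (n * i) (cabcU n) := by
  rw [cabcU, shift, List.map_map]
  show ((List.range n).map fun r => ((.cup () : Kind Unit), n * i + r)) = _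
  refine List.map_congr_left fun r _ => ?_
  simp only [Function.comp_apply, Prod.mk.injEq, true_and]
  omega

private theorem cabc_cableV (n i : ℕ) : cableL n (.cap, i) = shift (n * i) (cabcV n) := by
  rw [cabcV, shift, List.map_map]
  show ((List.range n).map fun r => ((.cap : Kind Unit), n * i + (n - 1 - r))) = _
  refine List.map_congr_left fun r _ => ?_
  simp only [Function.comp_apply, Prod.mk.injEq, true_and]
  omega

private theorem cabcU_mirror (n : ℕ) : mirror (cabcU n) = cabcU n := by
  rw [mirror, cabcU, List.map_map]
  rfl

private theorem cabcV_mirror (n : ℕ) : mirror (cabcV n) = cabcV n := by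
  rw [mirror, cabcV, List.map_map]
  rfl

/-! ### A maximum and a minimum cancel -/

private theorem cabc_zig (n : ℕ) : Eqv (triv Unit) (shift n (cabcU n) ++ cabcV n) []
    (List.replicate n ()) (List.replicate n ()) := by
  induction n with
  | zero => exact Eqv.refl (Path.nil _)
  | succ n ih =>
    have hc : Step (triv Unit) .cap n (List.replicate (n + 2) ()) (List.replicate n ()) :=
      cabc_cap n n le_rfl
    have e1 := (interchange_one hc ((cabcU_path n).right [()])).symm
    rw [List.length_replicate, List.length_replicate] at e1
    have s1 : List.replicate (n + 2) () ++ ([] ++ [()]) = List.replicate (n + 1 + 2) () :=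
      cabc_rep (by
      simp only [List.length_append, List.length_replicate, List.length_cons, List.length_nil])
    have s2 : List.replicate n () ++ (List.replicate (n + n) () ++ [()]) =
        List.replicate (n + n) () ++ List.replicate (n + 1) () := by
      rw [cabc_rep (s := List.replicate n () ++ (List.replicate (n + n) () ++ [()]))
        (n := n + n + (n + 1)) (by
      simp only [List.length_append, List.length_replicate, List.length_cons, List.length_nil]
      omega), List.replicate_add]
    have p1 : Path (triv Unit) [(.cup (), n + 1)] (List.replicate (n + 1) ())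
        (List.replicate (n + 1 + 2) ()) := path_single_iff.2 (cabc_cup (n + 1) (n + 1) le_rfl)
    have p2 : Path (triv Unit) (cabcV n) (List.replicate (n + n) () ++ List.replicate (n + 1) ())
        (List.replicate (n + 1) ()) := (cabcV_path n).right (List.replicate (n + 1) ())
    have e2 := Eqv.context p1 (e1.cast rfl rfl s1 s2) p2
    have p3 : Path (triv Unit) [(.cap, n)] (List.replicate (n + 1 + 2) ())
        (List.replicate (n + 1) ()) := path_single_iff.2 (cabc_cap n (n + 1) (by omega))
    have e3 : Eqv (triv Unit) [(.cup (), 1 + n), (.cap, 0 + n)] [] (List.replicate (n + 1) ())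
        (List.replicate (n + 1) ()) := by
      have h1 : 1 + n = n + 1 := Nat.add_comm _ _
      have h2 : 0 + n = n := Nat.zero_add _
      refine Eqv.move n (Base.zig ()) ?_ (Path.nil _)
      show Path (triv Unit) [(.cup (), 1 + n), (.cap, 0 + n)] _ _
      rw [h1, h2]
      exact p1.append p3
    have e4 := ih.right [()]
    have s3 : List.replicate n () ++ [()] = List.replicate (n + 1) () := cabc_rep (by simp)
    rw [s3] at e4
    have e5 := e3.append e4.path_left
    have e6 := e2.trans ((e5.trans e4).cast (u' := [(.cup (), n + 1)] ++
      ((.cap, n) :: shift n (cabcU n) ++ cabcV n)) (by simp [Nat.add_comm]) rfl rfl rfl)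
    refine e6.cast ?_ rfl rfl rfl
    rw [cabcU_succ, cabcV_succ, shift_cons, shift_shift, Nat.zero_add]
    have h3 : 1 + (n + 1) = n + 2 := by omega
    rw [h3]
    simp

private theorem cabc_zag (n : ℕ) : Eqv (triv Unit) (cabcU n ++ shift n (cabcV n)) []
    (List.replicate n ()) (List.replicate n ()) := by
  induction n with
  | zero => exact Eqv.refl (Path.nil _)
  | succ n ih =>
    have hc : Path (triv Unit) [(.cap, 0)] (List.replicate (n + 2) ()) (List.replicate n ()) :=
      path_single_iff.2 (cabc_cap 0 n (Nat.zero_le _))
    have e1 := interchange ((cabcU_path n).left [()]) hc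
    have l1 : ([()] ++ List.replicate (n + n) ()).length = n + n + 1 := by
      simp only [List.length_append, List.length_replicate, List.length_cons, List.length_nil]
      omega
    have l2 : ([()] ++ ([] : List Unit)).length = 1 := rfl
    have l3 : ([()] : List Unit).length = 1 := rfl
    rw [l1, l2, l3] at e1
    have s1 : ([()] ++ []) ++ List.replicate (n + 2) () = List.replicate (n + 1 + 2) () :=
      cabc_rep (by
      simp only [List.length_append, List.length_replicate, List.length_cons, List.length_nil]
      omega)
    have s2 : ([()] ++ List.replicate (n + n) ()) ++ List.replicate n () =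
        List.replicate (n + 1 + (n + n)) () := cabc_rep (by
      simp only [List.length_append, List.length_replicate, List.length_cons, List.length_nil]
      omega)
    have p1 : Path (triv Unit) [(.cup (), 0)] (List.replicate (n + 1) ())
        (List.replicate (n + 1 + 2) ()) := path_single_iff.2 (cabc_cup 0 (n + 1) (Nat.zero_le _))
    have p2 : Path (triv Unit) (shift (n + 1) (cabcV n)) (List.replicate (n + 1 + (n + n)) ())
        (List.replicate (n + 1) ()) := by
      have := (cabcV_path n).left (List.replicate (n + 1) ())
      rw [List.length_replicate] at this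
      exact this.cast (cabc_rep (by simp)) (cabc_rep (by simp))
    have e2 := Eqv.context p1 (e1.cast rfl rfl s1 s2) p2
    have p3 : Path (triv Unit) [(.cap, 1)] (List.replicate (n + 1 + 2) ())
        (List.replicate (n + 1) ()) := path_single_iff.2 (cabc_cap 1 (n + 1) (by omega))
    have e3 : Eqv (triv Unit) [(.cup (), 0), (.cap, 1)] [] (List.replicate (n + 1) ())
        (List.replicate (n + 1) ()) := Eqv.base (Base.zag ()) (p1.append p3) (Path.nil _)
    have e4 := ih.shift_left [()]
    have s3 : [()] ++ List.replicate n () = List.replicate (n + 1) () := cabc_rep (by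
      simp only [List.length_append, List.length_replicate, List.length_cons, List.length_nil]
      omega)
    rw [s3] at e4
    have e5 := e3.append e4.path_left
    have e6 := e2.trans ((e5.trans e4).cast (u' := [(.cup (), 0)] ++
      ((shift 1 [(.cap, 0)] ++ shift 1 (cabcU n)) ++ shift (n + 1) (cabcV n)))
      (by simp [shift_shift]) rfl rfl rfl)
    refine e6.cast ?_ rfl rfl rfl
    rw [cabcU_succ, cabcV_succ, shift_cons]
    have h3 : 0 + (n + n + 1) = n + (n + 1) := by omega
    simp only [shift_cons, shift_nil, h3]
    simp


theorem cab_zig (n : ℕ) :
    Eqv (triv Unit) (cable n [(.cup (), 1), (.cap, 0)]) [] (List.replicate (n * 1) ())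
      (List.replicate (n * 1) ()) ∧
    Eqv (triv Unit) (cable n [(.cup (), 0), (.cap, 1)]) [] (List.replicate (n * 1) ())
      (List.replicate (n * 1) ()) := by
  constructor
  · refine (cabc_zig n).cast ?_ rfl ?_ ?_
    · simp [cable, cabc_cableU, cabc_cableV]
    · rw [Nat.mul_one]
    · rw [Nat.mul_one]
  · refine (cabc_zag n).cast ?_ rfl ?_ ?_
    · simp [cable, cabc_cableU, cabc_cableV]
    · rw [Nat.mul_one]
    · rw [Nat.mul_one]

/-! ### Strands slide over minima and maxima -/

private theorem cabc_r2 (n : ℕ) :
    Eqv (triv Unit) (mirror (layX n n) ++ layX n n) [] (List.replicate (n + n) ())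
      (List.replicate (n + n) ()) := by
  have h := (cabx_r2 (List.replicate n ()) (List.replicate n ())).mirror
  rw [List.length_replicate, ← List.replicate_add] at h
  refine h.cast ?_ rfl rfl rfl
  simp

private theorem cabc_X (n m : ℕ) (h : n + n ≤ m) :
    Path (triv Unit) (layX n n) (List.replicate m ()) (List.replicate m ()) := by
  have h1 := (layX_path (List.replicate n ()) (List.replicate n ())).right
    (List.replicate (m - (n + n)) ())
  rw [List.length_replicate] at h1
  refine h1.cast (cabc_rep ?_) (cabc_rep ?_)
  · simp only [List.length_append, List.length_replicate]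
    omega
  · simp only [List.length_append, List.length_replicate]
    omega

private theorem cabc_over (n : ℕ) :
    Eqv (triv Unit) (shift n (cabcU n) ++ mirror (layX n n)) (cabcU n ++ shift n (layX n n))
      (List.replicate n ()) (List.replicate (n + (n + n)) ()) := by
  have hr : (List.replicate n ()).length = n := List.length_replicate
  have hw : Path (triv Unit) (cabcU n) [] (List.replicate n () ++ List.replicate n ()) :=
    (cabcU_path n).cast rfl (by rw [List.replicate_add])
  have h1 := cabx_slide hw (List.replicate n ())
  have h2 := (cabx_right (List.replicate n ()) (List.replicate n ()) (List.replicate n ())).mirror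
  have s1 : List.replicate n () ++ (List.replicate n () ++ List.replicate n ()) =
      List.replicate (n + (n + n)) () := by
    rw [← List.replicate_add, ← List.replicate_add]
  have s2 : (List.replicate n () ++ List.replicate n ()) ++ List.replicate n () =
      List.replicate (n + (n + n)) () := by
    rw [← List.replicate_add, ← List.replicate_add, Nat.add_assoc]
  rw [List.length_append, hr, s2, List.append_nil, List.length_nil, layX_zero, mirror_nil,
    List.nil_append] at h1
  rw [hr, s1, mirror_append, mirror_shift] at h2
  have pU : Path (triv Unit) (shift n (cabcU n)) (List.replicate n ())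
      (List.replicate (n + (n + n)) ()) := by
    have := hw.left (List.replicate n ())
    rw [hr, s1] at this
    exact this.cast (List.append_nil _) rfl
  have pX : Path (triv Unit) (shift n (layX n n)) (List.replicate (n + (n + n)) ())
      (List.replicate (n + (n + n)) ()) := by
    have := (layX_path (List.replicate n ()) (List.replicate n ())).left (List.replicate n ())
    rwa [hr, s1] at this
  have pY : Path (triv Unit) (mirror (layX n n)) (List.replicate (n + (n + n)) ())
      (List.replicate (n + (n + n)) ()) := (cabc_X n _ (by omega)).mirror
  have e1 := (Eqv.prepend pU h2.symm).trans h1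
  have e2 := e1.append pX
  have e3 : Eqv (triv Unit) (shift n (mirror (layX n n)) ++ shift n (layX n n)) []
      (List.replicate (n + (n + n)) ()) (List.replicate (n + (n + n)) ()) := by
    have := (cabc_r2 n).shift_left (List.replicate n ())
    rw [hr, ← List.replicate_add, shift_append] at this
    exact this
  have e4 := Eqv.prepend (pU.append pY) e3
  refine (e4.symm.cast ?_ rfl rfl rfl).trans (e2.cast ?_ rfl rfl rfl)
  · simp
  · simp

private theorem cabc_capUnder (n : ℕ) :
    Eqv (triv Unit) (mirror (layX n n) ++ shift n (cabcV n)) (shift n (layX n n) ++ cabcV n)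
      (List.replicate (n + (n + n)) ()) (List.replicate n ()) := by
  have hr : (List.replicate n ()).length = n := List.length_replicate
  have hw : Path (triv Unit) (cabcV n) (List.replicate n () ++ List.replicate n ()) [] :=
    (cabcV_path n).cast (by rw [List.replicate_add]) rfl
  have h1 := (cabx_slide hw (List.replicate n ())).mirror
  have h2 := cabx_right (List.replicate n ()) (List.replicate n ()) (List.replicate n ())
  have s1 : List.replicate n () ++ (List.replicate n () ++ List.replicate n ()) =
      List.replicate (n + (n + n)) () := by
    rw [← List.replicate_add, ← List.replicate_add]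
  rw [List.length_append, hr, s1, List.nil_append, List.length_nil, layX_zero, mirror_nil,
    List.append_nil, mirror_append, mirror_mirror, mirror_shift, cabcV_mirror] at h1
  rw [hr, s1] at h2
  have pV : Path (triv Unit) (cabcV n) (List.replicate (n + (n + n)) ())
      (List.replicate n ()) := by
    have := hw.right (List.replicate n ())
    refine this.cast (cabc_rep ?_) (List.nil_append _)
    simp only [List.length_append, List.length_replicate]
    omega
  have pX : Path (triv Unit) (shift n (layX n n)) (List.replicate (n + (n + n)) ())
      (List.replicate (n + (n + n)) ()) := by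
    have := (layX_path (List.replicate n ()) (List.replicate n ())).left (List.replicate n ())
    rwa [hr, s1] at this
  have pY : Path (triv Unit) (mirror (layX n n)) (List.replicate (n + (n + n)) ())
      (List.replicate (n + (n + n)) ()) := (cabc_X n _ (by omega)).mirror
  have e1 := h1.trans (h2.append pV)
  have e2 := Eqv.prepend pY e1
  have e3 : Eqv (triv Unit) (mirror (layX n n) ++ layX n n) []
      (List.replicate (n + (n + n)) ()) (List.replicate (n + (n + n)) ()) := by
    have := (cabc_r2 n).right (List.replicate n ())
    refine this.cast rfl rfl (cabc_rep ?_) (cabc_rep ?_)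
    · simp only [List.length_append, List.length_replicate]
      omega
    · simp only [List.length_append, List.length_replicate]
      omega
  have e4 := e3.append (pX.append pV)
  refine (e2.cast rfl ?_ rfl rfl).trans (e4.cast rfl ?_ rfl rfl)
  · simp
  · simp

theorem cab_cup (n : ℕ) :
    Eqv (triv Unit) (cable n [(.cup (), 1), (.pos, 0)]) (cable n [(.cup (), 0), (.neg, 1)])
      (List.replicate (n * 1) ()) (List.replicate (n * 3) ()) ∧
    Eqv (triv Unit) (cable n [(.cup (), 1), (.neg, 0)]) (cable n [(.cup (), 0), (.pos, 1)])
      (List.replicate (n * 1) ()) (List.replicate (n * 3) ()) := by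
  have h3 : n + (n + n) = n * 3 := by omega
  constructor
  · refine (cabc_over n).cast ?_ ?_ ?_ ?_
    · simp [cable, cabc_cableU, cabx_pos]
    · simp [cable, cabc_cableU, cabx_neg]
    · rw [Nat.mul_one]
    · rw [h3]
  · refine (cabc_over n).mirror.cast ?_ ?_ ?_ ?_
    · simp [cable, cabc_cableU, cabx_neg, cabcU_mirror]
    · simp [cable, cabc_cableU, cabx_pos, cabcU_mirror]
    · rw [Nat.mul_one]
    · rw [h3]

theorem cab_cap (n : ℕ) :
    Eqv (triv Unit) (cable n [(.pos, 0), (.cap, 1)]) (cable n [(.neg, 1), (.cap, 0)])
      (List.replicate (n * 3) ()) (List.replicate (n * 1) ()) ∧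
    Eqv (triv Unit) (cable n [(.neg, 0), (.cap, 1)]) (cable n [(.pos, 1), (.cap, 0)])
      (List.replicate (n * 3) ()) (List.replicate (n * 1) ()) := by
  have h3 : n + (n + n) = n * 3 := by omega
  constructor
  · refine (cabc_capUnder n).cast ?_ ?_ ?_ ?_
    · simp [cable, cabc_cableV, cabx_pos]
    · simp [cable, cabc_cableV, cabx_neg]
    · rw [h3]
    · rw [Nat.mul_one]
  · refine (cabc_capUnder n).mirror.cast ?_ ?_ ?_ ?_
    · simp [cable, cabc_cableV, cabx_neg, cabcV_mirror]
    · simp [cable, cabc_cableV, cabx_pos, cabcV_mirror]
    · rw [h3]
    · rw [Nat.mul_one]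

end Pool.Agent.Lib.MP_decac5_gt
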