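import Pool.Agent.Lib.MP_decac5_gt.CabX
import Pool.Agent.Lib.MP_decac5_gt.CabC

/-!
# Parallels of words related by framed moves
-/

set_option autoImplicit false

namespace Pool.Agent.Lib.MP_decac5_gt

open Pool.Agent.Lib.MP_131179_gt

/-! ### Numbers of strands -/

private theorem Cab_step_num {k : Kind Unit} {i : ℕ} {s t : List Unit}
    (h : Step (triv Unit) k i s t) :
    i + k.inn ≤ s.length ∧ t.length + k.inn = s.length + k.out := by
  induction h with
  | cup c s => simp [Kind.inn, Kind.out]
  | cap c s => simp [Kind.inn, Kind.out]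
  | pos a b s => simp [Kind.inn, Kind.out]
  | neg a b s => simp [Kind.inn, Kind.out]
  | there a _ ih =>
    simp only [List.length_cons]
    omega

private theorem Cab_rep (s : List Unit) : s = List.replicate s.length () :=
  List.eq_replicate_of_mem fun _ _ => rfl

private theorem Cab_rep' {s : List Unit} {n : ℕ} (h : s.length = n) : s = List.replicate n () := by
  subst h
  exact Cab_rep s

private theorem Cab_step_mk (k : Kind Unit) (i m m' : ℕ) (h : i + k.inn ≤ m)
    (h' : m' + k.inn = m + k.out) :
    Step (triv Unit) k i (List.replicate m ()) (List.replicate m' ()) := by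
  have h0 : ∃ a b : List Unit, a.length = k.inn ∧ b.length = k.out ∧
      ∀ r, Step (triv Unit) k 0 (a ++ r) (b ++ r) := by
    cases k with
    | cup c => exact ⟨[], [c, c], rfl, rfl, fun r => Step.cup c r⟩
    | cap => exact ⟨[(), ()], [], rfl, rfl, fun r => Step.cap () r⟩
    | pos => exact ⟨[(), ()], [(), ()], rfl, rfl, fun r => Step.pos () () r⟩
    | neg => exact ⟨[(), ()], [(), ()], rfl, rfl, fun r => Step.neg () () r⟩
  obtain ⟨a, b, ha, hb, hab⟩ := h0
  have h1 := (hab (List.replicate (m - i - k.inn) ())).left (List.replicate i ())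
  rw [List.length_replicate, Nat.zero_add] at h1
  refine h1.cast2 (Cab_rep' ?_) (Cab_rep' ?_)
  · simp only [List.length_append, List.length_replicate, ha]
    omega
  · simp only [List.length_append, List.length_replicate, hb]
    omega

/-- A word of crossings. -/
private theorem Cab_path_cross (m : ℕ) (w : Word Unit)
    (h : ∀ l ∈ w, (l.1 = .pos ∨ l.1 = .neg) ∧ l.2 + 2 ≤ m) :
    Path (triv Unit) w (List.replicate m ()) (List.replicate m ()) := by
  induction w with
  | nil => exact Path.nil _
  | cons l w ih =>
    obtain ⟨k, i⟩ := l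
    obtain ⟨h1, h2⟩ := h (k, i) List.mem_cons_self
    refine Path.cons (Cab_step_mk k i m m ?_ ?_) (ih fun l hl => h l (List.mem_cons_of_mem _ hl))
    · rcases h1 with h1 | h1 <;> simp only at h1 <;> subst h1 <;> exact h2
    · rcases h1 with h1 | h1 <;> simp only at h1 <;> subst h1 <;> rfl

/-! ### The parallel of a letter -/

private theorem Cab_cableL_shift (n : ℕ) (k : Kind Unit) (i j : ℕ) :
    cableL n (k, i + j) = shift (n * j) (cableL n (k, i)) := by
  have e : ∀ r : ℕ, n * (i + j) + r = n * i + r + n * j := fun r => by
    rw [Nat.mul_add]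
    omega
  cases k with
  | cup c => simp [cableL, shift, e]
  | cap => simp [cableL, shift, e]
  | pos =>
    simp only [cableL, shift, List.map_flatMap, List.map_map, Function.comp_def]
    refine List.flatMap_congr fun r _ => List.map_congr_left fun s _ => ?_
    rw [Nat.add_assoc (n * (i + j)), e]
    simp only [Nat.add_assoc]
  | neg =>
    simp only [cableL, shift, List.map_flatMap, List.map_map, Function.comp_def]
    refine List.flatMap_congr fun r _ => List.map_congr_left fun s _ => ?_
    rw [Nat.add_assoc (n * (i + j)), e]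
    simp only [Nat.add_assoc]

private theorem Cab_cup_path (m : ℕ) : Path (triv Unit)
    ((List.range m).map fun r => (Kind.cup (), r)) (List.replicate 0 ())
    (List.replicate (m * 2) ()) := by
  induction m with
  | zero => exact Path.nil _
  | succ m ih =>
    rw [List.range_succ, List.map_append]
    refine ih.append (path_single_iff.2 (Cab_step_mk _ _ _ _ ?_ ?_))
    · simp only [Kind.inn]
      omega
    · simp only [Kind.inn, Kind.out]
      omega

private theorem Cab_cap_path (n m : ℕ) (h : m ≤ n) : Path (triv Unit)
    ((List.range m).map fun r => (Kind.cap, n - 1 - r)) (List.replicate (n * 2) ())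
    (List.replicate ((n - m) * 2) ()) := by
  induction m with
  | zero => exact Path.nil _
  | succ m ih =>
    rw [List.range_succ, List.map_append]
    refine (ih (by omega)).append (path_single_iff.2 (Cab_step_mk _ _ _ _ ?_ ?_))
    · simp only [Kind.inn]
      omega
    · simp only [Kind.inn, Kind.out]
      omega

private theorem Cab_cableL_path0 (n : ℕ) (k : Kind Unit) : Path (triv Unit) (cableL n (k, 0))
    (List.replicate (n * k.inn) ()) (List.replicate (n * k.out) ()) := by
  cases k with
  | cup c =>
    have := Cab_cup_path n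
    simpa [cableL, Kind.inn, Kind.out] using this
  | cap =>
    have := Cab_cap_path n n le_rfl
    simpa [cableL, Kind.inn, Kind.out] using this
  | pos =>
    refine Cab_path_cross _ _ fun l hl => ?_
    simp only [cableL, List.mem_flatMap, List.mem_map, List.mem_range] at hl
    obtain ⟨r, hr, s, hs, rfl⟩ := hl
    refine ⟨Or.inl rfl, ?_⟩
    simp only [Kind.inn]
    omega
  | neg =>
    refine Cab_path_cross _ _ fun l hl => ?_
    simp only [cableL, List.mem_flatMap, List.mem_map, List.mem_range] at hl
    obtain ⟨r, hr, s, hs, rfl⟩ := hl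
    refine ⟨Or.inr rfl, ?_⟩
    simp only [Kind.inn]
    omega

private theorem Cab_cableL_path (n : ℕ) (k : Kind Unit) (i r : ℕ) :
    Path (triv Unit) (cableL n (k, i)) (List.replicate (n * (i + k.inn + r)) ())
      (List.replicate (n * (i + k.out + r)) ()) := by
  have h := ((Cab_cableL_path0 n k).right (List.replicate (n * r) ())).left
    (List.replicate (n * i) ())
  rw [List.length_replicate, ← Cab_cableL_shift, Nat.zero_add] at h
  refine h.cast (Cab_rep' ?_) (Cab_rep' ?_)
  · simp only [List.length_append, List.length_replicate]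
    rw [← Nat.add_assoc, ← Nat.mul_add, ← Nat.mul_add]
  · simp only [List.length_append, List.length_replicate]
    rw [← Nat.add_assoc, ← Nat.mul_add, ← Nat.mul_add]

/-! ### The parallel of a word -/

private theorem Cab_cable_nil (n : ℕ) : cable n [] = [] := rfl

private theorem Cab_cable_cons (n : ℕ) (l : Kind Unit × ℕ) (w : Word Unit) :
    cable n (l :: w) = cableL n l ++ cable n w := rfl

private theorem Cab_cable_append (n : ℕ) (u v : Word Unit) :
    cable n (u ++ v) = cable n u ++ cable n v := List.flatMap_append

private theorem Cab_cable_shift (n i : ℕ) (w : Word Unit) :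
    cable n (shift i w) = shift (n * i) (cable n w) := by
  induction w with
  | nil => rfl
  | cons l w ih =>
    obtain ⟨k, j⟩ := l
    rw [shift_cons, Cab_cable_cons, Cab_cable_cons, shift_append, ih, Cab_cableL_shift]

private theorem Cab_cable_path (n : ℕ) {w : Word Unit} {s t : List Unit}
    (h : Path (triv Unit) w s t) : Path (triv Unit) (cable n w)
      (List.replicate (n * s.length) ()) (List.replicate (n * t.length) ()) := by
  induction h with
  | nil s => exact Path.nil _
  | @cons k i w s t r h _ ih =>
    rw [Cab_cable_cons]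
    obtain ⟨h1, h2⟩ := Cab_step_num h
    have h3 := Cab_cableL_path n k i (s.length - (i + k.inn))
    have e1 : i + k.inn + (s.length - (i + k.inn)) = s.length := by omega
    have e2 : i + k.out + (s.length - (i + k.inn)) = t.length := by omega
    rw [e1, e2] at h3
    exact h3.append ih

/-! ### The moves -/

private theorem Cab_far (n : ℕ) (k l : Kind Unit) (g : ℕ) :
    Eqv (triv Unit) (cable n [(k, 0), (l, k.out + g)]) (cable n [(l, k.inn + g), (k, 0)])
      (List.replicate (n * (k.inn + (g + l.inn))) ())
      (List.replicate (n * (k.out + (g + l.out))) ()) := by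
  have h := interchange (Cab_cableL_path0 n k)
    (((Cab_cableL_path0 n l)).left (List.replicate (n * g) ()))
  rw [List.length_replicate, List.length_replicate, List.length_replicate, shift_shift,
    shift_shift, ← Nat.mul_add, ← Nat.mul_add, ← Cab_cableL_shift, ← Cab_cableL_shift] at h
  refine h.cast ?_ ?_ (Cab_rep' ?_) (Cab_rep' ?_)
  · rw [Cab_cable_cons, Cab_cable_cons, Cab_cable_nil, List.append_nil, Nat.zero_add,
      Nat.add_comm g]
  · rw [Cab_cable_cons, Cab_cable_cons, Cab_cable_nil, List.append_nil, Nat.zero_add,
      Nat.add_comm g]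
  · simp only [List.length_append, List.length_replicate]
    rw [← Nat.mul_add, ← Nat.mul_add]
  · simp only [List.length_append, List.length_replicate]
    rw [← Nat.mul_add, ← Nat.mul_add]

private theorem Cab_two {k l : Kind Unit} {i j : ℕ} {s t : List Unit}
    (h : Path (triv Unit) [(k, i), (l, j)] s t) : i + k.inn ≤ s.length ∧
      j + l.inn + k.inn ≤ s.length + k.out ∧
      t.length + l.inn + k.inn = s.length + k.out + l.out := by
  obtain ⟨r, h1, h2⟩ := path_cons_iff.1 h
  have h3 := Cab_step_num h1
  have h4 := Cab_step_num (path_single_iff.1 h2)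
  omega

private theorem Cab_three {k l m : Kind Unit} (hk : k.inn = 2) (hk' : k.out = 2)
    (hl : l.inn = 2) (hl' : l.out = 2) (hm : m.inn = 2) (hm' : m.out = 2) {s t : List Unit}
    (h : Path (triv Unit) [(k, 0), (l, 1), (m, 0)] s t) :
    3 ≤ s.length ∧ t.length = s.length := by
  obtain ⟨r, h1, h2⟩ := path_cons_iff.1 h
  have h3 := Cab_step_num h1
  have h4 := Cab_two h2
  omega

private theorem Cab_base (n : ℕ) {u v : Word Unit} {s t : List Unit} (h : FBase u v)
    (hp : Path (triv Unit) u s t) : ∃ a b r : ℕ, s.length = a + r ∧ t.length = b + r ∧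
      Eqv (triv Unit) (cable n u) (cable n v) (List.replicate (n * a) ())
        (List.replicate (n * b) ()) := by
  cases h with
  | far k l g =>
    have h1 := Cab_two hp
    exact ⟨_, _, s.length - (k.inn + (g + l.inn)), by omega, by omega, Cab_far n k l g⟩
  | zig =>
    have h1 := Cab_two hp
    simp only [Kind.inn, Kind.out] at h1
    exact ⟨1, 1, s.length - 1, by omega, by omega, (cab_zig n).1⟩
  | zag =>
    have h1 := Cab_two hp
    simp only [Kind.inn, Kind.out] at h1
    exact ⟨1, 1, s.length - 1, by omega, by omega, (cab_zig n).2⟩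
  | cupOver =>
    have h1 := Cab_two hp
    simp only [Kind.inn, Kind.out] at h1
    exact ⟨1, 3, s.length - 1, by omega, by omega, (cab_cup n).1⟩
  | cupUnder =>
    have h1 := Cab_two hp
    simp only [Kind.inn, Kind.out] at h1
    exact ⟨1, 3, s.length - 1, by omega, by omega, (cab_cup n).2⟩
  | capOver =>
    have h1 := Cab_two hp
    simp only [Kind.inn, Kind.out] at h1
    exact ⟨3, 1, s.length - 3, by omega, by omega, (cab_cap n).1⟩
  | capUnder =>
    have h1 := Cab_two hp
    simp only [Kind.inn, Kind.out] at h1
    exact ⟨3, 1, s.length - 3, by omega, by omega, (cab_cap n).2⟩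
  | r2PosNeg =>
    have h1 := Cab_two hp
    simp only [Kind.inn, Kind.out] at h1
    exact ⟨2, 2, s.length - 2, by omega, by omega, (cab_r2 n).1⟩
  | r2NegPos =>
    have h1 := Cab_two hp
    simp only [Kind.inn, Kind.out] at h1
    exact ⟨2, 2, s.length - 2, by omega, by omega, (cab_r2 n).2⟩
  | r3 =>
    have h1 := Cab_three rfl rfl rfl rfl rfl rfl hp
    exact ⟨3, 3, s.length - 3, by omega, by omega,
      cab_r3 n .pos .pos .pos (Or.inl rfl) (Or.inl rfl) (Or.inl rfl) fun _ => rfl⟩
  | r3nnn =>
    have h1 := Cab_three rfl rfl rfl rfl rfl rfl hp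
    exact ⟨3, 3, s.length - 3, by omega, by omega,
      cab_r3 n .neg .neg .neg (Or.inr rfl) (Or.inr rfl) (Or.inr rfl) fun _ => rfl⟩
  | r3ppn =>
    have h1 := Cab_three rfl rfl rfl rfl rfl rfl hp
    exact ⟨3, 3, s.length - 3, by omega, by omega,
      cab_r3 n .pos .pos .neg (Or.inl rfl) (Or.inl rfl) (Or.inr rfl) fun h => by cases h⟩
  | r3npp =>
    have h1 := Cab_three rfl rfl rfl rfl rfl rfl hp
    exact ⟨3, 3, s.length - 3, by omega, by omega,
      cab_r3 n .neg .pos .pos (Or.inr rfl) (Or.inl rfl) (Or.inl rfl) fun h => by cases h⟩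
  | r3nnp =>
    have h1 := Cab_three rfl rfl rfl rfl rfl rfl hp
    exact ⟨3, 3, s.length - 3, by omega, by omega,
      cab_r3 n .neg .neg .pos (Or.inr rfl) (Or.inr rfl) (Or.inl rfl) fun h => by cases h⟩
  | r3pnn =>
    have h1 := Cab_three rfl rfl rfl rfl rfl rfl hp
    exact ⟨3, 3, s.length - 3, by omega, by omega,
      cab_r3 n .pos .neg .neg (Or.inl rfl) (Or.inr rfl) (Or.inr rfl) fun h => by cases h⟩

private theorem Cab_ne_nil {u v : Word Unit} (h : FBase u v) : u ≠ [] := by
  cases h <;> exact List.cons_ne_nil _ _

/-- The parallels of words related by framed moves are related by moves. -/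
theorem cable_eqv (n : ℕ) {u v : Word Unit} {s t : List Unit} (h : FEqv u v s t) :
    Eqv (triv Unit) (cable n u) (cable n v) (List.replicate (n * s.length) ())
      (List.replicate (n * t.length) ()) := by
  induction h with
  | refl h => exact Eqv.refl (Cab_cable_path n h)
  | @move u v i s t hb h1 _ =>
    obtain ⟨l, s', t', hl, rfl, rfl, h3⟩ := (path_shift_iff (Cab_ne_nil hb)).1 h1
    obtain ⟨a, b, r, hs, ht, he⟩ := Cab_base n hb h3
    have h4 := (he.right (List.replicate (n * r) ())).shift_left (List.replicate (n * i) ())
    rw [List.length_replicate, ← Cab_cable_shift, ← Cab_cable_shift] at h4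
    refine h4.cast rfl rfl (Cab_rep' ?_) (Cab_rep' ?_)
    · simp only [List.length_append, List.length_replicate, hl, hs]
      rw [← Nat.mul_add, ← Nat.mul_add]
    · simp only [List.length_append, List.length_replicate, hl, ht]
      rw [← Nat.mul_add, ← Nat.mul_add]
  | symm _ ih => exact ih.symm
  | trans _ _ ih1 ih2 => exact ih1.trans ih2
  | comp _ _ ih1 ih2 =>
    rw [Cab_cable_append, Cab_cable_append]
    exact Eqv.comp ih1 ih2

end Pool.Agent.Lib.MP_decac5_gt
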