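import Pool.Agent.Lib.MP_decac5_gt.Base2
import Pool.Agent.Lib.MP_131179_gt.Layer

/-!
# Parallels of the moves with crossings only
-/

set_option autoImplicit false

namespace Pool.Agent.Lib.MP_decac5_gt

open Pool.Agent.Lib.MP_131179_gt

variable {C : Type}

theorem cabx_und (n : ℕ) : (und n : Word C) = (List.range n).map fun s => (Kind.neg, s) := by
  induction n with
  | zero => rfl
  | succ n ih =>
    rw [lay_und_succ, ih, List.range_succ_eq_map, List.map_cons, List.map_map, shift, List.map_map]
    rfl

theorem cabx_layX (m n : ℕ) : (layX m n : Word C) = (List.range m).flatMap fun r =>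
    (List.range n).map fun s => (Kind.neg, (m - 1 - r) + s) := by
  induction m with
  | zero => rfl
  | succ m ih =>
    rw [layX, ih, List.range_succ, List.flatMap_append, cabx_und]
    congr 1
    · rw [shift, List.map_flatMap]
      refine List.flatMap_congr fun r hr => ?_
      rw [List.mem_range] at hr
      rw [List.map_map]
      refine List.map_congr_left fun s _ => ?_
      simp only [Function.comp_apply, Prod.mk.injEq, true_and]
      omega
    · simp

theorem cabx_neg (n i : ℕ) : cableL n (.neg, i) = shift (n * i) (layX n n) := by
  rw [cabx_layX, shift, List.map_flatMap]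
  show (List.range n).flatMap (fun r => (List.range n).map fun s =>
    ((.neg : Kind Unit), n * i + (n - 1 - r) + s)) = _
  refine List.flatMap_congr fun r _ => ?_
  rw [List.map_map]
  refine List.map_congr_left fun s _ => ?_
  simp only [Function.comp_apply, Prod.mk.injEq, true_and]
  omega

theorem cabx_mirror (n i : ℕ) : cableL n (.pos, i) = mirror (cableL n (.neg, i)) := by
  show (List.range n).flatMap (fun r => (List.range n).map fun s =>
    ((.pos : Kind Unit), n * i + (n - 1 - r) + s)) = mirror ((List.range n).flatMap fun r =>
      (List.range n).map fun s => ((.neg : Kind Unit), n * i + (n - 1 - r) + s))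
  rw [mirror, List.map_flatMap]
  refine List.flatMap_congr fun r _ => ?_
  rw [List.map_map]
  rfl

theorem cabx_pos (n i : ℕ) : cableL n (.pos, i) = shift (n * i) (mirror (layX n n)) := by
  rw [cabx_mirror, cabx_neg, mirror_shift]

/-- Two bundles of strands which cross twice can be separated. -/
theorem cabx_r2 (a l : List C) :
    Eqv (triv C) (layX a.length l.length ++ mirror (layX l.length a.length)) []
      (a ++ l) (a ++ l) := by
  induction a with
  | nil =>
    rw [List.length_nil, layX_zero]
    exact Eqv.refl (Path.nil _)
  | cons x a ih =>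
    have e1 := (layX_succ x l a).mirror
    have p1 : Path (triv C) (shift 1 (layX a.length l.length)) (x :: (a ++ l)) (x :: (l ++ a)) :=
      (layX_path a l).left [x]
    have p2 : Path (triv C) (und l.length) (x :: (l ++ a)) (l ++ (x :: a)) :=
      ((und_path x l).right a).cast rfl (by simp)
    have e2 := Eqv.prepend (p1.append p2) e1
    have e3 := ((lay_ovr_nov x l).mirror.right a)
    have p3 : Path (triv C) (shift 1 (mirror (layX l.length a.length))) (x :: (l ++ a))
        (x :: (a ++ l)) := (layX_path l a).mirror.left [x]
    have e4 := Eqv.context p1 e3 p3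
    have e5 := ih.shift_left [x]
    simp only [layX, und, mirror_append, mirror_shift, mirror_nil, shift_append, shift_nil,
      List.append_assoc, List.nil_append, List.length_cons, List.length_nil,
      Nat.zero_add, List.cons_append] at e2 e4 e5 ⊢
    exact e2.trans (e4.trans e5)

/-- A bundle of strands passes over a tangle, from the left to the right. -/
theorem cabx_slide {w : Word C} {s t : List C} (h : Path (triv C) w s t) (l : List C) :
    Eqv (triv C) (shift l.length w ++ mirror (layX l.length t.length))
      (mirror (layX l.length s.length) ++ w) (l ++ s) (t ++ l) := by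
  induction l with
  | nil =>
    simp only [List.length_nil, shift_zero, layX, mirror_nil, List.append_nil, List.nil_append]
    exact Eqv.refl h
  | cons x l ih =>
    have p1 : Path (triv C) (ovr t.length) (x :: (t ++ l)) (t ++ (x :: l)) :=
      ((ovr_path x t).right l).cast rfl (by simp)
    have e1 := (ih.shift_left [x]).append p1
    have p2 : Path (triv C) (shift 1 (mirror (layX l.length s.length))) (x :: (l ++ s))
        (x :: (s ++ l)) := (layX_path l s).mirror.left [x]
    have e2 := Eqv.prepend p2 ((slide x h).right l)
    have e3 := e2.cast (t' := t ++ (x :: l)) rfl rfl rfl (by simp)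
    have hu : ∀ k : ℕ, mirror (layX (l.length + 1) k : Word C) =
        shift 1 (mirror (layX l.length k)) ++ ovr k := by
      intro k
      rw [layX, mirror_append, mirror_shift, und, mirror_mirror]
    simp only [hu, shift_append, shift_shift, List.append_assoc, List.nil_append, List.length_cons,
      List.length_nil, Nat.zero_add, List.cons_append] at e1 e3 ⊢
    exact e1.trans e3

theorem cabx_left (m₁ m₂ n : ℕ) : (layX (m₁ + m₂) n : Word C) =
    shift m₁ (layX m₂ n) ++ layX m₁ n := by
  induction m₁ with
  | zero => simp [layX]
  | succ m ih =>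
    rw [Nat.add_right_comm, layX, ih, layX, shift_append, shift_shift, List.append_assoc]

theorem cabx_und_add (m n : ℕ) : (und (m + n) : Word C) = und m ++ shift m (und n) := by
  rw [und, und, und, ovr_add, mirror_append, mirror_shift]

theorem cabx_right (a l₁ l₂ : List C) :
    Eqv (triv C) (layX a.length (l₁.length + l₂.length))
      (layX a.length l₁.length ++ shift l₁.length (layX a.length l₂.length))
      (a ++ (l₁ ++ l₂)) (l₁ ++ (l₂ ++ a)) := by
  induction a with
  | nil =>
    rw [List.append_nil]
    exact Eqv.refl (Path.nil _)
  | cons x a ih =>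
    have p0 : Path (triv C) (und (l₁.length + l₂.length)) (x :: (l₁ ++ (l₂ ++ a)))
        (l₁ ++ (l₂ ++ (x :: a))) := by
      have h := (und_path x (l₁ ++ l₂)).right a
      rw [List.length_append] at h
      exact h.cast (by simp) (by simp)
    have e1 := (ih.shift_left [x]).append p0
    have p1 : Path (triv C) (shift 1 (layX a.length l₁.length)) (x :: (a ++ (l₁ ++ l₂)))
        (x :: (l₁ ++ (a ++ l₂))) := (((layX_path a l₁).right l₂).left [x]).cast (by simp) (by simp)
    have p2 : Path (triv C) (shift l₁.length (und l₂.length)) (l₁ ++ (x :: (l₂ ++ a)))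
        (l₁ ++ (l₂ ++ (x :: a))) := (((und_path x l₂).right a).left l₁).cast (by simp) (by simp)
    have e2 := Eqv.context p1
      ((interchange (und_path x l₁) (layX_path a l₂)).symm.cast rfl rfl
        (s' := x :: (l₁ ++ (a ++ l₂))) (t' := l₁ ++ (x :: (l₂ ++ a))) (by simp) (by simp)) p2
    simp only [layX, cabx_und_add, shift_append, shift_shift, List.append_assoc, List.length_cons,
      List.length_nil, List.length_append, List.nil_append, List.cons_append, Nat.zero_add]
      at e1 e2 ⊢
    have h1 : 1 + l₁.length = l₁.length + 1 := Nat.add_comm _ _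
    simp only [h1] at e1 e2 ⊢
    exact e1.trans e2

/-- The words of the crossings of two bundles. -/
theorem cabx_word {n : ℕ} {k : Kind Unit} (h : k = .pos ∨ k = .neg) (i : ℕ) :
    cableL n (k, i) = shift (n * i) (cableL n (k, 0)) := by
  rcases h with rfl | rfl
  · rw [cabx_pos, cabx_pos, Nat.mul_zero, shift_zero]
  · rw [cabx_neg, cabx_neg, Nat.mul_zero, shift_zero]

theorem cabx_path {n : ℕ} {k : Kind Unit} (h : k = .pos ∨ k = .neg) {a b : List Unit}
    (ha : a.length = n) (hb : b.length = n) :
    Path (triv Unit) (cableL n (k, 0)) (a ++ b) (b ++ a) := by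
  rcases h with rfl | rfl
  · rw [cabx_pos, Nat.mul_zero, shift_zero]
    have := (layX_path a b).mirror
    rwa [ha, hb] at this
  · rw [cabx_neg, Nat.mul_zero, shift_zero]
    have := layX_path a b
    rwa [ha, hb] at this

theorem cabx_mirrorL (n i : ℕ) (k : Kind Unit) (h : k = .pos ∨ k = .neg) :
    mirror (cableL n (k, i)) = cableL n (k.mirror, i) := by
  rcases h with rfl | rfl
  · rw [cabx_mirror, mirror_mirror]
    rfl
  · rw [← cabx_mirror]
    rfl

theorem cab_r2 (n : ℕ) :
    Eqv (triv Unit) (cable n [(.pos, 0), (.neg, 0)]) [] (List.replicate (n * 2) ())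
      (List.replicate (n * 2) ()) ∧
    Eqv (triv Unit) (cable n [(.neg, 0), (.pos, 0)]) [] (List.replicate (n * 2) ())
      (List.replicate (n * 2) ()) := by
  have h := cabx_r2 (List.replicate n ()) (List.replicate n ())
  have e : List.replicate n () ++ List.replicate n () = List.replicate (n * 2) () := by
    rw [← List.replicate_add]
    congr 1
    omega
  rw [e, List.length_replicate] at h
  have h2 : Eqv (triv Unit) (cable n [(.neg, 0), (.pos, 0)]) [] (List.replicate (n * 2) ())
      (List.replicate (n * 2) ()) := by
    refine h.cast ?_ rfl rfl rfl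
    simp [cable, cabx_neg, cabx_pos]
  refine ⟨?_, h2⟩
  refine h2.mirror.cast ?_ rfl rfl rfl
  simp [cable, cabx_neg, cabx_pos]

/-- The bundle on the right passes over. -/
theorem cabx_r3n (n : ℕ) (k : Kind Unit) (h : k = .pos ∨ k = .neg) :
    Eqv (triv Unit) (cable n [(k, 0), (.neg, 1), (.neg, 0)]) (cable n [(.neg, 1), (.neg, 0), (k, 1)])
      (List.replicate (n * 3) ()) (List.replicate (n * 3) ()) := by
  have hr : (List.replicate n ()).length = n := List.length_replicate
  have h1 := lay_slide (cabx_path h hr hr) (List.replicate n ())
  have e : (List.replicate n () ++ List.replicate n ()) ++ List.replicate n () =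
      List.replicate (n * 3) () := by
    rw [← List.replicate_add, ← List.replicate_add]
    congr 1
    omega
  refine h1.cast ?_ ?_ e (by rw [← List.append_assoc, e])
  · rw [List.length_append, hr, cabx_left]
    simp [cable, cabx_neg]
  · have ew : cableL n (k, 1) = shift n (cableL n (k, 0)) := by rw [cabx_word h 1, Nat.mul_one]
    rw [List.length_append, hr, cabx_left, ← ew]
    simp [cable, cabx_neg]

/-- The bundle on the left passes over. -/
theorem cabx_r3p (n : ℕ) (k : Kind Unit) (h : k = .pos ∨ k = .neg) :
    Eqv (triv Unit) (cable n [(.pos, 0), (.pos, 1), (k, 0)]) (cable n [(k, 1), (.pos, 0), (.pos, 1)])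
      (List.replicate (n * 3) ()) (List.replicate (n * 3) ()) := by
  have hr : (List.replicate n ()).length = n := List.length_replicate
  have h1 := cabx_slide (cabx_path h hr hr) (List.replicate n ())
  have h2 := (cabx_right (List.replicate n ()) (List.replicate n ()) (List.replicate n ())).mirror
  have e : List.replicate n () ++ (List.replicate n () ++ List.replicate n ()) =
      List.replicate (n * 3) () := by
    rw [← List.replicate_add, ← List.replicate_add]
    congr 1
    omega
  have e' : (List.replicate n () ++ List.replicate n ()) ++ List.replicate n () =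
      List.replicate (n * 3) () := by
    rw [← List.replicate_add, ← List.replicate_add]
    congr 1
    omega
  rw [e] at h2
  rw [List.append_assoc, e] at h1
  have p1 : Path (triv Unit) (cableL n (k, 0)) (List.replicate (n * 3) ())
      (List.replicate (n * 3) ()) := by
    have := (cabx_path h hr hr).right (List.replicate n ())
    rwa [e'] at this
  have p2 : Path (triv Unit) (cableL n (k, 1)) (List.replicate (n * 3) ())
      (List.replicate (n * 3) ()) := by
    have := (cabx_path h hr hr).left (List.replicate n ())
    rw [cabx_word h 1, Nat.mul_one]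
    rwa [e, hr] at this
  have h3 := h2.symm.append p1
  have h4 := Eqv.prepend p2 h2
  simp only [hr, List.length_append, mirror_append, mirror_shift] at h1 h3 h4
  have ew : cableL n (k, 1) = shift n (cableL n (k, 0)) := by rw [cabx_word h 1, Nat.mul_one]
  rw [ew] at h4
  refine (h3.trans (h1.symm.trans h4)).cast ?_ ?_ rfl rfl
  · simp [cable, cabx_pos]
  · rw [← ew]
    simp [cable, cabx_pos]

/-- `k₁ = k₃ ≠ k₂` is excluded. -/
theorem cab_r3 (n : ℕ) (k₁ k₂ k₃ : Kind Unit) (h1 : k₁ = .pos ∨ k₁ = .neg)
    (h2 : k₂ = .pos ∨ k₂ = .neg) (h3 : k₃ = .pos ∨ k₃ = .neg) (h : k₁ = k₃ → k₂ = k₁) :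
    Eqv (triv Unit) (cable n [(k₁, 0), (k₂, 1), (k₃, 0)]) (cable n [(k₃, 1), (k₂, 0), (k₁, 1)])
      (List.replicate (n * 3) ()) (List.replicate (n * 3) ()) := by
  have hm : ∀ (l : Word Unit), (∀ x ∈ l, x.1 = .pos ∨ x.1 = .neg) →
      mirror (cable n l) = cable n (mirror l) := by
    intro l hl
    induction l with
    | nil => rfl
    | cons x l ih =>
      obtain ⟨k, i⟩ := x
      have e1 := cabx_mirrorL n i k (hl _ List.mem_cons_self)
      have e2 := ih fun y hy => hl y (List.mem_cons_of_mem _ hy)
      simp only [cable, List.flatMap_cons, mirror_append, mirror_cons] at e2 ⊢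
      rw [e1, e2]
  rcases h2 with rfl | rfl
  · rcases h3 with rfl | rfl
    · have hk : k₁.mirror = .pos ∨ k₁.mirror = .neg := by
        rcases h1 with rfl | rfl
        · exact Or.inr rfl
        · exact Or.inl rfl
      refine (cabx_r3n n k₁.mirror hk).mirror.cast ?_ ?_ rfl rfl
      · rw [hm]
        · simp [Kind.mirror_mirror]
          rfl
        · simp [hk]
      · rw [hm]
        · simp [Kind.mirror_mirror]
          rfl
        · simp [hk]
    · rcases h1 with rfl | rfl
      · exact cabx_r3p n .neg (Or.inr rfl)
      · exact absurd (h rfl) (by simp)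
  · rcases h3 with rfl | rfl
    · rcases h1 with rfl | rfl
      · exact absurd (h rfl) (by simp)
      · refine (cabx_r3p n .neg (Or.inr rfl)).mirror.cast ?_ ?_ rfl rfl
        · rw [hm]
          · rfl
          · simp
        · rw [hm]
          · rfl
          · simp
    · exact cabx_r3n n k₁ h1

end Pool.Agent.Lib.MP_decac5_gt
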