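import Pool.Agent.Lib.MP_decac5_gt.Base
import Pool.Agent.Lib.MP_131179_gt.Lift

/-!
# The colourings of a closed braid and its Seifert form
-/

set_option autoImplicit false

namespace Pool.Agent.Lib.MP_decac5_gt

open Pool.Agent.Lib.MP_131179_gt

/-! ### The action of a braid on the colours -/

section alg

variable {R : Type} [CommRing R]

/-- The sign of a letter. -/
def cb_sg (l : BLetter) : R := if l.1 then 1 else -1

theorem cb_sg_mul (l : BLetter) : (cb_sg l : R) * cb_sg l = 1 := by
  unfold cb_sg
  split_ifs <;> ring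

/-- The change of the colours at a letter. -/
def cb_ev (l : BLetter) (f : ℕ → R) : R := cb_sg l * (f (l.2 + 1) - f l.2)

/-- The action of a letter on the colours. -/
def cb_act (l : BLetter) (f : ℕ → R) : ℕ → R := fun j =>
  f j - if l.2 = j ∨ l.2 + 1 = j then cb_ev l f else 0

/-- The action of a braid on the colours. -/
def cb_lev (b : List BLetter) (f : ℕ → R) : ℕ → R := b.foldl (fun g l => cb_act l g) f

/-- The changes at the letters. -/
def cb_e (b : List BLetter) (f : ℕ → R) (k : Fin b.length) : R :=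
  cb_ev b[k] (cb_lev (b.take k) f)

theorem cb_lev_take (b : List BLetter) (f : ℕ → R) (j : ℕ) (k : ℕ) (hk : k ≤ b.length) :
    cb_lev (b.take k) f j = f j - ∑ l : Fin b.length,
      (if l.1 < k ∧ (b[l].2 = j ∨ b[l].2 + 1 = j) then cb_e b f l else 0) := by
  induction k with
  | zero => simp [cb_lev]
  | succ k ih =>
    have hk' : k < b.length := hk
    have h1 : b.take (k + 1) = b.take k ++ [b[k]] := by simp
    have h2 : cb_lev (b.take (k + 1)) f = cb_act b[k] (cb_lev (b.take k) f) := by
      unfold cb_lev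
      rw [h1, List.foldl_append]
      rfl
    have h3 : ∀ l : Fin b.length,
        (if l.1 < k + 1 ∧ (b[l].2 = j ∨ b[l].2 + 1 = j) then cb_e b f l else 0) =
        (if l.1 < k ∧ (b[l].2 = j ∨ b[l].2 + 1 = j) then cb_e b f l else 0) +
        (if l = ⟨k, hk'⟩ then (if b[l].2 = j ∨ b[l].2 + 1 = j then cb_e b f l else 0) else 0) := by
      intro l
      by_cases hl : l = ⟨k, hk'⟩
      · subst hl
        simp
      · have hl' : l.1 ≠ k := fun h => hl (Fin.ext h)
        by_cases h4 : l.1 < k
        · simp [hl, h4, Nat.lt_succ_of_lt h4]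
        · have h5 : ¬ l.1 < k + 1 := by omega
          simp [hl, h4, h5]
    rw [h2]
    show cb_lev (b.take k) f j - _ = _
    rw [ih hk'.le, Finset.sum_congr rfl fun l _ => h3 l, Finset.sum_add_distrib,
      Finset.sum_ite_eq' Finset.univ, if_pos (Finset.mem_univ _)]
    show _ - (if b[k].2 = j ∨ b[k].2 + 1 = j then cb_ev b[k] (cb_lev (b.take k) f) else 0) =
      _ - (_ + (if b[k].2 = j ∨ b[k].2 + 1 = j then cb_ev b[k] (cb_lev (b.take k) f) else 0))
    ring

/-- The part of the equations which comes from the earlier letters. -/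
def cb_G (b : List BLetter) (e : Fin b.length → R) (k : Fin b.length) : R :=
  ∑ l, (if l < k ∧ b[l].2 + 1 = b[k].2 then e l else 0) -
    ∑ l, (if l < k ∧ b[l].2 = b[k].2 + 1 then e l else 0)

theorem cb_G_congr {b : List BLetter} {e e' : Fin b.length → R} {k : Fin b.length}
    (h : ∀ l < k, e l = e' l) : cb_G b e k = cb_G b e' k := by
  unfold cb_G
  congr 1 <;> refine Finset.sum_congr rfl fun l _ => ?_
  · by_cases hl : l < k
    · rw [h l hl]
    · simp [hl]
  · by_cases hl : l < k
    · rw [h l hl]
    · simp [hl]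

theorem cb_e_eq (b : List BLetter) (f : ℕ → R) (k : Fin b.length) :
    cb_e b f k = cb_sg b[k] * (f (b[k].2 + 1) - f b[k].2 + cb_G b (cb_e b f) k) := by
  show cb_sg b[k] * (cb_lev (b.take k) f (b[k].2 + 1) - cb_lev (b.take k) f b[k].2) = _
  rw [cb_lev_take b f _ k k.2.le, cb_lev_take b f _ k k.2.le]
  congr 1
  unfold cb_G
  have h : ∑ l : Fin b.length,
      (if l.1 < k.1 ∧ (b[l].2 = b[k].2 ∨ b[l].2 + 1 = b[k].2) then cb_e b f l else 0) -
      ∑ l : Fin b.length,
      (if l.1 < k.1 ∧ (b[l].2 = b[k].2 + 1 ∨ b[l].2 + 1 = b[k].2 + 1) then cb_e b f l else 0) =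
      ∑ l, (if l < k ∧ b[l].2 + 1 = b[k].2 then cb_e b f l else 0) -
      ∑ l, (if l < k ∧ b[l].2 = b[k].2 + 1 then cb_e b f l else 0) := by
    rw [← Finset.sum_sub_distrib, ← Finset.sum_sub_distrib]
    refine Finset.sum_congr rfl fun l _ => ?_
    have hlt : l < k ↔ l.1 < k.1 := Iff.rfl
    simp only [hlt]
    generalize cb_e b f l = x
    generalize (b[l]).2 = p
    generalize (b[k]).2 = q
    split_ifs <;> first | (exfalso; omega) | ring
  linear_combination h

theorem cb_e_unique {b : List BLetter} {f : ℕ → R} {e : Fin b.length → R}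
    (h : ∀ k, e k = cb_sg b[k] * (f (b[k].2 + 1) - f b[k].2 + cb_G b e k)) : e = cb_e b f := by
  have h1 : ∀ (m : ℕ) (k : Fin b.length), k.1 = m → e k = cb_e b f k := by
    intro m
    induction m using Nat.strong_induction_on with
    | _ m ih =>
      intro k hk
      rw [h k, cb_e_eq b f k, cb_G_congr fun l hl => ih l.1 (hk ▸ hl) l rfl]
  funext k
  exact h1 k.1 k rfl

theorem cb_lev_eq (b : List BLetter) (f : ℕ → R) (j : ℕ) :
    cb_lev b f j = f j - ∑ l : Fin b.length,
      (if b[l].2 = j ∨ b[l].2 + 1 = j then cb_e b f l else 0) := by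
  have h := cb_lev_take b f j b.length le_rfl
  rw [List.take_length] at h
  rw [h]
  congr 1
  refine Finset.sum_congr rfl fun l _ => ?_
  simp [l.2]

theorem cb_cyc_iff {n : ℕ} {b : List BLetter} (hb : ∀ l ∈ b, l.2 + 1 < n)
    (e : Fin b.length → R) :
    (∀ j < n, ∑ l : Fin b.length, (if b[l].2 = j ∨ b[l].2 + 1 = j then e l else 0) = 0) ↔
      e ∈ cyc R b := by
  have hs : ∀ j, ∑ l : Fin b.length, (if b[l].2 = j + 1 ∨ b[l].2 + 1 = j + 1 then e l else 0) =
      ∑ l : Fin b.length, (if b[l].2 = j + 1 then e l else 0) +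
      ∑ l : Fin b.length, (if b[l].2 = j then e l else 0) := by
    intro j
    rw [← Finset.sum_add_distrib]
    refine Finset.sum_congr rfl fun l _ => ?_
    generalize (b[l]).2 = p
    split_ifs <;> first | (exfalso; omega) | simp
  have h0 : ∑ l : Fin b.length, (if b[l].2 = 0 ∨ b[l].2 + 1 = 0 then e l else 0) =
      ∑ l : Fin b.length, (if b[l].2 = 0 then e l else 0) := by
    refine Finset.sum_congr rfl fun l _ => ?_
    simp
  constructor
  · intro h i
    show ∑ l : Fin b.length, (if b[l].2 = i then e l else 0) = 0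
    by_cases hi : i < n
    · induction i with
      | zero =>
        rw [← h0]
        exact h 0 hi
      | succ i ih =>
        have h1 := h (i + 1) hi
        rw [hs i, ih (by omega), add_zero] at h1
        exact h1
    · refine Finset.sum_eq_zero fun l _ => ?_
      have h1 := hb b[l] (List.getElem_mem _)
      rw [if_neg (by omega)]
  · intro h j hj
    have h1 : ∀ i, ∑ l : Fin b.length, (if b[l].2 = i then e l else 0) = 0 := h
    cases j with
    | zero => rw [h0, h1]
    | succ j => rw [hs, h1, h1, add_zero]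

/-! ### The kernel of the symmetrized Seifert form -/

theorem cb_seif_swap (b : List BLetter) (e f : Fin b.length → R) :
    seif b e f = ∑ k, f k * (∑ l, (if k < l ∧ b[k].2 + 1 = b[l].2 then e l else 0) -
      ∑ l, (if k < l ∧ b[k].2 = b[l].2 then e l else 0) - (if b[k].1 then e k else 0)) := by
  unfold seif
  have h1 : ∑ k, e k * ∑ l, (if l < k ∧ b[l].2 + 1 = b[k].2 then f l else 0) =
      ∑ k, f k * ∑ l, (if k < l ∧ b[k].2 + 1 = b[l].2 then e l else 0) := by
    simp only [Finset.mul_sum]
    rw [Finset.sum_comm]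
    refine Finset.sum_congr rfl fun k _ => Finset.sum_congr rfl fun l _ => ?_
    split_ifs <;> ring
  have h2 : ∑ k, e k * ∑ l, (if l < k ∧ b[l].2 = b[k].2 then f l else 0) =
      ∑ k, f k * ∑ l, (if k < l ∧ b[k].2 = b[l].2 then e l else 0) := by
    simp only [Finset.mul_sum]
    rw [Finset.sum_comm]
    refine Finset.sum_congr rfl fun k _ => Finset.sum_congr rfl fun l _ => ?_
    split_ifs <;> ring
  have h3 : ∑ k, e k * (if b[k].1 then f k else 0) =
      ∑ k, f k * (if b[k].1 then e k else 0) := by
    refine Finset.sum_congr rfl fun k _ => ?_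
    split_ifs <;> ring
  simp only [mul_sub, Finset.sum_sub_distrib]
  rw [h1, h2, h3]

theorem cb_form {b : List BLetter} {e : Fin b.length → R} (he : e ∈ cyc R b)
    (f : Fin b.length → R) :
    seif b e f + seif b f e = ∑ k, (cb_G b e k - cb_sg b[k] * e k) * f k := by
  rw [cb_seif_swap b e f]
  unfold seif
  rw [← Finset.sum_add_distrib]
  refine Finset.sum_congr rfl fun k _ => ?_
  have h1 : ∑ l, (if k < l ∧ b[k].2 + 1 = b[l].2 then e l else 0) +
      ∑ l, (if l < k ∧ b[l].2 = b[k].2 + 1 then e l else 0) = 0 := by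
    have h := he (b[k].2 + 1)
    refine Eq.trans ?_ h
    rw [← Finset.sum_add_distrib]
    refine Finset.sum_congr rfl fun l _ => ?_
    rcases lt_trichotomy l k with hl | hl | hl
    · have hl' : ¬ k < l := by omega
      simp [hl, hl']
    · subst hl
      simp
    · have hl' : ¬ l < k := by omega
      simp [hl, hl', eq_comm]
  have h2 : ∑ l, (if k < l ∧ b[k].2 = b[l].2 then e l else 0) +
      ∑ l, (if l < k ∧ b[l].2 = b[k].2 then e l else 0) + e k = 0 := by
    have h := he b[k].2
    have h3 : ∀ l, (if b[l].2 = b[k].2 then e l else 0) =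
        (if k < l ∧ b[k].2 = b[l].2 then e l else 0) +
        (if l < k ∧ b[l].2 = b[k].2 then e l else 0) + (if l = k then e l else 0) := by
      intro l
      rcases lt_trichotomy l k with hl | hl | hl
      · have hl' : ¬ k < l := by omega
        have hl'' : l ≠ k := by omega
        simp [hl, hl', hl'']
      · subst hl
        simp
      · have hl' : ¬ l < k := by omega
        have hl'' : l ≠ k := by omega
        simp [hl, hl', hl'', eq_comm]
    rw [Finset.sum_congr rfl fun l _ => h3 l, Finset.sum_add_distrib, Finset.sum_add_distrib,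
      Finset.sum_ite_eq' Finset.univ, if_pos (Finset.mem_univ _)] at h
    exact h
  unfold cb_G cb_sg
  cases b[k].1
  · simp only [Bool.false_eq_true, if_false]
    linear_combination f k * h1 - f k * h2
  · simp only [if_true]
    linear_combination f k * h1 - f k * h2

theorem cb_ker_iff {n : ℕ} {b : List BLetter} (hb : ∀ l ∈ b, l.2 + 1 < n)
    {e : Fin b.length → R} (he : e ∈ cyc R b) :
    (∀ f : cyc R b, seif b e f.1 + seif b f.1 e = 0) ↔
      ∃ d : ℕ → R, ∀ k, e k = cb_sg b[k] * (d b[k].2 + cb_G b e k) := by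
  constructor
  · intro h
    have h1 : ∀ k k' : Fin b.length, b[k].2 = b[k'].2 →
        cb_sg b[k] * e k - cb_G b e k = cb_sg b[k'] * e k' - cb_G b e k' := by
      intro k k' hk
      have hf : (Pi.single k 1 - Pi.single k' 1 : Fin b.length → R) ∈ cyc R b := by
        intro i
        have h2 : ∀ l : Fin b.length,
            (if b[l].2 = i then (Pi.single k 1 - Pi.single k' 1 : Fin b.length → R) l else 0) =
            (if l = k then (if b[l].2 = i then 1 else 0) else 0) -
            (if l = k' then (if b[l].2 = i then 1 else 0) else 0) := by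
          intro l
          simp only [Pi.sub_apply, Pi.single_apply]
          split_ifs <;> simp
        rw [Finset.sum_congr rfl fun l _ => h2 l, Finset.sum_sub_distrib,
          Finset.sum_ite_eq' Finset.univ, Finset.sum_ite_eq' Finset.univ,
          if_pos (Finset.mem_univ _), if_pos (Finset.mem_univ _), hk, sub_self]
      have h3 := h ⟨_, hf⟩
      rw [cb_form he] at h3
      have h4 : ∀ l : Fin b.length, (cb_G b e l - cb_sg b[l] * e l) *
          (Pi.single k 1 - Pi.single k' 1 : Fin b.length → R) l =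
          (if l = k then (cb_G b e l - cb_sg b[l] * e l) else 0) -
          (if l = k' then (cb_G b e l - cb_sg b[l] * e l) else 0) := by
        intro l
        simp only [Pi.sub_apply, Pi.single_apply]
        split_ifs <;> ring
      rw [Finset.sum_congr rfl fun l _ => h4 l, Finset.sum_sub_distrib,
        Finset.sum_ite_eq' Finset.univ, Finset.sum_ite_eq' Finset.univ,
        if_pos (Finset.mem_univ _), if_pos (Finset.mem_univ _)] at h3
      linear_combination -h3
    classical
    refine ⟨fun i => if hi : ∃ k : Fin b.length, b[k].2 = i then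
      cb_sg b[hi.choose] * e hi.choose - cb_G b e hi.choose else 0, fun k => ?_⟩
    have hi : ∃ k' : Fin b.length, b[k'].2 = b[k].2 := ⟨k, rfl⟩
    beta_reduce
    rw [dif_pos hi, ← h1 k hi.choose hi.choose_spec.symm]
    linear_combination -(e k) * cb_sg_mul (R := R) b[k]
  · rintro ⟨d, hd⟩ f
    rw [cb_form he]
    have h1 : ∀ k, (cb_G b e k - cb_sg b[k] * e k) * f.1 k =
        - ∑ i ∈ Finset.range n, (if b[k].2 = i then d i * f.1 k else 0) := by
      intro k
      have h2 := hb b[k] (List.getElem_mem _)
      rw [Finset.sum_ite_eq, if_pos (Finset.mem_range.2 (by omega))]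
      have h3 := hd k
      linear_combination (-(cb_sg b[k]) * f.1 k) * h3 -
        ((d b[k].2 + cb_G b e k) * f.1 k) * cb_sg_mul (R := R) b[k]
    rw [Finset.sum_congr rfl fun k _ => h1 k, Finset.sum_neg_distrib, Finset.sum_comm]
    rw [Finset.sum_eq_zero, neg_zero]
    intro i _
    have h2 : ∑ k, (if b[k].2 = i then f.1 k else 0) = 0 := f.2 i
    calc ∑ k, (if b[k].2 = i then d i * f.1 k else 0)
        = d i * ∑ k, (if b[k].2 = i then f.1 k else 0) := by
          rw [Finset.mul_sum]
          refine Finset.sum_congr rfl fun k _ => ?_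
          split_ifs <;> simp
      _ = 0 := by rw [h2, mul_zero]

/-! ### The fixed colours -/

/-- The colours of the strands, as a function on all the natural numbers. -/
def cb_ext {n : ℕ} (c : Fin n → R) : ℕ → R := fun j => if h : j < n then c ⟨j, h⟩ else 0

/-- The colours which are fixed by the braid. -/
def CbFix (R : Type) [CommRing R] (n : ℕ) (b : List BLetter) : Type :=
  {c : Fin n → R // ∀ j : Fin n, cb_lev b (cb_ext c) j = c j}

theorem cb_fix_mem {n : ℕ} {b : List BLetter} (hb : ∀ l ∈ b, l.2 + 1 < n) (c : CbFix R n b) :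
    cb_e b (cb_ext c.1) ∈ cyc R b := by
  refine (cb_cyc_iff hb _).1 fun j hj => ?_
  have h1 := c.2 ⟨j, hj⟩
  rw [cb_lev_eq] at h1
  have h2 : cb_ext c.1 j = c.1 ⟨j, hj⟩ := dif_pos hj
  simp only [h2] at h1
  linear_combination -h1

theorem cb_fix_ker {n : ℕ} {b : List BLetter} (hb : ∀ l ∈ b, l.2 + 1 < n) (c : CbFix R n b) :
    ∀ f : cyc R b, seif b (cb_e b (cb_ext c.1)) f.1 + seif b f.1 (cb_e b (cb_ext c.1)) = 0 :=
  (cb_ker_iff hb (cb_fix_mem hb c)).2
    ⟨fun i => cb_ext c.1 (i + 1) - cb_ext c.1 i, fun k => cb_e_eq b _ k⟩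

theorem cb_card_fix (n : ℕ) (b : List BLetter) (hb : ∀ l ∈ b, l.2 + 1 < n) (hn : 0 < n)
    (hcol : ∀ i, i + 1 < n → ∃ l ∈ b, l.2 = i) :
    Nat.card (CbFix R n b) = Nat.card R * Nat.card {e : cyc R b //
      ∀ f : cyc R b, seif b e.1 f.1 + seif b f.1 e.1 = 0} := by
  rw [← Nat.card_prod]
  refine Nat.card_congr (Equiv.ofBijective (fun c : CbFix R n b =>
    ((c.1 ⟨0, hn⟩, ⟨⟨cb_e b (cb_ext c.1), cb_fix_mem hb c⟩, cb_fix_ker hb c⟩) :
      R × {e : cyc R b // ∀ f : cyc R b, seif b e.1 f.1 + seif b f.1 e.1 = 0})) ⟨?_, ?_⟩)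
  · intro c c' h
    simp only [Prod.mk.injEq, Subtype.mk.injEq] at h
    obtain ⟨h0, he⟩ := h
    have h1 : ∀ j, j < n → cb_ext c.1 j = cb_ext c'.1 j := by
      intro j
      induction j with
      | zero =>
        intro _
        show dite _ _ _ = dite _ _ _
        rw [dif_pos hn, dif_pos hn]
        exact h0
      | succ j ih =>
        intro hj
        obtain ⟨l, hl, hlj⟩ := hcol j hj
        obtain ⟨k, hk, hkl⟩ := List.getElem_of_mem hl
        have hk2 : b[(⟨k, hk⟩ : Fin b.length)].2 = j := by
          show b[k].2 = j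
          rw [hkl, hlj]
        have h2 := cb_e_eq b (cb_ext c.1) ⟨k, hk⟩
        have h3 := cb_e_eq b (cb_ext c'.1) ⟨k, hk⟩
        rw [he, hk2] at h2
        rw [hk2] at h3
        have h4 := ih (by omega)
        have h5 := cb_sg_mul (R := R) b[(⟨k, hk⟩ : Fin b.length)]
        have h6 : cb_sg b[(⟨k, hk⟩ : Fin b.length)] *
            ((cb_ext c.1 (j + 1) - cb_ext c.1 j) - (cb_ext c'.1 (j + 1) - cb_ext c'.1 j)) = 0 := by
          linear_combination h3 - h2
        have h7 : (cb_ext c.1 (j + 1) - cb_ext c.1 j) -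
            (cb_ext c'.1 (j + 1) - cb_ext c'.1 j) = 0 := by
          linear_combination (cb_sg b[(⟨k, hk⟩ : Fin b.length)]) * h6 -
            ((cb_ext c.1 (j + 1) - cb_ext c.1 j) - (cb_ext c'.1 (j + 1) - cb_ext c'.1 j)) * h5
        linear_combination h7 + h4
    refine Subtype.ext (funext fun j => ?_)
    have h2 := h1 j.1 j.2
    have h3 : cb_ext c.1 j.1 = c.1 j := dif_pos j.2
    have h4 : cb_ext c'.1 j.1 = c'.1 j := dif_pos j.2
    rw [← h3, ← h4, h2]
  · rintro ⟨c0, ⟨⟨e, he⟩, hk⟩⟩
    obtain ⟨d, hd⟩ := (cb_ker_iff hb he).1 hk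
    let f : ℕ → R := fun j => c0 + ∑ i ∈ Finset.range j, d i
    let c : Fin n → R := fun j => f j
    have hc : ∀ j, j < n → cb_ext c j = f j := fun j hj => dif_pos hj
    have h1 : e = cb_e b (cb_ext c) := by
      refine cb_e_unique fun k => ?_
      have h2 := hb b[k] (List.getElem_mem _)
      rw [hc _ h2, hc _ (by omega)]
      have h3 : f (b[k].2 + 1) - f b[k].2 = d b[k].2 := by
        show c0 + ∑ i ∈ Finset.range (b[k].2 + 1), d i - (c0 + ∑ i ∈ Finset.range b[k].2, d i) = _
        rw [Finset.sum_range_succ]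
        ring
      rw [h3]
      exact hd k
    have h2 : ∀ j : Fin n, cb_lev b (cb_ext c) j = c j := by
      intro j
      rw [cb_lev_eq, ← h1]
      have h3 := (cb_cyc_iff hb e).2 he j.1 j.2
      rw [h3, sub_zero]
      exact dif_pos j.2
    refine ⟨⟨c, h2⟩, ?_⟩
    refine Prod.ext ?_ (Subtype.ext (Subtype.ext h1.symm))
    show c0 + ∑ i ∈ Finset.range 0, d i = c0
    simp

end alg

/-! ### The labelled closures -/

section path

variable {C : Type} {P : Palette C}

/-- The labels of the minima. -/
def cb_lab : Kind C × ℕ → Option C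
  | (.cup c, _) => some c
  | _ => none

/-- The letters of a braid. -/
def cb_br (C : Type) (b : List BLetter) : Word C :=
  b.map fun l => (if l.1 then Kind.pos else Kind.neg, l.2)

/-- The maxima of a closed braid. -/
def cb_caps (C : Type) (n : ℕ) : Word C := (List.range n).map fun r => (Kind.cap, n - 1 - r)

/-- The closed braid with the labels `c`. -/
def cb_word (c : List C) (b : List BLetter) : Word C :=
  (c.zipIdx.map fun x => (Kind.cup x.1, x.2)) ++ cb_br C b ++ cb_caps C c.length

theorem cb_lab_word (c : List C) (b : List BLetter) :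
    (cb_word c b).filterMap cb_lab = c := by
  have h1 : ∀ (c : List C) (m : ℕ),
      ((c.zipIdx m).map fun x => ((Kind.cup x.1, x.2) : Kind C × ℕ)).filterMap cb_lab = c := by
    intro c
    induction c with
    | nil => intro m; rfl
    | cons a c ih =>
      intro m
      rw [List.zipIdx_cons, List.map_cons, List.filterMap_cons]
      show a :: _ = _
      rw [ih]
  have h2 : (cb_br C b).filterMap cb_lab = [] := by
    rw [List.filterMap_eq_nil_iff]
    intro x hx
    obtain ⟨l, -, rfl⟩ := List.mem_map.1 hx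
    obtain ⟨s, i⟩ := l
    cases s <;> rfl
  have h3 : (cb_caps C c.length).filterMap cb_lab = [] := by
    rw [List.filterMap_eq_nil_iff]
    intro x hx
    obtain ⟨l, -, rfl⟩ := List.mem_map.1 hx
    rfl
  rw [cb_word, List.filterMap_append, List.filterMap_append, h1, h2, h3, List.append_nil,
    List.append_nil]

theorem cb_erase_word (c : List C) (b : List BLetter) :
    erase (cb_word c b) = bClosure c.length b := by
  have h1 : ∀ (c : List C) (m : ℕ),
      wmap (fun _ => ()) ((c.zipIdx m).map fun x => ((Kind.cup x.1, x.2) : Kind C × ℕ)) =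
        (List.range' m c.length).map fun r => (Kind.cup (), r) := by
    intro c
    induction c with
    | nil => intro m; rfl
    | cons a c ih =>
      intro m
      rw [List.zipIdx_cons, List.map_cons, List.length_cons, List.range'_succ, List.map_cons,
        wmap_cons, ih]
      rfl
  have h2 : wmap (fun _ => ()) (cb_br C b) = bWord b := by
    unfold cb_br bWord wmap
    rw [List.map_map]
    refine List.map_congr_left fun l _ => ?_
    obtain ⟨s, i⟩ := l
    cases s <;> rfl
  have h3 : wmap (fun _ => ()) (cb_caps C c.length) =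
      (List.range c.length).map fun r => ((Kind.cap, c.length - 1 - r) : Kind Unit × ℕ) := by
    unfold cb_caps wmap
    rw [List.map_map]
    rfl
  show wmap (fun _ => ()) (cb_word c b) = _
  rw [cb_word, wmap_append, wmap_append, h1, h2, h3, ← List.range_eq_range']
  rfl

/-- A word without minima is determined by the unlabelled word. -/
theorem cb_wmap_inj {u : Word C} (hu : ∀ x ∈ u, ∀ c, x.1 ≠ Kind.cup c) {w : Word C}
    (h : wmap (fun _ => ()) w = wmap (fun _ => ()) u) : w = u := by
  induction u generalizing w with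
  | nil => exact wmap_eq_nil.1 h
  | cons l u ih =>
    obtain ⟨k, i⟩ := l
    rw [wmap_cons] at h
    obtain ⟨k', v, rfl, h1, h2⟩ := wmap_eq_cons h
    have hk := hu (k, i) (List.mem_cons_self ..)
    have e : k' = k := by
      cases k with
      | cup c => exact absurd rfl (hk c)
      | cap => exact Kind.map_eq_cap h1
      | pos => exact Kind.map_eq_pos h1
      | neg => exact Kind.map_eq_neg h1
    rw [e, ih (fun x hx => hu x (List.mem_cons_of_mem _ hx)) h2]

theorem cb_exists_word {n : ℕ} {b : List BLetter} {W : Word C} (h : erase W = bClosure n b) :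
    ∃ c : List C, c.length = n ∧ W = cb_word c b := by
  have h' : wmap (fun _ => ()) W = ((List.range n).map fun r => (Kind.cup (), r)) ++ bWord b ++
    ((List.range n).map fun r => (Kind.cap, n - 1 - r)) := h
  obtain ⟨W1, W3, rfl, h12, h3⟩ := wmap_eq_append h'
  obtain ⟨W1, W2, rfl, h1, h2⟩ := wmap_eq_append h12
  have hc : ∀ (n m : ℕ) (W1 : Word C),
      wmap (fun _ => ()) W1 = (List.range' m n).map (fun r => (Kind.cup (), r)) →
      ∃ c : List C, c.length = n ∧ W1 = (c.zipIdx m).map fun x => (Kind.cup x.1, x.2) := by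
    intro n
    induction n with
    | zero =>
      intro m W1 h1
      exact ⟨[], rfl, wmap_eq_nil.1 h1⟩
    | succ n ih =>
      intro m W1 h1
      rw [List.range'_succ, List.map_cons] at h1
      obtain ⟨k', v, rfl, h4, h5⟩ := wmap_eq_cons h1
      obtain ⟨a, rfl, -⟩ := Kind.map_eq_cup h4
      obtain ⟨c, rfl, rfl⟩ := ih (m + 1) v h5
      exact ⟨a :: c, rfl, by rw [List.zipIdx_cons, List.map_cons]⟩
  rw [List.range_eq_range'] at h1
  obtain ⟨c, hcn, rfl⟩ := hc n 0 W1 h1
  subst hcn
  refine ⟨c, rfl, ?_⟩
  have e2 : W2 = cb_br C b := by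
    refine cb_wmap_inj (u := cb_br C b) ?_ ?_
    · intro x hx a
      obtain ⟨l, -, rfl⟩ := List.mem_map.1 hx
      obtain ⟨s, i⟩ := l
      cases s <;> simp
    · rw [h2]
      unfold cb_br bWord wmap
      rw [List.map_map]
      refine List.map_congr_left fun l _ => ?_
      obtain ⟨s, i⟩ := l
      cases s <;> rfl
  have e3 : W3 = cb_caps C c.length := by
    refine cb_wmap_inj (u := cb_caps C c.length) ?_ ?_
    · intro x hx a
      obtain ⟨l, -, rfl⟩ := List.mem_map.1 hx
      simp
    · rw [h3]
      unfold cb_caps wmap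
      rw [List.map_map]
      rfl
  rw [e2, e3]
  rfl

theorem cb_path_cups (c : List C) (s t r : List C) :
    Path P ((c.zipIdx s.length).map fun x => (Kind.cup x.1, x.2)) (s ++ t) r ↔
      r = s ++ (c ++ ((c.map P.bar).reverse ++ t)) := by
  induction c generalizing s t with
  | nil =>
    rw [List.zipIdx_nil, List.map_nil, path_nil_iff]
    simp [eq_comm]
  | cons a c ih =>
    rw [List.zipIdx_cons, List.map_cons, path_cons_iff]
    have h1 : Step P (Kind.cup a) s.length (s ++ t) ((s ++ [a]) ++ (P.bar a :: t)) := by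
      have := (Step.cup (P := P) a t).left s
      rw [Nat.zero_add] at this
      simpa using this
    have h2 := ih (s ++ [a]) (P.bar a :: t)
    rw [List.length_append, List.length_singleton] at h2
    constructor
    · rintro ⟨t', h3, h4⟩
      rw [h3.det h1] at h4
      rw [h2.1 h4]
      simp
    · intro h
      refine ⟨_, h1, h2.2 ?_⟩
      rw [h]
      simp

theorem cb_path_caps (hbar : Function.Injective P.bar) (n : ℕ) (c d t r : List C)
    (hc : c.length = n) (hd : d.length = n) :
    Path P (cb_caps C n) (c ++ ((d.map P.bar).reverse ++ t)) r ↔ c = d ∧ r = t := by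
  induction n generalizing c d t with
  | zero =>
    rw [List.length_eq_zero_iff] at hc hd
    subst hc hd
    show Path P [] _ _ ↔ _
    rw [path_nil_iff]
    simp [eq_comm]
  | succ n ih =>
    obtain ⟨c', a, rfl⟩ : ∃ c' a, c = c' ++ [a] := by
      rcases List.eq_nil_or_concat c with h | ⟨c', a, h⟩
      · rw [h] at hc
        simp at hc
      · exact ⟨c', a, by rw [h, List.concat_eq_append]⟩
    obtain ⟨d', a', rfl⟩ : ∃ d' a', d = d' ++ [a'] := by
      rcases List.eq_nil_or_concat d with h | ⟨d', a', h⟩
      · rw [h] at hd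
        simp at hd
      · exact ⟨d', a', by rw [h, List.concat_eq_append]⟩
    have hc' : c'.length = n := by simpa using hc
    have hd' : d'.length = n := by simpa using hd
    have e1 : cb_caps C (n + 1) = (Kind.cap, n) :: cb_caps C n := by
      unfold cb_caps
      rw [List.range_succ_eq_map, List.map_cons, List.map_map]
      refine congrArg₂ List.cons ?_ (List.map_congr_left fun r _ => ?_)
      · simp
      · show ((Kind.cap, n + 1 - 1 - (r + 1)) : Kind C × ℕ) = _
        have : n + 1 - 1 - (r + 1) = n - 1 - r := by omega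
        rw [this]
    have e2 : (c' ++ [a]) ++ (((d' ++ [a']).map P.bar).reverse ++ t) =
        c' ++ (a :: P.bar a' :: ((d'.map P.bar).reverse ++ t)) := by simp
    rw [e1, path_cons_iff, e2]
    constructor
    · rintro ⟨t', h1, h2⟩
      rw [← Nat.zero_add n] at h1
      obtain ⟨l, s', t'', hl, hs, rfl, h3⟩ := step_add_iff.1 h1
      obtain ⟨hl1, hl2⟩ := List.append_inj hs (by rw [hc', hl])
      subst hl1
      obtain ⟨x, hx⟩ := step_cap.1 h3
      rw [hx] at hl2
      simp only [List.cons.injEq] at hl2
      obtain ⟨h4, h5, h6⟩ := hl2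
      subst h4
      have h7 : a' = a := hbar h5
      subst h7
      rw [← h6] at h2
      obtain ⟨h8, h9⟩ := (ih c' d' t hc' hd').1 h2
      exact ⟨by rw [h8], h9⟩
    · rintro ⟨h1, h2⟩
      obtain ⟨h3, h4⟩ := List.append_inj h1 (by rw [hc', hd'])
      simp only [List.cons.injEq, and_true] at h4
      subst h4
      refine ⟨c' ++ ((d'.map P.bar).reverse ++ t), ?_, (ih c' d' t hc' hd').2 ⟨h3, h2⟩⟩
      have := (Step.cap (P := P) a ((d'.map P.bar).reverse ++ t)).left c'
      rwa [hc', Nat.zero_add] at this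

end path

section fox

theorem cb_range_split {X : Type} (f : ℕ → X) (i m : ℕ) :
    (List.range (i + 2 + m)).map f =
      (List.range i).map f ++ (f i :: f (i + 1) :: (List.range m).map fun j => f (i + 2 + j)) := by
  rw [List.range_add, List.map_append, List.range_add, List.map_append, List.append_assoc]
  simp [List.range_succ, Function.comp_def]

theorem cb_step {N n : ℕ} (l : BLetter) (f : ℕ → ZMod N) (h : l.2 + 1 < n)
    (t : List (ZMod N)) :
    Step (fox N) (if l.1 then Kind.pos else Kind.neg) l.2 ((List.range n).map f ++ t)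
      ((List.range n).map (cb_act l f) ++ t) := by
  obtain ⟨s, i⟩ := l
  obtain ⟨m, rfl⟩ := Nat.exists_eq_add_of_le (show i + 2 ≤ n from h)
  rw [cb_range_split, cb_range_split]
  have h1 : (List.range i).map (cb_act (s, i) f) = (List.range i).map f := by
    refine List.map_congr_left fun j hj => ?_
    have := List.mem_range.1 hj
    show f j - (if i = j ∨ i + 1 = j then _ else _) = f j
    rw [if_neg (by omega), sub_zero]
  have h2 : ((List.range m).map fun j => cb_act (s, i) f (i + 2 + j)) =
      (List.range m).map fun j => f (i + 2 + j) := by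
    refine List.map_congr_left fun j _ => ?_
    show f (i + 2 + j) - (if i = i + 2 + j ∨ i + 1 = i + 2 + j then _ else _) = f (i + 2 + j)
    rw [if_neg (by omega), sub_zero]
  rw [h1, h2]
  have hl : ((List.range i).map f).length = i := by simp
  cases s
  · have h3 := ((Step.neg (P := fox N) (f i) (f (i + 1))
      (((List.range m).map fun j => f (i + 2 + j)) ++ t)).left ((List.range i).map f))
    rw [Nat.zero_add, hl] at h3
    have e1 : cb_act (false, i) f i = f (i + 1) := by
      simp only [cb_act, cb_ev, cb_sg]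
      simp
    have e2 : cb_act (false, i) f (i + 1) = (fox N).act (f i) (f (i + 1)) := by
      show _ = 2 * f (i + 1) - f i
      simp only [cb_act, cb_ev, cb_sg]
      simp
      ring
    rw [e1, e2]
    simpa using h3
  · have h3 := ((Step.pos (P := fox N) (f i) (f (i + 1))
      (((List.range m).map fun j => f (i + 2 + j)) ++ t)).left ((List.range i).map f))
    rw [Nat.zero_add, hl] at h3
    have e1 : cb_act (true, i) f i = (fox N).act (f (i + 1)) ((fox N).bar (f i)) := by
      show _ = 2 * f i - f (i + 1)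
      simp only [cb_act, cb_ev, cb_sg]
      simp
      ring
    have e2 : cb_act (true, i) f (i + 1) = f i := by
      simp only [cb_act, cb_ev, cb_sg]
      simp
    rw [e1, e2]
    simpa using h3

theorem cb_path_br {N n : ℕ} (b : List BLetter) (hb : ∀ l ∈ b, l.2 + 1 < n) (f : ℕ → ZMod N)
    (t r : List (ZMod N)) :
    Path (fox N) (cb_br (ZMod N) b) ((List.range n).map f ++ t) r ↔
      r = (List.range n).map (cb_lev b f) ++ t := by
  induction b generalizing f with
  | nil =>
    show Path _ [] _ _ ↔ _
    rw [path_nil_iff]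
    exact eq_comm
  | cons l b ih =>
    show Path _ ((if l.1 then Kind.pos else Kind.neg, l.2) :: cb_br (ZMod N) b) _ _ ↔ _
    rw [path_cons_iff]
    have h1 := cb_step l f (hb l (List.mem_cons_self ..)) t
    have h2 := ih (fun x hx => hb x (List.mem_cons_of_mem _ hx)) (cb_act l f)
    constructor
    · rintro ⟨t', h3, h4⟩
      rw [h3.det h1] at h4
      exact h2.1 h4
    · intro h
      exact ⟨_, h1, h2.2 h⟩

theorem cb_path_word {N n : ℕ} (c : List (ZMod N)) (f : ℕ → ZMod N) (b : List BLetter)
    (hb : ∀ l ∈ b, l.2 + 1 < n) (hc : c = (List.range n).map f) :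
    Path (fox N) (cb_word c b) [] [] ↔
      (List.range n).map (cb_lev b f) = (List.range n).map f := by
  have hn : c.length = n := by rw [hc]; simp
  rw [cb_word, List.append_assoc, path_append_iff]
  have h1 := cb_path_cups (P := fox N) c [] []
  rw [List.length_nil] at h1
  have hcd : ∀ r, Path (fox N) (cb_br (ZMod N) b ++ cb_caps (ZMod N) c.length)
      (c ++ ((c.map (fox N).bar).reverse ++ [])) r ↔
      (List.range n).map (cb_lev b f) = c ∧ r = [] := by
    intro r
    rw [path_append_iff]
    have h2 := cb_path_br b hb f ((c.map (fox N).bar).reverse ++ [])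
    rw [← hc] at h2
    constructor
    · rintro ⟨t', h3, h4⟩
      rw [(h2 t').1 h3] at h4
      rw [hn] at h4
      exact (cb_path_caps (P := fox N) (fun x y h => h) n _ c [] r (by simp) hn).1 h4
    · rintro ⟨h3, h4⟩
      refine ⟨_, (h2 _).2 rfl, ?_⟩
      rw [hn]
      exact (cb_path_caps (P := fox N) (fun x y h => h) n _ c [] r (by simp) hn).2 ⟨h3, h4⟩
  constructor
  · rintro ⟨t', h3, h4⟩
    rw [(h1 t').1 h3] at h4
    rw [← hc]
    exact ((hcd []).1 h4).1
  · intro h
    exact ⟨_, (h1 _).2 rfl, (hcd []).2 ⟨by rw [h, hc], rfl⟩⟩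

theorem cb_ofFn {R : Type} [CommRing R] {n : ℕ} (c : Fin n → R) :
    List.ofFn c = (List.range n).map (cb_ext c) := by
  refine List.ext_getElem (by simp) fun i h1 h2 => ?_
  have hi : i < n := by simpa using h1
  simp only [List.getElem_ofFn, List.getElem_map, List.getElem_range]
  have h3 : cb_ext c i = c ⟨i, hi⟩ := dif_pos hi
  rw [h3]

theorem cb_fix_iff {R : Type} [CommRing R] {n : ℕ} (c : Fin n → R) (b : List BLetter) :
    (List.range n).map (cb_lev b (cb_ext c)) = (List.range n).map (cb_ext c) ↔
      ∀ j : Fin n, cb_lev b (cb_ext c) j = c j := by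
  rw [List.map_inj_left]
  constructor
  · intro h j
    rw [h j.1 (List.mem_range.2 j.2)]
    exact dif_pos j.2
  · intro h j hj
    have hj' := List.mem_range.1 hj
    have h3 : cb_ext c j = c ⟨j, hj'⟩ := dif_pos hj'
    rw [h3]
    exact h ⟨j, hj'⟩

theorem cb_card_col (N : ℕ) (n : ℕ) (b : List BLetter) (hb : ∀ l ∈ b, l.2 + 1 < n) :
    Nat.card (Col N (bClosure n b)) = Nat.card (CbFix (ZMod N) n b) := by
  have hw : ∀ c : Fin n → ZMod N, erase (cb_word (List.ofFn c) b) = bClosure n b := by
    intro c
    rw [cb_erase_word, List.length_ofFn]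
  have hp : ∀ c : Fin n → ZMod N, Path (fox N) (cb_word (List.ofFn c) b) [] [] ↔
      ∀ j : Fin n, cb_lev b (cb_ext c) j = c j := by
    intro c
    rw [cb_path_word _ (cb_ext c) b hb (cb_ofFn c), cb_fix_iff]
  refine (Nat.card_congr (Equiv.ofBijective (fun c : CbFix (ZMod N) n b =>
    (⟨cb_word (List.ofFn c.1) b, (hp c.1).2 c.2, hw c.1⟩ : Col N (bClosure n b)))
      ⟨?_, ?_⟩)).symm
  · intro c c' h
    have h1 : cb_word (List.ofFn c.1) b = cb_word (List.ofFn c'.1) b := congrArg Subtype.val h
    have h2 := congrArg (List.filterMap cb_lab) h1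
    rw [cb_lab_word, cb_lab_word] at h2
    exact Subtype.ext (List.ofFn_injective h2)
  · rintro ⟨W, hW, he⟩
    obtain ⟨l, hl, rfl⟩ := cb_exists_word he
    subst hl
    have e : List.ofFn (fun i : Fin l.length => l[i]) = l := List.ofFn_getElem
    refine ⟨⟨fun i => l[i], (hp _).1 (by rw [e]; exact hW)⟩, Subtype.ext ?_⟩
    show cb_word (List.ofFn fun i : Fin l.length => l[i]) b = cb_word l b
    rw [e]

end fox

theorem card_col_bClosure (N : ℕ) [NeZero N] (n : ℕ) (b : List BLetter)
    (hb : ∀ l ∈ b, l.2 + 1 < n) (hn : 0 < n) (hcol : ∀ i, i + 1 < n → ∃ l ∈ b, l.2 = i) :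
    Nat.card (Col N (bClosure n b)) = N * Nat.card {e : cyc (ZMod N) b //
      ∀ f : cyc (ZMod N) b, seif b e.1 f.1 + seif b f.1 e.1 = 0} := by
  rw [cb_card_col N n b hb, cb_card_fix n b hb hn hcol, Nat.card_zmod]

end Pool.Agent.Lib.MP_decac5_gt
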