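import Pool.Agent.Lib.MP_decac5_gt.Tr

/-!
# The number of colourings is an invariant of links
-/

set_option autoImplicit false

namespace Pool.Agent.Lib.MP_decac5_gt

open Pool.Agent.Lib.MP_131179_gt

theorem card_col_eq (N : ℕ) {u v : Word Unit} {L : Link} (hu : IsDiag u L) (hv : IsDiag v L) :
    Nat.card (Col N u) = Nat.card (Col N v) := by
  obtain ⟨F, hF⟩ := exists_tr (eqv_of_isDiag hu hv)
  -- the corresponding labelling of `v`
  have hf : ∀ W : Col N u, ∃ W' : Col N v, F (ZMod N) (fox N) [] W.1 W'.1 := by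
    intro W
    obtain ⟨W', hW'⟩ := hF.fwd (P := fox N) (s := []) (t := []) (W := W.1) rfl W.2.1 W.2.2
    obtain ⟨t, ht⟩ := hF.eqv hW'
    have h1 := ht.left
    have h2 : [] = t := W.2.1.det h1.1
    subst h2
    exact ⟨⟨W', h1.2, hF.right hW'⟩, hW'⟩
  have hb : ∀ W' : Col N v, ∃ W : Col N u, F (ZMod N) (fox N) [] W.1 W'.1 := by
    intro W'
    obtain ⟨W, hW⟩ := hF.bwd (P := fox N) (s := []) (t := []) (W' := W'.1) rfl W'.2.1 W'.2.2
    obtain ⟨t, ht⟩ := hF.eqv hW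
    have h1 := ht.left
    have h2 : [] = t := W'.2.1.det h1.2
    subst h2
    exact ⟨⟨W, h1.1, hF.left hW⟩, hW⟩
  choose f hf using hf
  refine Nat.card_congr (Equiv.ofBijective f ⟨fun W₁ W₂ h => ?_, fun W' => ?_⟩)
  · have h1 := hf W₁
    rw [h] at h1
    exact Subtype.ext (hF.uniq' h1 (hf W₂))
  · obtain ⟨W, hW⟩ := hb W'
    exact ⟨W, Subtype.ext (hF.uniq (hf W) hW)⟩

end Pool.Agent.Lib.MP_decac5_gt
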