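import Pool.Agent.Lib.MP_decac5_gt.KPath

/-!
# The colourings of the diagram modulo 25

Every colouring has `a = b = c = d = x`, the three minima of the first block have the label `x + t`
with `5 t = 0`, the minima of the second block the label `x`.
-/

set_option autoImplicit false

namespace Pool.Agent.Lib.MP_decac5_gt

open Pool.Agent.Lib.MP_131179_gt

variable {C : Type}

/-- Give the labels `l` to the minima of the word. -/
private def ColK_fill : Word Unit → List C → Word C
  | [], _ => []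
  | (.cup _, i) :: u, c :: l => (.cup c, i) :: ColK_fill u l
  | (.cup _, _) :: _, [] => []
  | (.cap, i) :: u, l => (.cap, i) :: ColK_fill u l
  | (.pos, i) :: u, l => (.pos, i) :: ColK_fill u l
  | (.neg, i) :: u, l => (.neg, i) :: ColK_fill u l

/-- The number of minima. -/
private def ColK_cnt : Word Unit → ℕ
  | [] => 0
  | (.cup _, _) :: u => ColK_cnt u + 1
  | (.cap, _) :: u => ColK_cnt u
  | (.pos, _) :: u => ColK_cnt u
  | (.neg, _) :: u => ColK_cnt u

private theorem ColK_exists (W : Word C) :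
    ∃ l : List C, l.length = ColK_cnt (erase W) ∧ W = ColK_fill (erase W) l := by
  induction W with
  | nil => exact ⟨[], rfl, rfl⟩
  | cons k W ih =>
    obtain ⟨l, h1, h2⟩ := ih
    obtain ⟨k, i⟩ := k
    cases k with
    | cup c => exact ⟨c :: l, congrArg (· + 1) h1, congrArg (List.cons (Kind.cup c, i)) h2⟩
    | cap => exact ⟨l, h1, congrArg (List.cons (Kind.cap, i)) h2⟩
    | pos => exact ⟨l, h1, congrArg (List.cons (Kind.pos, i)) h2⟩
    | neg => exact ⟨l, h1, congrArg (List.cons (Kind.neg, i)) h2⟩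

private theorem ColK_cnt_kW : ColK_cnt kW = 9 := by decide

private theorem ColK_fill_kW (a b c d x1 x2 x3 y1 y2 : C) :
    ColK_fill kW [a, b, c, d, x1, x2, x3, y1, y2] = kWL a b c d [x1, x2, x3] [y1, y2] := rfl

private theorem ColK_of_erase {W : Word C} (h : erase W = kW) :
    ∃ a b c d x1 x2 x3 y1 y2 : C, W = kWL a b c d [x1, x2, x3] [y1, y2] := by
  obtain ⟨l, h1, h2⟩ := ColK_exists W
  rw [h, ColK_cnt_kW] at h1
  rw [h] at h2
  rcases l with _ | ⟨a, _ | ⟨b, _ | ⟨c, _ | ⟨d, _ | ⟨x1, _ | ⟨x2, _ | ⟨x3, _ | ⟨y1, _ | ⟨y2, l⟩⟩⟩⟩⟩⟩⟩⟩⟩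
  all_goals try (exfalso; simp at h1; done)
  rcases l with _ | ⟨z, l⟩
  · exact ⟨a, b, c, d, x1, x2, x3, y1, y2, h2⟩
  · exfalso
    simp at h1

private theorem ColK_iff (a b c d x1 x2 x3 y1 y2 : ZMod 25) :
    Path (fox 25) (kWL a b c d [x1, x2, x3] [y1, y2]) [] [] ↔
      b = a ∧ c = a ∧ d = a ∧ y1 = a ∧ y2 = a ∧ x2 = x1 ∧ x3 = x1 ∧ 5 * (x1 - a) = 0 := by
  rw [kWL_iff]
  simp only [blkRel, blkOut, actA, barR, actL, fox, List.map_cons, List.map_nil, List.foldl_cons,
    List.foldl_nil, List.reverse_cons, List.reverse_nil, List.nil_append, List.cons_append,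
    List.cons.injEq, and_true]
  constructor
  · rintro ⟨⟨e1, e2, e3⟩, ⟨f1, f2⟩, o, ⟨g1, g2, g3⟩, k1, k2⟩
    have hb : b = a := by linear_combination g1 - e1
    have hc : c = a := by linear_combination f2 + k2 + g1 - e1
    have hd : d = a := by linear_combination e3 - g3 + f2 + k2 + g1 - e1
    have hy1 : y1 = a := by linear_combination -f1 + e3 - g3 + f2 + k2 + g1 - e1
    have hy2 : y2 = a := by linear_combination k2 + g1 - e1
    have hx2 : x2 = x1 := by linear_combination e2 - e1 + g1 - e1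
    subst hb hc hd hy1 hy2 hx2
    have hx3 : x3 = x2 := by linear_combination e3 - e1
    subst hx3
    exact ⟨rfl, rfl, rfl, rfl, rfl, rfl, rfl, by linear_combination e3⟩
  · rintro ⟨rfl, rfl, rfl, rfl, rfl, rfl, rfl, h⟩
    refine ⟨⟨?_, ?_, ?_⟩, ⟨?_, ?_⟩, y2, ⟨?_, ?_, ?_⟩, ?_, ?_⟩
    · linear_combination h
    · linear_combination h
    · linear_combination h
    · ring
    · ring
    · linear_combination h
    · linear_combination h
    · linear_combination h
    · ring
    · ring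

theorem card_col_kW : Nat.card (Col 25 kW) = 125 := by
  have hF : ∀ p : {p : ZMod 25 × ZMod 25 // 5 * p.2 = 0},
      Path (fox 25) (kWL p.1.1 p.1.1 p.1.1 p.1.1 [p.1.1 + p.1.2, p.1.1 + p.1.2, p.1.1 + p.1.2]
        [p.1.1, p.1.1]) [] [] := by
    intro p
    rw [ColK_iff]
    refine ⟨rfl, rfl, rfl, rfl, rfl, rfl, rfl, ?_⟩
    rw [add_sub_cancel_left]
    exact p.2
  let F : {p : ZMod 25 × ZMod 25 // 5 * p.2 = 0} → Col 25 kW := fun p => ⟨_, hF p, rfl⟩
  have hb : Function.Bijective F := by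
    constructor
    · rintro ⟨⟨x, t⟩, hp⟩ ⟨⟨x', t'⟩, hp'⟩ h
      have h1 : kWL x x x x [x + t, x + t, x + t] [x, x] =
          kWL x' x' x' x' [x' + t', x' + t', x' + t'] [x', x'] := congrArg Subtype.val h
      have h2 : (Kind.cup x, 0) = (Kind.cup x', 0) :=
        Option.some.inj (congrArg (fun W : Word (ZMod 25) => W[0]?) h1)
      have h3 : (Kind.cup (x + t), 4) = (Kind.cup (x' + t'), 4) :=
        Option.some.inj (congrArg (fun W : Word (ZMod 25) => W[5]?) h1)
      have h4 : x = x' := Kind.cup.inj (congrArg Prod.fst h2)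
      have h5 : x + t = x' + t' := Kind.cup.inj (congrArg Prod.fst h3)
      subst h4
      have h6 : t = t' := add_left_cancel h5
      subst h6
      rfl
    · rintro ⟨W, h1, h2⟩
      obtain ⟨a, b, c, d, x1, x2, x3, y1, y2, rfl⟩ := ColK_of_erase h2
      obtain ⟨e1, e2, e3, e4, e5, e6, e7, h3⟩ := (ColK_iff _ _ _ _ _ _ _ _ _).1 h1
      refine ⟨⟨(a, x1 - a), h3⟩, Subtype.ext ?_⟩
      show kWL a a a a [a + (x1 - a), a + (x1 - a), a + (x1 - a)] [a, a] =
        kWL a b c d [x1, x2, x3] [y1, y2]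
      rw [e1, e2, e3, e4, e5, e6, e7, add_sub_cancel]
  rw [← Nat.card_eq_of_bijective F hb, Nat.card_eq_fintype_card]
  decide +kernel

end Pool.Agent.Lib.MP_decac5_gt
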