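import Pool.Agent.Lib.MP_decac5_gt.Base2

/-!
# A closed braid with one component uses all its columns
-/

set_option autoImplicit false

namespace Pool.Agent.Lib.MP_decac5_gt

open Pool.Agent.Lib.MP_131179_gt

variable {C : Type}

/-- The minima of a closed braid. -/
theorem colOne_cups (f : ℕ → C) (n : ℕ) :
    Path (triv C) ((List.range n).map fun r => (Kind.cup (f r), r)) []
      ((List.range n).map f ++ ((List.range n).map f).reverse) := by
  induction n with
  | zero => exact Path.nil _
  | succ n ih =>
    rw [List.range_succ, List.map_append, List.map_append, List.reverse_append]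
    refine ih.append ?_
    have h := (Step.cup (P := triv C) (f n) ((List.range n).map f).reverse).left
      ((List.range n).map f)
    have h' : Step (triv C) (Kind.cup (f n)) n
        ((List.range n).map f ++ ((List.range n).map f).reverse)
        ((List.range n).map f ++ f n :: f n :: ((List.range n).map f).reverse) := by
      simpa [triv] using h
    have h2 := Path.cons h' (Path.nil _)
    simpa using h2

/-- The maxima of a closed braid. -/
theorem colOne_caps (f : ℕ → C) (n : ℕ) :
    Path (triv C) ((List.range n).map fun r => (Kind.cap, n - 1 - r))
      ((List.range n).map f ++ ((List.range n).map f).reverse) [] := by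
  induction n with
  | zero => exact Path.nil _
  | succ n ih =>
    have e1 : ((List.range (n + 1)).map fun r => ((Kind.cap : Kind C), n + 1 - 1 - r)) =
        (Kind.cap, n) :: ((List.range n).map fun r => (Kind.cap, n - 1 - r)) := by
      rw [List.range_succ_eq_map, List.map_cons, List.map_map]
      congr 1
      refine List.map_congr_left fun r _ => ?_
      simp only [Function.comp]
      congr 1
      omega
    rw [e1, List.range_succ, List.map_append, List.reverse_append]
    have h := (Step.cap (P := triv C) (f n) ((List.range n).map f).reverse).left
      ((List.range n).map f)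
    have h' : Step (triv C) Kind.cap n
        ((List.range n).map f ++ f n :: f n :: ((List.range n).map f).reverse)
        ((List.range n).map f ++ ((List.range n).map f).reverse) := by
      simpa [triv] using h
    have h2 := Path.cons h' ih
    simpa using h2

theorem colOne_step (x : Bool) (c : C) (j : ℕ) (s : List C) (h1 : s[j]? = some c)
    (h2 : s[j + 1]? = some c) : Step (triv C) (if x then .pos else .neg) j s s := by
  induction j generalizing s with
  | zero =>
    match s, h1, h2 with
    | a :: b :: s, h1, h2 =>
      have ha : a = c := by simpa using h1
      have hb : b = c := by simpa using h2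
      subst ha
      subst hb
      cases x
      · exact Step.neg _ _ _
      · exact Step.pos _ _ _
    | [a], _, h2 => simp at h2
    | [], h1, _ => simp at h1
  | succ j ih =>
    match s, h1, h2 with
    | a :: s, h1, h2 => exact Step.there a (ih s (by simpa using h1) (by simpa using h2))
    | [], h1, _ => simp at h1

theorem colOne_braid (b : List BLetter) (s : List C)
    (h : ∀ l ∈ b, ∃ c, s[l.2]? = some c ∧ s[l.2 + 1]? = some c) :
    Path (triv C) (b.map fun l => (if l.1 then .pos else .neg, l.2)) s s := by
  induction b with
  | nil => exact Path.nil _
  | cons l b ih =>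
    obtain ⟨c, h1, h2⟩ := h l (by simp)
    exact Path.cons (colOne_step l.1 c l.2 s h1 h2) (ih fun l' hl' => h l' (by simp [hl']))

theorem col_of_one {L : Link} {n : ℕ} {b : List BLetter} (hb : ∀ l ∈ b, l.2 + 1 < n)
    (h : IsDiag (bClosure n b) L) (h1 : ¬ AtLeastTwoComponents L) (h2 : L ≠ emptyLink) :
    0 < n ∧ ∀ i, i + 1 < n → ∃ l ∈ b, l.2 = i := by
  constructor
  · rcases Nat.eq_zero_or_pos n with h0 | h0
    · exfalso
      subst h0
      have hb0 : b = [] := by
        rcases b with _ | ⟨l, b⟩
        · rfl
        · exact absurd (hb l (by simp)) (by omega)
      subst hb0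
      obtain ⟨hp, rfl⟩ := h
      exact h2 rfl
    · exact h0
  · intro i hi
    by_contra hcon
    push Not at hcon
    apply h1
    set f : ℕ → Bool := fun r => decide (r ≤ i) with hf
    set s : List Bool := (List.range n).map f ++ ((List.range n).map f).reverse with hs
    have hget : ∀ j, j < n → s[j]? = some (f j) := by
      intro j hj
      rw [hs, List.getElem?_append_left (by simpa using hj)]
      simp [hj]
    have hbr : Path (triv Bool) (b.map fun l => (if l.1 then .pos else .neg, l.2)) s s := by
      refine colOne_braid b s fun l hl => ⟨f l.2, hget _ (by have := hb l hl; omega), ?_⟩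
      rw [hget _ (hb l hl)]
      have h3 := hcon l hl
      have h4 : f (l.2 + 1) = f l.2 := by
        simp only [hf, decide_eq_decide]
        omega
      rw [h4]
    refine ⟨((List.range n).map fun r => (Kind.cup (f r), r)) ++
      (b.map fun l => (if l.1 then .pos else .neg, l.2)) ++
      ((List.range n).map fun r => (Kind.cap, n - 1 - r)), ?_, ?_, ⟨0, ?_⟩, ⟨i + 1, ?_⟩⟩
    · exact ((colOne_cups f n).append hbr).append (colOne_caps f n)
    · have e : wmap (fun _ => ()) (((List.range n).map fun r => (Kind.cup (f r), r)) ++
          (b.map fun l => (if l.1 then .pos else .neg, l.2)) ++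
          ((List.range n).map fun r => (Kind.cap, n - 1 - r))) = bClosure n b := by
        rw [wmap_append, wmap_append]
        unfold bClosure bWord wmap
        rw [List.map_map, List.map_map, List.map_map]
        congr 1
        congr 1
        refine List.map_congr_left fun l _ => ?_
        obtain ⟨x, j⟩ := l
        cases x <;> rfl
      rw [e]
      exact h
    · simp only [List.mem_append, List.mem_map, List.mem_range]
      exact Or.inl (Or.inl ⟨0, by omega, by simp [hf]⟩)
    · simp only [List.mem_append, List.mem_map, List.mem_range]
      exact Or.inl (Or.inl ⟨i + 1, hi, by simp [hf]⟩)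

end Pool.Agent.Lib.MP_decac5_gt
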