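import Pool.Agent.Lib.MP_decac5_gt.Base2
import Pool.Agent.Lib.MP_131179_gt.Hol
import Pool.Agent.Lib.MP_131179_gt.Orient

/-!
# Preliminaries on labelled (1,1)-tangles
-/

set_option autoImplicit false

namespace Pool.Agent.Lib.MP_decac5_gt

open Pool.Agent.Lib.MP_131179_gt

variable {C D G H : Type} [Group G] [Group H]

theorem comp_lonf_bar (x0 : G) (z : G × Bool) : lonf x0 (z.1, !z.2) = (lonf x0 z)⁻¹ := by
  obtain ⟨y, s⟩ := z
  cases s <;> simp [lonf] <;> group

theorem comp_isHom_lonf (x0 : G) : IsHom (lonP x0) (conj G) (lonf x0) := by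
  refine ⟨fun x => comp_lonf_bar x0 x, fun x z => ?_⟩
  obtain ⟨x, s⟩ := x
  obtain ⟨z, r⟩ := z
  show lonf x0 (if r then _ else _) = (lonf x0 (z, r))⁻¹ * lonf x0 (x, s) * lonf x0 (z, r)
  cases r <;> cases s <;> simp [lonf] <;> group

theorem isHom_lonfQ (Λ : Subgroup G) (x0 : G) (h : ∀ l ∈ Λ, l * x0 = x0 * l) :
    IsHom (lonQ Λ x0 h) (conj G) (lonfQ Λ x0 h) := by
  refine ⟨fun x => ?_, fun x z => ?_⟩
  · obtain ⟨x, s⟩ := x
    induction x using Quotient.inductionOn with | h x => ?_
    exact comp_lonf_bar x0 (x, s)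
  · obtain ⟨x, s⟩ := x
    obtain ⟨z, r⟩ := z
    induction x using Quotient.inductionOn with | h x => ?_
    induction z using Quotient.inductionOn with | h z => ?_
    show lonf x0 ((if r then x0⁻¹ else x0) * x * lonf x0 (z, r), s) =
      (lonf x0 (z, r))⁻¹ * lonf x0 (x, s) * lonf x0 (z, r)
    cases r <;> cases s <;> simp [lonf] <;> group

theorem isHom_conj (Φ : G →* H) : IsHom (conj G) (conj H) Φ :=
  ⟨fun x => map_inv Φ x, fun x y => by simp [conj]⟩

/-- The labels at the two ends of a (1,1)-tangle. -/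
theorem ends_conj {w : Word G} {c d : G} (h : Path (conj G) w [c] [d]) : c = d := by
  have h1 := h.map (isHom_inl (1 : G →* Equiv.Perm Unit))
  rcases ends_hol h1 with ⟨x, h2, h3⟩ | ⟨y, z, h2, -⟩
  · rw [Sum.inl.injEq] at h2 h3
    rw [h2, h3]
  · exact absurd h2 (by simp)

theorem closure_inj {c c' : C} {T T' : Word C} (h : closure c T = closure c' T') :
    c = c' ∧ T = T' := by
  unfold MP_131179_gt.closure at h
  rw [List.cons.injEq] at h
  obtain ⟨h1, h2⟩ := h
  have h3 : T = T' := (List.append_left_inj _).1 h2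
  refine ⟨?_, h3⟩
  rw [Prod.mk.injEq, Kind.cup.injEq] at h1
  exact h1.1

theorem wmap_kWL (f : C → D) (a b c d x1 x2 x3 y1 y2 : C) :
    wmap f (kWL a b c d [x1, x2, x3] [y1, y2]) =
      kWL (f a) (f b) (f c) (f d) [f x1, f x2, f x3] [f y1, f y2] := rfl

theorem wmap_kLab (Φ : G →* H) (p r q s w x : G) :
    wmap Φ (kLab p r q s w x) = kLab (Φ p) (Φ r) (Φ q) (Φ s) (Φ w) (Φ x) := by
  unfold kLab
  rw [wmap_kWL]
  simp only [kk, lo, map_mul, map_inv]

/-- A tangle can be labelled by any group element. -/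
theorem exists_labelling' (g : G) {t : Word Unit} (ht : Path (triv Unit) t [()] [()]) :
    ∃ T : Word G, erase T = t ∧ Path (conj G) T [g] [g] := by
  have h1 : Path (triv Unit) (closure () (t ++ [])) [] [] := closure_path2 ht (Path.nil _)
  obtain ⟨o, ho, hp⟩ := exists_orientation h1
  obtain ⟨c, d, T, U, rfl, hT, hU, h2, h3⟩ := closure_labelled ht (Path.nil _) ho hp
  have hU' : U = [] := wmap_eq_nil.1 hU
  subst hU'
  have h4 : d = c := by
    have := path_nil_iff.1 h3
    simpa using this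
  subst h4
  have hf : ∀ g : G, IsHom MP_131179_gt.flip (conj G) (fun x => if x then g else g⁻¹) := by
    intro g
    refine ⟨fun x => ?_, fun x y => ?_⟩
    · cases x <;> simp [MP_131179_gt.flip, conj]
    · cases x <;> cases y <;> simp [MP_131179_gt.flip, conj]
  cases d with
  | true =>
    refine ⟨_, ?_, h2.map (hf g)⟩
    rw [erase_wmap]
    exact hT
  | false =>
    have h5 := h2.map (hf g⁻¹)
    refine ⟨_, ?_, h5.cast ?_ ?_⟩
    · rw [erase_wmap]
      exact hT
    · simp
    · simp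

end Pool.Agent.Lib.MP_decac5_gt
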