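import Pool.Agent.Lib.MP_decac5_gt.CompA

/-!
# A factor with trivial intersection with the longitude has trivial longitude
-/

set_option autoImplicit false

namespace Pool.Agent.Lib.MP_decac5_gt

open Pool.Agent.Lib.MP_131179_gt

variable {C D G H : Type} [Group G] [Group H]

/-- Closed sets of labels for a subgroup. -/
theorem closed_subgroup (S : Subgroup G) : Closed (conj G) (S : Set G) :=
  ⟨fun _ hx => S.inv_mem hx, fun _ hx _ hy => S.mul_mem (S.mul_mem (S.inv_mem hy) hx) hy⟩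

theorem closed_preimage {P : Palette C} {Q : Palette D} {f : C → D} (hf : IsHom P Q f)
    {S : Set D} (hS : Closed Q S) : Closed P (f ⁻¹' S) :=
  ⟨fun x hx => by
    show f (P.bar x) ∈ S
    rw [hf.bar]
    exact hS.bar _ hx, fun x hx y hy => by
    show f (P.act x y) ∈ S
    rw [hf.act]
    exact hS.act _ hx _ hy⟩

/-- Change of the base point of the lifts. -/
theorem lon_rebase (x0 a : G) : IsHom (lonP (a⁻¹ * x0 * a)) (lonP x0) (fun z => (a * z.1, z.2)) := by
  refine ⟨fun x => rfl, fun x z => ?_⟩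
  obtain ⟨x, s⟩ := x
  obtain ⟨z, r⟩ := z
  cases r <;> simp [lonP] <;> group

theorem lon_rebase_f (x0 a : G) (z : G × Bool) :
    lonf x0 (a * z.1, z.2) = lonf (a⁻¹ * x0 * a) z := by
  obtain ⟨z, r⟩ := z
  cases r <;> simp [lonf] <;> group

theorem lon_flip (x0 : G) : IsHom (lonP x0⁻¹) (lonP x0) (fun z => (z.1, !z.2)) := by
  refine ⟨fun x => rfl, fun x z => ?_⟩
  obtain ⟨x, s⟩ := x
  obtain ⟨z, r⟩ := z
  cases r <;> simp [lonP]

theorem lon_flip_f (x0 : G) (z : G × Bool) : lonf x0 (z.1, !z.2) = lonf x0⁻¹ z := by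
  obtain ⟨z, r⟩ := z
  cases r <;> simp [lonf]

/-- A tangle with labels of a knot: the labels of a trivial palette agree. -/
theorem knot_labels {A : Link} (hA : ¬ AtLeastTwoComponents A) {t : Word Unit}
    (hd : IsDiag (closure () t) A) {c : Bool} {T : Word Bool} (hT : erase T = t)
    (hp : Path (triv Bool) T [c] [c]) : ∀ b, HasLabel b T → b = c := by
  intro b hb
  by_contra hbc
  apply hA
  refine ⟨closure c T, closure_path' hp, ?_, ?_⟩
  · show IsDiag (erase (closure c T)) A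
    rw [erase_closure, hT]
    exact hd
  · have h1 : HasLabel c (closure c T) := by
      unfold MP_131179_gt.closure
      exact hasLabel_cons.2 (Or.inl rfl)
    have h2 : HasLabel b (closure c T) := by
      unfold MP_131179_gt.closure
      exact hasLabel_cons.2 (Or.inr (hasLabel_append.2 (Or.inl hb)))
    cases b <;> cases c
    · exact absurd rfl hbc
    · exact ⟨h1, h2⟩
    · exact ⟨h2, h1⟩
    · exact absurd rfl hbc

/-- **The core.** A (1,1)-tangle with labels in the group of a knot, such that the group of the tangle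
does not contain a power of the longitude of the whole knot, has trivial longitudes. -/
theorem core {A : Link} (hA : ¬ AtLeastTwoComponents A) {t : Word Unit}
    (ht : Path (triv Unit) t [()] [()]) (hd : IsDiag (closure () t) A)
    {x lam : G} {Λ : Subgroup G} (hΛ : ∀ l ∈ Λ, ∃ n : ℤ, lam ^ n = l)
    (hc : ∀ l ∈ Λ, l * x = x * l) {y0 : G} {s0 : Bool}
    {T : Word (CosR Λ × Bool)} (hT : erase T = t)
    (hp : Path (lonQ Λ x hc) T [(Quotient.mk _ y0, s0)]
      [(Quotient.mk _ y0, s0)])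
    (S : Subgroup G) (hS0 : lonf x (y0, s0) ∈ S)
    (hS : ∀ z, HasLabel z T → lonfQ Λ x hc z ∈ S)
    (hS1 : ∀ n : ℤ, y0⁻¹ * lam ^ n * y0 ∈ S → n = 0)
    (huniv : ∀ (G' : Type) [Group G'] (T' : Word G') (ν : G'), Path (conj G') T' [ν] [ν] →
      erase T' = t → ∃ Φ : G →* G', Φ (lonf x (y0, s0)) = ν ∧
        wmap Φ (wmap (lonfQ Λ x hc) T) = T')
    (htr : ∀ {u v : Word Unit} {m n : List Unit}, Eqv (triv Unit) u v m n → ∃ F, Tr u v m F) :
    LonTriv A := by
  classical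
  -- the section
  have hlam : ∀ l ∈ Λ, ∀ g ∈ S, ∀ g' ∈ S, l * y0 * g = y0 * g' → l = 1 := by
    intro l hl g hg g' hg' h
    obtain ⟨n, rfl⟩ := hΛ l hl
    have h1 : y0⁻¹ * lam ^ n * y0 = g' * g⁻¹ := by
      have h2 : y0⁻¹ * lam ^ n * y0 = y0⁻¹ * (lam ^ n * y0 * g) * g⁻¹ := by group
      rw [h2, h]
      group
    rw [hS1 n (by rw [h1]; exact S.mul_mem hg' (S.inv_mem hg)), zpow_zero]
  -- the classes in the orbit
  let O : Set (CosR Λ) := {q | ∃ g ∈ S, q = Quotient.mk _ (y0 * g)}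
  have hOuniq : ∀ g ∈ S, ∀ g' ∈ S, (Quotient.mk (QuotientGroup.rightRel Λ) (y0 * g)) =
      Quotient.mk _ (y0 * g') → g = g' := by
    intro g hg g' hg' h
    have h1 : y0 * g' * (y0 * g)⁻¹ ∈ Λ := QuotientGroup.rightRel_apply.1 (Quotient.exact h)
    have h2 := hlam _ h1 g hg g' hg' (by group)
    have h3 : y0 * g' = y0 * g := by
      have : y0 * g' = (y0 * g' * (y0 * g)⁻¹) * (y0 * g) := by group
      rw [this, h2, one_mul]
    exact (mul_left_cancel h3).symm
  let σ : CosR Λ → G := fun q => if h : q ∈ O then y0 * h.choose else 1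
  have hσ : ∀ g ∈ S, σ (Quotient.mk _ (y0 * g)) = y0 * g := by
    intro g hg
    have hm : (Quotient.mk _ (y0 * g) : CosR Λ) ∈ O := ⟨g, hg, rfl⟩
    have h1 : σ (Quotient.mk _ (y0 * g)) = y0 * hm.choose := dif_pos hm
    rw [h1]
    obtain ⟨h2, h3⟩ := hm.choose_spec
    exact congrArg (fun k => y0 * k) (hOuniq g hg _ h2 h3).symm
  -- the element which moves the base point
  have hmv : ∀ b : Bool, ∃ g ∈ S, (if b then x⁻¹ else x) * y0 = y0 * g := by
    intro b
    have h1 : y0⁻¹ * x * y0 ∈ S := by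
      cases s0
      · have := S.inv_mem hS0
        rw [show (lonf x (y0, false))⁻¹ = y0⁻¹ * x * y0 by simp [lonf]; group] at this
        exact this
      · exact hS0
    cases b
    · refine ⟨_, h1, ?_⟩
      simp only [Bool.false_eq_true, if_false]
      group
    · refine ⟨_, S.inv_mem h1, ?_⟩
      simp only [if_true]
      group
  -- closed sets of labels
  have hcl1 : Closed (lonQ Λ x hc) ((lonfQ Λ x hc) ⁻¹' (S : Set G)) :=
    closed_preimage (isHom_lonfQ Λ x hc) (closed_subgroup S)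
  have hact : ∀ (b : Bool) (g : G), g ∈ S → ∀ g' ∈ S, ∃ g'' ∈ S,
      cosAct Λ x hc b g (Quotient.mk _ (y0 * g')) = Quotient.mk _ (y0 * g'') ∧
      (if b then x⁻¹ else x) * (y0 * g') * g = y0 * g'' := by
    intro b g hg g' hg'
    obtain ⟨m, hm, hm'⟩ := hmv b
    have h1 : (if b then x⁻¹ else x) * (y0 * g') * g = y0 * (m * g' * g) := by
      rw [← mul_assoc, hm']
      group
    refine ⟨m * g' * g, S.mul_mem (S.mul_mem hm hg') hg, ?_, h1⟩
    rw [cosAct_mk, h1]
  have hactinv : ∀ (b : Bool) (g : G), g ∈ S → ∀ q : CosR Λ, cosAct Λ x hc b g q ∈ O → q ∈ O := by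
    intro b g hg q hq
    obtain ⟨g', hg', h1⟩ := hq
    obtain ⟨g'', hg'', h2, -⟩ := hact (!b) g⁻¹ (S.inv_mem hg) g' hg'
    refine ⟨g'', hg'', ?_⟩
    rw [← h2, ← h1]
    induction q using Quotient.inductionOn with | h y => ?_
    rw [cosAct_mk, cosAct_mk]
    congr 1
    cases b <;> simp <;> group
  -- the colouring by Booleans
  let χ : CosR Λ × Bool → Bool := fun z => decide (z.1 ∈ O)
  have hχ : Path (triv Bool) (wmap χ T) [true] [true] := by
    have h1 := Path.mapOn (Q := triv Bool) (f := χ) hcl1 (fun z _ => rfl) (fun z hz z' hz' => ?_) hp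
      hS (fun z hz => ?_)
    · have h2 : χ (Quotient.mk _ y0, s0) = true := by
        refine decide_eq_true ?_
        exact ⟨1, S.one_mem, by rw [mul_one]⟩
      have h3 := h1
      simp only [List.map_cons, List.map_nil, h2] at h3
      exact h3
    · show decide (cosAct Λ x hc z'.2 (lonfQ Λ x hc z') z.1 ∈ O) = decide (z.1 ∈ O)
      rw [decide_eq_decide]
      refine ⟨fun h => hactinv _ _ hz' _ h, fun h => ?_⟩
      obtain ⟨g', hg', h2⟩ := h
      obtain ⟨g'', hg'', h3, -⟩ := hact z'.2 (lonfQ Λ x hc z') hz' g' hg'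
      exact ⟨g'', hg'', by rw [h2, h3]⟩
    · rw [List.mem_singleton] at hz
      subst hz
      exact hS0
  have hall : ∀ z, HasLabel z T → z.1 ∈ O := by
    intro z hz
    have h1 := knot_labels hA hd (by rw [erase_wmap]; exact hT) hχ (χ z) (hz.map χ)
    exact of_decide_eq_true h1
  -- the lift
  let f : CosR Λ × Bool → G × Bool := fun z => (σ z.1, z.2)
  let S2 : Set (CosR Λ × Bool) := {z | z.1 ∈ O ∧ lonfQ Λ x hc z ∈ S}
  have hcl2 : Closed (lonQ Λ x hc) S2 := by
    refine ⟨fun z hz => ⟨hz.1, hcl1.bar _ hz.2⟩, fun z hz z' hz' => ⟨?_, hcl1.act _ hz.2 _ hz'.2⟩⟩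
    obtain ⟨g', hg', h2⟩ := hz.1
    obtain ⟨g'', hg'', h3, -⟩ := hact z'.2 (lonfQ Λ x hc z') hz'.2 g' hg'
    refine ⟨g'', hg'', ?_⟩
    show cosAct Λ x hc z'.2 (lonfQ Λ x hc z') z.1 = _
    rw [h2, h3]
  have hfl : ∀ z ∈ S2, lonf x (f z) = lonfQ Λ x hc z := by
    rintro ⟨q, s⟩ ⟨⟨g', hg', h2⟩, -⟩
    have h2' : q = Quotient.mk _ (y0 * g') := h2
    subst h2'
    show lonf x (σ _, s) = _
    rw [hσ g' hg', lonfQ_mk]
  have hO0 : (Quotient.mk _ y0 : CosR Λ) ∈ O := ⟨1, S.one_mem, by rw [mul_one]⟩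
  have hT2 : Path (lonP x) (wmap f T) [(y0, s0)] [(y0, s0)] := by
    have h1 := Path.mapOn (Q := lonP x) (f := f) hcl2 (fun z _ => rfl) (fun z hz z' hz' => ?_) hp
      (fun z hz => ⟨hall z hz, hS z hz⟩) (fun z hz => ?_)
    · have h2 : f (Quotient.mk _ y0, s0) = (y0, s0) := by
        show (σ (Quotient.mk _ y0), s0) = _
        have := hσ 1 S.one_mem
        rw [mul_one] at this
        rw [this]
      have h3 := h1
      simp only [List.map_cons, List.map_nil, h2] at h3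
      exact h3
    · obtain ⟨g', hg', h2⟩ := hz.1
      obtain ⟨g'', hg'', h3, h4⟩ := hact z'.2 (lonfQ Λ x hc z') hz'.2 g' hg'
      have h5 : (lonQ Λ x hc).act z z' = (Quotient.mk _ (y0 * g''), z.2) := by
        show (cosAct Λ x hc z'.2 (lonfQ Λ x hc z') z.1, z.2) = _
        rw [h2, h3]
      rw [h5]
      show (σ (Quotient.mk _ (y0 * g'')), z.2) = (lonP x).act (σ z.1, z.2) (f z')
      rw [h2, hσ g'' hg'', hσ g' hg', ← h4, ← hfl z' hz']
      have h6 : (f z').2 = z'.2 := rfl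
      rw [← h6]
      obtain ⟨a, b⟩ := f z'
      cases b <;> simp [lonP, lonf] 
    · rw [List.mem_singleton] at hz
      subst hz
      exact ⟨hO0, hS0⟩
  have hT3 : wmap (lonf x) (wmap f T) = wmap (lonfQ Λ x hc) T := by
    rw [wmap_wmap]
    exact wmap_congr fun z hz => hfl z ⟨hall z hz, hS z hz⟩
  -- trivial longitudes
  intro G' _ x0 V hV hVd hVl
  obtain ⟨F, hF⟩ := htr (eqv_of_isDiag hVd hd)
  obtain ⟨V1, hV1⟩ := hF.fwd (P := conj G') (s := []) rfl hV rfl
  obtain ⟨t0, hE⟩ := hF.eqv hV1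
  have ht0 : t0 = [] := (hE.path_left.det hV)
  subst ht0
  have he1 : erase V1 = closure () (t ++ []) := by
    rw [List.append_nil]
    exact hF.right hV1
  obtain ⟨ν, ν', T', U', rfl, h2, h3, h4, h5⟩ := closure_labelled ht (Path.nil _) he1 hE.path_right
  have hU' : U' = [] := wmap_eq_nil.1 h3
  subst hU'
  have h6 : ν' = ν := (ends_conj h4).symm
  subst h6
  rw [List.append_nil] at hE hV1 he1
  -- the label at the bottom
  have hSc : Closed (conj G') {g | ∃ z : G' × Bool, g = lonf x0 z} := by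
    have hh := comp_isHom_lonf x0
    refine ⟨?_, ?_⟩
    · rintro _ ⟨z, rfl⟩
      exact ⟨_, (hh.bar z).symm⟩
    · rintro _ ⟨z, rfl⟩ _ ⟨z', rfl⟩
      exact ⟨_, (hh.act z z').symm⟩
  obtain ⟨⟨yν, sν⟩, hν⟩ := labels_of_eqv hSc hE (fun g hg => by
    obtain ⟨i, hi⟩ := hg
    exact hVl g i hi) ν' (by
      unfold MP_131179_gt.closure
      exact hasLabel_cons.2 (Or.inl rfl))
  obtain ⟨Φ, hΦ, hΦT⟩ := huniv G' T' ν' h4 h2
  -- the lift of `T'`
  let fΦ : G × Bool → G' × Bool := fun z => (Φ z.1, z.2)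
  have hfΦ : IsHom (lonP x) (lonP (Φ x)) fΦ := by
    refine ⟨fun z => rfl, fun z z' => ?_⟩
    obtain ⟨z, s⟩ := z
    obtain ⟨z', s'⟩ := z'
    cases s' <;> simp [lonP, fΦ]
  have hfΦl : ∀ z, lonf (Φ x) (fΦ z) = Φ (lonf x z) := by
    rintro ⟨z, s⟩
    cases s <;> simp [lonf, fΦ]
  have hT4 := hT2.map hfΦ
  have hT5 : wmap (lonf (Φ x)) (wmap fΦ (wmap f T)) = T' := by
    have e1 : wmap (lonf (Φ x)) (wmap fΦ (wmap f T)) = wmap Φ (wmap (lonf x) (wmap f T)) := by
      rw [wmap_wmap fΦ (lonf (Φ x)), wmap_wmap (lonf x) Φ]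
      exact wmap_congr fun z _ => hfΦl z
    rw [e1, hT3, hΦT]
  -- change of the base point
  obtain ⟨k, hk, hkl⟩ : ∃ k : G' × Bool → G' × Bool, IsHom (lonP (Φ x)) (lonP x0) k ∧
      ∀ z, lonf x0 (k z) = lonf (Φ x) z := by
    rw [← hΦ] at hν
    have hν2 : Φ (lonf x (y0, s0)) = lonf (Φ x) (Φ y0, s0) := (hfΦl (y0, s0)).symm
    rw [hν2] at hν
    by_cases hs : s0 = sν
    · subst hs
      have h7 : Φ x = (yν * (Φ y0)⁻¹)⁻¹ * x0 * (yν * (Φ y0)⁻¹) := by
        cases s0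
        · have h8 : (Φ y0)⁻¹ * (Φ x)⁻¹ * Φ y0 = yν⁻¹ * x0⁻¹ * yν := by simpa [lonf] using hν
          have h9 : (Φ x)⁻¹ = Φ y0 * (yν⁻¹ * x0⁻¹ * yν) * (Φ y0)⁻¹ := by
            rw [← h8]
            group
          have h10 : Φ x = (Φ y0 * (yν⁻¹ * x0⁻¹ * yν) * (Φ y0)⁻¹)⁻¹ := by rw [← h9, inv_inv]
          rw [h10]
          group
        · have h8 : (Φ y0)⁻¹ * Φ x * Φ y0 = yν⁻¹ * x0 * yν := by simpa [lonf] using hν
          have h9 : Φ x = Φ y0 * (yν⁻¹ * x0 * yν) * (Φ y0)⁻¹ := by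
            rw [← h8]
            group
          rw [h9]
          group
      rw [h7]
      exact ⟨_, lon_rebase x0 _, lon_rebase_f x0 _⟩
    · have hs' : s0 = !sν := by
        cases s0 <;> cases sν <;> simp_all
      subst hs'
      have h7 : Φ x = (yν * (Φ y0)⁻¹)⁻¹ * x0⁻¹ * (yν * (Φ y0)⁻¹) := by
        cases sν
        · have h8 : (Φ y0)⁻¹ * Φ x * Φ y0 = yν⁻¹ * x0⁻¹ * yν := by simpa [lonf] using hν
          have h9 : Φ x = Φ y0 * (yν⁻¹ * x0⁻¹ * yν) * (Φ y0)⁻¹ := by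
            rw [← h8]
            group
          rw [h9]
          group
        · have h8 : (Φ y0)⁻¹ * (Φ x)⁻¹ * Φ y0 = yν⁻¹ * x0 * yν := by simpa [lonf] using hν
          have h9 : (Φ x)⁻¹ = Φ y0 * (yν⁻¹ * x0 * yν) * (Φ y0)⁻¹ := by
            rw [← h8]
            group
          have h10 : Φ x = (Φ y0 * (yν⁻¹ * x0 * yν) * (Φ y0)⁻¹)⁻¹ := by rw [← h9, inv_inv]
          rw [h10]
          group
      rw [h7]
      have h8 := lon_rebase x0⁻¹ (yν * (Φ y0)⁻¹)
      have h9 := lon_flip x0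
      refine ⟨fun z => ((yν * (Φ y0)⁻¹) * z.1, !z.2), ⟨fun z => ?_, fun z z' => ?_⟩, fun z => ?_⟩
      · rfl
      · have h10 := h9.act ((yν * (Φ y0)⁻¹) * z.1, z.2) ((yν * (Φ y0)⁻¹) * z'.1, z'.2)
        have h11 := h8.act z z'
        rw [← h11] at h10
        exact h10
      · rw [← lon_rebase_f x0⁻¹, ← lon_flip_f]
  have hT6 := hT4.map hk
  have hT7 : wmap (lonf x0) (wmap k (wmap fΦ (wmap f T))) = T' := by
    rw [wmap_wmap, ← hT5]
    exact wmap_congr fun z _ => hkl z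
  set T8 := wmap k (wmap fΦ (wmap f T)) with hT8
  set e := k (fΦ (y0, s0)) with he
  have hT9 : Path (lonP x0) T8 [e] [e] := hT6
  have he2 : lonf x0 e = ν' := by
    rw [he, hkl, hfΦl, hΦ]
  have h10 : wmap (lonf x0) (closure e T8) = closure ν' T' := by
    rw [wmap_closure, he2, hT7]
  have h11 : erase (closure e T8) = closure () t := by
    rw [erase_closure, hT8, erase_wmap, erase_wmap, erase_wmap, hT]
  obtain ⟨V2, hV2⟩ := hF.bwd (P := lonP x0) (s := []) rfl (closure_path' hT9) h11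
  have h12 := hF.nat (comp_isHom_lonf x0) hV2
  rw [h10] at h12
  have h13 := hF.uniq' h12 hV1
  obtain ⟨t1, hE2⟩ := hF.eqv hV2
  have ht1 : t1 = [] := hE2.path_right.det (closure_path' hT9)
  subst ht1
  exact ⟨V2, h13, hE2.path_left⟩

end Pool.Agent.Lib.MP_decac5_gt
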