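import Pool.Agent.Lib.MP_decac5_gt.CompA

/-!
# The amalgam of the groups of two factors
-/

set_option autoImplicit false

namespace Pool.Agent.Lib.MP_decac5_gt

open Pool.Agent.Lib.MP_131179_gt

variable {Γ : Type} [Group Γ]

/-- Relabelling by a homomorphism defined on a subgroup. -/
theorem path_on_subgroup {G' : Type} [Group G'] (S : Subgroup Γ) (f : Γ → G')
    (F : S →* G') (hf : ∀ (g : Γ) (h : g ∈ S), f g = F ⟨g, h⟩) {T : Word Γ} {a b : Γ}
    (hT : Path (conj Γ) T [a] [b]) (ha : a ∈ S) (hl : ∀ g, HasLabel g T → g ∈ S) :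
    Path (conj G') (wmap f T) [f a] [f b] := by
  have hS : Closed (conj Γ) (S : Set Γ) :=
    ⟨fun _ hx => S.inv_mem hx, fun _ hx _ hy => S.mul_mem (S.mul_mem (S.inv_mem hy) hx) hy⟩
  have h1 := Path.mapOn (Q := conj G') (f := f) hS (fun x hx => ?_) (fun x hx y hy => ?_) hT hl
    (fun z hz => ?_)
  · exact h1
  · show f x⁻¹ = (f x)⁻¹
    rw [hf x hx, hf x⁻¹ (S.inv_mem hx), ← map_inv]
    rfl
  · show f (y⁻¹ * x * y) = (f y)⁻¹ * f x * f y
    rw [hf x hx, hf y hy, hf _ (S.mul_mem (S.mul_mem (S.inv_mem hy) hx) hy), ← map_inv, ← map_mul,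
      ← map_mul]
    rfl
  · rw [List.mem_singleton] at hz
    rw [hz]
    exact ha

/-- If the labelling of the closure of `T ++ U` is universal then the intersection of the groups of
`T` and of `U` is generated by the meridian. -/
theorem inter_cyclic (S : Bool → Subgroup Γ) (μ : Γ) {T U : Word Γ}
    (hT : Path (conj Γ) T [μ] [μ]) (hU : Path (conj Γ) U [μ] [μ])
    (hS1 : S true = Subgroup.closure ({μ} ∪ {g | HasLabel g T}))
    (hS2 : S false = Subgroup.closure ({μ} ∪ {g | HasLabel g U}))
    (huniv : ∀ (G' : Type) [Group G'] (W : Word G'), Path (conj G') W [] [] →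
      erase W = closure () (erase T ++ erase U) → ∃ Φ : Γ →* G', W = wmap Φ (closure μ (T ++ U)))
    (g : Γ) (h1 : g ∈ S true) (h2 : g ∈ S false) : ∃ n : ℤ, g = μ ^ n := by
  classical
  have hμ : ∀ b, μ ∈ S b := by
    intro b
    cases b
    · rw [hS2]
      exact Subgroup.subset_closure (Or.inl rfl)
    · rw [hS1]
      exact Subgroup.subset_closure (Or.inl rfl)
  have hlT : ∀ g, HasLabel g T → g ∈ S true := by
    intro g hg
    rw [hS1]
    exact Subgroup.subset_closure (Or.inr hg)
  have hlU : ∀ g, HasLabel g U → g ∈ S false := by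
    intro g hg
    rw [hS2]
    exact Subgroup.subset_closure (Or.inr hg)
  have hle : ∀ b, Subgroup.zpowers μ ≤ S b := fun b => Subgroup.zpowers_le.2 (hμ b)
  let φ : (b : Bool) → Subgroup.zpowers μ →* S b := fun b => Subgroup.inclusion (hle b)
  have hφ : ∀ b, Function.Injective (φ b) := fun b => Subgroup.inclusion_injective (hle b)
  let P := Monoid.PushoutI φ
  let f : Bool → Γ → P := fun b g => if h : g ∈ S b then Monoid.PushoutI.of (φ := φ) b ⟨g, h⟩ else 1
  have hf : ∀ (b : Bool) (g : Γ) (h : g ∈ S b),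
      f b g = (Monoid.PushoutI.of (φ := φ) b) ⟨g, h⟩ := fun b g h => dif_pos h
  have hfμ : f true μ = f false μ := by
    have h3 : ∀ b, f b μ = Monoid.PushoutI.base φ ⟨μ, Subgroup.mem_zpowers μ⟩ := by
      intro b
      rw [hf b μ (hμ b), ← Monoid.PushoutI.of_apply_eq_base φ b]
      rfl
    rw [h3, h3]
  have p1 := path_on_subgroup (S true) (f true) _ (hf true) hT (hμ true) hlT
  have p2 := path_on_subgroup (S false) (f false) _ (hf false) hU (hμ false) hlU
  rw [← hfμ] at p2
  have p3 := closure_path2 p1 p2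
  obtain ⟨Φ, hΦ⟩ := huniv P _ p3 (by
    rw [erase_closure]
    simp [wmap_append, wmap_wmap, Function.comp_def])
  rw [wmap_closure] at hΦ
  obtain ⟨h3, h4⟩ := closure_inj hΦ
  rw [wmap_append] at h4
  obtain ⟨h5, h6⟩ := List.append_inj h4 (by simp [wmap])
  -- two relabellings of the same word which agree
  have hag : ∀ {W : Word Γ} {k l : Γ → P}, wmap k W = wmap l W → ∀ g, HasLabel g W → k g = l g := by
    intro W k l h g hg
    obtain ⟨i, hi⟩ := hg
    obtain ⟨n, hn, hn'⟩ := List.getElem_of_mem hi
    have h7 : (wmap k W)[n]? = (wmap l W)[n]? := by rw [h]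
    simp only [wmap, List.getElem?_map, List.getElem?_eq_getElem hn, hn', Option.map_some,
      Kind.map_cup, Option.some.injEq, Prod.mk.injEq, Kind.cup.injEq, and_true] at h7
    exact h7
  have hΦ1 : ∀ (g : Γ) (h : g ∈ S true), Φ g = (Monoid.PushoutI.of (φ := φ) true) ⟨g, h⟩ := by
    have h7 : ∀ g, g ∈ S true → Φ g = f true g := by
      intro g hg
      rw [hS1] at hg
      induction hg using Subgroup.closure_induction with
      | mem g hg =>
        rcases hg with hg | hg
        · rw [Set.mem_singleton_iff] at hg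
          rw [hg]
          exact h3.symm
        · exact (hag h5 g hg).symm
      | one =>
        rw [map_one, hf true 1 (S true).one_mem]
        exact (map_one _).symm
      | mul a b ha hb iha ihb =>
        rw [← hS1] at ha hb
        rw [map_mul, iha, ihb, hf true a ha, hf true b hb, hf true _ ((S true).mul_mem ha hb),
          ← map_mul]
        rfl
      | inv a ha iha =>
        rw [← hS1] at ha
        rw [map_inv, iha, hf true a ha, hf true _ ((S true).inv_mem ha), ← map_inv]
        rfl
    intro g h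
    rw [h7 g h, hf true g h]
  have hΦ2 : ∀ (g : Γ) (h : g ∈ S false),
      Φ g = (Monoid.PushoutI.of (φ := φ) false) ⟨g, h⟩ := by
    have h7 : ∀ g, g ∈ S false → Φ g = f false g := by
      intro g hg
      rw [hS2] at hg
      induction hg using Subgroup.closure_induction with
      | mem g hg =>
        rcases hg with hg | hg
        · rw [Set.mem_singleton_iff] at hg
          rw [hg, ← hfμ]
          exact h3.symm
        · exact (hag h6 g hg).symm
      | one =>
        rw [map_one, hf false 1 (S false).one_mem]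
        exact (map_one _).symm
      | mul a b ha hb iha ihb =>
        rw [← hS2] at ha hb
        rw [map_mul, iha, ihb, hf false a ha, hf false b hb, hf false _ ((S false).mul_mem ha hb),
          ← map_mul]
        rfl
      | inv a ha iha =>
        rw [← hS2] at ha
        rw [map_inv, iha, hf false a ha, hf false _ ((S false).inv_mem ha), ← map_inv]
        rfl
    intro g h
    rw [h7 g h, hf false g h]
  have h8 : Φ g ∈ (Monoid.PushoutI.of (φ := φ) true).range ⊓
      (Monoid.PushoutI.of (φ := φ) false).range :=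
    ⟨⟨⟨g, h1⟩, (hΦ1 g h1).symm⟩, ⟨⟨g, h2⟩, (hΦ2 g h2).symm⟩⟩
  rw [Monoid.PushoutI.inf_of_range_eq_base_range hφ (by decide)] at h8
  obtain ⟨⟨k, hk⟩, h9⟩ := h8
  rw [← Monoid.PushoutI.of_apply_eq_base φ true, hΦ1 g h1] at h9
  have h10 := Monoid.PushoutI.of_injective hφ true h9
  obtain ⟨n, hn⟩ := Subgroup.mem_zpowers_iff.1 hk
  refine ⟨n, ?_⟩
  rw [hn]
  exact (congrArg Subtype.val h10).symm

end Pool.Agent.Lib.MP_decac5_gt
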