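import Mathlib

/-! # The centralizer of a generator of a free group -/

set_option autoImplicit false

namespace Pool.Agent.Lib.MP_decac5_gt

open FreeGroup in
private theorem FreeC_aux (N : ℕ) : ∀ f : FreeGroup (Fin 3), f.toWord.length ≤ N →
    f * FreeGroup.of 0 = FreeGroup.of 0 * f → ∃ n : ℤ, f = FreeGroup.of 0 ^ n := by
  induction N with
  | zero =>
    intro f hf _
    have h1 : f.toWord = [] := List.length_eq_zero_iff.1 (Nat.le_zero.1 hf)
    exact ⟨0, by rw [toWord_eq_nil_iff.1 h1, zpow_zero]⟩
  | succ N ih =>
    intro f hf h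
    rcases hw : f.toWord with _ | ⟨x, w'⟩
    · exact ⟨0, by rw [toWord_eq_nil_iff.1 hw, zpow_zero]⟩
    · have hfm : f = mk (x :: w') := by rw [← hw, mk_toWord]
      have hlen : (mk w' : FreeGroup (Fin 3)).toWord.length ≤ N := by
        have h1 : (mk w' : FreeGroup (Fin 3)).norm ≤ w'.length := norm_mk_le
        have h2 : (x :: w').length ≤ N + 1 := by rw [← hw]; exact hf
        rw [List.length_cons] at h2
        exact h1.trans (by omega)
      have hsplit : f = mk [x] * mk w' := by
        rw [hfm, mul_mk]
        rfl
      by_cases hx : x.1 = 0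
      · obtain ⟨e, he⟩ : ∃ e : ℤ, (mk [x] : FreeGroup (Fin 3)) = FreeGroup.of 0 ^ e := by
          obtain ⟨x1, x2⟩ := x
          dsimp only at hx
          subst hx
          cases x2
          · refine ⟨-1, ?_⟩
            rw [zpow_neg_one]
            rfl
          · refine ⟨1, ?_⟩
            rw [zpow_one]
            rfl
        have hc : (mk w' : FreeGroup (Fin 3)) = (FreeGroup.of 0 ^ e)⁻¹ * f := by
          rw [hsplit, he, inv_mul_cancel_left]
        have hcomm : (mk w' : FreeGroup (Fin 3)) * FreeGroup.of 0 = FreeGroup.of 0 * mk w' := by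
          have h1 : Commute (f : FreeGroup (Fin 3)) (FreeGroup.of 0) := h
          have h2 : Commute ((FreeGroup.of 0 : FreeGroup (Fin 3)) ^ e)⁻¹ (FreeGroup.of 0) :=
            ((Commute.refl _).zpow_left e).inv_left
          rw [hc]
          exact (h2.mul_left h1)
        obtain ⟨n, hn⟩ := ih _ hlen hcomm
        exact ⟨e + n, by rw [hsplit, he, hn, zpow_add]⟩
      · exfalso
        have h1 : (FreeGroup.of 0 * f).toWord = (0, true) :: x :: w' := by
          rw [toWord_mul, toWord_of, hw, List.singleton_append, reduce.cons]
          have h2 : reduce (x :: w') = x :: w' := by rw [← hw, reduce_toWord]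
          rw [h2]
          have h3 : ¬ ((0 : Fin 3) = x.1 ∧ true = !x.2) := fun h4 => hx h4.1.symm
          exact if_neg h3
        have h2 : (f * FreeGroup.of 0).toWord.Sublist (f.toWord ++ (FreeGroup.of 0).toWord) :=
          toWord_mul_sublist _ _
        rw [h, h1, hw, toWord_of] at h2
        have h3 := h2.eq_of_length (by simp)
        have h4 := (List.cons.inj h3).1
        exact hx (by rw [← h4])

/-- An element of a free group which commutes with a generator is a power of it. -/
theorem free_centralizer (f : FreeGroup (Fin 3))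
    (h : f * FreeGroup.of 0 = FreeGroup.of 0 * f) : ∃ n : ℤ, f = FreeGroup.of 0 ^ n :=
  FreeC_aux _ f le_rfl h

end Pool.Agent.Lib.MP_decac5_gt
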