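import Pool.Agent.Lib.MP_decac5_gt.Base

/-!
# The group of the figure eight knot

`lo_comm`: the longitude commutes with the meridian; `exists_A`: the group of the figure eight knot
(two generators `p`, `r` and the relation `Rel41`), in which the longitude is not trivial.
-/

set_option autoImplicit false

namespace Pool.Agent.Lib.MP_decac5_gt

private theorem GrpA_word {G : Type} [Group G] {p r : G} :
    Rel41 p r ↔ r⁻¹ * p * r * p⁻¹ * r = p * r⁻¹ * p * r * p⁻¹ := by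
  unfold Rel41 kk
  constructor
  · intro h
    have h1 : (r⁻¹ * p * r * p⁻¹) * r =
        (r⁻¹ * p * r * p⁻¹) * ((r⁻¹ * p * r * p⁻¹)⁻¹ * p * (r⁻¹ * p * r * p⁻¹)) :=
      congrArg (fun z => (r⁻¹ * p * r * p⁻¹) * z) h
    rw [h1]
    group
  · intro h
    have h1 : (r⁻¹ * p * r * p⁻¹)⁻¹ * (r⁻¹ * p * r * p⁻¹ * r) =
        (r⁻¹ * p * r * p⁻¹)⁻¹ * (p * r⁻¹ * p * r * p⁻¹) :=
      congrArg (fun z => (r⁻¹ * p * r * p⁻¹)⁻¹ * z) h
    calc r = (r⁻¹ * p * r * p⁻¹)⁻¹ * (r⁻¹ * p * r * p⁻¹ * r) := by group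
      _ = (r⁻¹ * p * r * p⁻¹)⁻¹ * (p * r⁻¹ * p * r * p⁻¹) := h1
      _ = _ := by group

theorem lo_comm {G : Type} [Group G] {p r : G} (h : Rel41 p r) : p * lo p r = lo p r * p := by
  have h1 := GrpA_word.1 h
  -- the relation with the letters exchanged
  have h2 : r * p⁻¹ * r * p * r⁻¹ = p⁻¹ * r * p * r⁻¹ * p := by
    have h3 : (r⁻¹ * p * r * p⁻¹ * r) * (p * r⁻¹ * p * r * p⁻¹)⁻¹ = 1 := by
      rw [h1, mul_inv_cancel]
    have h4 : (r⁻¹ * p)⁻¹ * ((r⁻¹ * p * r * p⁻¹ * r) * (p * r⁻¹ * p * r * p⁻¹)⁻¹) * (r⁻¹ * p) = 1 := by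
      rw [h3]
      group
    have h5 : (r * p⁻¹ * r * p * r⁻¹) * (p⁻¹ * r * p * r⁻¹ * p)⁻¹ = 1 := by
      rw [← h4]
      group
    exact mul_inv_eq_one.1 h5
  unfold lo
  calc p * (r⁻¹ * p * r * p⁻¹ * p⁻¹ * r * p * r⁻¹)
      = (p * r⁻¹ * p * r * p⁻¹) * (p⁻¹ * r * p * r⁻¹) := by group
    _ = (r⁻¹ * p * r * p⁻¹ * r) * (p⁻¹ * r * p * r⁻¹) := by rw [h1]
    _ = (r⁻¹ * p * r * p⁻¹) * (r * p⁻¹ * r * p * r⁻¹) := by group
    _ = (r⁻¹ * p * r * p⁻¹) * (p⁻¹ * r * p * r⁻¹ * p) := by rw [h2]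
    _ = r⁻¹ * p * r * p⁻¹ * p⁻¹ * r * p * r⁻¹ * p := by group

/-- The relator of the group of the figure eight knot. -/
private def GrpA_rel : FreeGroup (Fin 2) :=
  (FreeGroup.of 1)⁻¹ * ((kk (FreeGroup.of 0) (FreeGroup.of 1))⁻¹ * FreeGroup.of 0 *
    kk (FreeGroup.of 0) (FreeGroup.of 1))

private theorem GrpA_map {G H : Type} [Group G] [Group H] (f : G →* H) (p r : G) :
    f (kk p r) = kk (f p) (f r) ∧ f (lo p r) = lo (f p) (f r) := by
  constructor
  · unfold kk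
    simp only [map_mul, map_inv]
  · unfold lo
    simp only [map_mul, map_inv]

private theorem GrpA_lift {G : Type} [Group G] (p r : G) :
    FreeGroup.lift (![p, r] : Fin 2 → G) GrpA_rel = r⁻¹ * ((kk p r)⁻¹ * p * kk p r) := by
  unfold GrpA_rel
  simp only [map_mul, map_inv, (GrpA_map _ _ _).1, FreeGroup.lift_apply_of]
  rfl

private theorem GrpA_hom {G : Type} [Group G] (f : FreeGroup (Fin 2) →* G) :
    f GrpA_rel = (f (FreeGroup.of 1))⁻¹ * ((kk (f (FreeGroup.of 0)) (f (FreeGroup.of 1)))⁻¹ *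
      f (FreeGroup.of 0) * kk (f (FreeGroup.of 0)) (f (FreeGroup.of 1))) := by
  unfold GrpA_rel
  simp only [map_mul, map_inv, (GrpA_map _ _ _).1]

/-- Two permutations of five letters. -/
private def GrpA_p : Equiv.Perm (Fin 5) := ⟨![1, 0, 3, 4, 2], ![1, 0, 4, 2, 3], by decide, by decide⟩

private def GrpA_r : Equiv.Perm (Fin 5) := ⟨![1, 2, 0, 4, 3], ![2, 0, 1, 4, 3], by decide, by decide⟩

theorem exists_A : ∃ (A : Type) (_ : Group A) (p r : A) (d : A →* Multiplicative ℤ),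
    Rel41 p r ∧ d p = Multiplicative.ofAdd 1 ∧ d r = Multiplicative.ofAdd 1 ∧ lo p r ≠ 1 ∧
      ∀ (G : Type) [Group G] (p' r' : G), Rel41 p' r' → ∃ f : A →* G, f p = p' ∧ f r = r' := by
  have huniv : ∀ (G : Type) [Group G] (p' r' : G), Rel41 p' r' →
      ∃ f : PresentedGroup {GrpA_rel} →* G,
        f (PresentedGroup.of 0) = p' ∧ f (PresentedGroup.of 1) = r' := by
    intro G _ p' r' h
    have h1 : ∀ z ∈ ({GrpA_rel} : Set (FreeGroup (Fin 2))),
        FreeGroup.lift (![p', r'] : Fin 2 → G) z = 1 := by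
      rintro z rfl
      rw [GrpA_lift, ← h, inv_mul_cancel]
    refine ⟨PresentedGroup.toGroup h1, ?_, ?_⟩
    · exact PresentedGroup.toGroup.of h1
    · exact PresentedGroup.toGroup.of h1
  have hd : Rel41 (Multiplicative.ofAdd (1 : ℤ)) (Multiplicative.ofAdd (1 : ℤ)) := by
    unfold Rel41 kk
    rw [mul_comm _ (Multiplicative.ofAdd (1 : ℤ)), mul_assoc, inv_mul_cancel, mul_one]
  obtain ⟨d, hd0, hd1⟩ := huniv (Multiplicative ℤ) _ _ hd
  refine ⟨PresentedGroup {GrpA_rel}, inferInstance, PresentedGroup.of 0, PresentedGroup.of 1, d,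
    ?_, hd0, hd1, ?_, huniv⟩
  · have h1 : (PresentedGroup.mk {GrpA_rel}) GrpA_rel = 1 :=
      (PresentedGroup.one_of_mem (Set.mem_singleton GrpA_rel))
    have h2 := GrpA_hom (PresentedGroup.mk {GrpA_rel})
    rw [h1] at h2
    exact (inv_mul_eq_one.1 h2.symm)
  · intro h
    have h1 : Rel41 GrpA_p GrpA_r := by
      unfold Rel41 kk
      decide
    obtain ⟨f, hf0, hf1⟩ := huniv _ _ _ h1
    have h2 := congrArg f h
    rw [(GrpA_map f _ _).2, hf0, hf1, map_one] at h2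
    revert h2
    unfold lo
    decide

end Pool.Agent.Lib.MP_decac5_gt
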