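import Pool.Agent.Lib.MP_decac5_gt.QSide

/-!
# One side of the amalgam
-/

set_option autoImplicit false

namespace Pool.Agent.Lib.MP_decac5_gt

section hside

variable {A H : Type} [Group A] [Group H] {i : A →* H} {w : H}

/-- The normal form of a word in the letters `α j w β j`. -/
def hside_nf (α β : Fin 3 → A) : List (Fin 3 × Bool) → A × List (Bool × A)
  | [] => (1, [])
  | (j, s) :: W => (if s then α j else (β j)⁻¹,
      (s, (if s then β j else (α j)⁻¹) * (hside_nf α β W).1) :: (hside_nf α β W).2)

/-- The generators. -/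
def hside_g (i : A →* H) (w : H) (α β : Fin 3 → A) (j : Fin 3) : H := i (α j) * w * i (β j)

theorem hside_nf_ev (α β : Fin 3 → A) (W : List (Fin 3 × Bool)) :
    FreeGroup.lift (hside_g i w α β) (FreeGroup.mk W) =
      evW i w (hside_nf α β W).1 (hside_nf α β W).2 := by
  induction W with
  | nil =>
    rw [FreeGroup.lift_mk, hside_nf, qside_ev_nil]
    simp
  | cons y W ih =>
    obtain ⟨j, s⟩ := y
    have hstep : FreeGroup.lift (hside_g i w α β) (FreeGroup.mk ((j, s) :: W)) =
        (if s then hside_g i w α β j else (hside_g i w α β j)⁻¹) *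
          FreeGroup.lift (hside_g i w α β) (FreeGroup.mk W) := by
      rw [FreeGroup.lift_mk, FreeGroup.lift_mk, List.map_cons, List.prod_cons]
      cases s <;> rfl
    rw [hstep, ih, hside_nf, qside_ev_cons, ← qside_ev_left]
    cases s <;> simp [hside_g, mul_assoc]

theorem hside_nf_red {α β : Fin 3 → A} (hα : Function.Injective α) (hβ : Function.Injective β)
    (W : List (Fin 3 × Bool)) (hW : FreeGroup.IsReduced W) : RedW (hside_nf α β W).2 := by
  induction W with
  | nil => simp [hside_nf, RedW]
  | cons y W ih =>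
    obtain ⟨j, s⟩ := y
    have hW' : FreeGroup.IsReduced W := by
      unfold FreeGroup.IsReduced at hW ⊢
      exact (List.isChain_cons.1 hW).2
    have hW0 : ∀ t, W.head? = some (j, t) → s = t := by
      intro t ht
      unfold FreeGroup.IsReduced at hW
      exact (List.isChain_cons.1 hW).1 (j, t) ht rfl
    rw [hside_nf, qside_red_cons]
    refine ⟨?_, ih hW'⟩
    intro y hy h1
    rcases W with _ | ⟨⟨k, t⟩, W⟩
    · simp [hside_nf] at hy
    · rw [hside_nf, List.head?_cons, Option.mem_def, Option.some.injEq] at hy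
      subst hy
      rw [hside_nf] at h1
      cases s <;> cases t
      · rfl
      · exfalso
        have h2 : (α j)⁻¹ * α k = 1 := by simpa using h1
        have h3 : j = k := hα (inv_mul_eq_one.1 h2)
        subst h3
        exact absurd (hW0 true rfl) (by simp)
      · exfalso
        have h2 : β j * (β k)⁻¹ = 1 := by simpa using h1
        have h3 : j = k := hβ (mul_inv_eq_one.1 h2)
        subst h3
        exact absurd (hW0 false rfl) (by simp)
      · rfl

theorem hside_nf_last (α β : Fin 3 → A) (W : List (Fin 3 × Bool)) :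
    ∀ y ∈ (hside_nf α β W).2.getLast?, ∃ j, y = (true, β j) ∨ y = (false, (α j)⁻¹) := by
  induction W with
  | nil => simp [hside_nf]
  | cons y W ih =>
    obtain ⟨j, s⟩ := y
    intro u hu
    rw [hside_nf] at hu
    rcases W with _ | ⟨⟨k, t⟩, W⟩
    · rw [hside_nf, List.getLast?_singleton, Option.mem_def, Option.some.injEq] at hu
      subst hu
      refine ⟨j, ?_⟩
      cases s <;> simp
    · apply ih u
      rw [hside_nf] at hu ⊢
      rw [List.getLast?_cons_cons] at hu
      exact hu

theorem hside_mem (hF : FreeBy i w) {α β : Fin 3 → A} (hα : Function.Injective α)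
    (hβ : Function.Injective β) (a : A) (l : List (Bool × A)) (hl : RedW l)
    (h : evW i w a l ∈ (FreeGroup.lift (hside_g i w α β)).range) :
    ∃ W, a = (hside_nf α β W).1 ∧ l = (hside_nf α β W).2 := by
  obtain ⟨f, hf⟩ := h
  refine ⟨f.toWord, ?_⟩
  have h1 := hside_nf_ev (i := i) (w := w) α β f.toWord
  rw [FreeGroup.mk_toWord, hf] at h1
  exact hF.uniq _ _ _ _ hl (hside_nf_red hα hβ _ FreeGroup.isReduced_toWord) h1

theorem hside_nil (hF : FreeBy i w) {α β : Fin 3 → A} (hα : Function.Injective α)
    (hβ : Function.Injective β) (a : A)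
    (h : i a ∈ (FreeGroup.lift (hside_g i w α β)).range) : a = 1 := by
  rw [← qside_ev_nil (i := i) (x := w)] at h
  obtain ⟨W, h1, h2⟩ := hside_mem hF hα hβ a [] (by simp [RedW]) h
  rcases W with _ | ⟨⟨k, t⟩, W⟩
  · exact h1
  · rw [hside_nf] at h2
    exact absurd h2 (by simp)

theorem hside_one (hF : FreeBy i w) {α β : Fin 3 → A} (hα : Function.Injective α)
    (hβ : Function.Injective β) (a b : A)
    (h : evW i w a [(true, b)] ∈ (FreeGroup.lift (hside_g i w α β)).range) :
    ∃ j, a = α j ∧ b = β j := by
  obtain ⟨W, h1, h2⟩ := hside_mem hF hα hβ a [(true, b)] (by simp [RedW]) h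
  rcases W with _ | ⟨⟨k, t⟩, W⟩
  · rw [hside_nf] at h2
    exact absurd h2 (by simp)
  · rw [hside_nf, List.cons.injEq, Prod.mk.injEq] at h2
    obtain ⟨⟨rfl, h3⟩, h4⟩ := h2
    rcases W with _ | ⟨⟨k', t'⟩, W⟩
    · refine ⟨k, ?_, ?_⟩
      · rw [h1, hside_nf]
        rfl
      · rw [h3, hside_nf]
        simp
    · rw [hside_nf] at h4
      exact absurd h4 (by simp)

theorem hside_two (hF : FreeBy i w) {α β : Fin 3 → A} (hα : Function.Injective α)
    (hβ : Function.Injective β) (a b c : A)
    (h : evW i w a [(true, b), (true, c)] ∈ (FreeGroup.lift (hside_g i w α β)).range) :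
    ∃ j k, a = α j ∧ b = β j * α k ∧ c = β k := by
  obtain ⟨W, h1, h2⟩ := hside_mem hF hα hβ a [(true, b), (true, c)] (by simp [RedW]) h
  rcases W with _ | ⟨⟨k, t⟩, W⟩
  · rw [hside_nf] at h2
    exact absurd h2 (by simp)
  · rw [hside_nf, List.cons.injEq, Prod.mk.injEq] at h2
    obtain ⟨⟨rfl, h3⟩, h4⟩ := h2
    rcases W with _ | ⟨⟨k', t'⟩, W⟩
    · rw [hside_nf] at h4
      exact absurd h4 (by simp)
    · rw [hside_nf] at h3
      rw [hside_nf, List.cons.injEq, Prod.mk.injEq] at h4
      obtain ⟨⟨rfl, h5⟩, h6⟩ := h4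
      rcases W with _ | ⟨⟨k'', t''⟩, W⟩
      · refine ⟨k, k', ?_, ?_, ?_⟩
        · rw [h1, hside_nf]
          rfl
        · rw [h3]
          simp
        · rw [h5, hside_nf]
          simp
      · rw [hside_nf] at h6
        exact absurd h6 (by simp)

theorem hside_g_mem (α β : Fin 3 → A) (j : Fin 3) :
    i (α j) * w * i (β j) ∈ (FreeGroup.lift (hside_g i w α β)).range :=
  ⟨FreeGroup.of j, by rw [FreeGroup.lift_apply_of]; rfl⟩

/-- The last letter can be removed. -/
theorem hside_strip (α β : Fin 3 → A) (a : A) (l0 : List (Bool × A)) (s : Bool) (b : A)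
    (hl : RedW (l0 ++ [(s, b)]))
    (hb : ∃ j, ((s, b) : Bool × A) = (true, β j) ∨ ((s, b) : Bool × A) = (false, (α j)⁻¹)) :
    ∃ f ∈ (FreeGroup.lift (hside_g i w α β)).range, ∃ a' l1, RedW l1 ∧ l1.length = l0.length ∧
      evW i w a (l0 ++ [(s, b)]) * f = evW i w a' l1 := by
  have hl0 : RedW l0 := by
    unfold RedW at hl ⊢
    rw [List.isChain_append] at hl
    exact hl.1
  obtain ⟨j, hj | hj⟩ := hb
  · rw [Prod.mk.injEq] at hj
    obtain ⟨rfl, rfl⟩ := hj
    obtain ⟨a', l1, h1, h2, h3⟩ := qside_right (i := i) (x := w) a l0 hl0 (α j)⁻¹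
    refine ⟨(i (α j) * w * i (β j))⁻¹, Subgroup.inv_mem _ (hside_g_mem α β j), a', l1, h1, h2, ?_⟩
    rw [qside_snoc, ← h3]
    simp [mul_assoc]
  · rw [Prod.mk.injEq] at hj
    obtain ⟨rfl, rfl⟩ := hj
    obtain ⟨a', l1, h1, h2, h3⟩ := qside_right (i := i) (x := w) a l0 hl0 (β j)
    refine ⟨i (α j) * w * i (β j), hside_g_mem α β j, a', l1, h1, h2, ?_⟩
    rw [qside_snoc, ← h3]
    simp [mul_assoc]

theorem hside_chain (L : List (Bool × A)) (h : ∀ y ∈ L, y.1 = true) : RedW L := by
  induction L with
  | nil => simp [RedW]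
  | cons y L ih =>
    obtain ⟨s, b⟩ := y
    rw [qside_red_cons]
    refine ⟨fun y hy _ => ?_, ih fun y hy => h y (List.mem_cons_of_mem _ hy)⟩
    have h1 : s = true := h (s, b) List.mem_cons_self
    rw [h1, h y (List.mem_cons_of_mem _ (List.mem_of_mem_head? hy))]

/-- The step when the conjugate is reduced. -/
theorem hside_gen (hF : FreeBy i w) {α β : Fin 3 → A} (hα : Function.Injective α)
    (hβ : Function.Injective β) (F : Subgroup H)
    (hFd : F = (FreeGroup.lift (hside_g i w α β)).range) (e0 z : A) (L0 : List (Bool × A))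
    (hL0 : ∀ y ∈ L0, y.1 = true) (e x : H) (he : e = evW i w e0 (L0 ++ [(true, z)])) (k : ℕ)
    (ih : ∀ (a : A) (l : List (Bool × A)), l.length = k → RedW l →
      (evW i w a l)⁻¹ * e * evW i w a l ∈ F → evW i w a l ∈ F ∨ x * evW i w a l ∈ F)
    (a : A) (s : Bool) (b : A) (l' : List (Bool × A)) (hlen : l'.length = k)
    (hl : RedW ((s, b) :: l'))
    (hu : (evW i w a ((s, b) :: l'))⁻¹ * e * evW i w a ((s, b) :: l') ∈ F)
    (c1 : ¬ (a = e0 ∧ s = true)) (c2 : ¬ (z * a = 1 ∧ s = false)) :
    evW i w a ((s, b) :: l') ∈ F ∨ x * evW i w a ((s, b) :: l') ∈ F := by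
  have hm := qside_inv_ev (i := i) (x := w) (e0⁻¹ * a) ((s, b) :: l')
  have hmr := qside_inv_red (e0⁻¹ * a) ((s, b) :: l') hl
  have hml := qside_inv_last (e0⁻¹ * a) s b l'
  generalize qside_inv (e0⁻¹ * a) ((s, b) :: l') = cm at hm hmr hml
  obtain ⟨c, m⟩ := cm
  dsimp only at hm hmr hml
  have hbig : (evW i w a ((s, b) :: l'))⁻¹ * e * evW i w a ((s, b) :: l') =
      evW i w c ((m ++ (L0 ++ [(true, z * a)])) ++ (s, b) :: l') := by
    have h1 : evW i w (e0⁻¹ * a) ((s, b) :: l') = (i e0)⁻¹ * evW i w a ((s, b) :: l') := by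
      rw [← qside_ev_left, map_inv]
    have h2 : evW i w a ((s, b) :: l') = i a * evW i w 1 ((s, b) :: l') := by
      rw [qside_ev_left, mul_one]
    have h3 : evW i w e0 L0 = i e0 * evW i w 1 L0 := by
      rw [qside_ev_left, mul_one]
    rw [qside_ev_append, qside_ev_append, hm, qside_snoc, he, qside_snoc, h1, h3, mul_inv_rev,
      inv_inv, map_mul]
    obtain ⟨X, hX⟩ : ∃ X, X = (evW i w a ((s, b) :: l'))⁻¹ := ⟨_, rfl⟩
    rw [← hX, h2]
    simp only [mul_assoc]
  have hbigr : RedW ((m ++ (L0 ++ [(true, z * a)])) ++ (s, b) :: l') := by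
    have h1 : RedW ((true, z * a) :: (s, b) :: l') := by
      rw [qside_red_cons]
      refine ⟨?_, hl⟩
      intro y hy h2
      rw [List.head?_cons, Option.mem_def, Option.some.injEq] at hy
      subst hy
      cases s
      · exact absurd ⟨h2, rfl⟩ c2
      · rfl
    have h0 : RedW (L0 ++ (true, z * a) :: (s, b) :: l') := by
      have h3 := hside_chain L0 hL0
      unfold RedW at h1 h3 ⊢
      rw [List.isChain_append]
      refine ⟨h3, h1, ?_⟩
      intro u hu v hv hu1
      rw [List.head?_cons, Option.mem_def, Option.some.injEq] at hv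
      subst hv
      exact hL0 u (List.mem_of_mem_getLast? hu)
    have e1 : (m ++ (L0 ++ [(true, z * a)])) ++ (s, b) :: l' =
        m ++ (L0 ++ (true, z * a) :: (s, b) :: l') := by simp
    rw [e1]
    unfold RedW at hmr h0 ⊢
    rw [List.isChain_append]
    refine ⟨hmr, h0, ?_⟩
    intro u hu v hv hu1
    rw [hml, Option.mem_def, Option.some.injEq] at hu
    subst hu
    have hv1 : v.1 = true := by
      rcases L0 with _ | ⟨y, L0⟩
      · rw [List.nil_append, List.head?_cons, Option.mem_def, Option.some.injEq] at hv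
        rw [← hv]
      · rw [List.cons_append, List.head?_cons, Option.mem_def, Option.some.injEq] at hv
        rw [← hv]
        exact hL0 y List.mem_cons_self
    rw [hv1]
    have h2 : a = e0 := by
      have h3 : e0⁻¹ * a = 1 := inv_eq_one.1 hu1
      exact (inv_mul_eq_one.1 h3).symm
    cases s
    · rfl
    · exact absurd ⟨h2, rfl⟩ c1
  rw [hbig, hFd] at hu
  obtain ⟨W, _, hW⟩ := hside_mem hF hα hβ _ _ hbigr hu
  have hlast := hside_nf_last α β W
  rw [← hW] at hlast
  rw [← hFd, ← hbig] at hu
  obtain ⟨l0, ⟨s', b'⟩, hl0⟩ : ∃ l0 y, (s, b) :: l' = l0 ++ [y] := by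
    rcases List.eq_nil_or_concat ((s, b) :: l') with h | ⟨l0, y, h⟩
    · exact absurd h (by simp)
    · exact ⟨l0, y, by rw [h, List.concat_eq_append]⟩
  have hlen0 : l0.length = k := by
    have h1 := congrArg List.length hl0
    simp at h1
    omega
  rw [hl0] at hlast hl hu ⊢
  have hb' := hlast (s', b') (by rw [← List.append_assoc, List.getLast?_concat]; rfl)
  obtain ⟨f, hf, a', l1, hl1, hlen1, hev⟩ := hside_strip (i := i) (w := w) α β a l0 s' b' hl hb'
  rw [← hFd] at hf
  have hu' : (evW i w a' l1)⁻¹ * e * evW i w a' l1 ∈ F := by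
    rw [← hev]
    have h1 : (evW i w a (l0 ++ [(s', b')]) * f)⁻¹ * e * (evW i w a (l0 ++ [(s', b')]) * f) =
        f⁻¹ * ((evW i w a (l0 ++ [(s', b')]))⁻¹ * e * evW i w a (l0 ++ [(s', b')])) * f := by
      simp only [mul_inv_rev, mul_assoc]
    rw [h1]
    exact F.mul_mem (F.mul_mem (F.inv_mem hf) hu) hf
  have hev' : evW i w a (l0 ++ [(s', b')]) = evW i w a' l1 * f⁻¹ := by
    rw [← hev, mul_inv_cancel_right]
  rcases ih a' l1 (hlen1.trans hlen0) hl1 hu' with h1 | h1
  · left
    rw [hev']
    exact F.mul_mem h1 (F.inv_mem hf)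
  · right
    rw [hev', ← mul_assoc]
    exact F.mul_mem h1 (F.inv_mem hf)

/-- The two families of coefficients. -/
def hside_a (p y : A) : Fin 3 → A := ![1, (y * p)⁻¹, (y * y * p)⁻¹]

/-- The two families of coefficients. -/
def hside_b (p y : A) : Fin 3 → A := ![1, y, y * y * p]

theorem hside_a_inj (d : A →* Multiplicative ℤ) (p y : A)
    (hp : d p = Multiplicative.ofAdd 1) (hy : d y = 1) (hy1 : y ≠ 1) :
    Function.Injective (hside_a p y) := by
  have e1 : y * p ≠ 1 := by
    intro h
    have h1 := congrArg d h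
    rw [map_mul, hy, hp, one_mul, map_one d] at h1
    exact absurd h1 (by decide)
  have e2 : y * y * p ≠ 1 := by
    intro h
    have h1 := congrArg d h
    rw [map_mul, map_mul, hy, hp, one_mul, one_mul, map_one d] at h1
    exact absurd h1 (by decide)
  have e3 : y * p ≠ y * y * p := by
    intro h
    rw [mul_assoc, right_eq_mul] at h
    exact hy1 h
  have f1 : (1 : A) ≠ (y * p)⁻¹ := fun h => e1 (inv_eq_one.1 h.symm)
  have f2 : (1 : A) ≠ (y * y * p)⁻¹ := fun h => e2 (inv_eq_one.1 h.symm)
  have f3 : (y * p)⁻¹ ≠ (y * y * p)⁻¹ := fun h => e3 (inv_injective h)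
  intro j k hjk
  fin_cases j <;> fin_cases k
  · rfl
  · exact absurd hjk f1
  · exact absurd hjk f2
  · exact absurd hjk.symm f1
  · rfl
  · exact absurd hjk f3
  · exact absurd hjk.symm f2
  · exact absurd hjk.symm f3
  · rfl

theorem hside_b_inj (d : A →* Multiplicative ℤ) (p y : A)
    (hp : d p = Multiplicative.ofAdd 1) (hy : d y = 1) (hy1 : y ≠ 1) :
    Function.Injective (hside_b p y) := by
  have f1 : (1 : A) ≠ y := hy1.symm
  have f2 : (1 : A) ≠ y * y * p := by
    intro h
    have h1 := congrArg d h
    rw [map_mul, map_mul, hy, hp, one_mul, one_mul, map_one d] at h1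
    exact absurd h1 (by decide)
  have f3 : y ≠ y * y * p := by
    intro h
    have h1 := congrArg d h
    rw [map_mul, map_mul, hy, hp, one_mul, one_mul] at h1
    exact absurd h1 (by decide)
  intro j k hjk
  fin_cases j <;> fin_cases k
  · rfl
  · exact absurd hjk f1
  · exact absurd hjk f2
  · exact absurd hjk.symm f1
  · rfl
  · exact absurd hjk f3
  · exact absurd hjk.symm f2
  · exact absurd hjk.symm f3
  · rfl

theorem hside_w (hF : FreeBy i w) (d : A →* Multiplicative ℤ) (p y : A)
    (hp : d p = Multiplicative.ofAdd 1) (hy : d y = 1) (hy1 : y ≠ 1) (F : Subgroup H)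
    (hFd : F = (FreeGroup.lift (hside_g i w (hside_a p y) (hside_b p y))).range) (h : H)
    (hh : h⁻¹ * w * h ∈ F) : h ∈ F ∨ (i (y * y * p))⁻¹ * h ∈ F := by
  have hα := hside_a_inj d p y hp hy hy1
  have hβ := hside_b_inj d p y hp hy hy1
  have g0 : w ∈ F := by
    have h1 := hside_g_mem (i := i) (w := w) (hside_a p y) (hside_b p y) 0
    rw [← hFd] at h1
    have h2 : i (hside_a p y 0) * w * i (hside_b p y 0) = w := by
      show i 1 * w * i 1 = w
      rw [map_one, one_mul, mul_one]
    rwa [h2] at h1
  have g2 : (i (y * y * p))⁻¹ * w * i (y * y * p) ∈ F := by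
    have h1 := hside_g_mem (i := i) (w := w) (hside_a p y) (hside_b p y) 2
    rw [← hFd] at h1
    have h2 : i (hside_a p y 2) * w * i (hside_b p y 2) =
        (i (y * y * p))⁻¹ * w * i (y * y * p) := by
      show i (y * y * p)⁻¹ * w * i (y * y * p) = _
      rw [map_inv]
    rwa [h2] at h1
  have key : ∀ (k : ℕ) (a : A) (l : List (Bool × A)), l.length = k → RedW l →
      (evW i w a l)⁻¹ * w * evW i w a l ∈ F →
      evW i w a l ∈ F ∨ (i (y * y * p))⁻¹ * evW i w a l ∈ F := by
    intro k
    induction k with
    | zero =>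
      intro a l hlen hl hu
      have hl0 : l = [] := List.length_eq_zero_iff.1 hlen
      subst hl0
      rw [qside_ev_nil] at hu ⊢
      have h1 : (i a)⁻¹ * w * i a = evW i w a⁻¹ [(true, a)] := by
        rw [qside_ev_cons, qside_ev_nil, map_inv]
        simp [mul_assoc]
      rw [h1, hFd] at hu
      obtain ⟨j, h2, h3⟩ := hside_one hF hα hβ _ _ hu
      fin_cases j
      · left
        have h4 : a = 1 := h3
        rw [h4, map_one]
        exact F.one_mem
      · exfalso
        have h4 : a = y := h3
        have h5 : a⁻¹ = (y * p)⁻¹ := h2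
        rw [h4, inv_inj] at h5
        have h6 := congrArg d h5
        rw [map_mul, hy, hp, one_mul] at h6
        exact absurd h6 (by decide)
      · right
        have h4 : a = y * y * p := h3
        rw [h4, inv_mul_cancel]
        exact F.one_mem
    | succ k ih =>
      intro a l hlen hl hu
      obtain ⟨⟨s, b⟩, l', rfl⟩ : ∃ y l', l = y :: l' := by
        rcases l with _ | ⟨y, l'⟩
        · simp at hlen
        · exact ⟨y, l', rfl⟩
      have hlen1 : l'.length = k := by simpa using hlen
      have hred := (qside_red_cons s b l').1 hl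
      by_cases ha : a = 1
      · subst ha
        have h1 : evW i w 1 ((s, b) :: l') = (if s then w else w⁻¹) * evW i w b l' := by
          rw [qside_ev_cons, map_one, one_mul]
        have h2 : (evW i w b l')⁻¹ * w * evW i w b l' ∈ F := by
          rw [h1] at hu
          cases s <;> simpa [mul_assoc] using hu
        have g0' : (if s then w else w⁻¹) ∈ F := by
          cases s
          · exact F.inv_mem g0
          · exact g0
        have g2' : (i (y * y * p))⁻¹ * (if s then w else w⁻¹) * i (y * y * p) ∈ F := by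
          cases s
          · have h3 := F.inv_mem g2
            rw [mul_inv_rev, mul_inv_rev, inv_inv, ← mul_assoc] at h3
            exact h3
          · exact g2
        rcases ih b l' hlen1 hred.2 h2 with h3 | h3
        · left
          rw [h1]
          exact F.mul_mem g0' h3
        · right
          rw [h1]
          have h4 := F.mul_mem g2' h3
          have h5 : (i (y * y * p))⁻¹ * (if s then w else w⁻¹) * i (y * y * p) *
              ((i (y * y * p))⁻¹ * evW i w b l') =
              (i (y * y * p))⁻¹ * ((if s then w else w⁻¹) * evW i w b l') := by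
            simp only [mul_assoc, mul_inv_cancel_left]
          rwa [h5] at h4
      · exact hside_gen hF hα hβ F hFd 1 1 [] (by simp) w (i (y * y * p))⁻¹
          (by simp [evW]) k ih a s b l' hlen1 hl hu (fun h => ha h.1)
          (fun h => ha (by simpa using h.1))
  obtain ⟨a, l, hl, he⟩ := hF.ex h
  rw [he] at hh ⊢
  exact key l.length a l rfl hl hh

theorem hside_u (hF : FreeBy i w) (d : A →* Multiplicative ℤ) (p y : A)
    (hp : d p = Multiplicative.ofAdd 1) (hy : d y = 1) (hpy : p * y = y * p) (hy1 : y ≠ 1)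
    (F : Subgroup H)
    (hFd : F = (FreeGroup.lift (hside_g i w (hside_a p y) (hside_b p y))).range) (h : H)
    (hh : h⁻¹ * ((i (y * p))⁻¹ * w * i y * w) * h ∈ F) : h ∈ F ∨ (i y)⁻¹ * h ∈ F := by
  have hα := hside_a_inj d p y hp hy hy1
  have hβ := hside_b_inj d p y hp hy hy1
  have g0 : w ∈ F := by
    have h1 := hside_g_mem (i := i) (w := w) (hside_a p y) (hside_b p y) 0
    rw [← hFd] at h1
    have h2 : i (hside_a p y 0) * w * i (hside_b p y 0) = w := by
      show i 1 * w * i 1 = w
      rw [map_one, one_mul, mul_one]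
    rwa [h2] at h1
  have g1 : (i (y * p))⁻¹ * w * i y ∈ F := by
    have h1 := hside_g_mem (i := i) (w := w) (hside_a p y) (hside_b p y) 1
    rw [← hFd] at h1
    have h2 : i (hside_a p y 1) * w * i (hside_b p y 1) = (i (y * p))⁻¹ * w * i y := by
      show i (y * p)⁻¹ * w * i y = _
      rw [map_inv]
    rwa [h2] at h1
  have g2 : (i (y * y * p))⁻¹ * w * i (y * y * p) ∈ F := by
    have h1 := hside_g_mem (i := i) (w := w) (hside_a p y) (hside_b p y) 2
    rw [← hFd] at h1
    have h2 : i (hside_a p y 2) * w * i (hside_b p y 2) =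
        (i (y * y * p))⁻¹ * w * i (y * y * p) := by
      show i (y * y * p)⁻¹ * w * i (y * y * p) = _
      rw [map_inv]
    rwa [h2] at h1
  have hyp : (y * p)⁻¹ = p⁻¹ * y⁻¹ := by rw [mul_inv_rev]
  have hcc : y⁻¹ * (y * p)⁻¹ = (y * y * p)⁻¹ := by
    rw [← mul_inv_rev, mul_assoc y p y, hpy, ← mul_assoc]
  obtain ⟨G, hG⟩ : ∃ G, G = (i (y * p))⁻¹ * w * i y := ⟨_, rfl⟩
  rw [← hG] at g1 hh
  have hV : (i y)⁻¹ * (G * w) * i y ∈ F := by
    have h1 := F.mul_mem g2 g1
    have h2 : (i (y * y * p))⁻¹ * w * i (y * y * p) * G = (i y)⁻¹ * (G * w) * i y := by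
      rw [hG]
      have h3 : (i y)⁻¹ * (i (y * p))⁻¹ = (i (y * y * p))⁻¹ := by
        rw [← map_inv, ← map_inv, ← map_inv, ← map_mul, hcc]
      have h4 : i (y * y * p) * (i (y * p))⁻¹ = i y := by
        rw [← map_inv, ← map_mul]
        exact congrArg i (by group)
      calc (i (y * y * p))⁻¹ * w * i (y * y * p) * ((i (y * p))⁻¹ * w * i y)
          = (i (y * y * p))⁻¹ * w * (i (y * y * p) * (i (y * p))⁻¹) * w * i y := by
            simp only [mul_assoc]
        _ = ((i y)⁻¹ * (i (y * p))⁻¹) * w * i y * w * i y := by rw [h3, h4]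
        _ = (i y)⁻¹ * ((i (y * p))⁻¹ * w * i y * w) * i y := by simp only [mul_assoc]
    rwa [h2] at h1
  have key : ∀ (k : ℕ), (∀ (a : A) (l : List (Bool × A)), l.length = k → RedW l →
      (evW i w a l)⁻¹ * (G * w) * evW i w a l ∈ F →
      evW i w a l ∈ F ∨ (i y)⁻¹ * evW i w a l ∈ F) ∧
      (∀ (a : A) (l : List (Bool × A)), l.length = k → RedW l →
      (evW i w a l)⁻¹ * (w * G) * evW i w a l ∈ F →
      evW i w a l ∈ F ∨ (i y)⁻¹ * G * evW i w a l ∈ F) := by
    intro k
    induction k with
    | zero =>
      constructor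
      · intro a l hlen hl hu
        have hl0 : l = [] := List.length_eq_zero_iff.1 hlen
        subst hl0
        rw [qside_ev_nil] at hu ⊢
        have h1 : (i a)⁻¹ * (G * w) * i a = evW i w (a⁻¹ * (y * p)⁻¹) [(true, y), (true, a)] := by
          rw [qside_ev_cons, qside_ev_cons, qside_ev_nil, map_mul, map_inv, map_inv, hG]
          simp [mul_assoc]
        rw [h1, hFd] at hu
        obtain ⟨j, k, h2, h3, h4⟩ := hside_two hF hα hβ _ _ _ hu
        fin_cases j <;> fin_cases k
        · have h5 : y = 1 * 1 := h3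
          exact absurd (h5.trans (mul_one 1)) hy1
        · exfalso
          have h5 : y = 1 * (y * p)⁻¹ := h3
          have h6 := congrArg d h5
          simp only [map_mul, map_inv, hy, hp, map_one, one_mul] at h6
          exact absurd h6 (by decide)
        · exfalso
          have h5 : y = 1 * (y * y * p)⁻¹ := h3
          have h6 := congrArg d h5
          simp only [map_mul, map_inv, hy, hp, map_one, one_mul] at h6
          exact absurd h6 (by decide)
        · left
          have h5 : a = 1 := h4
          rw [h5, map_one]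
          exact F.one_mem
        · exfalso
          have h5 : y = y * (y * p)⁻¹ := h3
          have h6 := congrArg d h5
          simp only [map_mul, map_inv, hy, hp, map_one, one_mul] at h6
          exact absurd h6 (by decide)
        · exfalso
          have h5 : y = y * (y * y * p)⁻¹ := h3
          have h6 := congrArg d h5
          simp only [map_mul, map_inv, hy, hp, map_one, one_mul] at h6
          exact absurd h6 (by decide)
        · exfalso
          have h5 : y = y * y * p * 1 := h3
          have h6 := congrArg d h5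
          simp only [map_mul, map_inv, hy, hp, map_one, one_mul, mul_one] at h6
          exact absurd h6 (by decide)
        · right
          have h5 : a = y := h4
          rw [h5, inv_mul_cancel]
          exact F.one_mem
        · exfalso
          have h5 : y = y * y * p * (y * y * p)⁻¹ := h3
          exact hy1 (h5.trans (mul_inv_cancel _))
      · intro a l hlen hl hu
        have hl0 : l = [] := List.length_eq_zero_iff.1 hlen
        subst hl0
        rw [qside_ev_nil] at hu ⊢
        have h1 : (i a)⁻¹ * (w * G) * i a = evW i w a⁻¹ [(true, (y * p)⁻¹), (true, y * a)] := by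
          rw [qside_ev_cons, qside_ev_cons, qside_ev_nil, map_mul, map_inv, map_inv, hG]
          simp [mul_assoc]
        rw [h1, hFd] at hu
        obtain ⟨j, k, h2, h3, h4⟩ := hside_two hF hα hβ _ _ _ hu
        fin_cases j <;> fin_cases k
        · exfalso
          have h5 : (y * p)⁻¹ = 1 * 1 := h3
          have h6 := congrArg d h5
          simp only [map_mul, map_inv, hy, hp, map_one, one_mul] at h6
          exact absurd h6 (by decide)
        · left
          have h5 : a⁻¹ = 1 := h2
          rw [inv_eq_one.1 h5, map_one]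
          exact F.one_mem
        · exfalso
          have h5 : (y * p)⁻¹ = 1 * (y * y * p)⁻¹ := h3
          rw [one_mul, inv_inj, mul_assoc, right_eq_mul] at h5
          exact hy1 h5
        · exfalso
          have h5 : (y * p)⁻¹ = y * 1 := h3
          have h6 := congrArg d h5
          simp only [map_mul, map_inv, hy, hp, map_one, one_mul] at h6
          exact absurd h6 (by decide)
        · exfalso
          have h5 : (y * p)⁻¹ = y * (y * p)⁻¹ := h3
          rw [right_eq_mul] at h5
          exact hy1 h5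
        · right
          have h5 : a⁻¹ = (y * p)⁻¹ := h2
          rw [inv_inj] at h5
          have h6 : (i y)⁻¹ * G * i a = (i (y * y * p))⁻¹ * w * i (y * y * p) := by
            rw [h5, hG]
            have h3 : (i y)⁻¹ * (i (y * p))⁻¹ = (i (y * y * p))⁻¹ := by
              rw [← map_inv, ← map_inv, ← map_inv, ← map_mul, hcc]
            calc (i y)⁻¹ * ((i (y * p))⁻¹ * w * i y) * i (y * p)
                = ((i y)⁻¹ * (i (y * p))⁻¹) * w * (i y * i (y * p)) := by simp only [mul_assoc]
              _ = (i (y * y * p))⁻¹ * w * i (y * y * p) := by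
                rw [h3, ← map_mul, ← mul_assoc y y p]
          rw [h6]
          exact g2
        · exfalso
          have h5 : (y * p)⁻¹ = y * y * p * 1 := h3
          have h6 := congrArg d h5
          simp only [map_mul, map_inv, hy, hp, map_one, one_mul, mul_one] at h6
          exact absurd h6 (by decide)
        · exfalso
          have h5 : (y * p)⁻¹ = y * y * p * (y * p)⁻¹ := h3
          have h6 := congrArg d h5
          simp only [map_mul, map_inv, hy, hp, map_one, one_mul, mul_one] at h6
          exact absurd h6 (by decide)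
        · exfalso
          have h5 : (y * p)⁻¹ = y * y * p * (y * y * p)⁻¹ := h3
          rw [mul_inv_cancel] at h5
          have h6 := congrArg d h5
          simp only [map_mul, map_inv, hy, hp, map_one, one_mul, mul_one] at h6
          exact absurd h6 (by decide)
    | succ k ih =>
      obtain ⟨ih1, ih2⟩ := ih
      constructor
      · intro a l hlen hl hu
        obtain ⟨⟨s, b⟩, l', rfl⟩ : ∃ y l', l = y :: l' := by
          rcases l with _ | ⟨y, l'⟩
          · simp at hlen
          · exact ⟨y, l', rfl⟩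
        have hlen1 : l'.length = k := by simpa using hlen
        have hred := (qside_red_cons s b l').1 hl
        by_cases c1 : a = (y * p)⁻¹ ∧ s = true
        · obtain ⟨rfl, rfl⟩ := c1
          have h1 : evW i w (y * p)⁻¹ ((true, b) :: l') = G * evW i w (y⁻¹ * b) l' := by
            rw [qside_ev_cons, hG, ← qside_ev_left y⁻¹ b, map_inv, map_inv]
            simp [mul_assoc]
          have h2 : (evW i w (y⁻¹ * b) l')⁻¹ * (w * G) * evW i w (y⁻¹ * b) l' ∈ F := by
            rw [h1] at hu
            have h3 : (G * evW i w (y⁻¹ * b) l')⁻¹ * (G * w) * (G * evW i w (y⁻¹ * b) l') =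
                (evW i w (y⁻¹ * b) l')⁻¹ * (w * G) * evW i w (y⁻¹ * b) l' := by
              simp [mul_assoc]
            rwa [h3] at hu
          rcases ih2 _ l' hlen1 hred.2 h2 with h3 | h3
          · left
            rw [h1]
            exact F.mul_mem g1 h3
          · right
            rw [h1, ← mul_assoc]
            exact h3
        by_cases c2 : (1 : A) * a = 1 ∧ s = false
        · obtain ⟨c2, rfl⟩ := c2
          rw [one_mul] at c2
          subst c2
          have h1 : evW i w 1 ((false, b) :: l') = w⁻¹ * evW i w b l' := by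
            rw [qside_ev_cons, map_one, one_mul]
            rfl
          have h2 : (evW i w b l')⁻¹ * (w * G) * evW i w b l' ∈ F := by
            rw [h1] at hu
            have h3 : (w⁻¹ * evW i w b l')⁻¹ * (G * w) * (w⁻¹ * evW i w b l') =
                (evW i w b l')⁻¹ * (w * G) * evW i w b l' := by
              simp [mul_assoc]
            rwa [h3] at hu
          rcases ih2 _ l' hlen1 hred.2 h2 with h3 | h3
          · left
            rw [h1]
            exact F.mul_mem (F.inv_mem g0) h3
          · right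
            rw [h1]
            have h4 := F.mul_mem (F.inv_mem hV) h3
            have h5 : ((i y)⁻¹ * (G * w) * i y)⁻¹ * ((i y)⁻¹ * G * evW i w b l') =
                (i y)⁻¹ * (w⁻¹ * evW i w b l') := by
              simp [mul_assoc]
            rwa [h5] at h4
        exact hside_gen hF hα hβ F hFd (y * p)⁻¹ 1 [(true, y)] (by simp) (G * w) (i y)⁻¹
          (by rw [hG]; simp [evW, mul_assoc]) k ih1 a s b l' hlen1 hl hu c1 c2
      · intro a l hlen hl hu
        obtain ⟨⟨s, b⟩, l', rfl⟩ : ∃ y l', l = y :: l' := by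
          rcases l with _ | ⟨y, l'⟩
          · simp at hlen
          · exact ⟨y, l', rfl⟩
        have hlen1 : l'.length = k := by simpa using hlen
        have hred := (qside_red_cons s b l').1 hl
        by_cases c1 : a = 1 ∧ s = true
        · obtain ⟨rfl, rfl⟩ := c1
          have h1 : evW i w 1 ((true, b) :: l') = w * evW i w b l' := by
            rw [qside_ev_cons, map_one, one_mul]
            rfl
          have h2 : (evW i w b l')⁻¹ * (G * w) * evW i w b l' ∈ F := by
            rw [h1] at hu
            have h3 : (w * evW i w b l')⁻¹ * (w * G) * (w * evW i w b l') =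
                (evW i w b l')⁻¹ * (G * w) * evW i w b l' := by
              simp [mul_assoc]
            rwa [h3] at hu
          rcases ih1 _ l' hlen1 hred.2 h2 with h3 | h3
          · left
            rw [h1]
            exact F.mul_mem g0 h3
          · right
            rw [h1]
            have h4 := F.mul_mem hV h3
            have h5 : (i y)⁻¹ * (G * w) * i y * ((i y)⁻¹ * evW i w b l') =
                (i y)⁻¹ * G * (w * evW i w b l') := by
              simp [mul_assoc]
            rwa [h5] at h4
        by_cases c2 : y * a = 1 ∧ s = false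
        · obtain ⟨c2, rfl⟩ := c2
          have ha : a = y⁻¹ := (inv_eq_of_mul_eq_one_right c2).symm
          subst ha
          have h1 : G * evW i w y⁻¹ ((false, b) :: l') = evW i w ((y * p)⁻¹ * b) l' := by
            rw [qside_ev_cons, hG, ← qside_ev_left (y * p)⁻¹ b, map_inv, map_inv]
            simp [mul_assoc]
          have h1' : evW i w y⁻¹ ((false, b) :: l') = G⁻¹ * evW i w ((y * p)⁻¹ * b) l' := by
            rw [← h1, inv_mul_cancel_left]
          have h2 : (evW i w ((y * p)⁻¹ * b) l')⁻¹ * (G * w) * evW i w ((y * p)⁻¹ * b) l' ∈ F := by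
            rw [h1'] at hu
            have h3 : (G⁻¹ * evW i w ((y * p)⁻¹ * b) l')⁻¹ * (w * G) *
                (G⁻¹ * evW i w ((y * p)⁻¹ * b) l') =
                (evW i w ((y * p)⁻¹ * b) l')⁻¹ * (G * w) * evW i w ((y * p)⁻¹ * b) l' := by
              simp [mul_assoc]
            rwa [h3] at hu
          rcases ih1 _ l' hlen1 hred.2 h2 with h3 | h3
          · left
            rw [h1']
            exact F.mul_mem (F.inv_mem g1) h3
          · right
            rw [mul_assoc, h1]
            exact h3
        exact hside_gen hF hα hβ F hFd 1 y [(true, (y * p)⁻¹)] (by simp) (w * G) ((i y)⁻¹ * G)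
          (by rw [hG]; simp [evW, mul_assoc]) k ih2 a s b l' hlen1 hl hu c1 c2
  obtain ⟨a, l, hl, he⟩ := hF.ex h
  rw [he] at hh ⊢
  exact (key l.length).1 a l rfl hl hh

end hside

theorem hside {A H : Type} [Group A] [Group H] {i : A →* H} {w : H} (hF : FreeBy i w)
    (d : A →* Multiplicative ℤ) (p y : A)
    (hp : d p = Multiplicative.ofAdd 1) (hy : d y = 1) (hpy : p * y = y * p) (hy1 : y ≠ 1)
    (φ : FreeGroup (Fin 3) →* H) (h0 : φ (FreeGroup.of 0) = w)
    (h1 : φ (FreeGroup.of 1) = (i (y * p))⁻¹ * w * i y)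
    (h2 : φ (FreeGroup.of 2) = (i (y * y * p))⁻¹ * w * i (y * y * p)) :
      Function.Injective φ ∧
      (i y ∉ φ.range) ∧ (i (y * y * p) ∉ φ.range) ∧
      (∀ h : H, h⁻¹ * w * h ∈ φ.range → h ∈ φ.range ∨ (i (y * y * p))⁻¹ * h ∈ φ.range) ∧
      (∀ h : H, h⁻¹ * ((i (y * p))⁻¹ * w * i y * w) * h ∈ φ.range →
        h ∈ φ.range ∨ (i y)⁻¹ * h ∈ φ.range) := by
  have hα := hside_a_inj d p y hp hy hy1
  have hβ := hside_b_inj d p y hp hy hy1
  have hφ : φ = FreeGroup.lift (hside_g i w (hside_a p y) (hside_b p y)) := by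
    refine FreeGroup.ext_hom _ _ fun k => ?_
    rw [FreeGroup.lift_apply_of]
    fin_cases k
    · show φ (FreeGroup.of 0) = i 1 * w * i 1
      rw [h0, map_one, one_mul, mul_one]
    · show φ (FreeGroup.of 1) = i (y * p)⁻¹ * w * i y
      rw [h1, map_inv]
    · show φ (FreeGroup.of 2) = i (y * y * p)⁻¹ * w * i (y * y * p)
      rw [h2, map_inv]
  refine ⟨?_, ?_, ?_, ?_, ?_⟩
  · rw [injective_iff_map_eq_one]
    intro f hf
    have h3 := hside_nf_ev (i := i) (w := w) (hside_a p y) (hside_b p y) f.toWord
    rw [FreeGroup.mk_toWord, ← hφ, hf] at h3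
    have h4 : evW i w 1 [] = evW i w (hside_nf (hside_a p y) (hside_b p y) f.toWord).1
        (hside_nf (hside_a p y) (hside_b p y) f.toWord).2 := by
      rw [qside_ev_nil, map_one]
      exact h3
    obtain ⟨_, h5⟩ := hF.uniq _ _ _ _ (by simp [RedW])
      (hside_nf_red hα hβ _ FreeGroup.isReduced_toWord) h4
    apply FreeGroup.toWord_eq_nil_iff.1
    rcases hW : f.toWord with _ | ⟨⟨k, t⟩, W⟩
    · rfl
    · rw [hW, hside_nf] at h5
      exact absurd h5 (by simp)
  · intro h3
    rw [hφ] at h3
    exact hy1 (hside_nil hF hα hβ y h3)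
  · intro h3
    rw [hφ] at h3
    have h4 := congrArg d (hside_nil hF hα hβ _ h3)
    rw [map_mul, map_mul, hy, hp, one_mul, one_mul, map_one d] at h4
    exact absurd h4 (by decide)
  · intro h hh
    exact hside_w hF d p y hp hy hy1 φ.range (by rw [hφ]) h hh
  · intro h hh
    exact hside_u hF d p y hp hy hpy hy1 φ.range (by rw [hφ]) h hh

end Pool.Agent.Lib.MP_decac5_gt
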