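import Mathlib

/-! MP_decac5_gt: the amalgam `H *_F Q` and a centralizer in it (leaf G4). -/

set_option autoImplicit false

namespace Pool.Agent.Lib.MP_decac5_gt

section abstractLine

variable {Γ : Type} [Group Γ]

/-- Reduced words of length `n` from side `b` to side `e`. -/
inductive LineRR (S : Bool → Subgroup Γ) (C : Subgroup Γ) : ℕ → Bool → Bool → Γ → Prop
  | one {b : Bool} {s : Γ} (hs : s ∈ S b) (hc : s ∉ C) : LineRR S C 1 b b s
  | cons {n : ℕ} {b e : Bool} {s g : Γ} (hs : s ∈ S b) (hc : s ∉ C)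
      (hg : LineRR S C n (!b) e g) : LineRR S C (n + 1) b e (s * g)

variable {S : Bool → Subgroup Γ} {C : Subgroup Γ}

theorem LineRR.append {n m : ℕ} {b e f : Bool} {x y : Γ} (hx : LineRR S C n b e x)
    (hy : LineRR S C m (!e) f y) : LineRR S C (n + m) b f (x * y) := by
  induction hx with
  | one hs hc =>
    rw [Nat.add_comm]
    exact .cons hs hc hy
  | cons hs hc hg ih =>
    have h := LineRR.cons hs hc (ih hy)
    rw [mul_assoc, Nat.add_right_comm]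
    exact h

theorem LineRR.append' {n m : ℕ} {b e f : Bool} {x y : Γ} (hx : LineRR S C n b (!e) x)
    (hy : LineRR S C m e f y) : LineRR S C (n + m) b f (x * y) := by
  apply hx.append
  rw [Bool.not_not]
  exact hy

theorem LineRR.inv {n : ℕ} {b e : Bool} {x : Γ} (hx : LineRR S C n b e x) :
    LineRR S C n e b x⁻¹ := by
  induction hx with
  | one hs hc => exact .one ((S _).inv_mem hs) (fun h => hc (by simpa using C.inv_mem h))
  | cons hs hc hg ih =>
    rw [mul_inv_rev]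
    exact ih.append' (.one ((S _).inv_mem hs) (fun h => hc (by simpa using C.inv_mem h)))

theorem LineRR.left {n : ℕ} {b e : Bool} {x f : Γ} (hC : ∀ b, C ≤ S b) (hf : f ∈ C)
    (hx : LineRR S C n b e x) : LineRR S C n b e (f * x) := by
  cases hx with
  | one hs hc =>
    refine .one ((S _).mul_mem (hC _ hf) hs) (fun h => hc ?_)
    simpa using C.mul_mem (C.inv_mem hf) h
  | cons hs hc hg =>
    rw [← mul_assoc]
    refine .cons ((S _).mul_mem (hC _ hf) hs) (fun h => hc ?_) hg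
    simpa using C.mul_mem (C.inv_mem hf) h

/-- Every element of the group generated by the two sides is in `C` or reduced. -/
theorem line_gen (hC : ∀ b, C ≤ S b) {b : Bool} {s g : Γ} (hs : s ∈ S b)
    (hg : g ∈ C ∨ ∃ n b e, LineRR S C n b e g) :
    s * g ∈ C ∨ ∃ n b e, LineRR S C n b e (s * g) := by
  by_cases hsC : s ∈ C
  · rcases hg with hg | ⟨n, b, e, hg⟩
    · exact .inl (C.mul_mem hsC hg)
    · exact .inr ⟨n, b, e, hg.left hC hsC⟩
  rcases hg with hg | ⟨n, b', e, hg⟩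
  · refine .inr ⟨1, b, b, .one ((S b).mul_mem hs (hC b hg)) (fun h => hsC ?_)⟩
    simpa using C.mul_mem h (C.inv_mem hg)
  by_cases hb : b' = !b
  · subst hb
    exact .inr ⟨n + 1, b, e, .cons hs hsC hg⟩
  have hb : b' = b := by
    revert hb
    cases b <;> cases b' <;> decide
  subst hb
  cases hg with
  | one hs' hc' =>
    by_cases h : s * g ∈ C
    · exact .inl h
    · exact .inr ⟨1, _, _, .one ((S _).mul_mem hs hs') h⟩
  | cons hs' hc' hg' =>
    rename_i n s' g'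
    rw [← mul_assoc]
    by_cases h : s * s' ∈ C
    · exact .inr ⟨_, _, _, hg'.left hC h⟩
    · exact .inr ⟨_, _, _, .cons ((S _).mul_mem hs hs') h hg'⟩

/-- One step: the first letter of a word that conjugates `u` into `C`. -/
theorem line_step (hC : ∀ b, C ≤ S b) (hNF : ∀ n b e g, LineRR S C n b e g → g ∉ C)
    {u v w X g : Γ} {k : ℕ} {b e : Bool} (hu : u ∈ C) (hw : w ∈ C)
    (hX : ∀ s ∈ S b, s ∉ C → s⁻¹ * u * s ∈ C → X⁻¹ * s ∈ C) (hv : X⁻¹ * u * X = v)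
    (hg : LineRR S C k b e g) (h : g⁻¹ * u * g = w) :
    ∃ g1, g = X * g1 ∧ g1⁻¹ * v * g1 = w ∧
      (g1 ∈ C ∨ ∃ k' e', k = k' + 1 ∧ LineRR S C k' (!b) e' g1) := by
  refine ⟨X⁻¹ * g, by group, by rw [← h, ← hv]; group, ?_⟩
  cases hg with
  | one hs hc =>
    left
    apply hX _ hs hc
    rw [h]
    exact hw
  | cons hs hc hg' =>
    rename_i n s g'
    right
    have hsu : s⁻¹ * u * s ∈ C := by
      by_contra hn
      have h1 : LineRR S C 1 b b (s⁻¹ * u * s) :=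
        .one ((S b).mul_mem ((S b).mul_mem ((S b).inv_mem hs) (hC b hu)) hs) hn
      have h2 := (hg'.inv.append' h1).append hg'
      refine hNF _ _ _ _ h2 ?_
      have h3 : g'⁻¹ * (s⁻¹ * u * s) * g' = w := by rw [← h]; group
      rw [h3]
      exact hw
    have h4 := hX s hs hc hsu
    refine ⟨n, e, rfl, ?_⟩
    rw [← mul_assoc]
    exact hg'.left hC h4

theorem line_mul {w M : Γ} (h : Commute w M) (m n : ℤ) :
    M * (w ^ m * M ^ n) = w ^ m * M ^ (n + 1) := by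
  rw [zpow_add_one, ← mul_assoc, ← (h.zpow_left m).eq, mul_assoc,
    ((Commute.refl M).zpow_left n).eq]

theorem line_inv_mul {w M : Γ} (h : Commute w M) (m n : ℤ) :
    M⁻¹ * (w ^ m * M ^ n) = w ^ m * M ^ (n - 1) := by
  rw [zpow_sub_one, ← mul_assoc, ← (h.zpow_left m).inv_right.eq, mul_assoc,
    ((Commute.refl M).zpow_left n).inv_right.eq]

/-- The data of the periodic line. -/
structure LineData (S : Bool → Subgroup Γ) (C : Subgroup Γ) (w a c T Y Z : Γ) : Prop where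
  hC : ∀ b, C ≤ S b
  hNF : ∀ n b e g, LineRR S C n b e g → g ∉ C
  hgen : ∀ g, g ∈ C ∨ ∃ n b e, LineRR S C n b e g
  hw : w ∈ C
  ha : a ∈ C
  hc : c ∈ C
  hT : T ∈ S true
  hY : Y ∈ S true
  hZ : Z ∈ S false
  hT' : T ∉ C
  hY' : Y ∉ C
  hZ' : Z ∉ C
  e1 : T⁻¹ * w * T = c
  e2 : Y⁻¹ * (a * w) * Y = c * a
  e3 : Z⁻¹ * (a * w) * Z = w
  e4 : Z⁻¹ * (c * a) * Z = a⁻¹ * c * a
  t1 : ∀ h ∈ S true, h⁻¹ * w * h ∈ C → h ∈ C ∨ T⁻¹ * h ∈ C
  t2 : ∀ h ∈ S true, h⁻¹ * (a * w) * h ∈ C → h ∈ C ∨ Y⁻¹ * h ∈ C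
  t3 : ∀ h ∈ S false, h⁻¹ * (a * w) * h ∈ C → h ∈ C ∨ Z⁻¹ * h ∈ C
  t4 : ∀ h ∈ S false, h⁻¹ * (c * a) * h ∈ C → h ∈ C ∨ Z⁻¹ * h ∈ C
  cw : ∀ f ∈ C, f * w = w * f → ∃ n : ℤ, f = w ^ n
  n1 : ∀ f ∈ C, f⁻¹ * c * f ≠ w
  n2 : ∀ f ∈ C, f⁻¹ * (c * a) * f ≠ w
  n3 : ∀ f ∈ C, f⁻¹ * (a * w) * f ≠ w

namespace LineData

variable {w a c T Y Z : Γ}

theorem comm' (D : LineData S C w a c T Y Z) :
    (T * a * Z⁻¹ * Y⁻¹ * Z)⁻¹ * w * (T * a * Z⁻¹ * Y⁻¹ * Z) = w := by
  have h1 : (T * a * Z⁻¹ * Y⁻¹ * Z)⁻¹ * w * (T * a * Z⁻¹ * Y⁻¹ * Z) =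
      Z⁻¹ * (Y * (Z * (a⁻¹ * (T⁻¹ * w * T) * a) * Z⁻¹) * Y⁻¹) * Z := by group
  have h2 : Z * (a⁻¹ * c * a) * Z⁻¹ = c * a := by rw [← D.e4]; group
  have h3 : Y * (c * a) * Y⁻¹ = a * w := by rw [← D.e2]; group
  rw [h1, D.e1, h2, h3, D.e3]

theorem comm (D : LineData S C w a c T Y Z) :
    w * (T * a * Z⁻¹ * Y⁻¹ * Z) = (T * a * Z⁻¹ * Y⁻¹ * Z) * w := by
  have h := D.comm'
  calc w * (T * a * Z⁻¹ * Y⁻¹ * Z) = (T * a * Z⁻¹ * Y⁻¹ * Z) *
      ((T * a * Z⁻¹ * Y⁻¹ * Z)⁻¹ * w * (T * a * Z⁻¹ * Y⁻¹ * Z)) := by group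
    _ = _ := by rw [h]

theorem n1' (D : LineData S C w a c T Y Z) (f : Γ) (hf : f ∈ C) : f⁻¹ * (a⁻¹ * c * a) * f ≠ w := by
  intro h
  apply D.n1 (a * f) (C.mul_mem D.ha hf)
  rw [← h]
  group

theorem forward (D : LineData S C w a c T Y Z) {k : ℕ} {e : Bool} {g : Γ}
    (hg : LineRR S C k true e g) (h : g⁻¹ * w * g = w) :
    ∃ g1, g = (T * a * Z⁻¹ * Y⁻¹ * Z) * g1 ∧ g1⁻¹ * w * g1 = w ∧
      (g1 ∈ C ∨ ∃ k' b' e', k' < k ∧ LineRR S C k' b' e' g1) := by
  obtain ⟨g1, rfl, h1, h1'⟩ := line_step (X := T * a) (v := a⁻¹ * c * a) D.hC D.hNF D.hw D.hw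
    (fun s hs hsC hs1 => by
      rcases D.t1 s hs hs1 with h2 | h2
      · exact absurd h2 hsC
      · have h3 : (T * a)⁻¹ * s = a⁻¹ * (T⁻¹ * s) := by group
        rw [h3]
        exact C.mul_mem (C.inv_mem D.ha) h2)
    (by rw [← D.e1]; group) hg h
  rcases h1' with h1' | ⟨k1, e1, rfl, h1'⟩
  · exact absurd h1 (D.n1' g1 h1')
  rw [Bool.not_true] at h1'
  obtain ⟨g2, rfl, h2, h2'⟩ := line_step (X := Z⁻¹) (v := c * a) D.hC D.hNF
    (C.mul_mem (C.mul_mem (C.inv_mem D.ha) D.hc) D.ha) D.hw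
    (fun s hs hsC hs1 => by
      rw [inv_inv]
      rcases D.t4 (Z * s) ((S false).mul_mem D.hZ hs) (by
        have h3 : (Z * s)⁻¹ * (c * a) * (Z * s) = s⁻¹ * (Z⁻¹ * (c * a) * Z) * s := by group
        rw [h3, D.e4]
        exact hs1) with h4 | h4
      · exact h4
      · exact absurd (by simpa using h4) hsC)
    (by rw [← D.e4]; group) h1' h1
  rcases h2' with h2' | ⟨k2, e2, rfl, h2'⟩
  · exact absurd h2 (D.n2 g2 h2')
  rw [Bool.not_false] at h2'
  obtain ⟨g3, rfl, h3, h3'⟩ := line_step (X := Y⁻¹) (v := a * w) D.hC D.hNF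
    (C.mul_mem D.hc D.ha) D.hw
    (fun s hs hsC hs1 => by
      rw [inv_inv]
      rcases D.t2 (Y * s) ((S true).mul_mem D.hY hs) (by
        have h3 : (Y * s)⁻¹ * (a * w) * (Y * s) = s⁻¹ * (Y⁻¹ * (a * w) * Y) * s := by group
        rw [h3, D.e2]
        exact hs1) with h4 | h4
      · exact h4
      · exact absurd (by simpa using h4) hsC)
    (by rw [← D.e2]; group) h2' h2
  rcases h3' with h3' | ⟨k3, e3, rfl, h3'⟩
  · exact absurd h3 (D.n3 g3 h3')
  rw [Bool.not_true] at h3'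
  obtain ⟨g4, rfl, h4, h4'⟩ := line_step (X := Z) (v := w) D.hC D.hNF
    (C.mul_mem D.ha D.hw) D.hw
    (fun s hs hsC hs1 => by
      rcases D.t3 s hs hs1 with h4 | h4
      · exact absurd h4 hsC
      · exact h4)
    D.e3 h3' h3
  refine ⟨g4, by group, h4, ?_⟩
  rcases h4' with h4' | ⟨k4, e4, rfl, h4'⟩
  · exact .inl h4'
  · exact .inr ⟨k4, _, e4, by omega, h4'⟩

theorem backward (D : LineData S C w a c T Y Z) {k : ℕ} {e : Bool} {g : Γ}
    (hg : LineRR S C k false e g) (h : g⁻¹ * w * g = w) :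
    ∃ g1, g = (T * a * Z⁻¹ * Y⁻¹ * Z)⁻¹ * g1 ∧ g1⁻¹ * w * g1 = w ∧
      (g1 ∈ C ∨ ∃ k' b' e', k' < k ∧ LineRR S C k' b' e' g1) := by
  obtain ⟨g1, rfl, h1, h1'⟩ := line_step (X := Z⁻¹) (v := a * w) D.hC D.hNF D.hw D.hw
    (fun s hs hsC hs1 => by
      rw [inv_inv]
      rcases D.t3 (Z * s) ((S false).mul_mem D.hZ hs) (by
        have h3 : (Z * s)⁻¹ * (a * w) * (Z * s) = s⁻¹ * (Z⁻¹ * (a * w) * Z) * s := by group
        rw [h3, D.e3]
        exact hs1) with h4 | h4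
      · exact h4
      · exact absurd (by simpa using h4) hsC)
    (by
      have h3 : Z⁻¹⁻¹ * w * Z⁻¹ = Z⁻¹⁻¹ * (Z⁻¹ * (a * w) * Z) * Z⁻¹ := by rw [D.e3]
      rw [h3]
      group) hg h
  rcases h1' with h1' | ⟨k1, e1, rfl, h1'⟩
  · exact absurd h1 (D.n3 g1 h1')
  rw [Bool.not_false] at h1'
  obtain ⟨g2, rfl, h2, h2'⟩ := line_step (X := Y) (v := c * a) D.hC D.hNF
    (C.mul_mem D.ha D.hw) D.hw
    (fun s hs hsC hs1 => by
      rcases D.t2 s hs hs1 with h4 | h4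
      · exact absurd h4 hsC
      · exact h4)
    D.e2 h1' h1
  rcases h2' with h2' | ⟨k2, e2, rfl, h2'⟩
  · exact absurd h2 (D.n2 g2 h2')
  rw [Bool.not_true] at h2'
  obtain ⟨g3, rfl, h3, h3'⟩ := line_step (X := Z) (v := a⁻¹ * c * a) D.hC D.hNF
    (C.mul_mem D.hc D.ha) D.hw
    (fun s hs hsC hs1 => by
      rcases D.t4 s hs hs1 with h4 | h4
      · exact absurd h4 hsC
      · exact h4)
    D.e4 h2' h2
  rcases h3' with h3' | ⟨k3, e3, rfl, h3'⟩
  · exact absurd h3 (D.n1' g3 h3')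
  rw [Bool.not_false] at h3'
  obtain ⟨g4, rfl, h4, h4'⟩ := line_step (X := (T * a)⁻¹) (v := w) D.hC D.hNF
    (C.mul_mem (C.mul_mem (C.inv_mem D.ha) D.hc) D.ha) D.hw
    (fun s hs hsC hs1 => by
      rw [inv_inv]
      rcases D.t1 (T * a * s) ((S true).mul_mem ((S true).mul_mem D.hT (D.hC _ D.ha)) hs) (by
        have h3 : (T * a * s)⁻¹ * w * (T * a * s) = s⁻¹ * (a⁻¹ * (T⁻¹ * w * T) * a) * s := by group
        rw [h3, D.e1]
        exact hs1) with h4 | h4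
      · exact h4
      · refine absurd ?_ hsC
        have h5 := C.mul_mem (C.inv_mem D.ha) h4
        have h6 : a⁻¹ * (T⁻¹ * (T * a * s)) = s := by group
        rw [h6] at h5
        exact h5)
    (by
      have h3 : (T * a)⁻¹⁻¹ * (a⁻¹ * c * a) * (T * a)⁻¹ = T * c * T⁻¹ := by group
      rw [h3, ← D.e1]
      group) h3' h3
  refine ⟨g4, by group, h4, ?_⟩
  rcases h4' with h4' | ⟨k4, e4, rfl, h4'⟩
  · exact .inl h4'
  · exact .inr ⟨k4, _, e4, by omega, h4'⟩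

theorem central (D : LineData S C w a c T Y Z) (k : ℕ) : ∀ g : Γ,
    (g ∈ C ∨ ∃ k' b e, k' < k ∧ LineRR S C k' b e g) → g⁻¹ * w * g = w →
      ∃ m n : ℤ, g = w ^ m * (T * a * Z⁻¹ * Y⁻¹ * Z) ^ n := by
  have hcomm : Commute w (T * a * Z⁻¹ * Y⁻¹ * Z) := D.comm
  induction k with
  | zero =>
    intro g hg h
    rcases hg with hg | ⟨k', b, e, hk, -⟩
    · obtain ⟨n, hn⟩ := D.cw g hg (by
        calc g * w = g * (g⁻¹ * w * g) := by rw [h]
          _ = w * g := by group)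
      exact ⟨n, 0, by rw [hn]; simp⟩
    · omega
  | succ k ih =>
    intro g hg h
    rcases hg with hg | ⟨k', b, e, hk, hg⟩
    · exact ih g (.inl hg) h
    cases b
    · obtain ⟨g1, rfl, h1, h2⟩ := D.backward hg h
      obtain ⟨m, n, hmn⟩ := ih g1 (h2.imp id (by
        rintro ⟨k'', b', e', h3, h4⟩
        exact ⟨k'', b', e', by omega, h4⟩)) h1
      refine ⟨m, n - 1, ?_⟩
      rw [hmn, line_inv_mul hcomm]
    · obtain ⟨g1, rfl, h1, h2⟩ := D.forward hg h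
      obtain ⟨m, n, hmn⟩ := ih g1 (h2.imp id (by
        rintro ⟨k'', b', e', h3, h4⟩
        exact ⟨k'', b', e', by omega, h4⟩)) h1
      refine ⟨m, n + 1, ?_⟩
      rw [hmn, line_mul hcomm]

theorem length_pow (D : LineData S C w a c T Y Z) (n : ℕ) :
    LineRR S C (4 * (n + 1)) true false ((T * a * Z⁻¹ * Y⁻¹ * Z) ^ (n + 1)) := by
  have h1 : LineRR S C 4 true false (T * a * Z⁻¹ * Y⁻¹ * Z) := by
    have h2 : T * a * Z⁻¹ * Y⁻¹ * Z = (T * a) * (Z⁻¹ * (Y⁻¹ * Z)) := by group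
    rw [h2]
    refine .cons ((S true).mul_mem D.hT (D.hC _ D.ha)) (fun h => D.hT' ?_)
      (.cons ((S false).inv_mem D.hZ) (fun h => D.hZ' (by simpa using C.inv_mem h))
        (.cons ((S true).inv_mem D.hY) (fun h => D.hY' (by simpa using C.inv_mem h))
          (.one D.hZ D.hZ')))
    simpa using C.mul_mem h (C.inv_mem D.ha)
  induction n with
  | zero => simpa using h1
  | succ n ih =>
    rw [pow_succ, show 4 * (n + 1 + 1) = 4 * (n + 1) + 4 by omega]
    exact ih.append h1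

theorem infinite (D : LineData S C w a c T Y Z) {m n : ℤ}
    (h : w ^ m * (T * a * Z⁻¹ * Y⁻¹ * Z) ^ n = 1) : n = 0 := by
  by_contra hn
  have h1 : (T * a * Z⁻¹ * Y⁻¹ * Z) ^ n ∈ C := by
    rw [← inv_eq_of_mul_eq_one_right h]
    exact C.inv_mem (C.zpow_mem D.hw m)
  obtain ⟨k, hk | hk⟩ : ∃ k : ℕ, n = (k + 1 : ℕ) ∨ n = -((k + 1 : ℕ) : ℤ) := by
    refine ⟨n.natAbs - 1, ?_⟩
    omega
  · rw [hk, zpow_natCast] at h1
    exact D.hNF _ _ _ _ (D.length_pow k) h1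
  · rw [hk, zpow_neg, zpow_natCast] at h1
    exact D.hNF _ _ _ _ (D.length_pow k) (by simpa using C.inv_mem h1)

/-- The centralizer of `a w`. -/
theorem final (D : LineData S C w a c T Y Z) :
    (∀ g : Γ, g * (a * w) = (a * w) * g → ∃ m n : ℤ,
        g = (a * w) ^ m * (Z * (T * a) * Z⁻¹ * Y⁻¹) ^ n) ∧
      (∀ m n : ℤ, (a * w) ^ m * (Z * (T * a) * Z⁻¹ * Y⁻¹) ^ n = 1 → n = 0) ∧
      (a * w) * (Z * (T * a) * Z⁻¹ * Y⁻¹) = (Z * (T * a) * Z⁻¹ * Y⁻¹) * (a * w) := by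
  have hM : Z * (T * a) * Z⁻¹ * Y⁻¹ = MulAut.conj Z (T * a * Z⁻¹ * Y⁻¹ * Z) := by
    rw [MulAut.conj_apply]
    group
  have haw : a * w = MulAut.conj Z w := by
    rw [MulAut.conj_apply]
    have h := D.e3
    calc a * w = Z * (Z⁻¹ * (a * w) * Z) * Z⁻¹ := by group
      _ = _ := by rw [h]
  rw [hM, haw]
  refine ⟨fun g hg => ?_, fun m n h => ?_, ?_⟩
  · obtain ⟨g', rfl⟩ := (MulAut.conj Z).surjective g
    rw [← map_mul, ← map_mul] at hg
    have h1 := (MulAut.conj Z).injective hg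
    obtain ⟨m, n, hmn⟩ : ∃ m n : ℤ, g' = w ^ m * (T * a * Z⁻¹ * Y⁻¹ * Z) ^ n := by
      have h2 : g'⁻¹ * w * g' = w := by
        rw [mul_assoc, ← h1]
        group
      rcases D.hgen g' with h3 | ⟨k, b, e, h3⟩
      · exact D.central 0 g' (.inl h3) h2
      · exact D.central (k + 1) g' (.inr ⟨k, b, e, by omega, h3⟩) h2
    refine ⟨m, n, ?_⟩
    rw [hmn, map_mul, map_zpow, map_zpow]
  · rw [← map_zpow, ← map_zpow, ← map_mul] at h
    exact D.infinite ((MulAut.conj Z).injective (h.trans (map_one _).symm))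
  · rw [← map_mul, ← map_mul, D.comm]

end LineData

end abstractLine

section concreteLine

open Monoid

/-- The two factors. -/
def LineFam (H Q : Type) : Bool → Type
  | true => H
  | false => Q

instance LineFam.group (H Q : Type) [Group H] [Group Q] : ∀ b, Group (LineFam H Q b)
  | true => inferInstanceAs (Group H)
  | false => inferInstanceAs (Group Q)

variable {F H Q : Type} [Group F] [Group H] [Group Q]

/-- The two maps. -/
def lineHom (φ : F →* H) (ψ : F →* Q) : ∀ b, F →* LineFam H Q b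
  | true => φ
  | false => ψ

/-- The first factor in the amalgam. -/
def lineI (φ : F →* H) (ψ : F →* Q) : H →* PushoutI (lineHom φ ψ) :=
  PushoutI.of (φ := lineHom φ ψ) true

/-- The second factor in the amalgam. -/
def lineJ (φ : F →* H) (ψ : F →* Q) : Q →* PushoutI (lineHom φ ψ) :=
  PushoutI.of (φ := lineHom φ ψ) false

theorem lineI_apply (φ : F →* H) (ψ : F →* Q) (f : F) :
    lineI φ ψ (φ f) = PushoutI.base (lineHom φ ψ) f :=
  PushoutI.of_apply_eq_base (lineHom φ ψ) true f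

theorem lineJ_apply (φ : F →* H) (ψ : F →* Q) (f : F) :
    lineJ φ ψ (ψ f) = PushoutI.base (lineHom φ ψ) f :=
  PushoutI.of_apply_eq_base (lineHom φ ψ) false f

/-- The sides as subgroups. -/
def lineS (φ : F →* H) (ψ : F →* Q) (b : Bool) : Subgroup (PushoutI (lineHom φ ψ)) :=
  (PushoutI.of (φ := lineHom φ ψ) b).range

/-- The base as a subgroup. -/
def lineC (φ : F →* H) (ψ : F →* Q) : Subgroup (PushoutI (lineHom φ ψ)) :=
  (PushoutI.base (lineHom φ ψ)).range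

theorem lineC_le (φ : F →* H) (ψ : F →* Q) (b : Bool) : lineC φ ψ ≤ lineS φ ψ b := by
  rintro _ ⟨f, rfl⟩
  exact ⟨lineHom φ ψ b f, PushoutI.of_apply_eq_base (lineHom φ ψ) b f⟩

theorem line_inj {φ : F →* H} {ψ : F →* Q} (hφ : Function.Injective φ)
    (hψ : Function.Injective ψ) : ∀ b, Function.Injective (lineHom φ ψ b)
  | true => hφ
  | false => hψ

theorem line_word {φ : F →* H} {ψ : F →* Q} {n : ℕ} {b e : Bool} {g : PushoutI (lineHom φ ψ)}
    (hg : LineRR (lineS φ ψ) (lineC φ ψ) n b e g) :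
    ∃ u : CoprodI.Word (LineFam H Q), PushoutI.Reduced (lineHom φ ψ) u ∧
      PushoutI.ofCoprodI u.prod = g ∧ u.fstIdx = some b := by
  induction hg with
  | one hs hc =>
    rename_i b s
    obtain ⟨m, rfl⟩ := hs
    have h1 : m ∉ (lineHom φ ψ b).range := by
      rintro ⟨f, rfl⟩
      exact hc ⟨f, (PushoutI.of_apply_eq_base (lineHom φ ψ) b f).symm⟩
    have h2 : m ≠ 1 := by
      rintro rfl
      exact h1 (one_mem _)
    refine ⟨CoprodI.Word.cons m CoprodI.Word.empty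
      (by simp [CoprodI.Word.fstIdx, CoprodI.Word.empty]) h2, ?_, ?_, ?_⟩
    · intro g hg
      simp only [CoprodI.Word.cons, CoprodI.Word.empty, List.mem_singleton] at hg
      subst hg
      exact h1
    · rw [CoprodI.Word.prod_cons, CoprodI.Word.prod_empty, mul_one, PushoutI.ofCoprodI_of]
    · rfl
  | cons hs hc hg ih =>
    rename_i n b e s g
    obtain ⟨m, rfl⟩ := hs
    have h1 : m ∉ (lineHom φ ψ b).range := by
      rintro ⟨f, rfl⟩
      exact hc ⟨f, (PushoutI.of_apply_eq_base (lineHom φ ψ) b f).symm⟩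
    have h2 : m ≠ 1 := by
      rintro rfl
      exact h1 (one_mem _)
    obtain ⟨u, hu1, hu2, hu3⟩ := ih
    refine ⟨CoprodI.Word.cons m u (by rw [hu3]; simp) h2, ?_, ?_, ?_⟩
    · intro g hg
      simp only [CoprodI.Word.cons, List.mem_cons] at hg
      rcases hg with rfl | hg
      · exact h1
      · exact hu1 g hg
    · rw [CoprodI.Word.prod_cons, map_mul, PushoutI.ofCoprodI_of, hu2]
    · rfl

theorem line_nf {φ : F →* H} {ψ : F →* Q} (hφ : Function.Injective φ)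
    (hψ : Function.Injective ψ) {n : ℕ} {b e : Bool} {g : PushoutI (lineHom φ ψ)}
    (hg : LineRR (lineS φ ψ) (lineC φ ψ) n b e g) : g ∉ lineC φ ψ := by
  intro h
  obtain ⟨u, hu1, hu2, hu3⟩ := line_word hg
  have h1 := hu1.eq_empty_of_mem_range (line_inj hφ hψ) (by rw [hu2]; exact h)
  rw [h1] at hu3
  exact absurd hu3 (by simp [CoprodI.Word.fstIdx, CoprodI.Word.empty])

theorem line_exists {φ : F →* H} {ψ : F →* Q} (g : PushoutI (lineHom φ ψ)) :
    g ∈ lineC φ ψ ∨ ∃ n b e, LineRR (lineS φ ψ) (lineC φ ψ) n b e g := by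
  suffices h : ∀ g' : PushoutI (lineHom φ ψ), (g' ∈ lineC φ ψ ∨
      ∃ n b e, LineRR (lineS φ ψ) (lineC φ ψ) n b e g') →
      (g * g' ∈ lineC φ ψ ∨ ∃ n b e, LineRR (lineS φ ψ) (lineC φ ψ) n b e (g * g')) by
    have h1 := h 1 (.inl (one_mem _))
    rwa [mul_one] at h1
  induction g using PushoutI.induction_on with
  | of b m => exact fun g' hg' => line_gen (lineC_le φ ψ) ⟨m, rfl⟩ hg'
  | base f => exact fun g' hg' => line_gen (b := true) (lineC_le φ ψ) (lineC_le φ ψ _ ⟨f, rfl⟩) hg'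
  | mul x y hx hy =>
    intro g' hg'
    rw [mul_assoc]
    exact hx _ (hy _ hg')

end concreteLine

open Monoid in
theorem exists_amalgam (F H Q : Type) [Group F] [Group H] [Group Q] (φ : F →* H) (ψ : F →* Q)
    (hφ : Function.Injective φ) (hψ : Function.Injective ψ) (w a c : F) (t y : H) (z : Q)
    (hw : ∀ f : F, f * w = w * f → ∃ n : ℤ, f = w ^ n)
    (e : F →* Multiplicative ℤ) (n1 : e w ≠ e c) (n2 : e w ≠ e (c * a)) (n3 : e w ≠ e (a * w))
    (hy : y ∉ φ.range) (ht : t ∉ φ.range) (hz : z ∉ ψ.range)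
    (e1 : t⁻¹ * φ w * t = φ c) (e2 : y⁻¹ * φ (a * w) * y = φ (c * a))
    (e3 : z⁻¹ * ψ (a * w) * z = ψ w) (e4 : z⁻¹ * ψ (c * a) * z = ψ (a⁻¹ * c * a))
    (t1 : ∀ h : H, h⁻¹ * φ w * h ∈ φ.range → h ∈ φ.range ∨ t⁻¹ * h ∈ φ.range)
    (t2 : ∀ h : H, h⁻¹ * φ (a * w) * h ∈ φ.range → h ∈ φ.range ∨ y⁻¹ * h ∈ φ.range)
    (t3 : ∀ h : Q, h⁻¹ * ψ (a * w) * h ∈ ψ.range → h ∈ ψ.range ∨ z⁻¹ * h ∈ ψ.range)
    (t4 : ∀ h : Q, h⁻¹ * ψ (c * a) * h ∈ ψ.range → h ∈ ψ.range ∨ z⁻¹ * h ∈ ψ.range) :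
    ∃ (Γ : Type) (_ : Group Γ) (i : H →* Γ) (j : Q →* Γ), (∀ f, i (φ f) = j (ψ f)) ∧
      (∀ (G : Type) [Group G] (f : H →* G) (g : Q →* G), (∀ e, f (φ e) = g (ψ e)) →
        ∃ Φ : Γ →* G, (∀ h, Φ (i h) = f h) ∧ ∀ q, Φ (j q) = g q) ∧
      (∀ g : Γ, g * j (ψ (a * w)) = j (ψ (a * w)) * g → ∃ m n : ℤ,
        g = j (ψ (a * w)) ^ m * (j z * i (t * φ a) * (j z)⁻¹ * (i y)⁻¹) ^ n) ∧
      (∀ m n : ℤ, j (ψ (a * w)) ^ m * (j z * i (t * φ a) * (j z)⁻¹ * (i y)⁻¹) ^ n = 1 → n = 0) ∧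
      j (ψ (a * w)) * (j z * i (t * φ a) * (j z)⁻¹ * (i y)⁻¹) =
        (j z * i (t * φ a) * (j z)⁻¹ * (i y)⁻¹) * j (ψ (a * w)) := by
  have hij : ∀ f, lineI φ ψ (φ f) = lineJ φ ψ (ψ f) := fun f =>
    (lineI_apply φ ψ f).trans (lineJ_apply φ ψ f).symm
  have hI : Function.Injective (lineI φ ψ) := PushoutI.of_injective (line_inj hφ hψ) true
  have hJ : Function.Injective (lineJ φ ψ) := PushoutI.of_injective (line_inj hφ hψ) false
  have hB : Function.Injective (PushoutI.base (lineHom φ ψ)) :=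
    PushoutI.base_injective (line_inj hφ hψ)
  have hIC : ∀ h : H, lineI φ ψ h ∈ lineC φ ψ ↔ h ∈ φ.range := by
    intro h
    constructor
    · rintro ⟨f, hf⟩
      exact ⟨f, hI ((lineI_apply φ ψ f).trans hf)⟩
    · rintro ⟨f, rfl⟩
      exact ⟨f, (lineI_apply φ ψ f).symm⟩
  have hJC : ∀ h : Q, lineJ φ ψ h ∈ lineC φ ψ ↔ h ∈ ψ.range := by
    intro h
    constructor
    · rintro ⟨f, hf⟩
      exact ⟨f, hJ ((lineJ_apply φ ψ f).trans hf)⟩
    · rintro ⟨f, rfl⟩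
      exact ⟨f, (lineJ_apply φ ψ f).symm⟩
  have hconj : ∀ (u v : F), e v ≠ e u → ∀ f ∈ lineC φ ψ,
      f⁻¹ * PushoutI.base (lineHom φ ψ) u * f ≠ PushoutI.base (lineHom φ ψ) v := by
    rintro u v hne _ ⟨f, rfl⟩ h
    rw [← map_inv, ← map_mul, ← map_mul] at h
    apply hne
    rw [← hB h, map_mul, map_mul, map_inv, mul_comm (e f)⁻¹, inv_mul_cancel_right]
  have D : LineData (lineS φ ψ) (lineC φ ψ) (PushoutI.base (lineHom φ ψ) w)
      (PushoutI.base (lineHom φ ψ) a) (PushoutI.base (lineHom φ ψ) c) (lineI φ ψ t)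
      (lineI φ ψ y) (lineJ φ ψ z) :=
    { hC := lineC_le φ ψ
      hNF := fun n b e g => line_nf hφ hψ
      hgen := line_exists
      hw := ⟨w, rfl⟩
      ha := ⟨a, rfl⟩
      hc := ⟨c, rfl⟩
      hT := ⟨t, rfl⟩
      hY := ⟨y, rfl⟩
      hZ := ⟨z, rfl⟩
      hT' := fun h => ht ((hIC t).1 h)
      hY' := fun h => hy ((hIC y).1 h)
      hZ' := fun h => hz ((hJC z).1 h)
      e1 := by rw [← lineI_apply, ← lineI_apply, ← e1]; simp only [map_mul, map_inv]
      e2 := by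
        rw [← map_mul, ← map_mul, ← lineI_apply, ← lineI_apply, ← e2]
        simp only [map_mul, map_inv]
      e3 := by
        rw [← map_mul, ← lineJ_apply, ← lineJ_apply, ← e3]
        simp only [map_mul, map_inv]
      e4 := by
        have h : lineJ φ ψ (z⁻¹ * ψ (c * a) * z) = lineJ φ ψ (ψ (a⁻¹ * c * a)) := by rw [e4]
        simp only [map_mul, map_inv, lineJ_apply] at h
        exact h
      t1 := by
        intro x hx hh
        obtain ⟨h, rfl⟩ : ∃ h : H, lineI φ ψ h = x := hx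
        have hh' : lineI φ ψ (h⁻¹ * φ w * h) ∈ lineC φ ψ := by
          rw [map_mul, map_mul, map_inv, lineI_apply]
          exact hh
        refine (t1 h ((hIC _).1 hh')).imp (fun h1 => (hIC h).2 h1) (fun h1 => ?_)
        have h2 := (hIC _).2 h1
        rw [map_mul, map_inv] at h2
        exact h2
      t2 := by
        intro x hx hh
        obtain ⟨h, rfl⟩ : ∃ h : H, lineI φ ψ h = x := hx
        have hh' : lineI φ ψ (h⁻¹ * φ (a * w) * h) ∈ lineC φ ψ := by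
          rw [map_mul, map_mul, map_inv, lineI_apply, map_mul]
          exact hh
        refine (t2 h ((hIC _).1 hh')).imp (fun h1 => (hIC h).2 h1) (fun h1 => ?_)
        have h2 := (hIC _).2 h1
        rw [map_mul, map_inv] at h2
        exact h2
      t3 := by
        intro x hx hh
        obtain ⟨h, rfl⟩ : ∃ h : Q, lineJ φ ψ h = x := hx
        have hh' : lineJ φ ψ (h⁻¹ * ψ (a * w) * h) ∈ lineC φ ψ := by
          rw [map_mul, map_mul, map_inv, lineJ_apply, map_mul]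
          exact hh
        refine (t3 h ((hJC _).1 hh')).imp (fun h1 => (hJC h).2 h1) (fun h1 => ?_)
        have h2 := (hJC _).2 h1
        rw [map_mul, map_inv] at h2
        exact h2
      t4 := by
        intro x hx hh
        obtain ⟨h, rfl⟩ : ∃ h : Q, lineJ φ ψ h = x := hx
        have hh' : lineJ φ ψ (h⁻¹ * ψ (c * a) * h) ∈ lineC φ ψ := by
          rw [map_mul, map_mul, map_inv, lineJ_apply, map_mul]
          exact hh
        refine (t4 h ((hJC _).1 hh')).imp (fun h1 => (hJC h).2 h1) (fun h1 => ?_)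
        have h2 := (hJC _).2 h1
        rw [map_mul, map_inv] at h2
        exact h2
      cw := by
        rintro _ ⟨f, rfl⟩ h
        rw [← map_mul, ← map_mul] at h
        obtain ⟨n, hn⟩ := hw f (hB h)
        exact ⟨n, by rw [hn, map_zpow]⟩
      n1 := hconj c w n1
      n2 := by
        intro f hf
        rw [← map_mul]
        exact hconj (c * a) w n2 f hf
      n3 := by
        intro f hf
        rw [← map_mul]
        exact hconj (a * w) w n3 f hf }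
  refine ⟨PushoutI (lineHom φ ψ), inferInstance, lineI φ ψ, lineJ φ ψ, hij, ?_, ?_⟩
  · intro G _ f g hfg
    let Φ : PushoutI (lineHom φ ψ) →* G := PushoutI.lift
      (fun b => match b with
        | true => f
        | false => g) (f.comp φ) (by
        intro b
        cases b
        · ext x
          exact (hfg x).symm
        · rfl)
    refine ⟨Φ, fun h => ?_, fun q => ?_⟩
    · exact PushoutI.lift_of (φ := lineHom φ ψ) _ _ _ (i := true) h
    · exact PushoutI.lift_of (φ := lineHom φ ψ) _ _ _ (i := false) q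
  · have h1 := D.final
    have h2 : lineJ φ ψ (ψ (a * w)) = PushoutI.base (lineHom φ ψ) a *
        PushoutI.base (lineHom φ ψ) w := by rw [lineJ_apply, map_mul]
    have h3 : lineI φ ψ (t * φ a) = lineI φ ψ t * PushoutI.base (lineHom φ ψ) a := by
      rw [map_mul, lineI_apply]
    rw [h2, h3]
    exact h1

end Pool.Agent.Lib.MP_decac5_gt
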