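import Pool.Agent.Lib.MP_decac5_gt.Base2

/-!
# The other side of the amalgam
-/

set_option autoImplicit false

namespace Pool.Agent.Lib.MP_decac5_gt

section qside

variable {A Q : Type} [Group A] [Group Q] {i : A →* Q} {x : Q}

theorem qside_ev_nil (a : A) : evW i x a [] = i a := by
  simp [evW]

theorem qside_ev_cons (a : A) (s : Bool) (b : A) (l : List (Bool × A)) :
    evW i x a ((s, b) :: l) = i a * (if s then x else x⁻¹) * evW i x b l := by
  simp [evW, mul_assoc]

theorem qside_ev_left (c a : A) (l : List (Bool × A)) :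
    i c * evW i x a l = evW i x (c * a) l := by
  simp [evW, mul_assoc]

theorem qside_ev_append (a : A) (l l' : List (Bool × A)) :
    evW i x a (l ++ l') = evW i x a l * evW i x 1 l' := by
  simp [evW, mul_assoc]

theorem qside_red_cons (s : Bool) (b : A) (l : List (Bool × A)) :
    RedW ((s, b) :: l) ↔ (∀ y ∈ l.head?, b = 1 → s = y.1) ∧ RedW l := by
  unfold RedW
  rw [List.isChain_cons]

/-- The inverse of a normal form. -/
def qside_inv : A → List (Bool × A) → A × List (Bool × A)
  | a, [] => (a⁻¹, [])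
  | a, (s, b) :: l => ((qside_inv b l).1, (qside_inv b l).2 ++ [(!s, a⁻¹)])

theorem qside_inv_ev (a : A) (l : List (Bool × A)) :
    evW i x (qside_inv a l).1 (qside_inv a l).2 = (evW i x a l)⁻¹ := by
  induction l generalizing a with
  | nil => simp [qside_inv, qside_ev_nil]
  | cons y l ih =>
    obtain ⟨s, b⟩ := y
    rw [qside_inv, qside_ev_append, ih, qside_ev_cons, qside_ev_cons, qside_ev_nil, map_one, one_mul]
    cases s <;> simp [mul_assoc]

theorem qside_inv_last (a : A) (s : Bool) (b : A) (l : List (Bool × A)) :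
    (qside_inv a ((s, b) :: l)).2.getLast? = some (!s, a⁻¹) := by
  simp [qside_inv]

theorem qside_inv_red (a : A) (l : List (Bool × A)) (hl : RedW l) : RedW (qside_inv a l).2 := by
  induction l generalizing a with
  | nil => simp [qside_inv, RedW]
  | cons y l ih =>
    obtain ⟨s, b⟩ := y
    rw [qside_red_cons] at hl
    rw [qside_inv]
    unfold RedW
    rw [List.isChain_append]
    refine ⟨ih b hl.2, List.isChain_singleton _, ?_⟩
    intro u hu v hv
    rw [List.head?_cons, Option.mem_def, Option.some.injEq] at hv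
    subst hv
    rcases l with _ | ⟨⟨t, c⟩, l⟩
    · simp [qside_inv] at hu
    · rw [qside_inv_last, Option.mem_def, Option.some.injEq] at hu
      subst hu
      intro h
      have h1 := hl.1 (t, c) (by simp) (inv_eq_one.1 h)
      show (!t) = !s
      rw [h1]

/-- The last element of a normal form. -/
def qside_last (q z : A) (a : A) (l : List (Bool × A)) : Prop :=
  (l = [] → ∃ m : ℤ, a = q ^ m) ∧
    ∀ y ∈ l.getLast?, ∃ m : ℤ, y.2 = q ^ m ∨ y.2 = z * q ^ m

/-- The beginning of the normal form of a word. -/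
def qside_head (q z : A) (W : List (Fin 3 × Bool)) (a : A) (l : List (Bool × A)) : Prop :=
  (W = [] ∧ a = 1 ∧ l = []) ∨
  (∃ s W' b l', W = (0, s) :: W' ∧ a = z⁻¹ ∧ l = (s, b) :: l') ∨
  (∃ s W' b l', W = (1, s) :: W' ∧ a = 1 ∧ l = (s, b) :: l') ∨
  (∃ s W' n, W = (2, s) :: W' ∧ (s = true → (0 : ℤ) < n) ∧ (s = false → n < 0) ∧
    ((l = [] ∧ a = q ^ n) ∨ (l ≠ [] ∧ (a = q ^ n ∨ a = q ^ n * z⁻¹))))

/-- The images of the generators. -/
def qside_g (i : A →* Q) (x : Q) (q z : A) : Fin 3 → Q := ![(i z)⁻¹ * x * i z, x, i q]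

theorem qside_word (d : A →* Multiplicative ℤ) (q z : A)
    (hq : d q = Multiplicative.ofAdd 1) (hz : d z = 1) (hqz : q * z = z * q) (hz1 : z ≠ 1)
    (W : List (Fin 3 × Bool)) (hW : FreeGroup.IsReduced W) :
    ∃ (a : A) (l : List (Bool × A)), RedW l ∧
      FreeGroup.lift (qside_g i x q z) (FreeGroup.mk W) = evW i x a l ∧
      qside_last q z a l ∧ qside_head q z W a l := by
  have hdq : ∀ n : ℤ, d (q ^ n) = Multiplicative.ofAdd n := by
    intro n
    rw [map_zpow, hq, ← ofAdd_zsmul, smul_eq_mul, mul_one]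
  have hd1 : ∀ n : ℤ, q ^ n = 1 → n = 0 := by
    intro n hn
    have h1 := hdq n
    rw [hn, map_one] at h1
    exact (Multiplicative.ofAdd.injective h1).symm
  have hd2 : ∀ n : ℤ, q ^ n * z⁻¹ = 1 → n = 0 := by
    intro n hn
    have h1 := congrArg d hn
    rw [map_mul, map_inv, hz, inv_one, mul_one, hdq, map_one] at h1
    exact Multiplicative.ofAdd.injective h1
  have hd3 : ∀ n : ℤ, z * q ^ n = 1 → n = 0 := by
    intro n hn
    have h1 := congrArg d hn
    rw [map_mul, hz, one_mul, hdq, map_one] at h1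
    exact Multiplicative.ofAdd.injective h1
  have hcomm : ∀ n : ℤ, z * q ^ n = q ^ n * z := fun n =>
    (Commute.zpow_right (show Commute z q from hqz.symm) n).eq
  induction W with
  | nil =>
    refine ⟨1, [], by simp [RedW], ?_, ⟨fun _ => ⟨0, by simp⟩, by simp⟩, Or.inl ⟨rfl, rfl, rfl⟩⟩
    rw [FreeGroup.lift_mk, qside_ev_nil]
    simp
  | cons y W ih =>
    obtain ⟨k, t⟩ := y
    have hW' : FreeGroup.IsReduced W := by
      unfold FreeGroup.IsReduced at hW ⊢
      exact (List.isChain_cons.1 hW).2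
    have hW0 : ∀ s, W.head? = some (k, s) → t = s := by
      intro s hs
      unfold FreeGroup.IsReduced at hW
      exact (List.isChain_cons.1 hW).1 (k, s) hs rfl
    obtain ⟨a, l, hl, he, hla, hh⟩ := ih hW'
    have hstep : FreeGroup.lift (qside_g i x q z) (FreeGroup.mk ((k, t) :: W)) =
        (if t then qside_g i x q z k else (qside_g i x q z k)⁻¹) * evW i x a l := by
      rw [← he, FreeGroup.lift_mk, FreeGroup.lift_mk, List.map_cons, List.prod_cons]
      cases t <;> rfl
    -- the value of `a` when `l` is empty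
    have hnil : l = [] → ∃ m : ℤ, a = q ^ m := hla.1
    fin_cases k
    · -- the conjugate of `x`
      refine ⟨z⁻¹, (t, z * a) :: l, ?_, ?_, ?_, Or.inr (Or.inl ⟨t, W, z * a, l, rfl, rfl, rfl⟩)⟩
      · rw [qside_red_cons]
        refine ⟨?_, hl⟩
        intro y hy hza
        rcases hh with ⟨h1, h2, h3⟩ | ⟨s, W', b, l', h1, h2, h3⟩ | ⟨s, W', b, l', h1, h2, h3⟩ |
          ⟨s, W', n, h1, h2, h3, h4⟩
        · rw [h3] at hy
          simp at hy
        · rw [h3, List.head?_cons, Option.mem_def, Option.some.injEq] at hy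
          subst hy
          exact hW0 s (by rw [h1]; rfl)
        · rw [h2, mul_one] at hza
          exact absurd hza hz1
        · exfalso
          have hn : n ≠ 0 := by
            intro hn0
            subst hn0
            cases s
            · exact lt_irrefl _ (h3 rfl)
            · exact lt_irrefl _ (h2 rfl)
          apply hn
          rcases h4 with ⟨_, h5⟩ | ⟨_, h5 | h5⟩
          · rw [h5] at hza
            exact hd3 n hza
          · rw [h5] at hza
            exact hd3 n hza
          · rw [h5, ← mul_assoc, hcomm, mul_assoc, mul_inv_cancel, mul_one] at hza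
            exact hd1 n hza
      · rw [hstep, qside_ev_cons, ← qside_ev_left]
        show (if t then (i z)⁻¹ * x * i z else ((i z)⁻¹ * x * i z)⁻¹) * evW i x a l = _
        cases t <;> simp [mul_assoc]
      · refine ⟨fun h => absurd h (by simp), ?_⟩
        intro y hy
        rcases l with _ | ⟨u, l⟩
        · obtain ⟨m, hm⟩ := hnil rfl
          simp only [List.getLast?_singleton, Option.mem_def, Option.some.injEq] at hy
          subst hy
          exact ⟨m, Or.inr (by rw [hm])⟩
        · rw [List.getLast?_cons_cons] at hy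
          exact hla.2 y hy
    · refine ⟨1, (t, a) :: l, ?_, ?_, ?_, Or.inr (Or.inr (Or.inl ⟨t, W, a, l, rfl, rfl, rfl⟩))⟩
      · rw [qside_red_cons]
        refine ⟨?_, hl⟩
        intro y hy hza
        rcases hh with ⟨h1, h2, h3⟩ | ⟨s, W', b, l', h1, h2, h3⟩ | ⟨s, W', b, l', h1, h2, h3⟩ |
          ⟨s, W', n, h1, h2, h3, h4⟩
        · rw [h3] at hy
          simp at hy
        · rw [h2, inv_eq_one] at hza
          exact absurd hza hz1
        · rw [h3, List.head?_cons, Option.mem_def, Option.some.injEq] at hy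
          subst hy
          exact hW0 s (by rw [h1]; rfl)
        · exfalso
          have hn : n ≠ 0 := by
            intro hn0
            subst hn0
            cases s
            · exact lt_irrefl _ (h3 rfl)
            · exact lt_irrefl _ (h2 rfl)
          apply hn
          rcases h4 with ⟨_, h5⟩ | ⟨_, h5 | h5⟩
          · rw [h5] at hza
            exact hd1 n hza
          · rw [h5] at hza
            exact hd1 n hza
          · rw [h5] at hza
            exact hd2 n hza
      · rw [hstep, qside_ev_cons, map_one, one_mul]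
        rfl
      · refine ⟨fun h => absurd h (by simp), ?_⟩
        intro y hy
        rcases l with _ | ⟨u, l⟩
        · obtain ⟨m, hm⟩ := hnil rfl
          simp only [List.getLast?_singleton, Option.mem_def, Option.some.injEq] at hy
          subst hy
          exact ⟨m, Or.inl (by rw [hm])⟩
        · rw [List.getLast?_cons_cons] at hy
          exact hla.2 y hy
    · -- the element `q`
      have hlast : ∀ e : ℤ, qside_last q z (q ^ e * a) l := by
        intro e
        refine ⟨fun h => ?_, hla.2⟩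
        obtain ⟨m, hm⟩ := hla.1 h
        exact ⟨e + m, by rw [hm, zpow_add]⟩
      obtain ⟨e, he1, he2⟩ : ∃ e : ℤ, (if t then (1 : ℤ) else -1) = e ∧
          (if t then qside_g i x q z 2 else (qside_g i x q z 2)⁻¹) = i (q ^ e) := by
        refine ⟨_, rfl, ?_⟩
        cases t <;> simp [qside_g]
      have he0 : (t = true → 0 < e) ∧ (t = false → e < 0) := by
        subst he1
        cases t <;> simp
      refine ⟨q ^ e * a, l, hl, ?_, hlast e, Or.inr (Or.inr (Or.inr ?_))⟩
      · rw [hstep]
        show (if t then qside_g i x q z 2 else (qside_g i x q z 2)⁻¹) * evW i x a l = _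
        rw [he2, qside_ev_left]
      · rcases hh with ⟨h1, h2, h3⟩ | ⟨s, W', b, l', h1, h2, h3⟩ | ⟨s, W', b, l', h1, h2, h3⟩ |
          ⟨s, W', n, h1, h2, h3, h4⟩
        · exact ⟨t, W, e, rfl, he0.1, he0.2, Or.inl ⟨h3, by rw [h2, mul_one]⟩⟩
        · exact ⟨t, W, e, rfl, he0.1, he0.2, Or.inr ⟨by rw [h3]; simp, Or.inr (by rw [h2])⟩⟩
        · exact ⟨t, W, e, rfl, he0.1, he0.2, Or.inr ⟨by rw [h3]; simp, Or.inl (by rw [h2, mul_one])⟩⟩
        · have hts : t = s := hW0 s (by rw [h1]; rfl)
          subst hts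
          refine ⟨t, W, e + n, rfl, fun h => add_pos (he0.1 h) (h2 h),
            fun h => add_neg (he0.2 h) (h3 h), ?_⟩
          rcases h4 with ⟨h5, h6⟩ | ⟨h5, h6 | h6⟩
          · exact Or.inl ⟨h5, by rw [h6, zpow_add]⟩
          · exact Or.inr ⟨h5, Or.inl (by rw [h6, zpow_add])⟩
          · exact Or.inr ⟨h5, Or.inr (by rw [h6, zpow_add, mul_assoc])⟩

/-- The subgroup. -/
theorem qside_inj (hF : FreeBy i x) (d : A →* Multiplicative ℤ) (q z : A)
    (hq : d q = Multiplicative.ofAdd 1) (hz : d z = 1) (hqz : q * z = z * q) (hz1 : z ≠ 1) :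
    Function.Injective (FreeGroup.lift (qside_g i x q z)) := by
  rw [injective_iff_map_eq_one]
  intro f hf
  obtain ⟨a, l, hl, he, hla, hh⟩ := qside_word (x := x) (i := i) d q z hq hz hqz hz1 f.toWord
    FreeGroup.isReduced_toWord
  rw [FreeGroup.mk_toWord, hf] at he
  have h1 : evW i x 1 [] = evW i x a l := by
    rw [qside_ev_nil, map_one]
    exact he
  obtain ⟨h2, h3⟩ := hF.uniq 1 a [] l (by simp [RedW]) hl h1
  rcases hh with ⟨h4, _⟩ | ⟨s, W', b, l', _, _, h5⟩ | ⟨s, W', b, l', _, _, h5⟩ |
    ⟨s, W', n, _, h5, h6, h7⟩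
  · exact FreeGroup.toWord_eq_nil_iff.1 h4
  · rw [← h3] at h5
    exact absurd h5 (by simp)
  · rw [← h3] at h5
    exact absurd h5 (by simp)
  · exfalso
    rcases h7 with ⟨_, h8⟩ | ⟨h8, _⟩
    · rw [← h2] at h8
      have h9 := congrArg d h8
      rw [map_one, map_zpow, hq, ← ofAdd_zsmul, smul_eq_mul, mul_one] at h9
      have h10 : (0 : ℤ) = n := Multiplicative.ofAdd.injective h9
      subst h10
      cases s
      · exact lt_irrefl _ (h6 rfl)
      · exact lt_irrefl _ (h5 rfl)
    · exact h8 h3.symm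

theorem qside_mem (hF : FreeBy i x) (d : A →* Multiplicative ℤ) (q z : A)
    (hq : d q = Multiplicative.ofAdd 1) (hz : d z = 1) (hqz : q * z = z * q) (hz1 : z ≠ 1)
    (a : A) (l : List (Bool × A)) (hl : RedW l)
    (h : evW i x a l ∈ (FreeGroup.lift (qside_g i x q z)).range) : qside_last q z a l := by
  obtain ⟨f, hf⟩ := h
  obtain ⟨a', l', hl', he, hla, _⟩ := qside_word (x := x) (i := i) d q z hq hz hqz hz1 f.toWord
    FreeGroup.isReduced_toWord
  rw [FreeGroup.mk_toWord, hf] at he
  obtain ⟨h2, h3⟩ := hF.uniq a a' l l' hl hl' he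
  rw [h2, h3]
  exact hla

theorem qside_snoc (a : A) (l : List (Bool × A)) (s : Bool) (b : A) :
    evW i x a (l ++ [(s, b)]) = evW i x a l * ((if s then x else x⁻¹) * i b) := by
  rw [qside_ev_append, qside_ev_cons, qside_ev_nil, map_one, one_mul]

/-- Multiplication of a normal form by an element of `A` on the right. -/
theorem qside_right (a : A) (l : List (Bool × A)) (hl : RedW l) (c : A) :
    ∃ a' l', RedW l' ∧ l'.length = l.length ∧ evW i x a l * i c = evW i x a' l' := by
  rcases List.eq_nil_or_concat l with h | ⟨l0, ⟨s, b⟩, h⟩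
  · subst h
    exact ⟨a * c, [], by simp [RedW], rfl, by rw [qside_ev_nil, qside_ev_nil, map_mul]⟩
  · rw [List.concat_eq_append] at h
    subst h
    refine ⟨a, l0 ++ [(s, b * c)], ?_, by simp, ?_⟩
    · unfold RedW at hl ⊢
      rw [List.isChain_append] at hl ⊢
      refine ⟨hl.1, List.isChain_singleton _, ?_⟩
      intro u hu v hv hu1
      rw [List.head?_cons, Option.mem_def, Option.some.injEq] at hv
      subst hv
      exact hl.2.2 u hu (s, b) (by simp) hu1
    · rw [qside_snoc, qside_snoc, map_mul, mul_assoc, mul_assoc]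

theorem qside_conj (hF : FreeBy i x) (d : A →* Multiplicative ℤ) (q z : A)
    (hq : d q = Multiplicative.ofAdd 1) (hz : d z = 1) (hqz : q * z = z * q) (hz1 : z ≠ 1)
    (j : ℤ) (h : Q)
    (hh : h⁻¹ * (x * i (q ^ j)) * h ∈ (FreeGroup.lift (qside_g i x q z)).range) :
    h ∈ (FreeGroup.lift (qside_g i x q z)).range ∨
      (i z)⁻¹ * h ∈ (FreeGroup.lift (qside_g i x q z)).range := by
  obtain ⟨F, hFd⟩ : ∃ F, F = (FreeGroup.lift (qside_g i x q z)).range := ⟨_, rfl⟩
  have hmem := qside_mem hF d q z hq hz hqz hz1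
  rw [← hFd] at hmem hh ⊢
  have hxF : x ∈ F := by
    rw [hFd]
    exact ⟨FreeGroup.of 1, by rw [FreeGroup.lift_apply_of]; rfl⟩
  have hyF : (i z)⁻¹ * x * i z ∈ F := by
    rw [hFd]
    exact ⟨FreeGroup.of 0, by rw [FreeGroup.lift_apply_of]; rfl⟩
  have hqF : ∀ n : ℤ, i (q ^ n) ∈ F := by
    intro n
    rw [map_zpow]
    refine F.zpow_mem ?_ n
    rw [hFd]
    exact ⟨FreeGroup.of 2, by rw [FreeGroup.lift_apply_of]; rfl⟩
  have hcomm : ∀ n : ℤ, z * q ^ n = q ^ n * z := fun n =>
    (Commute.zpow_right (show Commute z q from hqz.symm) n).eq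
  have hu0 : x * i (q ^ j) ∈ F := F.mul_mem hxF (hqF j)
  have hu1 : (i z)⁻¹ * (x * i (q ^ j)) * i z ∈ F := by
    have h1 : (i z)⁻¹ * (x * i (q ^ j)) * i z = (i z)⁻¹ * x * i z * i (q ^ j) := by
      rw [mul_assoc, mul_assoc, ← map_mul, ← hcomm, map_mul]
      simp only [mul_assoc]
    rw [h1]
    exact F.mul_mem hyF (hqF j)
  have key : ∀ (k : ℕ) (a : A) (l : List (Bool × A)), l.length = k → RedW l →
      (evW i x a l)⁻¹ * (x * i (q ^ j)) * evW i x a l ∈ F →
      evW i x a l ∈ F ∨ (i z)⁻¹ * evW i x a l ∈ F := by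
    intro k
    induction k with
    | zero =>
      intro a l hlen hl hu
      have hl0 : l = [] := List.length_eq_zero_iff.1 hlen
      subst hl0
      rw [qside_ev_nil] at hu ⊢
      have h1 : (i a)⁻¹ * (x * i (q ^ j)) * i a = evW i x a⁻¹ [(true, q ^ j * a)] := by
        rw [qside_ev_cons, qside_ev_nil, map_inv, map_mul]
        simp [mul_assoc]
      rw [h1] at hu
      have h2 := (hmem a⁻¹ [(true, q ^ j * a)] (by simp [RedW]) hu).2 (true, q ^ j * a) (by simp)
      obtain ⟨m, h3 | h3⟩ := h2
      · left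
        have h4 : a = q ^ (-j + m) := by
          apply mul_left_cancel (a := q ^ j)
          rw [← zpow_add, add_neg_cancel_left]
          exact h3
        rw [h4]
        exact hqF _
      · right
        have h4 : a = z * q ^ (-j + m) := by
          apply mul_left_cancel (a := q ^ j)
          rw [← mul_assoc, ← hcomm, mul_assoc, ← zpow_add, add_neg_cancel_left]
          exact h3
        rw [h4, map_mul, inv_mul_cancel_left]
        exact hqF _
    | succ k ih =>
      intro a l hlen hl hu
      -- passing to another element of the same double coset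
      have hleft : ∀ (e : Q), e = x * i (q ^ j) ∨ e = (x * i (q ^ j))⁻¹ →
          ∀ (a' : A) (l' : List (Bool × A)), l'.length = k → RedW l' →
            e * evW i x a l = evW i x a' l' →
            evW i x a l ∈ F ∨ (i z)⁻¹ * evW i x a l ∈ F := by
        intro e he a' l' hlen' hl' hev
        have h1 : evW i x a l = e⁻¹ * evW i x a' l' := by
          rw [← hev, inv_mul_cancel_left]
        have he0 : e⁻¹ ∈ F := by
          rcases he with he | he
          · rw [he]
            exact F.inv_mem hu0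
          · rw [he, inv_inv]
            exact hu0
        have he1 : (i z)⁻¹ * e⁻¹ * i z ∈ F := by
          rcases he with he | he
          · rw [he]
            have h2 := F.inv_mem hu1
            rwa [mul_inv_rev, mul_inv_rev, inv_inv, ← mul_assoc] at h2
          · rw [he, inv_inv]
            exact hu1
        have hc : e⁻¹ * (x * i (q ^ j)) * e = x * i (q ^ j) := by
          rcases he with he | he
          · rw [he, inv_mul_cancel, one_mul]
          · rw [he, inv_inv, mul_assoc, mul_inv_cancel, mul_one]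
        have h2 : (evW i x a' l')⁻¹ * (x * i (q ^ j)) * evW i x a' l' ∈ F := by
          rw [h1] at hu
          have h3 : (e⁻¹ * evW i x a' l')⁻¹ * (x * i (q ^ j)) * (e⁻¹ * evW i x a' l') =
              (evW i x a' l')⁻¹ * (e * (x * i (q ^ j)) * e⁻¹) * evW i x a' l' := by
            rw [mul_inv_rev, inv_inv]
            simp only [mul_assoc]
          have h4 : e * (x * i (q ^ j)) * e⁻¹ = x * i (q ^ j) := by
            rw [mul_inv_eq_iff_eq_mul]
            nth_rewrite 1 [← hc]
            rw [mul_assoc, mul_assoc, mul_inv_cancel_left]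
          rw [h3, h4] at hu
          exact hu
        rcases ih a' l' hlen' hl' h2 with h3 | h3
        · left
          rw [h1]
          exact F.mul_mem he0 h3
        · right
          rw [h1]
          have h4 : (i z)⁻¹ * (e⁻¹ * evW i x a' l') =
              (i z)⁻¹ * e⁻¹ * i z * ((i z)⁻¹ * evW i x a' l') := by
            simp only [mul_assoc, mul_inv_cancel_left]
          rw [h4]
          exact F.mul_mem he1 h3
      obtain ⟨⟨s, b⟩, l', rfl⟩ : ∃ y l', l = y :: l' := by
        rcases l with _ | ⟨y, l'⟩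
        · simp at hlen
        · exact ⟨y, l', rfl⟩
      have hlen1 : l'.length = k := by simpa using hlen
      have hred := (qside_red_cons s b l').1 hl
      by_cases c1 : a = 1 ∧ s = true
      · obtain ⟨rfl, rfl⟩ := c1
        refine hleft (x * i (q ^ j))⁻¹ (Or.inr rfl) ((q ^ j)⁻¹ * b) l' hlen1 hred.2 ?_
        rw [qside_ev_cons, ← qside_ev_left, map_inv, mul_inv_rev]
        simp [mul_assoc]
      by_cases c2 : q ^ j * a = 1 ∧ s = false
      · obtain ⟨c2, rfl⟩ := c2
        refine hleft (x * i (q ^ j)) (Or.inl rfl) b l' hlen1 hred.2 ?_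
        rw [qside_ev_cons]
        have h1 : i (q ^ j) * i a = 1 := by
          rw [← map_mul, c2, map_one]
        have h2 : x * i (q ^ j) * (i a * (if false = true then x else x⁻¹) * evW i x b l') =
            x * (i (q ^ j) * i a) * x⁻¹ * evW i x b l' := by
          simp [mul_assoc]
        rw [h2, h1, mul_one, mul_inv_cancel, one_mul]
      -- the reduced form of the conjugate
      have hm := qside_inv_ev (i := i) (x := x) a ((s, b) :: l')
      have hmr := qside_inv_red a ((s, b) :: l') hl
      have hml := qside_inv_last a s b l'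
      generalize qside_inv a ((s, b) :: l') = cm at hm hmr hml
      obtain ⟨c, m⟩ := cm
      dsimp only at hm hmr hml
      have hbig : (evW i x a ((s, b) :: l'))⁻¹ * (x * i (q ^ j)) * evW i x a ((s, b) :: l') =
          evW i x c (m ++ (true, q ^ j * a) :: (s, b) :: l') := by
        rw [qside_ev_append, hm, qside_ev_cons 1 true, map_one, one_mul, ← qside_ev_left]
        simp [mul_assoc]
      have hbigr : RedW (m ++ (true, q ^ j * a) :: (s, b) :: l') := by
        have h1 : RedW ((true, q ^ j * a) :: (s, b) :: l') := by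
          rw [qside_red_cons]
          refine ⟨?_, hl⟩
          intro y hy h2
          rw [List.head?_cons, Option.mem_def, Option.some.injEq] at hy
          subst hy
          cases s
          · exact absurd ⟨h2, rfl⟩ c2
          · rfl
        unfold RedW at hmr h1 ⊢
        rw [List.isChain_append]
        refine ⟨hmr, h1, ?_⟩
        intro u hu v hv hu1
        rw [List.head?_cons, Option.mem_def, Option.some.injEq] at hv
        subst hv
        rw [hml, Option.mem_def, Option.some.injEq] at hu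
        subst hu
        have h2 : a = 1 := inv_eq_one.1 hu1
        cases s
        · rfl
        · exact absurd ⟨h2, rfl⟩ c1
      rw [hbig] at hu
      have hlast := (hmem _ _ hbigr hu).2
      rw [← hbig] at hu
      -- the last element
      obtain ⟨l0, ⟨s', b'⟩, hl0⟩ : ∃ l0 y, (s, b) :: l' = l0 ++ [y] := by
        rcases List.eq_nil_or_concat ((s, b) :: l') with h | ⟨l0, y, h⟩
        · exact absurd h (by simp)
        · exact ⟨l0, y, by rw [h, List.concat_eq_append]⟩
      rw [hl0] at hlast hl hu hlen ⊢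
      have hb' : ∃ m : ℤ, b' = q ^ m ∨ b' = z * q ^ m := by
        refine hlast (s', b') ?_
        have e : m ++ (true, q ^ j * a) :: (l0 ++ [(s', b')]) =
            (m ++ (true, q ^ j * a) :: l0) ++ [(s', b')] := by simp
        rw [e, List.getLast?_concat]
        rfl
      have hl0r : RedW l0 := by
        unfold RedW at hl ⊢
        rw [List.isChain_append] at hl
        exact hl.1
      have hl0n : l0.length = k := by simpa using hlen
      -- the correction on the right
      obtain ⟨β, f, hf, hfe⟩ : ∃ (β : A) (f : Q), f ∈ F ∧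
          ((if s' then x else x⁻¹) * i b') * f = i β := by
        have hxs : (if s' then x else x⁻¹) ∈ F := by
          cases s'
          · exact F.inv_mem hxF
          · exact hxF
        have hys : (i z)⁻¹ * (if s' then x else x⁻¹) * i z ∈ F := by
          cases s'
          · have h2 := F.inv_mem hyF
            rw [mul_inv_rev, mul_inv_rev, inv_inv, ← mul_assoc] at h2
            exact h2
          · exact hyF
        obtain ⟨m', h3 | h3⟩ := hb'
        · refine ⟨1, ((if s' then x else x⁻¹) * i b')⁻¹, ?_, ?_⟩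
          · rw [h3]
            exact F.inv_mem (F.mul_mem hxs (hqF m'))
          · rw [mul_inv_cancel, map_one]
        · refine ⟨z, ((if s' then x else x⁻¹) * i b')⁻¹ * i z, ?_, ?_⟩
          · have h4 : ((if s' then x else x⁻¹) * i b')⁻¹ * i z =
                ((i z)⁻¹ * (if s' then x else x⁻¹) * i z * i (q ^ m'))⁻¹ := by
              rw [h3, map_mul]
              simp only [mul_inv_rev, mul_assoc, inv_inv]
            rw [h4]
            exact F.inv_mem (F.mul_mem hys (hqF m'))
          · rw [mul_inv_cancel_left]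
      obtain ⟨a', l1, hl1, hlen2, hev⟩ := qside_right (i := i) (x := x) a l0 hl0r β
      have hev2 : evW i x a (l0 ++ [(s', b')]) * f = evW i x a' l1 := by
        rw [qside_snoc, mul_assoc, hfe, hev]
      have hev3 : evW i x a (l0 ++ [(s', b')]) = evW i x a' l1 * f⁻¹ := by
        rw [← hev2, mul_inv_cancel_right]
      have h2 : (evW i x a' l1)⁻¹ * (x * i (q ^ j)) * evW i x a' l1 ∈ F := by
        rw [← hev2, mul_inv_rev]
        have h3 : f⁻¹ * (evW i x a (l0 ++ [(s', b')]))⁻¹ * (x * i (q ^ j)) *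
            (evW i x a (l0 ++ [(s', b')]) * f) = f⁻¹ * ((evW i x a (l0 ++ [(s', b')]))⁻¹ *
              (x * i (q ^ j)) * evW i x a (l0 ++ [(s', b')])) * f := by
          simp only [mul_assoc]
        rw [h3]
        exact F.mul_mem (F.mul_mem (F.inv_mem hf) hu) hf
      rcases ih a' l1 (hlen2.trans hl0n) hl1 h2 with h3 | h3
      · left
        rw [hev3]
        exact F.mul_mem h3 (F.inv_mem hf)
      · right
        rw [hev3, ← mul_assoc]
        exact F.mul_mem h3 (F.inv_mem hf)
  obtain ⟨a, l, hl, he⟩ := hF.ex h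
  rw [he] at hh ⊢
  exact key l.length a l rfl hl hh

end qside

theorem qside {A Q : Type} [Group A] [Group Q] {i : A →* Q} {x : Q} (hF : FreeBy i x)
    (d : A →* Multiplicative ℤ) (q z : A)
    (hq : d q = Multiplicative.ofAdd 1) (hz : d z = 1) (hqz : q * z = z * q) (hz1 : z ≠ 1)
    (ψ : FreeGroup (Fin 3) →* Q) (h0 : ψ (FreeGroup.of 0) = (i z)⁻¹ * x * i z)
    (h1 : ψ (FreeGroup.of 1) = x * ((i z)⁻¹ * x * i z)⁻¹)
    (h2 : ψ (FreeGroup.of 2) = x * (i q)⁻¹ * ((i z)⁻¹ * x * i z) * x⁻¹) :
      Function.Injective ψ ∧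
      (i z ∉ ψ.range) ∧
      (∀ h : Q, h⁻¹ * x * h ∈ ψ.range → h ∈ ψ.range ∨ (i z)⁻¹ * h ∈ ψ.range) ∧
      (∀ h : Q, h⁻¹ * (x * (i q)⁻¹) * h ∈ ψ.range → h ∈ ψ.range ∨ (i z)⁻¹ * h ∈ ψ.range) := by
  obtain ⟨α, hα⟩ : ∃ α : FreeGroup (Fin 3) →* FreeGroup (Fin 3), α = FreeGroup.lift
    ![FreeGroup.of 0, FreeGroup.of 1 * (FreeGroup.of 0)⁻¹,
      FreeGroup.of 1 * (FreeGroup.of 2)⁻¹ * FreeGroup.of 0 * (FreeGroup.of 1)⁻¹] := ⟨_, rfl⟩
  obtain ⟨β, hβ⟩ : ∃ β : FreeGroup (Fin 3) →* FreeGroup (Fin 3), β = FreeGroup.lift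
    ![FreeGroup.of 0, FreeGroup.of 1 * FreeGroup.of 0,
      FreeGroup.of 0 * (FreeGroup.of 1 * FreeGroup.of 0)⁻¹ * (FreeGroup.of 2)⁻¹ *
        (FreeGroup.of 1 * FreeGroup.of 0)] := ⟨_, rfl⟩
  have hα0 : α (FreeGroup.of 0) = FreeGroup.of 0 := by rw [hα, FreeGroup.lift_apply_of]; rfl
  have hα1 : α (FreeGroup.of 1) = FreeGroup.of 1 * (FreeGroup.of 0)⁻¹ := by
    rw [hα, FreeGroup.lift_apply_of]; rfl
  have hα2 : α (FreeGroup.of 2) =
      FreeGroup.of 1 * (FreeGroup.of 2)⁻¹ * FreeGroup.of 0 * (FreeGroup.of 1)⁻¹ := by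
    rw [hα, FreeGroup.lift_apply_of]; rfl
  have hβ0 : β (FreeGroup.of 0) = FreeGroup.of 0 := by rw [hβ, FreeGroup.lift_apply_of]; rfl
  have hβ1 : β (FreeGroup.of 1) = FreeGroup.of 1 * FreeGroup.of 0 := by
    rw [hβ, FreeGroup.lift_apply_of]; rfl
  have hβ2 : β (FreeGroup.of 2) = FreeGroup.of 0 * (FreeGroup.of 1 * FreeGroup.of 0)⁻¹ *
      (FreeGroup.of 2)⁻¹ * (FreeGroup.of 1 * FreeGroup.of 0) := by
    rw [hβ, FreeGroup.lift_apply_of]; rfl
  obtain ⟨θ, hθ⟩ : ∃ θ, θ = FreeGroup.lift (qside_g i x q z) := ⟨_, rfl⟩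
  have hθ0 : θ (FreeGroup.of 0) = (i z)⁻¹ * x * i z := by rw [hθ, FreeGroup.lift_apply_of]; rfl
  have hθ1 : θ (FreeGroup.of 1) = x := by rw [hθ, FreeGroup.lift_apply_of]; rfl
  have hθ2 : θ (FreeGroup.of 2) = i q := by rw [hθ, FreeGroup.lift_apply_of]; rfl
  have hψ : ψ = θ.comp α := by
    refine FreeGroup.ext_hom _ _ fun k => ?_
    fin_cases k
    · show ψ (FreeGroup.of 0) = θ (α (FreeGroup.of 0))
      rw [hα0, h0, hθ0]
    · show ψ (FreeGroup.of 1) = θ (α (FreeGroup.of 1))
      rw [hα1, h1, map_mul, map_inv, hθ0, hθ1]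
    · show ψ (FreeGroup.of 2) = θ (α (FreeGroup.of 2))
      rw [hα2, h2, map_mul, map_mul, map_mul, map_inv, map_inv, hθ0, hθ1, hθ2]
  have hθψ : θ = ψ.comp β := by
    refine FreeGroup.ext_hom _ _ fun k => ?_
    fin_cases k
    · show θ (FreeGroup.of 0) = ψ (β (FreeGroup.of 0))
      rw [hβ0, h0, hθ0]
    · show θ (FreeGroup.of 1) = ψ (β (FreeGroup.of 1))
      rw [hβ1, map_mul, h0, h1, hθ1, inv_mul_cancel_right]
    · show θ (FreeGroup.of 2) = ψ (β (FreeGroup.of 2))
      rw [hβ2, map_mul, map_mul, map_mul, map_inv, map_inv, map_mul, h0, h1, h2, hθ2]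
      group
  have hβα : ∀ f, β (α f) = f := by
    intro f
    have h3 : β.comp α = MonoidHom.id _ := by
      refine FreeGroup.ext_hom _ _ fun k => ?_
      fin_cases k
      · show β (α (FreeGroup.of 0)) = FreeGroup.of 0
        rw [hα0, hβ0]
      · show β (α (FreeGroup.of 1)) = FreeGroup.of 1
        rw [hα1, map_mul, map_inv, hβ0, hβ1, mul_inv_cancel_right]
      · show β (α (FreeGroup.of 2)) = FreeGroup.of 2
        rw [hα2, map_mul, map_mul, map_mul, map_inv, map_inv, hβ0, hβ1, hβ2]
        group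
    exact DFunLike.congr_fun h3 f
  have hr : ψ.range = θ.range := by
    apply le_antisymm
    · rintro _ ⟨f, rfl⟩
      exact ⟨α f, by rw [hψ]; rfl⟩
    · rintro _ ⟨f, rfl⟩
      exact ⟨β f, by rw [hθψ]; rfl⟩
  have hinj := qside_inj hF d q z hq hz hqz hz1
  have hmem := qside_mem hF d q z hq hz hqz hz1
  have hconj := qside_conj hF d q z hq hz hqz hz1
  rw [← hθ] at hinj hmem hconj
  rw [hr]
  refine ⟨?_, ?_, ?_, ?_⟩
  · intro f g hfg
    rw [hψ] at hfg
    have h3 : α f = α g := hinj hfg
    rw [← hβα f, h3, hβα g]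
  · intro h3
    have h4 := (hmem z [] (by simp [RedW]) (by rw [qside_ev_nil]; exact h3)).1 rfl
    obtain ⟨m, hm⟩ := h4
    have h5 := congrArg d hm
    rw [map_zpow, hz, hq, ← ofAdd_zsmul, smul_eq_mul, mul_one] at h5
    have h6 : (0 : ℤ) = m := Multiplicative.ofAdd.injective h5
    rw [← h6, zpow_zero] at hm
    exact hz1 hm
  · intro h hh
    refine hconj 0 h ?_
    rw [zpow_zero, map_one, mul_one]
    exact hh
  · intro h hh
    refine hconj (-1) h ?_
    rw [zpow_neg, zpow_one, map_inv]
    exact hh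

end Pool.Agent.Lib.MP_decac5_gt
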