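import Pool.Agent.Lib.MP_decac5_gt.FP
import Pool.Agent.Lib.MP_decac5_gt.GrpA
import Pool.Agent.Lib.MP_decac5_gt.HSide
import Pool.Agent.Lib.MP_decac5_gt.QSide
import Pool.Agent.Lib.MP_decac5_gt.Line
import Pool.Agent.Lib.MP_decac5_gt.FreeC

/-!
# The group of the knot

The group is the amalgamated product of the two groups `A * ⟨w⟩` and `A * ⟨x⟩`, where `A` is the group
of the figure eight knot, over a free group of rank three.
-/

set_option autoImplicit false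

namespace Pool.Agent.Lib.MP_decac5_gt

open Pool.Agent.Lib.MP_131179_gt

section maps

variable {G K : Type} [Group G] [Group K]

theorem Gam_map_lo (f : G →* K) (p r : G) : f (lo p r) = lo (f p) (f r) := by
  unfold lo
  simp only [map_mul, map_inv]

theorem Gam_map_kk (f : G →* K) (p r : G) : f (kk p r) = kk (f p) (f r) := by
  unfold kk
  simp only [map_mul, map_inv]

theorem Gam_map_rel (f : G →* K) {p r : G} (h : Rel41 p r) : Rel41 (f p) (f r) := by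
  have h1 : f r = f ((kk p r)⁻¹ * p * kk p r) := congrArg f h
  rw [map_mul, map_mul, map_inv, Gam_map_kk] at h1
  exact h1

theorem Gam_map_lam (f : G →* K) (p r q s w x : G) :
    f (lamK p r q s w x) = lamK (f p) (f r) (f q) (f s) (f w) (f x) := by
  unfold lamK
  simp only [map_mul, map_inv, Gam_map_lo]

/-- an identity -/
theorem Gam_id1 {Y P W : G} (h : Y * P = P * Y) :
    (Y * Y * P)⁻¹ * W * (Y * Y * P) * ((Y * P)⁻¹ * W * Y) = Y⁻¹ * ((Y * P)⁻¹ * W * Y * W) * Y := by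
  have h1 : (Y * Y * P)⁻¹ = Y⁻¹ * (Y * P)⁻¹ := by
    rw [← mul_inv_rev, mul_assoc Y Y P, h, ← mul_assoc, h]
  rw [h1]
  group

/-- an identity -/
theorem Gam_id2 {Z X T : G} (h : Z * T = T * Z) :
    Z⁻¹ * (X * T⁻¹) * Z = (X * (Z⁻¹ * X * Z)⁻¹)⁻¹ * (X * T⁻¹) := by
  have h1 : T⁻¹ * Z = Z * T⁻¹ := by
    rw [inv_mul_eq_iff_eq_mul, ← mul_assoc, ← h, mul_inv_cancel_right]
  have h2 : Z⁻¹ * (X * T⁻¹) * Z = Z⁻¹ * X * (T⁻¹ * Z) := by group
  rw [h2, h1]
  group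

/-- the two homomorphisms agree at the second generator -/
theorem Gam_id3 {p w x Y : G} (e1 : p = Y⁻¹ * w * Y * w * x⁻¹) :
    (Y * p)⁻¹ * w * Y = x * w⁻¹ := by
  rw [e1]
  group

/-- the two homomorphisms agree at the third generator -/
theorem Gam_id4 {p q w x Y : G} (h : Y * p = p * Y) (e1 : p = Y⁻¹ * w * Y * w * x⁻¹)
    (e2 : q = (Y⁻¹ * x * Y)⁻¹ * x) :
    (Y * Y * p)⁻¹ * w * (Y * Y * p) = x * q⁻¹ * w * x⁻¹ := by
  have h1 : (Y * Y * p)⁻¹ = Y⁻¹ * (Y * p)⁻¹ := by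
    rw [← mul_inv_rev, mul_assoc Y Y p, h, ← mul_assoc, h]
  have h2 : Y * Y * p = Y * (Y * p) := mul_assoc Y Y p
  have h3 : Y * p = w * Y * w * x⁻¹ := by
    rw [e1]
    group
  rw [h1, h2, h3, e2]
  group

end maps

theorem exists_Gamma : ∃ (Γ : Type) (_ : Group Γ) (p r q s w x : Γ) (deg : Γ →* Multiplicative ℤ),
    KRel p r q s w x ∧
    (∀ (G : Type) [Group G] (p' r' q' s' w' x' : G), KRel p' r' q' s' w' x' →
      ∃ Φ : Γ →* G, Φ p = p' ∧ Φ r = r' ∧ Φ q = q' ∧ Φ s = s' ∧ Φ w = w' ∧ Φ x = x') ∧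
    deg x = Multiplicative.ofAdd 1 ∧ deg (lamK p r q s w x) = 1 ∧
    lamK p r q s w x * x = x * lamK p r q s w x ∧
    (∀ g : Γ, g * x = x * g → ∃ m n : ℤ, g = x ^ m * lamK p r q s w x ^ n) ∧
    (∀ n : ℤ, lamK p r q s w x ^ n = 1 → n = 0) := by
  obtain ⟨A, _, p, r, d, hrel, hdp, hdr, hlo, hA⟩ := exists_A
  obtain ⟨H, _, i, w, hFH, huH⟩ := exists_free A
  obtain ⟨Q, _, j, x, hFQ, huQ⟩ := exists_free A
  have hcomm := lo_comm hrel
  obtain ⟨y, hy⟩ : ∃ y : A, y = lo p r := ⟨_, rfl⟩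
  rw [← hy] at hcomm hlo
  have hdy : d y = 1 := by
    rw [hy, Gam_map_lo, hdp, hdr]
    unfold lo
    simp
  -- the two homomorphisms of the free group
  obtain ⟨φ, hφ0, hφ1, hφ2⟩ : ∃ φ : FreeGroup (Fin 3) →* H, φ (FreeGroup.of 0) = w ∧
      φ (FreeGroup.of 1) = (i (y * p))⁻¹ * w * i y ∧
      φ (FreeGroup.of 2) = (i (y * y * p))⁻¹ * w * i (y * y * p) := by
    refine ⟨FreeGroup.lift
      ![w, (i (y * p))⁻¹ * w * i y, (i (y * y * p))⁻¹ * w * i (y * y * p)], ?_, ?_, ?_⟩ <;>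
    · rw [FreeGroup.lift_apply_of]
      rfl
  obtain ⟨ψ, hψ0, hψ1, hψ2⟩ : ∃ ψ : FreeGroup (Fin 3) →* Q,
      ψ (FreeGroup.of 0) = (j y)⁻¹ * x * j y ∧
      ψ (FreeGroup.of 1) = x * ((j y)⁻¹ * x * j y)⁻¹ ∧
      ψ (FreeGroup.of 2) = x * (j p)⁻¹ * ((j y)⁻¹ * x * j y) * x⁻¹ := by
    refine ⟨FreeGroup.lift
      ![(j y)⁻¹ * x * j y, x * ((j y)⁻¹ * x * j y)⁻¹,
        x * (j p)⁻¹ * ((j y)⁻¹ * x * j y) * x⁻¹], ?_, ?_, ?_⟩ <;>
    · rw [FreeGroup.lift_apply_of]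
      rfl
  have hic : i y * i p = i p * i y := by rw [← map_mul, ← map_mul, hcomm]
  have hjc : j y * j p = j p * j y := by rw [← map_mul, ← map_mul, hcomm]
  obtain ⟨hφi, hy1, ht1, hH1, hH2⟩ := hside hFH d p y hdp hdy hcomm hlo φ hφ0 hφ1 hφ2
  obtain ⟨hψi, hz1, hQ1, hQ2⟩ := qside hFQ d p y hdp hdy hcomm hlo ψ hψ0 hψ1 hψ2
  -- the values at the products
  have hφaw : φ (FreeGroup.of 1 * FreeGroup.of 0) = (i (y * p))⁻¹ * w * i y * w := by
    rw [map_mul, hφ0, hφ1]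
  have hψaw : ψ (FreeGroup.of 1 * FreeGroup.of 0) = x := by
    rw [map_mul, hψ0, hψ1]
    group
  have hψca : ψ (FreeGroup.of 2 * FreeGroup.of 1) = x * (j p)⁻¹ := by
    rw [map_mul, hψ2, hψ1]
    group
  have hφca : φ (FreeGroup.of 2 * FreeGroup.of 1) =
      (i y)⁻¹ * ((i (y * p))⁻¹ * w * i y * w) * i y := by
    rw [map_mul, hφ2, hφ1, map_mul i (y * y) p, map_mul i y y, map_mul i y p]
    exact Gam_id1 hic
  obtain ⟨Γ, _, I, J, hIJ, huniv, hcent, hinf, hMx⟩ := exists_amalgam (FreeGroup (Fin 3)) H Q φ ψ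
    hφi hψi (FreeGroup.of 0) (FreeGroup.of 1) (FreeGroup.of 2) (i (y * y * p)) (i y) (j y)
    free_centralizer
    (FreeGroup.lift fun i : Fin 3 => Multiplicative.ofAdd ((i : ℕ) : ℤ))
    (by
      rw [FreeGroup.lift_apply_of, FreeGroup.lift_apply_of]
      decide)
    (by
      rw [map_mul, FreeGroup.lift_apply_of, FreeGroup.lift_apply_of, FreeGroup.lift_apply_of]
      decide)
    (by
      rw [map_mul, FreeGroup.lift_apply_of, FreeGroup.lift_apply_of]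
      decide)
    hy1 ht1 hz1
    (by rw [hφ0, hφ2]) (by rw [hφca, hφaw]) (by rw [hψaw, hψ0])
    (by
      rw [hψca, mul_assoc (FreeGroup.of 1)⁻¹, map_mul, map_inv, hψca, hψ1]
      exact Gam_id2 hjc)
    (by rw [hφ0]; exact hH1) (by rw [hφaw]; exact hH2) (by rw [hψaw]; exact hQ1)
    (by rw [hψca]; exact hQ2)
  rw [hψaw] at hcent hinf hMx
  have hloI : lo (I (i p)) (I (i r)) = I (i y) := by
    rw [hy, Gam_map_lo, Gam_map_lo]
  have hloJ : lo (J (j p)) (J (j r)) = J (j y) := by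
    rw [hy, Gam_map_lo, Gam_map_lo]
  -- the relations
  have k1 : J x = (I (i y) * I (i p))⁻¹ * I w * I (i y) * I w := by
    rw [← hψaw, ← hIJ, hφaw]
    simp only [map_mul, map_inv]
  have k2 : (I (i y))⁻¹ * J x * I (i y) = J x * (J (j p))⁻¹ := by
    have h1 := hIJ (FreeGroup.of 2 * FreeGroup.of 1)
    rw [hφca, hψca, map_mul J, map_inv J] at h1
    rw [← h1, k1]
    simp only [map_mul, map_inv]
  have k3 : I w = (J (j y))⁻¹ * J x * J (j y) := by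
    have h1 := hIJ (FreeGroup.of 0)
    rw [hφ0, hψ0] at h1
    rw [h1]
    simp only [map_mul, map_inv]
  have hK : KRel (I (i p)) (I (i r)) (J (j p)) (J (j r)) (I w) (J x) := by
    refine ⟨Gam_map_rel I (Gam_map_rel i hrel), Gam_map_rel J (Gam_map_rel j hrel), ?_, ?_, ?_⟩
    · rw [hloI, k1]
      group
    · rw [hloI, k2]
      group
    · rw [hloJ]
      exact k3
  -- the universal property
  have hU : ∀ (G : Type) [Group G] (p' r' q' s' w' x' : G), KRel p' r' q' s' w' x' →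
      ∃ Φ : Γ →* G, Φ (I (i p)) = p' ∧ Φ (I (i r)) = r' ∧ Φ (J (j p)) = q' ∧ Φ (J (j r)) = s' ∧
        Φ (I w) = w' ∧ Φ (J x) = x' := by
    intro G _ p' r' q' s' w' x' hG
    obtain ⟨f₀, hfp, hfr⟩ := hA G p' r' hG.r1
    obtain ⟨g₀, hgq, hgs⟩ := hA G q' s' hG.r2
    obtain ⟨f, hf, hfw⟩ := huH G f₀ w'
    obtain ⟨g, hg, hgx⟩ := huQ G g₀ x'
    have hfy : f (i y) = lo p' r' := by
      rw [hf, hy, Gam_map_lo, hfp, hfr]
    have hgy : g (j y) = lo q' s' := by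
      rw [hg, hy, Gam_map_lo, hgq, hgs]
    have hfp' : f (i p) = p' := by rw [hf, hfp]
    have hgp' : g (j p) = q' := by rw [hg, hgq]
    have hcm : lo p' r' * p' = p' * lo p' r' := (lo_comm hG.r1).symm
    have hcompat : ∀ e : FreeGroup (Fin 3), f (φ e) = g (ψ e) := by
      have h1 : f.comp φ = g.comp ψ := by
        refine FreeGroup.ext_hom _ _ fun a => ?_
        fin_cases a
        · show f (φ (FreeGroup.of 0)) = g (ψ (FreeGroup.of 0))
          rw [hφ0, hψ0, hfw]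
          simp only [map_mul, map_inv]
          rw [hgy, hgx]
          exact hG.e3
        · show f (φ (FreeGroup.of 1)) = g (ψ (FreeGroup.of 1))
          rw [hφ1, hψ1]
          simp only [map_mul, map_inv]
          rw [hgy, hgx, hfy, hfp', hfw, ← hG.e3]
          exact Gam_id3 hG.e1
        · show f (φ (FreeGroup.of 2)) = g (ψ (FreeGroup.of 2))
          rw [hφ2, hψ2]
          simp only [map_mul, map_inv]
          rw [hgy, hgx, hfy, hfp', hfw, ← hG.e3, hgp']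
          exact Gam_id4 hcm hG.e1 hG.e2
      intro e
      exact DFunLike.congr_fun h1 e
    obtain ⟨Φ, hΦ1, hΦ2⟩ := huniv G f g hcompat
    refine ⟨Φ, ?_, ?_, ?_, ?_, ?_, ?_⟩
    · rw [hΦ1, hfp']
    · rw [hΦ1, hf, hfr]
    · rw [hΦ2, hgp']
    · rw [hΦ2, hg, hgs]
    · rw [hΦ1, hfw]
    · rw [hΦ2, hgx]
  -- the degree
  have hKZ : KRel (Multiplicative.ofAdd (1 : ℤ)) (Multiplicative.ofAdd (1 : ℤ)) 1 1
      (Multiplicative.ofAdd (1 : ℤ)) (Multiplicative.ofAdd (1 : ℤ)) := by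
    refine ⟨?_, ?_, ?_, ?_, ?_⟩
    · simp [Rel41, kk]
    · simp [Rel41, kk]
    · simp [lo]
    · simp [lo]
    · simp [lo]
  obtain ⟨deg, d1, d2, d3, d4, d5, d6⟩ := hU (Multiplicative ℤ) _ _ _ _ _ _ hKZ
  -- the longitude
  have hlam : lamK (I (i p)) (I (i r)) (J (j p)) (J (j r)) (I w) (J x) =
      (J x)⁻¹ * (J (j y) * I (i (y * y * p) * φ (FreeGroup.of 1)) * (J (j y))⁻¹ * (I (i y))⁻¹) := by
    unfold lamK
    rw [hloI, hloJ, hφ1]
    simp only [map_mul, map_inv]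
    group
  obtain ⟨M, hM⟩ : ∃ M : Γ, M = J (j y) * I (i (y * y * p) * φ (FreeGroup.of 1)) *
    (J (j y))⁻¹ * (I (i y))⁻¹ := ⟨_, rfl⟩
  rw [← hM] at hcent hinf hMx hlam
  have hcM : Commute (J x) M := hMx
  have hcl : Commute (J x) ((J x)⁻¹ * M) := ((Commute.refl (J x)).inv_right).mul_right hcM
  refine ⟨Γ, inferInstance, I (i p), I (i r), J (j p), J (j r), I w, J x, deg, hK, hU, d6, ?_, ?_,
    ?_, ?_⟩
  · rw [Gam_map_lam, d1, d2, d3, d4, d5, d6]
    simp [lamK, lo]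
  · rw [hlam]
    exact hcl.eq.symm
  · intro g hg
    obtain ⟨m, n, hmn⟩ := hcent g hg
    refine ⟨m + n, n, ?_⟩
    rw [hmn, hlam, (hcM.inv_left).mul_zpow, inv_zpow, zpow_add]
    group
  · intro n hn
    rw [hlam, (hcM.inv_left).mul_zpow, inv_zpow'] at hn
    exact hinf (-n) n hn

end Pool.Agent.Lib.MP_decac5_gt
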