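import Pool.Agent.Lib.MP_decac5_gt.KPath

/-!
# The labellings of the diagram by elements of a group
-/

set_option autoImplicit false

namespace Pool.Agent.Lib.MP_decac5_gt

open Pool.Agent.Lib.MP_131179_gt

variable {C : Type}

/-- The labels of the minima. -/
private def kcLabs : Word C → List C
  | [] => []
  | (.cup c, _) :: w => c :: kcLabs w
  | (.cap, _) :: w => kcLabs w
  | (.pos, _) :: w => kcLabs w
  | (.neg, _) :: w => kcLabs w

/-- Fill in the labels of the minima. -/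
private def kcFill : Word Unit → List C → Word C
  | [], _ => []
  | (.cup _, _) :: _, [] => []
  | (.cup _, i) :: w, c :: L => (.cup c, i) :: kcFill w L
  | (.cap, i) :: w, L => (.cap, i) :: kcFill w L
  | (.pos, i) :: w, L => (.pos, i) :: kcFill w L
  | (.neg, i) :: w, L => (.neg, i) :: kcFill w L

private theorem kcFill_erase (W : Word C) : kcFill (erase W) (kcLabs W) = W := by
  induction W with
  | nil => rfl
  | cons l W ih =>
    obtain ⟨k, i⟩ := l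
    cases k <;> exact congrArg (_ :: ·) ih

private theorem kcLabs_erase (W : Word C) : (kcLabs (erase W)).length = (kcLabs W).length := by
  induction W with
  | nil => rfl
  | cons l W ih =>
    obtain ⟨k, i⟩ := l
    cases k
    · exact congrArg (· + 1) ih
    · exact ih
    · exact ih
    · exact ih

private theorem kc_exists {W : Word C} (hW : erase W = kW) :
    ∃ a b c d x1 x2 x3 y1 y2 : C, W = kWL a b c d [x1, x2, x3] [y1, y2] := by
  have h1 := kcFill_erase W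
  have h2 := kcLabs_erase W
  rw [hW] at h1 h2
  have h3 : (kcLabs kW).length = 9 := by rfl
  rw [h3] at h2
  generalize kcLabs W = L at h1 h2
  match L, h2 with
  | [a, b, c, d, x1, x2, x3, y1, y2], _ =>
    exact ⟨a, b, c, d, x1, x2, x3, y1, y2, h1.symm⟩

section grp

variable {G : Type} [Group G]

private theorem kc_actL (x : G) (B : List G) : actL (conj G) x B = B.prod⁻¹ * x * B.prod := by
  induction B generalizing x with
  | nil => simp [actL]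
  | cons b B ih =>
    have h : actL (conj G) x (b :: B) = actL (conj G) (b⁻¹ * x * b) B := rfl
    rw [h, ih, List.prod_cons]
    group

private theorem kc_actA (A B : List G) :
    actA (conj G) A B = A.map fun x => B.prod⁻¹ * x * B.prod := by
  simp only [actA, kc_actL]

private theorem kc_barR_prod (B : List G) : (barR (conj G) B).prod = B.prod⁻¹ :=
  (List.prod_inv_reverse B).symm

private theorem kc_map_conj_prod (B : List G) (g : G) :
    (B.map fun x => g⁻¹ * x * g).prod = g⁻¹ * B.prod * g := by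
  induction B with
  | nil => simp
  | cons b B ih =>
    rw [List.map_cons, List.prod_cons, ih, List.prod_cons]
    group

private theorem kc_barR_map (B : List G) (g : G) :
    barR (conj G) ((barR (conj G) B).map fun x => g⁻¹ * x * g) =
      B.map fun x => g⁻¹ * x * g := by
  simp only [barR, List.map_reverse, List.reverse_reverse, List.map_map]
  refine List.map_congr_left fun x _ => ?_
  show (g⁻¹ * x⁻¹ * g)⁻¹ = g⁻¹ * x * g
  group

private theorem kc_map_conj_iff (S B : List G) (g h : G) :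
    (S.map fun x => g⁻¹ * x * g) = (B.map fun x => h⁻¹ * x * h) ↔
      B = S.map fun x => (g * h⁻¹)⁻¹ * x * (g * h⁻¹) := by
  constructor
  · intro e
    have e2 := congrArg (List.map fun x => h * x * h⁻¹) e
    rw [List.map_map, List.map_map] at e2
    have e3 : List.map ((fun x => h * x * h⁻¹) ∘ fun x => h⁻¹ * x * h) B = B := by
      conv_rhs => rw [← List.map_id B]
      refine List.map_congr_left fun x _ => ?_
      show h * (h⁻¹ * x * h) * h⁻¹ = x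
      group
    rw [e3] at e2
    rw [← e2]
    refine List.map_congr_left fun x _ => ?_
    show h * (g⁻¹ * x * g) * h⁻¹ = (g * h⁻¹)⁻¹ * x * (g * h⁻¹)
    group
  · intro e
    rw [e, List.map_map]
    refine List.map_congr_left fun x _ => ?_
    show g⁻¹ * x * g = h⁻¹ * ((g * h⁻¹)⁻¹ * x * (g * h⁻¹)) * h
    group

private theorem kc_blkRel (S B : List G) :
    blkRel (conj G) S B ↔ B = S.map fun x => (kk S.prod B.prod)⁻¹ * x * kk S.prod B.prod := by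
  unfold blkRel
  rw [kc_actA S, kc_barR_prod, kc_actA B, kc_barR_prod, kc_actA, kc_barR_prod, kc_barR_map,
    kc_map_conj_iff, kc_map_conj_prod]
  have e1 : B.prod⁻¹ * (S.prod⁻¹⁻¹ * B.prod * S.prod⁻¹)⁻¹⁻¹ = kk S.prod B.prod := by
    unfold kk
    group
  rw [e1]

private theorem kc_blkOut (S B : List G)
    (h : B = S.map fun x => (kk S.prod B.prod)⁻¹ * x * kk S.prod B.prod) :
    blkOut (conj G) S B = S.map fun x => (lo S.prod B.prod)⁻¹ * x * lo S.prod B.prod := by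
  unfold blkOut
  rw [kc_actA S, kc_barR_prod, kc_actA B, kc_barR_prod, kc_actA, kc_map_conj_prod]
  have h2 : (B.map fun x => S.prod⁻¹⁻¹ * x * S.prod⁻¹) =
      S.map fun x => (kk S.prod B.prod * S.prod⁻¹)⁻¹ * x * (kk S.prod B.prod * S.prod⁻¹) := by
    conv_lhs => rw [h]
    rw [List.map_map]
    refine List.map_congr_left fun x _ => ?_
    show S.prod⁻¹⁻¹ * ((kk S.prod B.prod)⁻¹ * x * kk S.prod B.prod) * S.prod⁻¹ = _
    group
  rw [h2, List.map_map]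
  refine List.map_congr_left fun x _ => ?_
  show (B.prod⁻¹⁻¹ * S.prod * B.prod⁻¹)⁻¹ *
    ((kk S.prod B.prod * S.prod⁻¹)⁻¹ * x * (kk S.prod B.prod * S.prod⁻¹)) *
      (B.prod⁻¹⁻¹ * S.prod * B.prod⁻¹) = _
  unfold kk lo
  group

private theorem kc_rel41 {S B : List G}
    (h : B = S.map fun x => (kk S.prod B.prod)⁻¹ * x * kk S.prod B.prod) :
    Rel41 S.prod B.prod := by
  unfold Rel41
  conv_lhs => rw [h]
  exact kc_map_conj_prod _ _

private theorem kc_lo_comm {p r : G} (h : Rel41 p r) : p * lo p r = lo p r * p := by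
  have h1 : r⁻¹ * p * r * p⁻¹ * r * p * r⁻¹ * p⁻¹ * r * p⁻¹ = 1 := by
    have h2 : r = (r⁻¹ * p * r * p⁻¹)⁻¹ * p * (r⁻¹ * p * r * p⁻¹) := h
    have h3 : r⁻¹ * p * r * p⁻¹ * r * p * r⁻¹ * p⁻¹ * r * p⁻¹ =
        (r⁻¹ * p * r * p⁻¹) * (r * ((r⁻¹ * p * r * p⁻¹)⁻¹ * p * (r⁻¹ * p * r * p⁻¹))⁻¹) *
          (r⁻¹ * p * r * p⁻¹)⁻¹ := by
      group
    rw [h3, ← h2]
    group
  have h4 : r * p⁻¹ * r * p * r⁻¹ * p⁻¹ * r * p⁻¹ * r⁻¹ * p = 1 := by
    have h5 : r * p⁻¹ * r * p * r⁻¹ * p⁻¹ * r * p⁻¹ * r⁻¹ * p =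
        (p⁻¹ * r) * (r⁻¹ * p * r * p⁻¹ * r * p * r⁻¹ * p⁻¹ * r * p⁻¹) * (r⁻¹ * p) := by
      group
    rw [h5, h1]
    group
  have h6 : r⁻¹ * p * r * p⁻¹ * r = p * (r⁻¹ * p * r * p⁻¹) := by
    have h7 : r⁻¹ * p * r * p⁻¹ * r =
        (r⁻¹ * p * r * p⁻¹ * r * p * r⁻¹ * p⁻¹ * r * p⁻¹) * (p * (r⁻¹ * p * r * p⁻¹)) := by
      group
    rw [h7, h1, one_mul]
  have h8 : r * (p⁻¹ * r * p * r⁻¹) = p⁻¹ * r * p * r⁻¹ * p := by
    have h9 : r * (p⁻¹ * r * p * r⁻¹) =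
        (r * p⁻¹ * r * p * r⁻¹ * p⁻¹ * r * p⁻¹ * r⁻¹ * p) * (p⁻¹ * r * p * r⁻¹ * p) := by
      group
    rw [h9, h4, one_mul]
  have h10 : lo p r = (r⁻¹ * p * r * p⁻¹) * (p⁻¹ * r * p * r⁻¹) := by
    unfold lo
    group
  rw [h10, ← mul_assoc, ← h6, mul_assoc, h8]
  group

/-- The conditions of the diagram. -/
private theorem kc_iff (a b c d x1 x2 x3 y1 y2 : G) :
    Path (conj G) (kWL a b c d [x1, x2, x3] [y1, y2]) [] [] ↔
      blkRel (conj G) [b, b⁻¹ * a⁻¹ * b, c] [x1, x2, x3] ∧ blkRel (conj G) [d⁻¹, c⁻¹] [y1, y2] ∧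
      ∃ o : G, blkOut (conj G) [b, b⁻¹ * a⁻¹ * b, c] [x1, x2, x3] = [a⁻¹, o, d⁻¹] ∧
        blkOut (conj G) [d⁻¹, c⁻¹] [y1, y2] = [o⁻¹, b] :=
  kWL_iff a b c d x1 x2 x3 y1 y2

end grp

theorem kLab_of_path {G : Type} [Group G] {W : Word G} (h : Path (conj G) W [] [])
    (hW : erase W = kW) :
    ∃ p r q s w x : G, KRel p r q s w x ∧ W = kLab p r q s w x := by
  obtain ⟨a, b, c, d, x1, x2, x3, y1, y2, rfl⟩ := kc_exists hW
  rw [kc_iff] at h
  obtain ⟨h1, h2, o, h3, h4⟩ := h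
  rw [kc_blkRel] at h1 h2
  rw [kc_blkOut _ _ h1] at h3
  rw [kc_blkOut _ _ h2] at h4
  have r1 := kc_rel41 h1
  have r2 := kc_rel41 h2
  have hp : ([b, b⁻¹ * a⁻¹ * b, c] : List G).prod = a⁻¹ * b * c := by
    simp [mul_assoc]
  have hq : ([d⁻¹, c⁻¹] : List G).prod = d⁻¹ * c⁻¹ := by simp
  rw [hp] at h1 h3 r1
  rw [hq] at h2 h4 r2
  generalize ([x1, x2, x3] : List G).prod = r at *
  generalize ([y1, y2] : List G).prod = s at *
  simp only [List.map_cons, List.map_nil, List.cons.injEq, and_true] at h1 h2 h3 h4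
  obtain ⟨g1, g2, g3⟩ := h1
  obtain ⟨g4, g5⟩ := h2
  obtain ⟨g6, g7, g8⟩ := h3
  obtain ⟨g9, g10⟩ := h4
  have ed : (lo (a⁻¹ * b * c) r)⁻¹ * c⁻¹ * lo (a⁻¹ * b * c) r = d := by
    rw [← inv_inv d, ← g8]
    group
  refine ⟨a⁻¹ * b * c, r, d⁻¹ * c⁻¹, s, b, c⁻¹, ⟨r1, r2, ?_, ?_, ?_⟩, ?_⟩
  · rw [g6, inv_inv]
  · rw [ed]
  · exact g10.symm
  · unfold kLab
    rw [g6, inv_inv, inv_inv, ed, g1, g2, g3, g4, g5]

theorem kLab_path {G : Type} [Group G] {p r q s w x : G} (h : KRel p r q s w x) :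
    Path (conj G) (kLab p r q s w x) [] [] := by
  obtain ⟨r1, r2, e1, e2, e3⟩ := h
  unfold kLab
  rw [kc_iff]
  generalize ha : (lo p r)⁻¹ * w * lo p r = A at *
  generalize hd : (lo p r)⁻¹ * x * lo p r = D at *
  have hp : ([w, w⁻¹ * A⁻¹⁻¹ * w, x⁻¹] : List G).prod = p := by
    rw [e1]
    simp [mul_assoc]
  have hq : ([D⁻¹, x⁻¹⁻¹] : List G).prod = q := by
    rw [e2]
    simp
  have hr : ([(kk p r)⁻¹ * w * kk p r, (kk p r)⁻¹ * (w⁻¹ * A * w) * kk p r,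
      (kk p r)⁻¹ * x⁻¹ * kk p r] : List G).prod = r := by
    have h1 : ([(kk p r)⁻¹ * w * kk p r, (kk p r)⁻¹ * (w⁻¹ * A * w) * kk p r,
      (kk p r)⁻¹ * x⁻¹ * kk p r] : List G).prod = (kk p r)⁻¹ * (A * w * x⁻¹) * kk p r := by
      simp only [List.prod_cons, List.prod_nil]
      group
    rw [h1, ← e1]
    exact r1.symm
  have hs : ([(kk q s)⁻¹ * D⁻¹ * kk q s, (kk q s)⁻¹ * x * kk q s] : List G).prod = s := by
    have h1 : ([(kk q s)⁻¹ * D⁻¹ * kk q s, (kk q s)⁻¹ * x * kk q s] : List G).prod =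
        (kk q s)⁻¹ * (D⁻¹ * x) * kk q s := by
      simp only [List.prod_cons, List.prod_nil]
      group
    rw [h1, ← e2]
    exact r2.symm
  have b1 : ([(kk p r)⁻¹ * w * kk p r, (kk p r)⁻¹ * (w⁻¹ * A * w) * kk p r,
      (kk p r)⁻¹ * x⁻¹ * kk p r] : List G) =
      ([w, w⁻¹ * A⁻¹⁻¹ * w, x⁻¹] : List G).map fun x => (kk p r)⁻¹ * x * kk p r := by
    simp
  have b2 : ([(kk q s)⁻¹ * D⁻¹ * kk q s, (kk q s)⁻¹ * x * kk q s] : List G) =
      ([D⁻¹, x⁻¹⁻¹] : List G).map fun x => (kk q s)⁻¹ * x * kk q s := by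
    simp
  have c1 : ([(kk p r)⁻¹ * w * kk p r, (kk p r)⁻¹ * (w⁻¹ * A * w) * kk p r,
      (kk p r)⁻¹ * x⁻¹ * kk p r] : List G) = ([w, w⁻¹ * A⁻¹⁻¹ * w, x⁻¹] : List G).map fun y =>
        (kk ([w, w⁻¹ * A⁻¹⁻¹ * w, x⁻¹] : List G).prod
          ([(kk p r)⁻¹ * w * kk p r, (kk p r)⁻¹ * (w⁻¹ * A * w) * kk p r,
      (kk p r)⁻¹ * x⁻¹ * kk p r] : List G).prod)⁻¹ * y *
        kk ([w, w⁻¹ * A⁻¹⁻¹ * w, x⁻¹] : List G).prod
          ([(kk p r)⁻¹ * w * kk p r, (kk p r)⁻¹ * (w⁻¹ * A * w) * kk p r,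
      (kk p r)⁻¹ * x⁻¹ * kk p r] : List G).prod := by
    rw [hp, hr]
    exact b1
  have c2 : ([(kk q s)⁻¹ * D⁻¹ * kk q s, (kk q s)⁻¹ * x * kk q s] : List G) =
      ([D⁻¹, x⁻¹⁻¹] : List G).map fun y => (kk ([D⁻¹, x⁻¹⁻¹] : List G).prod
        ([(kk q s)⁻¹ * D⁻¹ * kk q s, (kk q s)⁻¹ * x * kk q s] : List G).prod)⁻¹ * y *
          kk ([D⁻¹, x⁻¹⁻¹] : List G).prod
        ([(kk q s)⁻¹ * D⁻¹ * kk q s, (kk q s)⁻¹ * x * kk q s] : List G).prod := by
    rw [hq, hs]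
    exact b2
  refine ⟨(kc_blkRel _ _).2 c1, (kc_blkRel _ _).2 c2,
    (lo p r)⁻¹ * (w⁻¹ * A * w) * lo p r, ?_, ?_⟩
  · rw [kc_blkOut _ _ c1, hp, hr]
    simp only [List.map_cons, List.map_nil, inv_inv, ha]
    have h2 : (lo p r)⁻¹ * x⁻¹ * lo p r = D⁻¹ := by
      rw [← hd]
      group
    rw [h2]
  · rw [kc_blkOut _ _ c2, hq, hs]
    simp only [List.map_cons, List.map_nil, inv_inv, ← e3]
    have h3 := kc_lo_comm r1
    have h4 := kc_lo_comm r2
    have h5 : (lo q s)⁻¹ * D⁻¹ * lo q s * w = D⁻¹ * x := by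
      have h6 : (lo q s)⁻¹ * (D⁻¹ * x) * lo q s = D⁻¹ * x := by
        rw [← e2, mul_assoc, h4]
        group
      calc (lo q s)⁻¹ * D⁻¹ * lo q s * w = (lo q s)⁻¹ * D⁻¹ * lo q s * ((lo q s)⁻¹ * x * lo q s) := by
            rw [← e3]
        _ = (lo q s)⁻¹ * (D⁻¹ * x) * lo q s := by group
        _ = D⁻¹ * x := h6
    have h7 : A * ((lo p r)⁻¹ * (w⁻¹ * A * w) * lo p r) * D⁻¹ = A * w * x⁻¹ := by
      have h8 : (lo p r)⁻¹ * (A * w * x⁻¹) * lo p r = A * w * x⁻¹ := by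
        rw [← e1, mul_assoc, h3]
        group
      calc A * ((lo p r)⁻¹ * (w⁻¹ * A * w) * lo p r) * D⁻¹ =
          ((lo p r)⁻¹ * w * lo p r) * ((lo p r)⁻¹ * (w⁻¹ * A * w) * lo p r) *
            ((lo p r)⁻¹ * x * lo p r)⁻¹ := by rw [ha, hd]
        _ = (lo p r)⁻¹ * (A * w * x⁻¹) * lo p r := by group
        _ = A * w * x⁻¹ := h8
    have h9 : (lo p r)⁻¹ * (w⁻¹ * A * w) * lo p r = w * x⁻¹ * D := by
      have h10 : (lo p r)⁻¹ * (w⁻¹ * A * w) * lo p r =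
          A⁻¹ * (A * ((lo p r)⁻¹ * (w⁻¹ * A * w) * lo p r) * D⁻¹) * D := by group
      rw [h10, h7]
      group
    have h11 : (lo q s)⁻¹ * D⁻¹ * lo q s = (w * x⁻¹ * D)⁻¹ := by
      have h12 : (lo q s)⁻¹ * D⁻¹ * lo q s = (lo q s)⁻¹ * D⁻¹ * lo q s * w * w⁻¹ := by group
      rw [h12, h5]
      group
    rw [h9, h11]

end Pool.Agent.Lib.MP_decac5_gt
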