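import Pool.Agent.Lib.MP_decac5_gt.KPath

/-!
# Lifts of the labels of the knot modulo a subgroup
-/

set_option autoImplicit false

namespace Pool.Agent.Lib.MP_decac5_gt

open Pool.Agent.Lib.MP_131179_gt

section klon

variable {G : Type} [Group G]

/-- the labels given by representatives -/
def KLonMk (Λ : Subgroup G) (B : List (G × Bool)) : List (CosR Λ × Bool) :=
  B.map fun z => (Quotient.mk _ z.1, z.2)

/-- minus the sum of the signs -/
def KLonN (B : List (G × Bool)) : ℤ := (B.map fun z => if z.2 then (-1 : ℤ) else 1).sum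

/-- the product of the covered labels -/
def KLonP (x : G) (B : List (G × Bool)) : G := (B.map (lonf x)).prod

/-- change of the representatives -/
def KLonC (l g : G) (B : List (G × Bool)) : List (G × Bool) := B.map fun z => (l * z.1 * g, z.2)

/-- the reversed bundle -/
def KLonR (B : List (G × Bool)) : List (G × Bool) := (B.map fun z => (z.1, !z.2)).reverse

variable (Λ : Subgroup G) (x : G) (hc : ∀ l ∈ Λ, l * x = x * l)

theorem KLon_barR (B : List (G × Bool)) :
    barR (lonQ Λ x hc) (KLonMk Λ B) = KLonMk Λ (KLonR B) := by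
  unfold barR KLonMk KLonR
  rw [List.map_map, List.map_reverse, List.map_map]
  rfl

theorem KLon_act (u v : G) (s t : Bool) :
    (lonQ Λ x hc).act (Quotient.mk _ u, s) (Quotient.mk _ v, t) =
      (Quotient.mk _ ((if t then x⁻¹ else x) * u * lonf x (v, t)), s) := rfl

theorem KLon_actL (B : List (G × Bool)) (u : G) (s : Bool) :
    actL (lonQ Λ x hc) (Quotient.mk _ u, s) (KLonMk Λ B) =
      (Quotient.mk _ (x ^ KLonN B * u * KLonP x B), s) := by
  induction B generalizing u with
  | nil => simp [actL, KLonMk, KLonN, KLonP]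
  | cons z B ih =>
    have h1 : actL (lonQ Λ x hc) (Quotient.mk _ u, s) (KLonMk Λ (z :: B)) =
        actL (lonQ Λ x hc) (Quotient.mk _ ((if z.2 then x⁻¹ else x) * u * lonf x z), s)
          (KLonMk Λ B) := rfl
    rw [h1, ih]
    refine Prod.ext ?_ rfl
    refine congrArg (Quotient.mk _) ?_
    have h2 : KLonP x (z :: B) = lonf x z * KLonP x B := by
      unfold KLonP
      rw [List.map_cons, List.prod_cons]
    have h3 : KLonN (z :: B) = KLonN B + (if z.2 then (-1 : ℤ) else 1) := by
      unfold KLonN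
      rw [List.map_cons, List.sum_cons, add_comm]
    have h4 : x ^ (if z.2 then (-1 : ℤ) else 1) = if z.2 then x⁻¹ else x := by
      split_ifs <;> simp
    rw [h2, h3, zpow_add, h4]
    group

theorem KLon_actA (A B : List (G × Bool)) :
    actA (lonQ Λ x hc) (KLonMk Λ A) (KLonMk Λ B) =
      KLonMk Λ (KLonC (x ^ KLonN B) (KLonP x B) A) := by
  have h1 : actA (lonQ Λ x hc) (KLonMk Λ A) (KLonMk Λ B) =
      A.map fun z => actL (lonQ Λ x hc) (Quotient.mk _ z.1, z.2) (KLonMk Λ B) := by
    unfold actA KLonMk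
    rw [List.map_map]
    rfl
  have h2 : KLonMk Λ (KLonC (x ^ KLonN B) (KLonP x B) A) =
      A.map fun z => (Quotient.mk _ (x ^ KLonN B * z.1 * KLonP x B), z.2) := by
    unfold KLonMk KLonC
    rw [List.map_map]
    rfl
  rw [h1, h2]
  refine List.map_congr_left fun z _ => ?_
  exact KLon_actL Λ x hc B z.1 z.2

omit [Group G] in
theorem KLonN_R (B : List (G × Bool)) : KLonN (KLonR B) = -KLonN B := by
  unfold KLonN KLonR
  rw [List.map_reverse, List.sum_reverse, List.map_map]
  induction B with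
  | nil => simp
  | cons z B ih =>
    rw [List.map_cons, List.sum_cons, List.map_cons, List.sum_cons, ih]
    obtain ⟨u, s⟩ := z
    cases s <;> simp <;> ring

theorem KLonN_C (l g : G) (B : List (G × Bool)) : KLonN (KLonC l g B) = KLonN B := by
  unfold KLonN KLonC
  rw [List.map_map]
  rfl

theorem KLonP_R (B : List (G × Bool)) : KLonP x (KLonR B) = (KLonP x B)⁻¹ := by
  unfold KLonP KLonR
  rw [List.map_reverse, List.map_map, List.prod_inv_reverse, List.map_map]
  refine congrArg (fun l : List G => l.reverse.prod) ?_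
  refine List.map_congr_left fun z _ => ?_
  obtain ⟨u, s⟩ := z
  cases s
  · simp [lonf]
    group
  · simp [lonf]
    group

theorem KLonP_C (m : ℤ) (g : G) (B : List (G × Bool)) :
    KLonP x (KLonC (x ^ m) g B) = g⁻¹ * KLonP x B * g := by
  have hx : (x ^ m)⁻¹ * x * x ^ m = x := by group
  have hx' : (x ^ m)⁻¹ * x⁻¹ * x ^ m = x⁻¹ := by group
  have h1 : ∀ z : G × Bool, lonf x (x ^ m * z.1 * g, z.2) = g⁻¹ * lonf x z * g := by
    intro z
    obtain ⟨u, s⟩ := z
    cases s
    · show (x ^ m * u * g)⁻¹ * x⁻¹ * (x ^ m * u * g) = g⁻¹ * (u⁻¹ * x⁻¹ * u) * g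
      calc (x ^ m * u * g)⁻¹ * x⁻¹ * (x ^ m * u * g)
          = g⁻¹ * (u⁻¹ * ((x ^ m)⁻¹ * x⁻¹ * x ^ m) * u) * g := by group
        _ = g⁻¹ * (u⁻¹ * x⁻¹ * u) * g := by rw [hx']
    · show (x ^ m * u * g)⁻¹ * x * (x ^ m * u * g) = g⁻¹ * (u⁻¹ * x * u) * g
      calc (x ^ m * u * g)⁻¹ * x * (x ^ m * u * g)
          = g⁻¹ * (u⁻¹ * ((x ^ m)⁻¹ * x * x ^ m) * u) * g := by group
        _ = g⁻¹ * (u⁻¹ * x * u) * g := by rw [hx]
  induction B with
  | nil =>
    unfold KLonP KLonC
    simp
  | cons z B ih =>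
    have e1 : KLonP x (KLonC (x ^ m) g (z :: B)) =
        lonf x (x ^ m * z.1 * g, z.2) * KLonP x (KLonC (x ^ m) g B) := by
      unfold KLonP KLonC
      rw [List.map_cons, List.map_cons, List.prod_cons]
    have e2 : KLonP x (z :: B) = lonf x z * KLonP x B := by
      unfold KLonP
      rw [List.map_cons, List.prod_cons]
    rw [e1, e2, ih, h1]
    group

theorem KLonC_C (l g l' g' : G) (B : List (G × Bool)) :
    KLonC l g (KLonC l' g' B) = KLonC (l * l') (g' * g) B := by
  unfold KLonC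
  rw [List.map_map]
  refine List.map_congr_left fun z _ => ?_
  refine Prod.ext ?_ rfl
  show l * (l' * z.1 * g') * g = l * l' * z.1 * (g' * g)
  group

theorem KLonR_C (l g : G) (B : List (G × Bool)) : KLonR (KLonC l g B) = KLonC l g (KLonR B) := by
  unfold KLonR KLonC
  rw [List.map_map, List.map_reverse, List.map_map]
  rfl

omit [Group G] in
theorem KLonR_R (B : List (G × Bool)) : KLonR (KLonR B) = B := by
  unfold KLonR
  rw [List.map_reverse, List.reverse_reverse, List.map_map]
  conv_rhs => rw [← List.map_id B]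
  refine List.map_congr_left fun z _ => ?_
  obtain ⟨u, s⟩ := z
  cases s <;> rfl

/-- a block -/
theorem KLon_block (S : List (G × Bool)) (p r : G) (hp : KLonP x S = p) (h41 : Rel41 p r) :
    blkRel (lonQ Λ x hc) (KLonMk Λ S) (KLonMk Λ (KLonC 1 (kk p r) S)) ∧
      blkOut (lonQ Λ x hc) (KLonMk Λ S) (KLonMk Λ (KLonC 1 (kk p r) S)) =
        KLonMk Λ (KLonC 1 (lo p r) S) := by
  set k := kk p r with hk
  have h1 : KLonC (1 : G) k S = KLonC (x ^ (0 : ℤ)) k S := by rw [zpow_zero]
  have hr : KLonP x (KLonC 1 k S) = r := by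
    rw [h1, KLonP_C, hp, hk]
    exact h41.symm
  have hkr : k = r⁻¹ * p * r * p⁻¹ := hk
  have hA : actA (lonQ Λ x hc) (KLonMk Λ S) (barR (lonQ Λ x hc) (KLonMk Λ (KLonC 1 k S))) =
      KLonMk Λ (KLonC (x ^ (-KLonN S)) r⁻¹ S) := by
    rw [KLon_barR, KLon_actA, KLonN_R, KLonN_C, KLonP_R, hr]
  have hB : actA (lonQ Λ x hc) (KLonMk Λ (KLonC 1 k S)) (barR (lonQ Λ x hc) (KLonMk Λ S)) =
      KLonMk Λ (KLonC (x ^ (-KLonN S)) (k * p⁻¹) S) := by
    rw [KLon_barR, KLon_actA, KLonN_R, KLonP_R, hp, KLonC_C, mul_one]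
  constructor
  · unfold blkRel
    rw [hA, hB, KLon_barR, KLon_barR, KLon_actA, KLon_barR, KLonR_C 1 k, KLonC_C, KLonR_C,
      KLonR_R, KLonN_R, KLonN_C, KLonP_R, KLonP_C, hp, mul_one]
    have e1 : k * ((k * p⁻¹)⁻¹ * p * (k * p⁻¹))⁻¹ = r⁻¹ := by
      calc k * ((k * p⁻¹)⁻¹ * p * (k * p⁻¹))⁻¹ = k * p * (k⁻¹ * p * k)⁻¹ * p⁻¹ := by group
        _ = k * p * r⁻¹ * p⁻¹ := by
          have h2 : k⁻¹ * p * k = r := h41.symm
          rw [h2]
        _ = r⁻¹ := by
          rw [hkr]
          group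
    rw [e1]
  · unfold blkOut
    rw [hA, hB, KLon_actA, KLonC_C, KLonN_C, KLonP_C, hp]
    have e1 : x ^ KLonN S * x ^ (-KLonN S) = 1 := by
      rw [← zpow_add, add_neg_cancel, zpow_zero]
    have e2 : k * p⁻¹ * (r⁻¹⁻¹ * p * r⁻¹) = lo p r := by
      unfold lo
      rw [hkr]
      group
    rw [e1, e2]

end klon

theorem kLab_lift {G : Type} [Group G] {p r q s w x : G} (h : KRel p r q s w x)
    (Λ : Subgroup G) (hΛ : lamK p r q s w x ∈ Λ) (hc : ∀ l ∈ Λ, l * x = x * l) :
    ∃ W' : Word (CosR Λ × Bool), Path (lonQ Λ x hc) W' [] [] ∧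
      wmap (lonfQ Λ x hc) W' = kLab p r q s w x := by
  set y := lo p r with hy
  set z := lo q s with hz
  have hw : w = z⁻¹ * x * z := h.e3
  have b1 := KLon_block Λ x hc [(z, true), (x⁻¹ * (z * y) * w, true), (1, false)] p r (by
    unfold KLonP
    simp only [List.map_cons, List.map_nil, List.prod_cons, List.prod_nil, lonf]
    simp only [if_true, if_false, Bool.false_eq_true, mul_one]
    rw [h.e1, ← hy]
    have e1 : (x⁻¹ * (z * y) * w)⁻¹ * x * (x⁻¹ * (z * y) * w) =
        w⁻¹ * y⁻¹ * (z⁻¹ * x * z) * y * w := by group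
    rw [e1, ← hw]
    group) h.r1
  have b2 := KLon_block Λ x hc [(y, false), (1, true)] q s (by
    unfold KLonP
    simp only [List.map_cons, List.map_nil, List.prod_cons, List.prod_nil, lonf]
    simp only [if_true, if_false, Bool.false_eq_true, mul_one]
    rw [h.e2, ← hy]
    group) h.r2
  rw [← hy] at b1
  rw [← hz] at b2
  refine ⟨kWL (Quotient.mk _ (z * y), false) (Quotient.mk _ z, true) (Quotient.mk _ 1, false)
    (Quotient.mk _ y, true)
    [(Quotient.mk _ (1 * z * kk p r), true), (Quotient.mk _ (1 * (x⁻¹ * (z * y) * w) * kk p r), true),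
      (Quotient.mk _ (1 * 1 * kk p r), false)]
    [(Quotient.mk _ (1 * y * kk q s), false), (Quotient.mk _ (1 * 1 * kk q s), true)], ?_, ?_⟩
  · rw [kWL_iff]
    have e0 : (lonQ Λ x hc).act ((lonQ Λ x hc).bar (Quotient.mk _ (z * y), false))
        (Quotient.mk _ z, true) = (Quotient.mk _ (x⁻¹ * (z * y) * w), true) := by
      rw [hw]
      rfl
    refine ⟨?_, b2.1, (Quotient.mk _ (1 * (x⁻¹ * (z * y) * w) * y), true), ?_, ?_⟩
    · rw [e0]
      exact b1.1
    · rw [e0]
      refine b1.2.trans ?_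
      simp only [KLonMk, KLonC, List.map_cons, List.map_nil, one_mul]
      rfl
    · refine b2.2.trans ?_
      simp only [KLonMk, KLonC, List.map_cons, List.map_nil, one_mul]
      refine congrArg₂ List.cons (Prod.ext ?_ rfl) rfl
      refine Quotient.sound ?_
      refine QuotientGroup.rightRel_apply.2 ?_
      have e1 : lamK p r q s w x = x⁻¹ * (z * y) * w * y * (y * z)⁻¹ := by
        unfold lamK
        rw [← hy, ← hz]
        group
      rw [e1] at hΛ
      exact hΛ
  · have e0 : wmap (lonfQ Λ x hc) (kWL (Quotient.mk _ (z * y), false) (Quotient.mk _ z, true)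
      (Quotient.mk _ 1, false) (Quotient.mk _ y, true)
      [(Quotient.mk _ (1 * z * kk p r), true),
        (Quotient.mk _ (1 * (x⁻¹ * (z * y) * w) * kk p r), true),
        (Quotient.mk _ (1 * 1 * kk p r), false)]
      [(Quotient.mk _ (1 * y * kk q s), false), (Quotient.mk _ (1 * 1 * kk q s), true)]) =
      kWL (lonf x (z * y, false)) (lonf x (z, true)) (lonf x (1, false)) (lonf x (y, true))
      [lonf x (1 * z * kk p r, true), lonf x (1 * (x⁻¹ * (z * y) * w) * kk p r, true),
        lonf x (1 * 1 * kk p r, false)]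
      [lonf x (1 * y * kk q s, false), lonf x (1 * 1 * kk q s, true)] := rfl
    rw [e0]
    unfold kLab
    rw [← hy]
    have f1 : lonf x (z * y, false) = (y⁻¹ * w * y)⁻¹ := by
      rw [hw]
      simp only [lonf, if_false, Bool.false_eq_true]
      group
    have f2 : lonf x (z, true) = w := by
      rw [hw]
      simp only [lonf, if_true]
    have f3 : lonf x (1, false) = x⁻¹ := by
      simp only [lonf, if_false, Bool.false_eq_true]
      group
    have f4 : lonf x (y, true) = y⁻¹ * x * y := by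
      simp only [lonf, if_true]
    have f5 : lonf x (1 * z * kk p r, true) = (kk p r)⁻¹ * w * kk p r := by
      rw [hw]
      simp only [lonf, if_true]
      group
    have f6 : lonf x (1 * (x⁻¹ * (z * y) * w) * kk p r, true) =
        (kk p r)⁻¹ * (w⁻¹ * (y⁻¹ * w * y) * w) * kk p r := by
      have : w⁻¹ * (y⁻¹ * w * y) * w = w⁻¹ * (y⁻¹ * (z⁻¹ * x * z) * y) * w := by
        rw [← hw]
      rw [this]
      simp only [lonf, if_true]
      group
    have f7 : lonf x (1 * 1 * kk p r, false) = (kk p r)⁻¹ * x⁻¹ * kk p r := by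
      simp only [lonf, if_false, Bool.false_eq_true]
      group
    have f8 : lonf x (1 * y * kk q s, false) = (kk q s)⁻¹ * (y⁻¹ * x * y)⁻¹ * kk q s := by
      simp only [lonf, if_false, Bool.false_eq_true]
      group
    have f9 : lonf x (1 * 1 * kk q s, true) = (kk q s)⁻¹ * x * kk q s := by
      simp only [lonf, if_true]
      group
    rw [f1, f2, f3, f4, f5, f6, f7, f8, f9]

end Pool.Agent.Lib.MP_decac5_gt
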