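import Pool.Agent.Lib.MP_decac5_gt.Base2

/-!
# The diagram has one component
-/

set_option autoImplicit false

namespace Pool.Agent.Lib.MP_decac5_gt

open Pool.Agent.Lib.MP_131179_gt

/-! ### Checking paths -/

/-- The strands above an elementary tangle (trivial palette), `none` if it does not fit. -/
private def b5RunL : Kind Bool → ℕ → List Bool → Option (List Bool)
  | .cup c, 0, s => some (c :: c :: s)
  | .cap, 0, a :: b :: s => if b = a then some s else none
  | .pos, 0, a :: b :: s => some (b :: a :: s)
  | .neg, 0, a :: b :: s => some (b :: a :: s)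
  | k, i + 1, a :: s => (b5RunL k i s).map (a :: ·)
  | _, _, _ => none

/-- The strands above a word, `none` if it does not fit. -/
private def b5Run : Word Bool → List Bool → Option (List Bool)
  | [], s => some s
  | (k, i) :: w, s => (b5RunL k i s).bind (b5Run w)

private theorem b5RunL_succ (k : Kind Bool) (i : ℕ) (a : Bool) (s : List Bool) :
    b5RunL k (i + 1) (a :: s) = (b5RunL k i s).map (a :: ·) := by
  cases k <;> rfl

private theorem b5_step {k : Kind Bool} {i : ℕ} {s t : List Bool} (h : Step (triv Bool) k i s t) :
    b5RunL k i s = some t := by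
  induction h with
  | cup c s => rfl
  | cap c s => simp [b5RunL, triv]
  | pos a b s => rfl
  | neg a b s => rfl
  | there a _ ih => rw [b5RunL_succ, ih]; rfl

private theorem b5_path {w : Word Bool} {s t : List Bool} (h : Path (triv Bool) w s t) :
    b5Run w s = some t := by
  induction h with
  | nil s => rfl
  | cons hs _ ih =>
    rw [b5Run, b5_step hs]
    exact ih

/-! ### The labels of a word -/

/-- The labels of the minima. -/
private def b5Labs : Word Bool → List Bool
  | [] => []
  | (.cup c, _) :: w => c :: b5Labs w
  | (.cap, _) :: w => b5Labs w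
  | (.pos, _) :: w => b5Labs w
  | (.neg, _) :: w => b5Labs w

/-- The number of the minima. -/
private def b5Cups : Word Unit → ℕ
  | [] => 0
  | (.cup _, _) :: w => b5Cups w + 1
  | (.cap, _) :: w => b5Cups w
  | (.pos, _) :: w => b5Cups w
  | (.neg, _) :: w => b5Cups w

/-- Put labels on the minima. -/
private def b5Put : Word Unit → List Bool → Word Bool
  | [], _ => []
  | (.cup _, i) :: w, c :: l => (.cup c, i) :: b5Put w l
  | (.cup _, _) :: _, [] => []
  | (.cap, i) :: w, l => (.cap, i) :: b5Put w l
  | (.pos, i) :: w, l => (.pos, i) :: b5Put w l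
  | (.neg, i) :: w, l => (.neg, i) :: b5Put w l

private theorem b5_put (W : Word Bool) : b5Put (erase W) (b5Labs W) = W := by
  induction W with
  | nil => rfl
  | cons l W ih =>
    obtain ⟨k, i⟩ := l
    cases k with
    | cup c =>
      show (Kind.cup c, i) :: b5Put (erase W) (b5Labs W) = _
      rw [ih]
    | cap =>
      show (Kind.cap, i) :: b5Put (erase W) (b5Labs W) = _
      rw [ih]
    | pos =>
      show (Kind.pos, i) :: b5Put (erase W) (b5Labs W) = _
      rw [ih]
    | neg =>
      show (Kind.neg, i) :: b5Put (erase W) (b5Labs W) = _
      rw [ih]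

private theorem b5_length (W : Word Bool) : (b5Labs W).length = b5Cups (erase W) := by
  induction W with
  | nil => rfl
  | cons l W ih =>
    obtain ⟨k, i⟩ := l
    cases k with
    | cup c =>
      show (b5Labs W).length + 1 = b5Cups (erase W) + 1
      rw [ih]
    | cap => exact ih
    | pos => exact ih
    | neg => exact ih

private theorem b5_mem {W : Word Bool} {x : Bool} (h : HasLabel x W) : x ∈ b5Labs W := by
  induction W with
  | nil => exact absurd h (not_hasLabel_nil x)
  | cons l W ih =>
    obtain ⟨k, i⟩ := l
    rcases hasLabel_cons.1 h with h' | h'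
    · rw [h']
      exact List.mem_cons_self
    · cases k with
      | cup c => exact List.mem_cons_of_mem _ (ih h')
      | cap => exact ih h'
      | pos => exact ih h'
      | neg => exact ih h'

/-- All lists of a given length. -/
private def b5All : ℕ → List (List Bool)
  | 0 => [[]]
  | n + 1 => (b5All n).flatMap fun l => [true :: l, false :: l]

private theorem mem_b5All (l : List Bool) : l ∈ b5All l.length := by
  induction l with
  | nil => exact List.mem_singleton.2 rfl
  | cons a l ih =>
    rw [List.length_cons, b5All, List.mem_flatMap]
    refine ⟨l, ih, ?_⟩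
    cases a
    · exact List.mem_cons_of_mem _ (List.mem_singleton.2 rfl)
    · exact List.mem_cons_self

/-- All labellings of the diagram are constant. -/
private theorem b5_check : ((b5All 9).all fun l =>
    !(b5Run (b5Put kW l) [] == some []) || (l.all fun x => x) || (l.all fun x => !x)) = true := by
  decide +kernel

private theorem b5_kW {W : Word Bool} (h : Path (triv Bool) W [] []) (hW : erase W = kW)
    (h1 : HasLabel true W) (h2 : HasLabel false W) : False := by
  have hlen : (b5Labs W).length = 9 := by
    rw [b5_length, hW]
    decide +kernel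
  have hrun := b5_path h
  rw [← b5_put W, hW] at hrun
  have m1 := b5_mem h1
  have m2 := b5_mem h2
  have m3 := mem_b5All (b5Labs W)
  rw [hlen] at m3
  have m4 := (List.all_eq_true.1 b5_check) _ m3
  rw [hrun] at m4
  have m5 : ((some [] : Option (List Bool)) == some []) = true := by decide
  rw [m5, Bool.not_true, Bool.false_or, Bool.or_eq_true] at m4
  rcases m4 with h3 | h3
  · exact absurd ((List.all_eq_true.1 h3) _ m2) (by decide)
  · exact absurd ((List.all_eq_true.1 h3) _ m1) (by decide)

theorem not_two_kL : ¬ AtLeastTwoComponents kL := by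
  rintro ⟨w, h1, h2, h3, h4⟩
  obtain ⟨v, hv, he⟩ := lift_diag rfl h1 h2 isDiag_kW
  exact b5_kW he.path_right hv ((hasLabel_iff he true).1 h3) ((hasLabel_iff he false).1 h4)

end Pool.Agent.Lib.MP_decac5_gt
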