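import Pool.Agent.Lib.MP_decac5_gt.LonF
import Pool.Agent.Lib.MP_131179_gt.Dehn.Main3

/-!
# Dehn's lemma for knots with trivial longitude
-/

set_option autoImplicit false

namespace Pool.Agent.Lib.MP_decac5_gt

open Pool.Agent.Lib.MP_131179_gt Pool.Agent.Lib.MP_131179_gt.Dehn

/-- The labels of a knot are conjugate to each other, up to inversion. -/
theorem lon_conjugate {L : Link} (h1 : ¬ AtLeastTwoComponents L) {Γ : Type} [Group Γ] {W : Word Γ}
    (hp : Path (conj Γ) W [] []) (hd : IsDiag (wmap (fun _ => ()) W) L) {x0 : Γ}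
    (hx0 : HasLabel x0 W) : ∀ c i, (Kind.cup c, i) ∈ W → ∃ x : Γ × Bool, c = lonf x0 x := by
  classical
  intro c i hc
  by_contra hcon
  apply h1
  set g : Γ → Bool := fun y => decide (∃ x : Γ × Bool, y = lonf x0 x) with hg
  have hhom : IsHom (conj Γ) (triv Bool) g := by
    refine ⟨fun y => ?_, fun y z => ?_⟩
    · show decide (∃ x : Γ × Bool, y⁻¹ = lonf x0 x) = decide (∃ x : Γ × Bool, y = lonf x0 x)
      rw [decide_eq_decide]
      constructor
      · rintro ⟨x, hx⟩
        refine ⟨(lonP x0).bar x, ?_⟩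
        rw [lonf_bar, ← hx, inv_inv]
      · rintro ⟨x, hx⟩
        refine ⟨(lonP x0).bar x, ?_⟩
        rw [lonf_bar, ← hx]
    · show decide (∃ x : Γ × Bool, z⁻¹ * y * z = lonf x0 x) = decide (∃ x : Γ × Bool, y = lonf x0 x)
      rw [decide_eq_decide]
      constructor
      · rintro ⟨x, hx⟩
        refine ⟨(x.1 * z⁻¹, x.2), ?_⟩
        rw [lonf_eq] at hx ⊢
        simp only [mul_inv_rev, inv_inv]
        have h2 : y = z * (z⁻¹ * y * z) * z⁻¹ := by group
        rw [h2, hx]
        group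
      · rintro ⟨x, hx⟩
        refine ⟨(x.1 * z, x.2), ?_⟩
        rw [lonf_eq] at hx ⊢
        simp only [mul_inv_rev]
        rw [hx]
        group
  have hp2 := hp.map hhom
  refine ⟨wmap g W, hp2, ?_, ?_, ?_⟩
  · rw [wmap_wmap]
    exact hd
  · obtain ⟨i0, hi0⟩ := hx0
    refine ⟨i0, ?_⟩
    have h2 : (Kind.cup (g x0), i0) ∈ wmap g W := List.mem_map.2 ⟨(Kind.cup x0, i0), hi0, rfl⟩
    have h3 : g x0 = true := by
      rw [hg]
      simp only [decide_eq_true_eq]
      exact ⟨(1, true), by rw [lonf_eq]; simp [sgb]⟩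
    rw [h3] at h2
    exact h2
  · refine ⟨i, ?_⟩
    have h2 : (Kind.cup (g c), i) ∈ wmap g W := List.mem_map.2 ⟨(Kind.cup c, i), hc, rfl⟩
    have h3 : g c = false := by
      rw [hg]
      simp only [decide_eq_false_iff_not]
      exact hcon
    rw [h3] at h2
    exact h2

/-- The lift of the labels. -/
theorem lon_lift {L : Link} (h1 : ¬ AtLeastTwoComponents L) (h2 : LonTriv L) {es : List HE}
    (hn : Nice ∅ es) (h0 : fin ∅ es = ∅) (hd : IsDiag (run1 ∅ es) L) {Γ : Type} [Group Γ]
    {gx gy : P3 → Γ} (h : PiRel (Kc es) gx gy) :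
    ∃ (x0 : Γ) (F : ℕ → Site → Γ × Bool), Lft x0 es gx F := by
  classical
  set W := runL (fun j => lab (Gt gx j)) 0 ∅ es with hW
  have hpath : Path (conj Γ) W [] [] := by
    have h3 := path_conj h hn h0 (le_refl es.length)
    rw [List.take_length] at h3
    have h4 : Pt es es.length = ∅ := by
      unfold Pt
      rw [List.take_length]
      exact h0
    rw [h4] at h3
    have h5 : lst (lab (Gt gx es.length)) (∅ : Finset Site) = [] := by
      unfold lst
      rw [Finset.sort_empty]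
      rfl
    rw [h5] at h3
    exact h3
  have hdiag : IsDiag (wmap (fun _ => ()) W) L := by
    rw [hW, erase_runL]
    exact hd
  obtain ⟨x0, hx0⟩ : ∃ x0 : Γ, ∀ c i, (Kind.cup c, i) ∈ W → ∃ x : Γ × Bool, c = lonf x0 x := by
    by_cases hex : ∃ x0, HasLabel x0 W
    · obtain ⟨x0, hx0⟩ := hex
      exact ⟨x0, lon_conjugate h1 hpath hdiag hx0⟩
    · exact ⟨1, fun c i hc => absurd ⟨c, i, hc⟩ hex⟩
  obtain ⟨W', hW1, hW2⟩ := h2 Γ _ x0 W hpath hdiag hx0
  have hl : lst (fun _ => ((1 : Γ), true)) (∅ : Finset Site) = [] := by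
    unfold lst
    rw [Finset.sort_empty]
    rfl
  obtain ⟨F, _, hF1, hF2⟩ := lonC_lifts (isHom_lonf x0) es (fun j => lab (Gt gx j)) ∅
    (fun _ => ((1 : Γ), true)) W' [] (by
      intro i e he
      show Path (conj Γ) (wd (lab (Gt gx (i + 1))) (Pt es i) e) (lst (lab (Gt gx i)) (Pt es i))
        (lst (lab (Gt gx (i + 1))) (Pt es (i + 1)))
      rw [coarse_Pt_succ he]
      refine wd_path_conj (gt_step h he) (fun s hs => gt_lab h h0 hs)
        (fun s hs => gt_lab h h0 (by rw [coarse_Pt_succ he]; exact hs)) ?_ ?_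
      · rintro a k rfl
        exact hn.ex i a k he
      · obtain ⟨Z0, hZ⟩ := h.front
        refine ⟨Z0 + 1, fun x z hz => ⟨?_, ?_⟩⟩
        · exact (hZ _ (by show Z0 ≤ z - 1; omega)).1
        · exact (hZ _ (by show Z0 ≤ z - 1; omega)).1)
    (fun j a k he => hn.ex j a k he) (by simp) hW1 (by rw [hl]; exact hW2)
  refine ⟨x0, F, hF1, ?_⟩
  intro j s hs
  by_cases hj : j ≤ es.length
  · exact hF2 j hj s hs
  · rw [lam_fin_len h0 (by omega)] at hs
    exact absurd hs (Finset.notMem_empty _)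

/-- A knot with trivial longitude can be represented by a curve in the lattice such that the second
curve bounds an embedded disc: there is an embedded sphere which passes exactly once over the
attached face. -/
theorem exists_good_lon {L : Link} (h1 : ¬ AtLeastTwoComponents L) (h2 : LonTriv L)
    (h3 : L ≠ emptyLink) :
    ∃ (m : ℕ) (_ : NeZero m) (c : Curve m) (A : Slots (EK c.K) m), GoodCurve c ∧ SlotsAt c A ∧
      (∀ N : ℕ, 2 ≤ N → IsLink (fineK N c.K) L) ∧ GoodSphere A.attach Slots.h0 := by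
  obtain ⟨⟨w, hw⟩, hwL⟩ := Quotient.exists_rep L
  have hne : w ≠ [] := by
    rintro rfl
    exact h3 hwL.symm
  have hdw : IsDiag w L := ⟨hw, hwL.symm⟩
  obtain ⟨w', hw0, heqv, W, hW, hWp, hwri⟩ := exists_kinks hw hne
  have hd' : IsDiag w' L := isDiag_of_eqv heqv hdw
  have hp' : Path (triv Unit) w' [] [] := heqv.left.2
  obtain ⟨hrun, hfin⟩ := run_ke hp'
  have hnice := nice_ke hp'
  have hrow : row ([] : List Unit).length = ∅ := rfl
  rw [hrow] at hrun hfin hnice
  have h0' : ([] : List Unit).length = 0 := rfl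
  rw [h0'] at hrun hfin hnice
  set es := ke w' 0 with hes
  have h0 : fin ∅ es = ∅ := hfin
  have hd : IsDiag (run1 ∅ es) L := by rw [hrun]; exact hd'
  have hesne : es ≠ [] := by
    intro h
    rw [h] at hrun
    exact hw0 hrun.symm
  have hKne : (Kc es).Nonempty := by
    cases hes' : es with
    | nil => exact absurd hes' hesne
    | cons e l =>
      refine ⟨toLE (2 * ((0 : ℕ) : ℤ), e), ?_⟩
      rw [coarse_mem_hor]
      exact ⟨0, rfl, rfl⟩
  obtain ⟨m, inst, c, hm3, hcK⟩ := exists_curve (valid_Kc h0) hKne (conn_Kc h1 h0 hd)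
  have hgood : GoodCurve c := goodCurve_Kc hnice h0 hm3 hcK
  obtain ⟨A, hA⟩ := exists_slots hgood
  refine ⟨m, inst, c, A, hgood, hA, ?_, ?_⟩
  · intro N hN
    rw [hcK]
    exact isLink_fine hnice h0 hN hd
  · obtain ⟨Γ, instΓ, gx, gy, hrel, hnull⟩ := exists_piRel (K := c.K) (by
      rw [hcK]; exact oneH_Kc es)
    have hrel' : PiRel (Kc es) gx gy := by rw [← hcK]; exact hrel
    have hε := orRule_eps hm3 h0 hcK
    obtain ⟨x0, F, hF⟩ := lon_lift h1 h2 hnice h0 hd hrel'
    have hEn : En es c.eps = 0 := by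
      have e1 : En es c.eps = wri (runL (fl c.eps) 0 ∅ es) [] := en_ke hp' hε
      have e2 : wmap (fun _ => ()) (runL (fl c.eps) 0 ∅ es) = wmap (fun _ => ()) W := by
        rw [erase_runL, hrun, hW]
      have e3 := wri_unique h1 (path_flip h0 hε) hWp e2 (by
        rw [erase_runL]; exact hd)
      rw [e1, e3, hwri]
    have hprod := prod_lel_one h1 hd hF hnice hrel' h0 hm3 hcK hEn
    obtain ⟨u, hact, hsh, hev⟩ := A.exists_walk
    have hev1 := hev Γ instΓ (fun x => lel gx gy x.1.1 (d1 x.1))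
    simp only [hA.v0, hA.dir0] at hev1
    have hmap : ∀ (f : ZMod m → Γ) (l : List ℕ),
        (List.map f (l >>= fun a => pure ((a : ℕ) : ZMod m))) = l.map fun j : ℕ => f (j : ZMod m) := by
      intro f l
      induction l with
      | nil => rfl
      | cons a l ih =>
        show List.map f (((a : ℕ) : ZMod m) :: (l >>= fun a => pure ((a : ℕ) : ZMod m))) = _
        rw [List.map_cons, ih, List.map_cons]
    rw [hmap, hprod] at hev1
    obtain ⟨S, N, hN⟩ := hnull (A.σ 0 0 0) u hact hev1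
    obtain ⟨S', hS'⟩ := A.null_inl hN
    refine good_of_null A.attach Slots.h0 A.isSub_inl A.faceSize_h hsh hS' ?_
    rintro (x | q)
    · exact ⟨4, A.faceSize_inl (EK_faceSize c.K x)⟩
    · exact ⟨m, main1_face A q⟩

/-- **Dehn's lemma for knots, in terms of the longitude.** A knot with trivial longitude in all groups is
the unknot. -/
theorem unknot_of_lonTriv {L : Link} (h1 : ¬ AtLeastTwoComponents L) (h2 : LonTriv L)
    (h3 : L ≠ emptyLink) : L = unknot := by
  obtain ⟨m, _, c, A, hc, hA, hL, hG⟩ := exists_good_lon h1 h2 h3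
  obtain ⟨N, hN, hv, hu⟩ := unknot_of_good hc hA hG
  exact isLink_unique hv (hL N hN) hu

end Pool.Agent.Lib.MP_decac5_gt
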