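import Pool.Agent.Lib.MP_decac5_gt.Base2

/-!
# The transport of the labellings along the moves is natural
-/

set_option autoImplicit false

namespace Pool.Agent.Lib.MP_decac5_gt

open Pool.Agent.Lib.MP_131179_gt

variable {C D : Type} {P : Palette C}

/-! ### The labels are determined by the labels at the ends -/

theorem Tr_step {k k' : Kind C} {i : ℕ} {s t : List C} (h : Step P k i s t)
    (h' : Step P k' i s t) (hk : k.map (fun _ => ()) = k'.map (fun _ => ())) : k = k' := by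
  cases k with
  | cup c =>
    cases k' with
    | cup c' =>
      rw [← Nat.zero_add i] at h h'
      obtain ⟨l1, s1, t1, hl1, hs1, ht1, h1⟩ := step_add_iff.1 h
      obtain ⟨l2, s2, t2, hl2, hs2, ht2, h2⟩ := step_add_iff.1 h'
      have e1 := (List.append_inj (ht1.symm.trans ht2) (hl1.trans hl2.symm)).2
      rw [step_cup] at h1 h2
      rw [h1, h2, List.cons.injEq] at e1
      rw [e1.1]
    | cap => simp at hk
    | pos => simp at hk
    | neg => simp at hk
  | cap =>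
    cases k' with
    | cup c' => simp at hk
    | cap => rfl
    | pos => simp at hk
    | neg => simp at hk
  | pos =>
    cases k' with
    | cup c' => simp at hk
    | cap => simp at hk
    | pos => rfl
    | neg => simp at hk
  | neg =>
    cases k' with
    | cup c' => simp at hk
    | cap => simp at hk
    | pos => simp at hk
    | neg => rfl

theorem Tr_head {c : C} {l : Kind C} {g : ℕ} {s t : List C}
    (h : Path P [(.cup c, 0), (l, 2 + g)] s t) : ∃ t', t = c :: t' := by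
  obtain ⟨t1, h1, h2⟩ := path_cons_iff.1 h
  rw [step_cup] at h1
  subst h1
  rw [path_single_iff, Nat.add_comm] at h2
  obtain ⟨a, s', t', h3, rfl, -⟩ := step_succ_iff.1 h2
  rw [List.cons.injEq] at h3
  exact ⟨t', by rw [h3.1]⟩

theorem Tr_far {k l k' l' : Kind C} {g : ℕ} {s t : List C}
    (h : Path P [(k, 0), (l, k.out + g)] s t) (h' : Path P [(k', 0), (l', k'.out + g)] s t)
    (hk : k.map (fun _ => ()) = k'.map (fun _ => ()))
    (hl : l.map (fun _ => ()) = l'.map (fun _ => ())) : k = k' ∧ l = l' := by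
  have e1 : k = k' := by
    cases k with
    | cup c =>
      cases k' with
      | cup c' =>
        obtain ⟨t1, h1⟩ := Tr_head h
        obtain ⟨t2, h2⟩ := Tr_head h'
        rw [h1, List.cons.injEq] at h2
        rw [h2.1]
      | cap => simp at hk
      | pos => simp at hk
      | neg => simp at hk
    | cap =>
      cases k' with
      | cup c' => simp at hk
      | cap => rfl
      | pos => simp at hk
      | neg => simp at hk
    | pos =>
      cases k' with
      | cup c' => simp at hk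
      | cap => simp at hk
      | pos => rfl
      | neg => simp at hk
    | neg =>
      cases k' with
      | cup c' => simp at hk
      | cap => simp at hk
      | pos => simp at hk
      | neg => rfl
  subst e1
  refine ⟨rfl, ?_⟩
  obtain ⟨t1, h1, h2⟩ := path_cons_iff.1 h
  obtain ⟨t2, h3, h4⟩ := path_cons_iff.1 h'
  cases h1.det h3
  exact Tr_step (path_single_iff.1 h2) (path_single_iff.1 h4) hl

theorem Tr_nocup {u : Word Unit} (hu : ∀ i, (Kind.cup (), i) ∉ u) {W W' : Word C}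
    (hW : erase W = u) (hW' : erase W' = u) : W = W' := by
  induction u generalizing W W' with
  | nil => rw [wmap_eq_nil.1 hW, wmap_eq_nil.1 hW']
  | cons l u ih =>
    obtain ⟨k, i⟩ := l
    obtain ⟨k1, W1, rfl, hk1, hW1⟩ := wmap_eq_cons hW
    obtain ⟨k2, W2, rfl, hk2, hW2⟩ := wmap_eq_cons hW'
    have e1 := ih (fun j hj => hu j (List.mem_cons_of_mem _ hj)) hW1 hW2
    subst e1
    cases k with
    | cup c => exact absurd List.mem_cons_self (hu i)
    | cap => rw [Kind.map_eq_cap hk1, Kind.map_eq_cap hk2]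
    | pos => rw [Kind.map_eq_pos hk1, Kind.map_eq_pos hk2]
    | neg => rw [Kind.map_eq_neg hk1, Kind.map_eq_neg hk2]

/-- The two words are `[(k₁, i), (l₁, j)]` and `[(k₂, i), (l₂, j)]`. -/
theorem Tr_two {k l : Kind Unit} {i j : ℕ} {W : Word C} (hW : erase W = [(k, i), (l, j)]) :
    ∃ k' l' : Kind C, W = [(k', i), (l', j)] ∧ k'.map (fun _ => ()) = k ∧
      l'.map (fun _ => ()) = l := by
  obtain ⟨k1, W1, rfl, hk1, hW1⟩ := wmap_eq_cons hW
  obtain ⟨l1, W2, rfl, hl1, hW2⟩ := wmap_eq_cons hW1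
  obtain rfl := wmap_eq_nil.1 hW2
  exact ⟨k1, l1, rfl, hk1, hl1⟩

theorem Tr_bar {a b : C} (h : P.bar a = P.bar b) : a = b := by
  rw [← P.bar_bar a, h, P.bar_bar]

theorem Tr_uniq_left {u v : Word Unit} (hb : Base u v) {W W' : Word C} {s t : List C}
    (h : Path P W s t) (h' : Path P W' s t) (hW : erase W = u) (hW' : erase W' = u) :
    W = W' := by
  cases hb with
  | far k l g =>
    obtain ⟨k1, l1, rfl, hk1, hl1⟩ := Tr_two hW
    obtain ⟨k2, l2, rfl, hk2, hl2⟩ := Tr_two hW'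
    have e1 : k.out = k1.out := by rw [← hk1, Kind.out_map]
    have e2 : k.out = k2.out := by rw [← hk2, Kind.out_map]
    have h1 : Path P [(k1, 0), (l1, k1.out + g)] s t := by
      rw [← e1]
      exact h
    have h2 : Path P [(k2, 0), (l2, k2.out + g)] s t := by
      rw [← e2]
      exact h'
    obtain ⟨rfl, rfl⟩ := Tr_far h1 h2 (hk1.trans hk2.symm) (hl1.trans hl2.symm)
    rfl
  | zig c =>
    obtain ⟨k1, l1, rfl, hk1, hl1⟩ := Tr_two hW
    obtain ⟨k2, l2, rfl, hk2, hl2⟩ := Tr_two hW'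
    obtain ⟨c1, rfl, -⟩ := Kind.map_eq_cup hk1
    obtain ⟨c2, rfl, -⟩ := Kind.map_eq_cup hk2
    obtain rfl := Kind.map_eq_cap hl1
    obtain rfl := Kind.map_eq_cap hl2
    obtain ⟨-, r1, h1⟩ := path_zig.1 h
    obtain ⟨-, r2, h2⟩ := path_zig.1 h'
    rw [h1, List.cons.injEq] at h2
    rw [Tr_bar h2.1]
  | zag c =>
    obtain ⟨k1, l1, rfl, hk1, hl1⟩ := Tr_two hW
    obtain ⟨k2, l2, rfl, hk2, hl2⟩ := Tr_two hW'
    obtain ⟨c1, rfl, -⟩ := Kind.map_eq_cup hk1
    obtain ⟨c2, rfl, -⟩ := Kind.map_eq_cup hk2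
    obtain rfl := Kind.map_eq_cap hl1
    obtain rfl := Kind.map_eq_cap hl2
    obtain ⟨-, r1, h1⟩ := path_zag.1 h
    obtain ⟨-, r2, h2⟩ := path_zag.1 h'
    rw [h1, List.cons.injEq] at h2
    rw [h2.1]
  | cupOver c d =>
    obtain ⟨k1, l1, rfl, hk1, hl1⟩ := Tr_two hW
    obtain ⟨k2, l2, rfl, hk2, hl2⟩ := Tr_two hW'
    obtain ⟨c1, rfl, -⟩ := Kind.map_eq_cup hk1
    obtain ⟨c2, rfl, -⟩ := Kind.map_eq_cup hk2
    obtain rfl := Kind.map_eq_pos hl1
    obtain rfl := Kind.map_eq_pos hl2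
    obtain ⟨x1, r1, -, h1⟩ := path_cup_pos.1 h
    obtain ⟨x2, r2, -, h2⟩ := path_cup_pos.1 h'
    rw [h1, List.cons.injEq, List.cons.injEq, List.cons.injEq] at h2
    rw [Tr_bar h2.2.2.1]
  | cupUnder c d =>
    obtain ⟨k1, l1, rfl, hk1, hl1⟩ := Tr_two hW
    obtain ⟨k2, l2, rfl, hk2, hl2⟩ := Tr_two hW'
    obtain ⟨c1, rfl, -⟩ := Kind.map_eq_cup hk1
    obtain ⟨c2, rfl, -⟩ := Kind.map_eq_cup hk2
    obtain rfl := Kind.map_eq_neg hl1
    obtain rfl := Kind.map_eq_neg hl2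
    obtain ⟨x1, r1, -, h1⟩ := path_cup_neg.1 h
    obtain ⟨x2, r2, -, h2⟩ := path_cup_neg.1 h'
    rw [h1, List.cons.injEq] at h2
    rw [h2.1]
  | capOver => exact Tr_nocup (by simp) hW hW'
  | capUnder => exact Tr_nocup (by simp) hW hW'
  | r1CupPos c d =>
    obtain ⟨k1, l1, rfl, hk1, hl1⟩ := Tr_two hW
    obtain ⟨k2, l2, rfl, hk2, hl2⟩ := Tr_two hW'
    obtain ⟨c1, rfl, -⟩ := Kind.map_eq_cup hk1
    obtain ⟨c2, rfl, -⟩ := Kind.map_eq_cup hk2
    obtain rfl := Kind.map_eq_pos hl1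
    obtain rfl := Kind.map_eq_pos hl2
    have h1 := path_r1CupPos.1 h
    have h2 := path_r1CupPos.1 h'
    rw [h1, List.cons.injEq] at h2
    rw [Tr_bar h2.1]
  | r1CupNeg c d =>
    obtain ⟨k1, l1, rfl, hk1, hl1⟩ := Tr_two hW
    obtain ⟨k2, l2, rfl, hk2, hl2⟩ := Tr_two hW'
    obtain ⟨c1, rfl, -⟩ := Kind.map_eq_cup hk1
    obtain ⟨c2, rfl, -⟩ := Kind.map_eq_cup hk2
    obtain rfl := Kind.map_eq_neg hl1
    obtain rfl := Kind.map_eq_neg hl2
    have h1 := path_r1CupNeg.1 h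
    have h2 := path_r1CupNeg.1 h'
    rw [h1, List.cons.injEq] at h2
    rw [Tr_bar h2.1]
  | r1CapPos => exact Tr_nocup (by simp) hW hW'
  | r1CapNeg => exact Tr_nocup (by simp) hW hW'
  | r2PosNeg => exact Tr_nocup (by simp) hW hW'
  | r2NegPos => exact Tr_nocup (by simp) hW hW'
  | r3 => exact Tr_nocup (by simp) hW hW'

theorem Tr_uniq_one {c : Unit} {W W' : Word C} {s t : List C}
    (h : Path P W s t) (h' : Path P W' s t) (hW : erase W = [(.cup c, 0)])
    (hW' : erase W' = [(.cup c, 0)]) : W = W' := by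
  obtain ⟨k1, W1, rfl, hk1, hW1⟩ := wmap_eq_cons hW
  obtain ⟨k2, W2, rfl, hk2, hW2⟩ := wmap_eq_cons hW'
  obtain rfl := wmap_eq_nil.1 hW1
  obtain rfl := wmap_eq_nil.1 hW2
  rw [Tr_step (path_single_iff.1 h) (path_single_iff.1 h') (hk1.trans hk2.symm)]

theorem Tr_uniq_right {u v : Word Unit} (hb : Base u v) {W W' : Word C} {s t : List C}
    (h : Path P W s t) (h' : Path P W' s t) (hW : erase W = v) (hW' : erase W' = v) :
    W = W' := by
  cases hb with
  | far k l g =>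
    obtain ⟨l1, k1, rfl, hl1, hk1⟩ := Tr_two hW
    obtain ⟨l2, k2, rfl, hl2, hk2⟩ := Tr_two hW'
    have e1 : k.inn = k1.inn := by rw [← hk1, Kind.inn_map]
    have e2 : k.inn = k2.inn := by rw [← hk2, Kind.inn_map]
    have h1 : Path P [(l1, k1.inn + g), (k1, 0)] s t := by
      rw [← e1]
      exact h
    have h2 : Path P [(l2, k2.inn + g), (k2, 0)] s t := by
      rw [← e2]
      exact h'
    obtain ⟨rfl, rfl⟩ := Tr_far (far_path_iff.2 h1) (far_path_iff.2 h2) (hk1.trans hk2.symm)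
      (hl1.trans hl2.symm)
    rfl
  | zig c => exact Tr_nocup (by simp) hW hW'
  | zag c => exact Tr_nocup (by simp) hW hW'
  | cupOver c d =>
    obtain ⟨k1, l1, rfl, hk1, hl1⟩ := Tr_two hW
    obtain ⟨k2, l2, rfl, hk2, hl2⟩ := Tr_two hW'
    obtain ⟨c1, rfl, -⟩ := Kind.map_eq_cup hk1
    obtain ⟨c2, rfl, -⟩ := Kind.map_eq_cup hk2
    obtain rfl := Kind.map_eq_neg hl1
    obtain rfl := Kind.map_eq_neg hl2
    obtain ⟨x1, r1, -, h1⟩ := path_cup_neg'.1 h
    obtain ⟨x2, r2, -, h2⟩ := path_cup_neg'.1 h'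
    rw [h1, List.cons.injEq] at h2
    rw [h2.1]
  | cupUnder c d =>
    obtain ⟨k1, l1, rfl, hk1, hl1⟩ := Tr_two hW
    obtain ⟨k2, l2, rfl, hk2, hl2⟩ := Tr_two hW'
    obtain ⟨c1, rfl, -⟩ := Kind.map_eq_cup hk1
    obtain ⟨c2, rfl, -⟩ := Kind.map_eq_cup hk2
    obtain rfl := Kind.map_eq_pos hl1
    obtain rfl := Kind.map_eq_pos hl2
    obtain ⟨x1, r1, -, h1⟩ := path_cup_pos'.1 h
    obtain ⟨x2, r2, -, h2⟩ := path_cup_pos'.1 h'
    rw [h1, List.cons.injEq] at h2
    rw [h2.1]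
  | capOver => exact Tr_nocup (by simp) hW hW'
  | capUnder => exact Tr_nocup (by simp) hW hW'
  | r1CupPos c d => exact Tr_uniq_one h h' hW hW'
  | r1CupNeg c d => exact Tr_uniq_one h h' hW hW'
  | r1CapPos => exact Tr_nocup (by simp) hW hW'
  | r1CapNeg => exact Tr_nocup (by simp) hW hW'
  | r2PosNeg => exact Tr_nocup (by simp) hW hW'
  | r2NegPos => exact Tr_nocup (by simp) hW hW'
  | r3 => exact Tr_nocup (by simp) hW hW'

theorem Tr_uniq_shift {i : ℕ} {v : Word Unit}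
    (U : ∀ (W W' : Word C) (s t : List C), Path P W s t → Path P W' s t → erase W = v →
      erase W' = v → W = W') {W W' : Word C} {s t : List C} (h : Path P (shift i W) s t)
    (h' : Path P (shift i W') s t) (hW : erase W = v) (hW' : erase W' = v) : W = W' := by
  by_cases h0 : W = []
  · subst h0
    have h1 : erase W' = [] := hW'.trans hW.symm
    rw [wmap_eq_nil.1 h1]
  · have h0' : W' ≠ [] := by
      rintro rfl
      exact h0 (wmap_eq_nil.1 (hW.trans hW'.symm))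
    obtain ⟨l1, s1, t1, hl1, hs1, ht1, h1⟩ := (path_shift_iff h0).1 h
    obtain ⟨l2, s2, t2, hl2, hs2, ht2, h2⟩ := (path_shift_iff h0').1 h'
    have e1 := (List.append_inj (hs1.symm.trans hs2) (hl1.trans hl2.symm)).2
    have e2 := (List.append_inj (ht1.symm.trans ht2) (hl1.trans hl2.symm)).2
    subst e1 e2
    exact U _ _ _ _ h1 h2 hW hW'

theorem Tr_shift_inj {i : ℕ} {W W' : Word C} (h : shift i W = shift i W') : W = W' := by
  have h1 : Function.Injective fun l : Kind C × ℕ => (l.1, l.2 + i) := by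
    rintro ⟨k, a⟩ ⟨l, b⟩ h
    rw [Prod.mk.injEq] at h
    obtain ⟨h2, h3⟩ := h
    have h4 : a = b := Nat.add_right_cancel h3
    subst h4
    have h5 : k = l := h2
    rw [h5]
  exact List.map_injective_iff.2 h1 h

/-! ### One move -/

theorem Tr_lift_left {u v : Word Unit} {i : ℕ} {m n : List Unit} (hb : Base u v)
    (hu : Path (triv Unit) (shift i u) m n) (hv : Path (triv Unit) (shift i v) m n)
    {W : Word C} {s t : List C} (hs : s.map (fun _ => ()) = m) (hW : erase W = shift i u)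
    (h : Path P W s t) : ∃ W0 W0' : Word C, W = shift i W0 ∧ Base W0 W0' ∧
      Path P (shift i W0') s t ∧ erase W0 = u ∧ erase W0' = v := by
  have hne : u ≠ [] := by cases hb <;> simp
  obtain ⟨l, s1, t1, hl, h1, -, -⟩ := (path_shift_iff hne).1 hu
  subst h1
  obtain ⟨t1, rfl, hu1⟩ := (path_shift_append_iff' hl).1 hu
  obtain ⟨t2, h3, hv1⟩ := (path_shift_append_iff' hl).1 hv
  obtain rfl := List.append_cancel_left h3
  obtain ⟨W0, rfl, hW0⟩ := wmap_eq_shift hW
  obtain ⟨l', s1', rfl, hl', hs1⟩ := map_length_split hs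
  have hll : l'.length = i := by rw [← hl, ← hl', List.length_map]
  obtain ⟨t1', rfl, h4⟩ := (path_shift_append_iff' hll).1 h
  have ht1 : t1'.map (fun _ => ()) = t1 := by
    have h5 := h4.map (isHom_unit P)
    rw [hW0, hs1] at h5
    exact h5.det hu1
  obtain ⟨W0', hW0', hb', hp⟩ := hb.lift_left hv1 hW0 hs1 ht1 h4
  exact ⟨W0, W0', rfl, hb', (path_shift_append_iff' hll).2 ⟨_, rfl, hp⟩, hW0, hW0'⟩

theorem Tr_lift_right {u v : Word Unit} {i : ℕ} {m n : List Unit} (hb : Base u v)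
    (hu : Path (triv Unit) (shift i u) m n) (hv : Path (triv Unit) (shift i v) m n)
    {W' : Word C} {s t : List C} (hs : s.map (fun _ => ()) = m) (hW : erase W' = shift i v)
    (h : Path P W' s t) : ∃ W0 W0' : Word C, W' = shift i W0' ∧ Base W0 W0' ∧
      Path P (shift i W0) s t ∧ erase W0 = u ∧ erase W0' = v := by
  have hne : u ≠ [] := by cases hb <;> simp
  obtain ⟨l, s1, t1, hl, h1, -, -⟩ := (path_shift_iff hne).1 hu
  subst h1
  obtain ⟨t1, rfl, hu1⟩ := (path_shift_append_iff' hl).1 hu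
  obtain ⟨t2, h3, hv1⟩ := (path_shift_append_iff' hl).1 hv
  obtain rfl := List.append_cancel_left h3
  obtain ⟨W0', rfl, hW0'⟩ := wmap_eq_shift hW
  obtain ⟨l', s1', rfl, hl', hs1⟩ := map_length_split hs
  have hll : l'.length = i := by rw [← hl, ← hl', List.length_map]
  obtain ⟨t1', rfl, h4⟩ := (path_shift_append_iff' hll).1 h
  have ht1 : t1'.map (fun _ => ()) = t1 := by
    have h5 := h4.map (isHom_unit P)
    rw [hW0', hs1] at h5
    exact h5.det hv1
  obtain ⟨W0, hW0, hb', hp⟩ := hb.lift_right (isHom_unit P) hu1 hW0' hs1 ht1 h4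
  exact ⟨W0, W0', rfl, hb', (path_shift_append_iff' hll).2 ⟨_, rfl, hp⟩, hW0, hW0'⟩

/-- The correspondence of a move. -/
def Tr_F (i : ℕ) (u v : Word Unit) (C : Type) (P : Palette C) (s : List C) (W W' : Word C) :
    Prop :=
  ∃ (W0 W0' : Word C) (t : List C), W = shift i W0 ∧ W' = shift i W0' ∧ Base W0 W0' ∧
    Path P (shift i W0) s t ∧ Path P (shift i W0') s t ∧ erase W0 = u ∧ erase W0' = v

theorem Tr_move {u v : Word Unit} {i : ℕ} {m n : List Unit} (hb : Base u v)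
    (hu : Path (triv Unit) (shift i u) m n) (hv : Path (triv Unit) (shift i v) m n) :
    Tr (shift i u) (shift i v) m (Tr_F i u v) where
  fwd := by
    intro C P s t W hs h hW
    obtain ⟨W0, W0', rfl, h1, h2, h3, h4⟩ := Tr_lift_left hb hu hv hs hW h
    exact ⟨_, W0, W0', t, rfl, rfl, h1, h, h2, h3, h4⟩
  bwd := by
    intro C P s t W' hs h hW
    obtain ⟨W0, W0', rfl, h1, h2, h3, h4⟩ := Tr_lift_right hb hu hv hs hW h
    exact ⟨_, W0, W0', t, rfl, rfl, h1, h2, h, h3, h4⟩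
  eqv := by
    rintro C P s W W' ⟨W0, W0', t, rfl, rfl, h1, h2, h3, -, -⟩
    exact ⟨t, Eqv.move i h1 h2 h3⟩
  left := by
    rintro C P s W W' ⟨W0, W0', t, rfl, rfl, -, -, -, h4, -⟩
    show wmap _ (shift i W0) = _
    rw [wmap_shift]
    exact congrArg (shift i) h4
  right := by
    rintro C P s W W' ⟨W0, W0', t, rfl, rfl, -, -, -, -, h5⟩
    show wmap _ (shift i W0') = _
    rw [wmap_shift]
    exact congrArg (shift i) h5
  uniq := by
    rintro C P s W W₁ W₂ ⟨A, A', t, rfl, rfl, -, h2, h3, -, h5⟩ ⟨B, B', t', hB, rfl, -, g2, g3, -, g5⟩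
    obtain rfl := Tr_shift_inj hB
    cases h2.det g2
    rw [Tr_uniq_shift (fun _ _ _ _ a b c d => Tr_uniq_right hb a b c d) h3 g3 h5 g5]
  uniq' := by
    rintro C P s W' W₁ W₂ ⟨A, A', t, rfl, rfl, -, h2, h3, h4, -⟩ ⟨B, B', t', rfl, hB, -, g2, g3, g4, -⟩
    obtain rfl := Tr_shift_inj hB
    cases h3.det g3
    rw [Tr_uniq_shift (fun _ _ _ _ a b c d => Tr_uniq_left hb a b c d) h2 g2 h4 g4]
  nat := by
    rintro C D P Q f s W W' hf ⟨W0, W0', t, rfl, rfl, h1, h2, h3, h4, h5⟩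
    refine ⟨wmap f W0, wmap f W0', t.map f, wmap_shift _ _ _, wmap_shift _ _ _, h1.map f, ?_, ?_,
      ?_, ?_⟩
    · rw [← wmap_shift]
      exact h2.map hf
    · rw [← wmap_shift]
      exact h3.map hf
    · rw [erase_wmap]
      exact h4
    · rw [erase_wmap]
      exact h5

theorem Tr_refl {w : Word Unit} {m n : List Unit} (_h : Path (triv Unit) w m n) :
    Tr w w m (fun _ P s W W' => W' = W ∧ erase W = w ∧ ∃ t, Path P W s t) where
  fwd := fun _ h hW => ⟨_, rfl, hW, _, h⟩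
  bwd := fun _ h hW => ⟨_, rfl, hW, _, h⟩
  eqv := by
    rintro C P s W W' ⟨rfl, -, t, h⟩
    exact ⟨t, Eqv.refl h⟩
  left := fun h => h.2.1
  right := by
    rintro C P s W W' ⟨rfl, h, -⟩
    exact h
  uniq := by
    rintro C P s W W₁ W₂ ⟨rfl, -⟩ ⟨rfl, -⟩
    rfl
  uniq' := by
    rintro C P s W W₁ W₂ ⟨rfl, -⟩ ⟨h, -⟩
    exact h
  nat := by
    rintro C D P Q f s W W' hf ⟨rfl, h, t, h2⟩
    refine ⟨rfl, ?_, t.map f, h2.map hf⟩
    rw [erase_wmap]
    exact h

theorem Tr_symm {u v : Word Unit} {m : List Unit}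
    {F : (C : Type) → Palette C → List C → Word C → Word C → Prop} (h : Tr u v m F) :
    Tr v u m (fun C P s W W' => F C P s W' W) where
  fwd := fun hs hp hW => h.bwd hs hp hW
  bwd := fun hs hp hW => h.fwd hs hp hW
  eqv := fun hF => by
    obtain ⟨t, ht⟩ := h.eqv hF
    exact ⟨t, ht.symm⟩
  left := fun hF => h.right hF
  right := fun hF => h.left hF
  uniq := fun h1 h2 => h.uniq' h1 h2
  uniq' := fun h1 h2 => h.uniq h1 h2
  nat := fun hf hF => h.nat hf hF

theorem Tr_trans {u v w : Word Unit} {m : List Unit}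
    {F G : (C : Type) → Palette C → List C → Word C → Word C → Prop} (h : Tr u v m F)
    (g : Tr v w m G) : Tr u w m (fun C P s W W' => ∃ V, F C P s W V ∧ G C P s V W') where
  fwd := by
    intro C P s t W hs hp hW
    obtain ⟨V, hV⟩ := h.fwd hs hp hW
    obtain ⟨t', ht⟩ := h.eqv hV
    obtain ⟨W', hW'⟩ := g.fwd hs ht.path_right (h.right hV)
    exact ⟨W', V, hV, hW'⟩
  bwd := by
    intro C P s t W' hs hp hW
    obtain ⟨V, hV⟩ := g.bwd hs hp hW
    obtain ⟨t', ht⟩ := g.eqv hV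
    obtain ⟨W, hW'⟩ := h.bwd hs ht.path_left (g.left hV)
    exact ⟨W, V, hW', hV⟩
  eqv := by
    rintro C P s W W' ⟨V, h1, h2⟩
    obtain ⟨t, ht⟩ := h.eqv h1
    obtain ⟨t', ht'⟩ := g.eqv h2
    cases ht.path_right.det ht'.path_left
    exact ⟨t, ht.trans ht'⟩
  left := by
    rintro C P s W W' ⟨V, h1, -⟩
    exact h.left h1
  right := by
    rintro C P s W W' ⟨V, -, h2⟩
    exact g.right h2
  uniq := by
    rintro C P s W W₁ W₂ ⟨V, h1, h2⟩ ⟨V', g1, g2⟩
    cases h.uniq h1 g1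
    exact g.uniq h2 g2
  uniq' := by
    rintro C P s W W₁ W₂ ⟨V, h1, h2⟩ ⟨V', g1, g2⟩
    cases g.uniq' h2 g2
    exact h.uniq' h1 g1
  nat := by
    rintro C D P Q f s W W' hf ⟨V, h1, h2⟩
    exact ⟨wmap f V, h.nat hf h1, g.nat hf h2⟩

theorem Tr_len {W W' : Word C} {u : Word Unit} (h : erase W = u) (h' : erase W' = u) :
    W.length = W'.length := by
  have h1 := congrArg List.length (h.trans h'.symm)
  simpa [wmap] using h1

theorem Tr_comp {u u' v v' : Word Unit} {m n r : List Unit}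
    {F G : (C : Type) → Palette C → List C → Word C → Word C → Prop} (h : Tr u u' m F)
    (g : Tr v v' n G) (e : Eqv (triv Unit) u u' m n) (_e' : Eqv (triv Unit) v v' n r) :
    Tr (u ++ v) (u' ++ v') m (fun C P s W W' => ∃ (A B A' B' : Word C) (t : List C),
      W = A ++ B ∧ W' = A' ++ B' ∧ Path P A s t ∧ F C P s A A' ∧ G C P t B B') where
  fwd := by
    intro C P s t W hs hp hW
    obtain ⟨A, B, rfl, hA, hB⟩ := wmap_eq_append hW
    obtain ⟨t', h3, h4⟩ := path_append_iff.1 hp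
    have ht : t'.map (fun _ => ()) = n := by
      have h5 := h3.map (isHom_unit P)
      rw [hA, hs] at h5
      exact h5.det e.path_left
    obtain ⟨A', hA'⟩ := h.fwd hs h3 hA
    obtain ⟨B', hB'⟩ := g.fwd ht h4 hB
    exact ⟨A' ++ B', A, B, A', B', t', rfl, rfl, h3, hA', hB'⟩
  bwd := by
    intro C P s t W' hs hp hW
    obtain ⟨A', B', rfl, hA, hB⟩ := wmap_eq_append hW
    obtain ⟨t', h3, h4⟩ := path_append_iff.1 hp
    have ht : t'.map (fun _ => ()) = n := by
      have h5 := h3.map (isHom_unit P)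
      rw [hA, hs] at h5
      exact h5.det e.path_right
    obtain ⟨A, hA'⟩ := h.bwd hs h3 hA
    obtain ⟨B, hB'⟩ := g.bwd ht h4 hB
    obtain ⟨t'', ht''⟩ := h.eqv hA'
    cases ht''.path_right.det h3
    exact ⟨A ++ B, A, B, A', B', _, rfl, rfl, ht''.path_left, hA', hB'⟩
  eqv := by
    rintro C P s W W' ⟨A, B, A', B', t, rfl, rfl, h1, h2, h3⟩
    obtain ⟨t', ht'⟩ := h.eqv h2
    cases ht'.path_left.det h1
    obtain ⟨r', hr'⟩ := g.eqv h3
    exact ⟨r', Eqv.comp ht' hr'⟩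
  left := by
    rintro C P s W W' ⟨A, B, A', B', t, rfl, rfl, h1, h2, h3⟩
    show wmap _ (A ++ B) = _
    rw [wmap_append]
    exact congrArg₂ (· ++ ·) (h.left h2) (g.left h3)
  right := by
    rintro C P s W W' ⟨A, B, A', B', t, rfl, rfl, h1, h2, h3⟩
    show wmap _ (A' ++ B') = _
    rw [wmap_append]
    exact congrArg₂ (· ++ ·) (h.right h2) (g.right h3)
  uniq := by
    rintro C P s W W₁ W₂ ⟨A, B, A', B', t, rfl, rfl, h1, h2, h3⟩
      ⟨X, Y, X', Y', r, hX, rfl, g1, g2, g3⟩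
    obtain ⟨rfl, rfl⟩ := List.append_inj hX (Tr_len (h.left h2) (h.left g2))
    cases h1.det g1
    rw [h.uniq h2 g2, g.uniq h3 g3]
  uniq' := by
    rintro C P s W W₁ W₂ ⟨A, B, A', B', t, rfl, rfl, h1, h2, h3⟩
      ⟨X, Y, X', Y', r, rfl, hX, g1, g2, g3⟩
    obtain ⟨rfl, rfl⟩ := List.append_inj hX (Tr_len (h.right h2) (h.right g2))
    cases h.uniq' h2 g2
    cases h1.det g1
    rw [g.uniq' h3 g3]
  nat := by
    rintro C D P Q f s W W' hf ⟨A, B, A', B', t, rfl, rfl, h1, h2, h3⟩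
    exact ⟨wmap f A, wmap f B, wmap f A', wmap f B', t.map f, wmap_append _ _ _, wmap_append _ _ _,
      h1.map hf, h.nat hf h2, g.nat hf h3⟩

theorem exists_tr {u v : Word Unit} {m n : List Unit} (h : Eqv (triv Unit) u v m n) :
    ∃ F, Tr u v m F := by
  induction h with
  | refl h => exact ⟨_, Tr_refl h⟩
  | move i hb hu hv => exact ⟨_, Tr_move hb hu hv⟩
  | symm _ ih =>
    obtain ⟨F, hF⟩ := ih
    exact ⟨_, Tr_symm hF⟩
  | trans _ _ ih1 ih2 =>
    obtain ⟨F, hF⟩ := ih1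
    obtain ⟨G, hG⟩ := ih2
    exact ⟨_, Tr_trans hF hG⟩
  | comp h1 h2 ih1 ih2 =>
    obtain ⟨F, hF⟩ := ih1
    obtain ⟨G, hG⟩ := ih2
    exact ⟨_, Tr_comp hF hG h1 h2⟩

end Pool.Agent.Lib.MP_decac5_gt
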