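import Pool.Agent.Lib.MP_decac5_gt.CompB
import Pool.Agent.Lib.MP_decac5_gt.CompC
import Pool.Agent.Lib.MP_decac5_gt.Tr
import Pool.Agent.Lib.MP_decac5_gt.KConj
import Pool.Agent.Lib.MP_decac5_gt.KLon
import Pool.Agent.Lib.MP_decac5_gt.KOne
import Pool.Agent.Lib.MP_decac5_gt.Gam
import Pool.Agent.Lib.MP_decac5_gt.ColK
import Pool.Agent.Lib.MP_decac5_gt.ColInv
import Pool.Agent.Lib.MP_decac5_gt.Lon

/-!
# The knot is prime
-/

set_option autoImplicit false

namespace Pool.Agent.Lib.MP_decac5_gt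

open Pool.Agent.Lib.MP_131179_gt

theorem wmap_unit (u : Word Unit) : wmap (fun _ => ()) u = u := by
  have h : (fun _ : Unit => ()) = fun x => x := rfl
  rw [h]
  exact wmap_id' u

theorem ne_empty_of_diag {u : Word Unit} {L : Link} (h : IsDiag u L) (hu : HasLabel () u) :
    L ≠ emptyLink := by
  rintro rfl
  have h1 := (hasLabel_iff (eqv_of_isDiag h isDiag_empty) ()).1 hu
  exact not_hasLabel_nil _ h1

theorem not_split_of_one {L : Link} (h1 : ¬ AtLeastTwoComponents L) : ¬ IsSplit L := by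
  rintro ⟨u, v, hu, hv, pu, pv, hd⟩
  apply h1
  refine ⟨wmap (fun _ => true) u ++ wmap (fun _ => false) v,
    (pu.map (isHom_triv _)).append (pv.map (isHom_triv _)), ?_, ?_, ?_⟩
  · rw [wmap_append, wmap_wmap, wmap_wmap]
    show IsDiag (wmap (fun _ => ()) u ++ wmap (fun _ => ()) v) L
    rw [wmap_unit, wmap_unit]
    exact hd
  · obtain ⟨x, hx⟩ := closed_hasLabel pu hu
    exact hasLabel_append.2 (Or.inl (hx.map fun _ => true))
  · obtain ⟨x, hx⟩ := closed_hasLabel pv hv
    exact hasLabel_append.2 (Or.inr (hx.map fun _ => false))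

theorem closure_hasLabel {C : Type} {c x : C} {T : Word C} :
    HasLabel x (closure c T) ↔ x = c ∨ HasLabel x T := by
  unfold MP_131179_gt.closure
  rw [hasLabel_cons, hasLabel_append, hasLabel_cons]
  constructor
  · rintro (h | h | h | h)
    · rw [Kind.cup.injEq] at h
      exact Or.inl h.symm
    · exact Or.inr h
    · exact absurd h (by simp)
    · exact absurd h (not_hasLabel_nil _)
  · rintro (rfl | h)
    · exact Or.inl rfl
    · exact Or.inr (Or.inl h)

theorem two_of_labels {L : Link} {W : Word Bool} (hp : Path (triv Bool) W [] [])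
    (hd : IsDiag (erase W) L) (h : ∀ b, HasLabel b W) : AtLeastTwoComponents L :=
  ⟨W, hp, hd, h true, h false⟩

/-- Labelled diagrams of a factor with two components. -/
theorem exists_two_label {A : Link} (h : AtLeastTwoComponents A) {t : Word Unit}
    (ht : Path (triv Unit) t [()] [()]) (hd : IsDiag (closure () t) A) :
    ∃ (c : Bool) (T : Word Bool), erase T = t ∧ Path (triv Bool) T [c] [c] ∧
      ∀ b, b = c ∨ HasLabel b T := by
  obtain ⟨w, hw, hwd, h1, h2⟩ := h
  obtain ⟨v, hv, hE⟩ := lift_diag rfl hw hwd hd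
  have hv' : erase v = closure () (t ++ []) := by
    rw [List.append_nil]
    exact hv
  obtain ⟨c, d, T, U, rfl, h3, h4, h5, h6⟩ := closure_labelled ht (Path.nil _) hv' hE.path_right
  have hU' : U = [] := wmap_eq_nil.1 h4
  subst hU'
  obtain rfl := ends_triv h5
  refine ⟨c, T, h3, h5, fun b => ?_⟩
  have h7 : HasLabel b (closure c (T ++ [])) := by
    rw [← hasLabel_iff hE b]
    cases b
    · exact h2
    · exact h1
  rw [List.append_nil] at h7
  exact closure_hasLabel.1 h7

theorem factor_one {L A : Link} (hL : ¬ AtLeastTwoComponents L) {t u : Word Unit}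
    (ht : Path (triv Unit) t [()] [()]) (hu : Path (triv Unit) u [()] [()])
    (hd : IsDiag (closure () t) A)
    (hdL : IsDiag (closure () (t ++ u)) L ∨ IsDiag (closure () (u ++ t)) L) :
    ¬ AtLeastTwoComponents A := by
  intro h
  obtain ⟨c, T, hT, hp, hl⟩ := exists_two_label h ht hd
  apply hL
  have hu' : Path (triv Bool) (wmap (fun _ => c) u) [c] [c] := hu.map (isHom_triv _)
  have he : erase (wmap (fun _ => c) u) = u := by
    rw [erase_wmap]
    exact wmap_unit u
  rcases hdL with hdL | hdL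
  · refine two_of_labels (closure_path2 hp hu') ?_ fun b => ?_
    · rw [erase_closure]
      show IsDiag (closure () (wmap _ (T ++ wmap (fun _ => c) u))) L
      rw [wmap_append]
      show IsDiag (closure () (erase T ++ erase (wmap (fun _ => c) u))) L
      rw [hT, he]
      exact hdL
    · rw [closure_hasLabel, hasLabel_append]
      rcases hl b with h | h
      · exact Or.inl h
      · exact Or.inr (Or.inl h)
  · refine two_of_labels (closure_path2 hu' hp) ?_ fun b => ?_
    · rw [erase_closure]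
      show IsDiag (closure () (wmap _ (wmap (fun _ => c) u ++ T))) L
      rw [wmap_append]
      show IsDiag (closure () (erase (wmap (fun _ => c) u) ++ erase T)) L
      rw [hT, he]
      exact hdL
    · rw [closure_hasLabel, hasLabel_append]
      rcases hl b with h | h
      · exact Or.inl h
      · exact Or.inr (Or.inr h)

theorem kL_ne_unknot : kL ≠ unknot := by
  intro h
  have h1 := card_col_eq 25 isDiag_kW (v := [(.cup (), 0), (.cap, 0)])
    (by rw [h]; exact isDiag_unknot)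
  rw [card_col_kW] at h1
  let f : ZMod 25 → Col 25 [(.cup (), 0), (.cap, 0)] := fun c =>
    ⟨[(.cup c, 0), (.cap, 0)], path_unknot _ _, rfl⟩
  have hf : Function.Surjective f := by
    rintro ⟨W, hW, he⟩
    obtain ⟨k, v, rfl, hk, hv⟩ := wmap_eq_cons he
    obtain ⟨c, rfl, -⟩ := Kind.map_eq_cup hk
    obtain ⟨k', v', rfl, hk', hv'⟩ := wmap_eq_cons hv
    obtain rfl := Kind.map_eq_cap hk'
    obtain rfl := wmap_eq_nil.1 hv'
    exact ⟨c, rfl⟩
  have h2 := Nat.card_le_card_of_surjective f hf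
  rw [← h1, Nat.card_zmod] at h2
  omega

section ends

variable {Γ : Type} [Group Γ]

/-- The degree of the lifts. -/
def degQ (Λ : Subgroup Γ) (deg : Γ →* Multiplicative ℤ) (hd : ∀ l ∈ Λ, deg l = 1)
    (z : CosR Λ × Bool) : Multiplicative ℤ :=
  Quotient.lift (fun y => deg y) (fun y y' hy => by
    have h1 : y' * y⁻¹ ∈ Λ := QuotientGroup.rightRel_apply.1 hy
    have h2 := hd _ h1
    show deg y = deg y'
    rw [map_mul, map_inv, mul_inv_eq_one] at h2
    exact h2.symm) z.1

theorem isHom_degQ (Λ : Subgroup Γ) (x : Γ) (hc : ∀ l ∈ Λ, l * x = x * l)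
    (deg : Γ →* Multiplicative ℤ) (hd : ∀ l ∈ Λ, deg l = 1) :
    IsHom (lonQ Λ x hc) (triv (Multiplicative ℤ)) (degQ Λ deg hd) := by
  refine ⟨fun z => rfl, fun z z' => ?_⟩
  obtain ⟨z, s⟩ := z
  obtain ⟨z', s'⟩ := z'
  induction z using Quotient.inductionOn with | h z => ?_
  induction z' using Quotient.inductionOn with | h z' => ?_
  show deg ((if s' then x⁻¹ else x) * z * lonf x (z', s')) = deg z
  cases s'
  · simp only [lonf, Bool.false_eq_true, if_false, map_mul, map_inv]
    have : ∀ a b c : Multiplicative ℤ, a * b * (c⁻¹ * a⁻¹ * c) = b := by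
      intro a b c
      rw [mul_comm c⁻¹, mul_assoc a⁻¹, inv_mul_cancel, mul_one, mul_comm a b, mul_assoc,
        mul_inv_cancel, mul_one]
    exact this _ _ _
  · simp only [lonf, if_true, map_mul, map_inv]
    have : ∀ a b c : Multiplicative ℤ, a⁻¹ * b * (c⁻¹ * a * c) = b := by
      intro a b c
      rw [mul_comm c⁻¹, mul_assoc a, inv_mul_cancel, mul_one, mul_comm a⁻¹ b, mul_assoc,
        inv_mul_cancel, mul_one]
    exact this _ _ _

theorem deg_lonf (x : Γ) (deg : Γ →* Multiplicative ℤ) (y : Γ) (s : Bool) :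
    deg (lonf x (y, s)) = if s then deg x else (deg x)⁻¹ := by
  cases s
  · simp only [lonf, Bool.false_eq_true, if_false, map_mul, map_inv]
    rw [mul_comm (deg y)⁻¹, mul_assoc, inv_mul_cancel, mul_one]
  · simp only [lonf, if_true, map_mul, map_inv]
    rw [mul_comm (deg y)⁻¹, mul_assoc, inv_mul_cancel, mul_one]

/-- The lifts of the labels at the two ends of a (1,1)-tangle agree modulo the longitude. -/
theorem ends_lonQ {x lam : Γ} {Λ : Subgroup Γ} (hlam : ∀ n : ℤ, lam ^ n ∈ Λ)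
    (hc : ∀ l ∈ Λ, l * x = x * l) (deg : Γ →* Multiplicative ℤ)
    (hdx : deg x = Multiplicative.ofAdd 1) (hd : ∀ l ∈ Λ, deg l = 1)
    (hcent : ∀ g : Γ, g * x = x * g → ∃ m n : ℤ, g = x ^ m * lam ^ n)
    {T : Word (CosR Λ × Bool)} {c d : CosR Λ × Bool} (hp : Path (lonQ Λ x hc) T [c] [d]) :
    c = d := by
  have h1 : lonfQ Λ x hc c = lonfQ Λ x hc d := ends_conj (hp.map (isHom_lonfQ Λ x hc))
  have h2 : degQ Λ deg hd c = degQ Λ deg hd d := ends_triv (hp.map (isHom_degQ Λ x hc deg hd))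
  obtain ⟨c, s⟩ := c
  obtain ⟨d, r⟩ := d
  induction c using Quotient.inductionOn with | h c => ?_
  induction d using Quotient.inductionOn with | h d => ?_
  rw [lonfQ_mk, lonfQ_mk] at h1
  have h2' : deg c = deg d := h2
  have hne : deg x ≠ (deg x)⁻¹ := by
    rw [hdx]
    decide
  have hsr : s = r := by
    have h3 := congrArg deg h1
    rw [deg_lonf, deg_lonf] at h3
    cases s <;> cases r <;> simp_all
  subst hsr
  have h4 : (d * c⁻¹) * x = x * (d * c⁻¹) := by
    cases s
    · have h5 : c⁻¹ * x⁻¹ * c = d⁻¹ * x⁻¹ * d := by simpa [lonf] using h1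
      have h6 : x⁻¹ * (c * d⁻¹) = (c * d⁻¹) * x⁻¹ := by
        calc x⁻¹ * (c * d⁻¹) = c * (c⁻¹ * x⁻¹ * c) * d⁻¹ := by group
          _ = c * (d⁻¹ * x⁻¹ * d) * d⁻¹ := by rw [h5]
          _ = (c * d⁻¹) * x⁻¹ := by group
      calc (d * c⁻¹) * x = ((x⁻¹ * (c * d⁻¹)))⁻¹ := by group
        _ = ((c * d⁻¹) * x⁻¹)⁻¹ := by rw [h6]
        _ = x * (d * c⁻¹) := by group
    · have h5 : c⁻¹ * x * c = d⁻¹ * x * d := by simpa [lonf] using h1
      calc (d * c⁻¹) * x = d * (c⁻¹ * x * c) * c⁻¹ := by group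
        _ = d * (d⁻¹ * x * d) * c⁻¹ := by rw [h5]
        _ = x * (d * c⁻¹) := by group
  obtain ⟨m, n, h5⟩ := hcent _ h4
  have h6 : m = 0 := by
    have h7 := congrArg deg h5
    rw [map_mul, map_inv, ← h2', mul_inv_cancel, map_mul, hd _ (hlam n), mul_one, map_zpow, hdx,
      ← ofAdd_zsmul, smul_eq_mul, mul_one] at h7
    have h8 := congrArg Multiplicative.toAdd h7
    simpa using h8.symm
  rw [h6, zpow_zero, one_mul] at h5
  refine Prod.ext (Quotient.sound (QuotientGroup.rightRel_apply.2 ?_)) rfl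
  rw [h5]
  exact hlam n

end ends

/-- **The knot is prime.** -/
theorem prime_kL : IsPrime kL := by
  have hk : HasLabel () kW := by
    refine ⟨0, ?_⟩
    show (Kind.cup (), 0) ∈ (Kind.cup (), 0) :: _
    exact List.mem_cons_self
  refine ⟨ne_empty_of_diag isDiag_kW hk, not_split_of_one not_two_kL, kL_ne_unknot, ?_⟩
  rintro A B ⟨t, u, ht, hu, dA, dB, dL⟩
  have oA : ¬ AtLeastTwoComponents A := factor_one not_two_kL ht hu dA (Or.inl dL)
  have oB : ¬ AtLeastTwoComponents B := factor_one not_two_kL hu ht dB (Or.inr dL)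
  have eA : A ≠ emptyLink := ne_empty_of_diag dA (closure_hasLabel.2 (Or.inl rfl))
  have eB : B ≠ emptyLink := ne_empty_of_diag dB (closure_hasLabel.2 (Or.inl rfl))
  obtain ⟨Γ, _, p, r, q, s, w, x, deg, hrel, hu0, hdx, hdl, hcomm, hcent, hord⟩ := exists_Gamma
  set lam := lamK p r q s w x with hlam
  let Λ := Subgroup.zpowers lam
  have hΛ : ∀ l ∈ Λ, ∃ n : ℤ, lam ^ n = l := fun l hl => Subgroup.mem_zpowers_iff.1 hl
  have hΛ' : ∀ n : ℤ, lam ^ n ∈ Λ := fun n => Subgroup.zpow_mem_zpowers lam n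
  have hc : ∀ l ∈ Λ, l * x = x * l := by
    intro l hl
    obtain ⟨n, rfl⟩ := hΛ l hl
    exact ((show Commute lam x from hcomm).zpow_left n).eq
  have hdΛ : ∀ l ∈ Λ, deg l = 1 := by
    intro l hl
    obtain ⟨n, rfl⟩ := hΛ l hl
    rw [map_zpow, hdl, one_zpow]
  obtain ⟨W0, hW0, hW0l⟩ := kLab_lift hrel Λ (Subgroup.mem_zpowers lam) hc
  obtain ⟨F, hF⟩ := exists_tr (eqv_of_isDiag isDiag_kW dL)
  have heW0 : erase W0 = kW := by
    rw [← erase_wmap (lonfQ Λ x hc), hW0l]
    rfl
  obtain ⟨W1, h1⟩ := hF.fwd (P := lonQ Λ x hc) (s := []) rfl hW0 heW0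
  obtain ⟨t0, hE⟩ := hF.eqv h1
  have ht0 : t0 = [] := hE.path_left.det hW0
  subst ht0
  obtain ⟨c, d, T, U, rfl, hT, hU, pT, pU⟩ := closure_labelled ht hu (hF.right h1) hE.path_right
  have hcd : c = d := ends_lonQ hΛ' hc deg hdx hdΛ hcent pT
  subst hcd
  have h2 := hF.nat (isHom_lonfQ Λ x hc) h1
  rw [hW0l, wmap_closure, wmap_append] at h2
  set μ := lonfQ Λ x hc c with hμ
  set T' := wmap (lonfQ Λ x hc) T with hT'
  set U' := wmap (lonfQ Λ x hc) U with hU'
  have pT' : Path (conj Γ) T' [μ] [μ] := pT.map (isHom_lonfQ Λ x hc)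
  have pU' : Path (conj Γ) U' [μ] [μ] := pU.map (isHom_lonfQ Λ x hc)
  have eT' : erase T' = t := by rw [hT', erase_wmap, hT]
  have eU' : erase U' = u := by rw [hU', erase_wmap, hU]
  -- universality
  have huniv : ∀ (G' : Type) [Group G'] (W : Word G'), Path (conj G') W [] [] →
      erase W = closure () (t ++ u) → ∃ Φ : Γ →* G', W = wmap Φ (closure μ (T' ++ U')) := by
    intro G' _ W hW he
    obtain ⟨V, hV⟩ := hF.bwd (P := conj G') (s := []) rfl hW he
    obtain ⟨t1, hE1⟩ := hF.eqv hV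
    have ht1 : t1 = [] := hE1.path_right.det hW
    subst ht1
    obtain ⟨p', r', q', s', w', x', hrel', hV'⟩ := kLab_of_path hE1.path_left (hF.left hV)
    obtain ⟨Φ, e1, e2, e3, e4, e5, e6⟩ := hu0 G' p' r' q' s' w' x' hrel'
    have h3 := hF.nat (isHom_conj Φ) h2
    rw [wmap_kLab, e1, e2, e3, e4, e5, e6, ← hV'] at h3
    exact ⟨Φ, hF.uniq hV h3⟩
  -- the groups of the factors
  let S : Bool → Subgroup Γ := fun b =>
    Subgroup.closure ({μ} ∪ {g | HasLabel g (if b then T' else U')})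
  obtain ⟨⟨y0, hy0⟩, hs0⟩ : (∃ y0 : Γ, (Quotient.mk _ y0 : CosR Λ) = c.1) ∧ True :=
    ⟨Quotient.exists_rep c.1, trivial⟩
  obtain ⟨c1, s0⟩ := c
  dsimp only at hy0
  subst hy0
  have hμ' : μ = lonf x (y0, s0) := rfl
  have hSμ : ∀ b, lonf x (y0, s0) ∈ S b := fun b => Subgroup.subset_closure (Or.inl rfl)
  by_cases hA : ∀ n : ℤ, y0⁻¹ * lam ^ n * y0 ∈ S true → n = 0
  · left
    refine unknot_of_lonTriv oA (core oA ht dA hΛ hc hT pT (S true) (hSμ true) (fun z hz => ?_) hA
      (fun G' _ T1 ν hp1 he1 => ?_) exists_tr) eA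
    · exact Subgroup.subset_closure (Or.inr (hz.map _))
    · obtain ⟨U1, hU1, hpU1⟩ := exists_labelling' ν hu
      obtain ⟨Φ, hΦ⟩ := huniv G' (closure ν (T1 ++ U1)) (closure_path2 hp1 hpU1) (by
        rw [erase_closure]
        show closure () (wmap _ (T1 ++ U1)) = _
        rw [wmap_append]
        show closure () (erase T1 ++ erase U1) = _
        rw [he1, hU1])
      rw [wmap_closure] at hΦ
      obtain ⟨h3, h4⟩ := closure_inj hΦ
      rw [wmap_append] at h4
      obtain ⟨h5, h6⟩ := List.append_inj h4 (by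
        have h7 : (erase T1).length = (erase T').length := by rw [he1, eT']
        simpa [wmap] using h7)
      exact ⟨Φ, h3.symm, h5.symm⟩
  by_cases hB : ∀ n : ℤ, y0⁻¹ * lam ^ n * y0 ∈ S false → n = 0
  · right
    refine unknot_of_lonTriv oB (core oB hu dB hΛ hc hU pU (S false) (hSμ false) (fun z hz => ?_) hB
      (fun G' _ U1 ν hp1 he1 => ?_) exists_tr) eB
    · exact Subgroup.subset_closure (Or.inr (hz.map _))
    · obtain ⟨T1, hT1, hpT1⟩ := exists_labelling' ν ht
      obtain ⟨Φ, hΦ⟩ := huniv G' (closure ν (T1 ++ U1)) (closure_path2 hpT1 hp1) (by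
        rw [erase_closure]
        show closure () (wmap _ (T1 ++ U1)) = _
        rw [wmap_append]
        show closure () (erase T1 ++ erase U1) = _
        rw [he1, hT1])
      rw [wmap_closure] at hΦ
      obtain ⟨h3, h4⟩ := closure_inj hΦ
      rw [wmap_append] at h4
      obtain ⟨h5, h6⟩ := List.append_inj h4 (by
        have h7 : (erase T1).length = (erase T').length := by rw [hT1, eT']
        simpa [wmap] using h7)
      exact ⟨Φ, h3.symm, h6.symm⟩
  -- the third case
  exfalso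
  obtain ⟨m, hA⟩ := not_forall.1 hA
  obtain ⟨hm, hm0⟩ := Classical.not_imp.1 hA
  obtain ⟨n, hB⟩ := not_forall.1 hB
  obtain ⟨hn, hn0⟩ := Classical.not_imp.1 hB
  have hpow : ∀ k : ℤ, y0⁻¹ * lam ^ (m * n) * y0 = (y0⁻¹ * lam ^ m * y0) ^ n ∧
      y0⁻¹ * lam ^ (m * n) * y0 = (y0⁻¹ * lam ^ n * y0) ^ m := by
    intro _
    have hconj : ∀ (g : Γ) (k : ℤ), (y0⁻¹ * g * y0) ^ k = y0⁻¹ * g ^ k * y0 := by
      intro g k
      have := conj_zpow (i := k) (a := y0⁻¹) (b := g)
      rw [inv_inv] at this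
      exact this
    rw [hconj, hconj, ← zpow_mul, ← zpow_mul, mul_comm n m]
    exact ⟨rfl, rfl⟩
  obtain ⟨k, hk⟩ := inter_cyclic S μ pT' pU' rfl rfl (fun G' _ W hW he => huniv G' W hW (by
    rw [he, eT', eU'])) (y0⁻¹ * lam ^ (m * n) * y0)
    (by rw [(hpow 0).1]; exact (S true).zpow_mem hm n)
    (by rw [(hpow 0).2]; exact (S false).zpow_mem hn m)
  have h9 : deg (y0⁻¹ * lam ^ (m * n) * y0) = 1 := by
    rw [map_mul, map_mul, hdΛ _ (hΛ' _), mul_one, map_inv, inv_mul_cancel]
  have hk0 : k = 0 := by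
    rw [hk, map_zpow, hμ', deg_lonf, hdx] at h9
    cases s0
    · rw [if_neg (by decide), ← ofAdd_neg, ← ofAdd_zsmul] at h9
      have h10 := congrArg Multiplicative.toAdd h9
      simpa using h10
    · rw [if_pos rfl, ← ofAdd_zsmul] at h9
      have h10 := congrArg Multiplicative.toAdd h9
      simpa using h10
  rw [hk0, zpow_zero] at hk
  have h11 : lam ^ (m * n) = 1 := by
    have : lam ^ (m * n) = y0 * (y0⁻¹ * lam ^ (m * n) * y0) * y0⁻¹ := by group
    rw [this, hk]
    group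
  have h12 := hord _ h11
  rcases mul_eq_zero.1 h12 with h | h
  · exact hm0 h
  · exact hn0 h

end Pool.Agent.Lib.MP_decac5_gt
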