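import Pool.Agent.Lib.MP_decac5_gt.Base

/-!
# The figure eight knot is isotopic to its mirror image

The isotopy is a sequence of 57 framed moves (no first Reidemeister move), found by computer.
-/

set_option autoImplicit false

namespace Pool.Agent.Lib.MP_decac5_gt

open Pool.Agent.Lib.MP_131179_gt

/-- The number of strands after the elementary tangle, if it can be applied. -/
private def iso8Step : Kind Unit × ℕ → ℕ → Option ℕ
  | (.cup _, i), n => if i ≤ n then some (n + 2) else none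
  | (.cap, i), n => if i + 2 ≤ n then some (n - 2) else none
  | (.pos, i), n => if i + 2 ≤ n then some n else none
  | (.neg, i), n => if i + 2 ≤ n then some n else none

/-- Does the word lead from `m` to `n` strands? -/
private def iso8Chk : Word Unit → ℕ → ℕ → Bool
  | [], m, n => m == n
  | l :: w, m, n => match iso8Step l m with
    | none => false
    | some r => iso8Chk w r n

private theorem iso8_step {k : Kind Unit} {i m r : ℕ} (h : iso8Step (k, i) m = some r) :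
    Step (triv Unit) k i (List.replicate m ()) (List.replicate r ()) := by
  induction i generalizing m r with
  | zero =>
    cases k with
    | cup c =>
      simp only [iso8Step, Nat.zero_le, if_true, Option.some.injEq] at h
      subst h
      exact Step.cup () (List.replicate m ())
    | cap =>
      simp only [iso8Step] at h
      split_ifs at h with h1
      simp only [Option.some.injEq] at h
      obtain ⟨m', rfl⟩ : ∃ m', m = m' + 2 := ⟨m - 2, by omega⟩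
      subst h
      exact Step.cap () (List.replicate m' ())
    | pos =>
      simp only [iso8Step] at h
      split_ifs at h with h1
      simp only [Option.some.injEq] at h
      obtain ⟨m', rfl⟩ : ∃ m', m = m' + 2 := ⟨m - 2, by omega⟩
      subst h
      exact Step.pos () () (List.replicate m' ())
    | neg =>
      simp only [iso8Step] at h
      split_ifs at h with h1
      simp only [Option.some.injEq] at h
      obtain ⟨m', rfl⟩ : ∃ m', m = m' + 2 := ⟨m - 2, by omega⟩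
      subst h
      exact Step.neg () () (List.replicate m' ())
  | succ i ih =>
    obtain ⟨m', r', rfl, rfl, h2⟩ : ∃ m' r', m = m' + 1 ∧ r = r' + 1 ∧
        iso8Step (k, i) m' = some r' := by
      cases k with
      | cup c =>
        simp only [iso8Step] at h
        split_ifs at h with h1
        simp only [Option.some.injEq] at h
        refine ⟨m - 1, r - 1, by omega, by omega, ?_⟩
        simp only [iso8Step]
        rw [if_pos (by omega)]
        exact congrArg some (by omega)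
      | cap =>
        simp only [iso8Step] at h
        split_ifs at h with h1
        simp only [Option.some.injEq] at h
        refine ⟨m - 1, r - 1, by omega, by omega, ?_⟩
        simp only [iso8Step]
        rw [if_pos (by omega)]
        exact congrArg some (by omega)
      | pos =>
        simp only [iso8Step] at h
        split_ifs at h with h1
        simp only [Option.some.injEq] at h
        refine ⟨m - 1, r - 1, by omega, by omega, ?_⟩
        simp only [iso8Step]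
        rw [if_pos (by omega)]
        exact congrArg some (by omega)
      | neg =>
        simp only [iso8Step] at h
        split_ifs at h with h1
        simp only [Option.some.injEq] at h
        refine ⟨m - 1, r - 1, by omega, by omega, ?_⟩
        simp only [iso8Step]
        rw [if_pos (by omega)]
        exact congrArg some (by omega)
    exact Step.there () (ih h2)

private theorem iso8_path {w : Word Unit} {m n : ℕ} (h : iso8Chk w m n = true) :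
    Path (triv Unit) w (List.replicate m ()) (List.replicate n ()) := by
  induction w generalizing m with
  | nil =>
    have h1 : m = n := by simpa [iso8Chk] using h
    subst h1
    exact Path.nil _
  | cons l w ih =>
    obtain ⟨k, i⟩ := l
    rw [iso8Chk] at h
    cases h1 : iso8Step (k, i) m with
    | none => rw [h1] at h; exact absurd h (by simp)
    | some r =>
      rw [h1] at h
      exact Path.cons (iso8_step h1) (ih h)

/-- One move in a context. -/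
private theorem iso8_move (a b : Word Unit) {u v : Word Unit} (h : FBase u v) (i p q : ℕ)
    (ha : iso8Chk a 1 p = true) (hu : iso8Chk (shift i u) p q = true)
    (hv : iso8Chk (shift i v) p q = true) (hb : iso8Chk b q 1 = true) :
    FEqv (a ++ (shift i u ++ b)) (a ++ (shift i v ++ b)) [()] [()] :=
  FEqv.comp (FEqv.refl (iso8_path (n := p) ha)) (FEqv.comp
    (FEqv.move i h (iso8_path (m := p) (n := q) hu) (iso8_path hv))
    (FEqv.refl (iso8_path (n := 1) hb)))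

private theorem iso8_0 : FEqv
    [(.cup (), 1), (.pos, 0), (.neg, 1), (.pos, 0), (.neg, 1), (.cap, 0)]
    [(.cup (), 0), (.neg, 1), (.cup (), 1), (.neg, 3), (.neg, 2), (.neg, 1), (.neg, 0),
      (.neg, 1), (.pos, 2), (.neg, 3), (.cap, 2), (.cap, 0)]
    [()] [()] := by
  have h0 : FEqv [(.cup (), 1), (.pos, 0), (.neg, 1), (.pos, 0), (.neg, 1), (.cap, 0)]
      [(.cup (), 0), (.neg, 1), (.neg, 1), (.pos, 0), (.neg, 1), (.cap, 0)] [()] [()] :=
    iso8_move []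
      [(.neg, 1), (.pos, 0), (.neg, 1), (.cap, 0)]
      (FBase.cupOver) 0 1 3 rfl rfl rfl rfl
  have h1 : FEqv [(.cup (), 0), (.neg, 1), (.neg, 1), (.pos, 0), (.neg, 1), (.cap, 0)]
      [(.cup (), 0), (.neg, 1), (.neg, 1), (.cup (), 2), (.cap, 1), (.pos, 0), (.neg, 1),
        (.cap, 0)] [()] [()] :=
    (iso8_move [(.cup (), 0), (.neg, 1), (.neg, 1)]
      [(.pos, 0), (.neg, 1), (.cap, 0)]
      (FBase.zig) 1 3 3 rfl rfl rfl rfl).symm
  have h2 : FEqv [(.cup (), 0), (.neg, 1), (.neg, 1), (.cup (), 2), (.cap, 1), (.pos, 0),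
      (.neg, 1), (.cap, 0)]
      [(.cup (), 0), (.neg, 1), (.neg, 1), (.cup (), 2), (.neg, 0), (.pos, 0), (.cap, 1),
        (.pos, 0), (.neg, 1), (.cap, 0)] [()] [()] :=
    (iso8_move [(.cup (), 0), (.neg, 1), (.neg, 1), (.cup (), 2)]
      [(.cap, 1), (.pos, 0), (.neg, 1), (.cap, 0)]
      (FBase.r2NegPos) 0 5 5 rfl rfl rfl rfl).symm
  have h3 : FEqv [(.cup (), 0), (.neg, 1), (.neg, 1), (.cup (), 2), (.neg, 0), (.pos, 0),
      (.cap, 1), (.pos, 0), (.neg, 1), (.cap, 0)]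
      [(.cup (), 0), (.neg, 1), (.neg, 1), (.cup (), 2), (.neg, 0), (.neg, 1), (.cap, 0),
        (.pos, 0), (.neg, 1), (.cap, 0)] [()] [()] :=
    iso8_move [(.cup (), 0), (.neg, 1), (.neg, 1), (.cup (), 2), (.neg, 0)]
      [(.pos, 0), (.neg, 1), (.cap, 0)]
      (FBase.capOver) 0 5 3 rfl rfl rfl rfl
  have h4 : FEqv [(.cup (), 0), (.neg, 1), (.neg, 1), (.cup (), 2), (.neg, 0), (.neg, 1),
      (.cap, 0), (.pos, 0), (.neg, 1), (.cap, 0)]
      [(.cup (), 0), (.neg, 1), (.neg, 1), (.cup (), 2), (.neg, 0), (.neg, 1), (.pos, 2),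
        (.cap, 0), (.neg, 1), (.cap, 0)] [()] [()] :=
    iso8_move [(.cup (), 0), (.neg, 1), (.neg, 1), (.cup (), 2), (.neg, 0), (.neg, 1)]
      [(.neg, 1), (.cap, 0)]
      (FBase.far .cap .pos 0) 0 5 3 rfl rfl rfl rfl
  have h5 : FEqv [(.cup (), 0), (.neg, 1), (.neg, 1), (.cup (), 2), (.neg, 0), (.neg, 1),
      (.pos, 2), (.cap, 0), (.neg, 1), (.cap, 0)]
      [(.cup (), 0), (.neg, 1), (.neg, 1), (.cup (), 2), (.neg, 0), (.neg, 1), (.pos, 2),
        (.neg, 3), (.cap, 0), (.cap, 0)] [()] [()] :=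
    iso8_move [(.cup (), 0), (.neg, 1), (.neg, 1), (.cup (), 2), (.neg, 0), (.neg, 1), (.pos, 2)]
      [(.cap, 0)]
      (FBase.far .cap .neg 1) 0 5 3 rfl rfl rfl rfl
  have h6 : FEqv [(.cup (), 0), (.neg, 1), (.neg, 1), (.cup (), 2), (.neg, 0), (.neg, 1),
      (.pos, 2), (.neg, 3), (.cap, 0), (.cap, 0)]
      [(.cup (), 0), (.neg, 1), (.neg, 1), (.cup (), 2), (.neg, 0), (.neg, 1), (.pos, 2),
        (.neg, 3), (.cap, 2), (.cap, 0)] [()] [()] :=
    iso8_move [(.cup (), 0), (.neg, 1), (.neg, 1), (.cup (), 2), (.neg, 0), (.neg, 1),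
      (.pos, 2), (.neg, 3)]
      []
      (FBase.far .cap .cap 0) 0 5 1 rfl rfl rfl rfl
  have h7 : FEqv [(.cup (), 0), (.neg, 1), (.neg, 1), (.cup (), 2), (.neg, 0), (.neg, 1),
      (.pos, 2), (.neg, 3), (.cap, 2), (.cap, 0)]
      [(.cup (), 0), (.neg, 1), (.neg, 1), (.cup (), 2), (.pos, 1), (.neg, 1), (.neg, 0),
        (.neg, 1), (.pos, 2), (.neg, 3), (.cap, 2), (.cap, 0)] [()] [()] :=
    (iso8_move [(.cup (), 0), (.neg, 1), (.neg, 1), (.cup (), 2)]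
      [(.neg, 0), (.neg, 1), (.pos, 2), (.neg, 3), (.cap, 2), (.cap, 0)]
      (FBase.r2PosNeg) 1 5 5 rfl rfl rfl rfl).symm
  have h8 : FEqv [(.cup (), 0), (.neg, 1), (.neg, 1), (.cup (), 2), (.pos, 1), (.neg, 1),
      (.neg, 0), (.neg, 1), (.pos, 2), (.neg, 3), (.cap, 2), (.cap, 0)]
      [(.cup (), 0), (.neg, 1), (.neg, 1), (.cup (), 1), (.neg, 2), (.neg, 1), (.neg, 0),
        (.neg, 1), (.pos, 2), (.neg, 3), (.cap, 2), (.cap, 0)] [()] [()] :=
    iso8_move [(.cup (), 0), (.neg, 1), (.neg, 1)]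
      [(.neg, 1), (.neg, 0), (.neg, 1), (.pos, 2), (.neg, 3), (.cap, 2), (.cap, 0)]
      (FBase.cupOver) 1 3 5 rfl rfl rfl rfl
  have h9 : FEqv [(.cup (), 0), (.neg, 1), (.neg, 1), (.cup (), 1), (.neg, 2), (.neg, 1),
      (.neg, 0), (.neg, 1), (.pos, 2), (.neg, 3), (.cap, 2), (.cap, 0)]
      [(.cup (), 0), (.neg, 1), (.cup (), 1), (.neg, 3), (.neg, 2), (.neg, 1), (.neg, 0),
        (.neg, 1), (.pos, 2), (.neg, 3), (.cap, 2), (.cap, 0)] [()] [()] :=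
    (iso8_move [(.cup (), 0), (.neg, 1)]
      [(.neg, 2), (.neg, 1), (.neg, 0), (.neg, 1), (.pos, 2), (.neg, 3), (.cap, 2), (.cap, 0)]
      (FBase.far (.cup ()) .neg 0) 1 3 5 rfl rfl rfl rfl).symm
  exact ((((((((h0.trans h1).trans h2).trans h3).trans h4).trans h5).trans h6).trans h7).trans h8).trans h9

private theorem iso8_1 : FEqv
    [(.cup (), 0), (.neg, 1), (.cup (), 1), (.neg, 3), (.neg, 2), (.neg, 1), (.neg, 0),
      (.neg, 1), (.pos, 2), (.neg, 3), (.cap, 2), (.cap, 0)]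
    [(.cup (), 0), (.cup (), 1), (.neg, 2), (.neg, 3), (.neg, 3), (.neg, 2), (.neg, 1),
      (.pos, 2), (.neg, 3), (.neg, 0), (.cap, 2), (.cap, 0)]
    [()] [()] := by
  have h0 : FEqv [(.cup (), 0), (.neg, 1), (.cup (), 1), (.neg, 3), (.neg, 2), (.neg, 1),
      (.neg, 0), (.neg, 1), (.pos, 2), (.neg, 3), (.cap, 2), (.cap, 0)]
      [(.cup (), 0), (.cup (), 1), (.neg, 3), (.neg, 3), (.neg, 2), (.neg, 1), (.neg, 0),
        (.neg, 1), (.pos, 2), (.neg, 3), (.cap, 2), (.cap, 0)] [()] [()] :=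
    (iso8_move [(.cup (), 0)]
      [(.neg, 3), (.neg, 2), (.neg, 1), (.neg, 0), (.neg, 1), (.pos, 2), (.neg, 3), (.cap, 2),
        (.cap, 0)]
      (FBase.far (.cup ()) .neg 0) 1 3 5 rfl rfl rfl rfl).symm
  have h1 : FEqv [(.cup (), 0), (.cup (), 1), (.neg, 3), (.neg, 3), (.neg, 2), (.neg, 1),
      (.neg, 0), (.neg, 1), (.pos, 2), (.neg, 3), (.cap, 2), (.cap, 0)]
      [(.cup (), 0), (.cup (), 1), (.neg, 3), (.neg, 3), (.neg, 2), (.neg, 0), (.neg, 1),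
        (.neg, 0), (.pos, 2), (.neg, 3), (.cap, 2), (.cap, 0)] [()] [()] :=
    (iso8_move [(.cup (), 0), (.cup (), 1), (.neg, 3), (.neg, 3), (.neg, 2)]
      [(.pos, 2), (.neg, 3), (.cap, 2), (.cap, 0)]
      (FBase.r3nnn) 0 5 5 rfl rfl rfl rfl).symm
  have h2 : FEqv [(.cup (), 0), (.cup (), 1), (.neg, 3), (.neg, 3), (.neg, 2), (.neg, 0),
      (.neg, 1), (.neg, 0), (.pos, 2), (.neg, 3), (.cap, 2), (.cap, 0)]
      [(.cup (), 0), (.cup (), 1), (.neg, 3), (.neg, 3), (.neg, 0), (.neg, 2), (.neg, 1),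
        (.neg, 0), (.pos, 2), (.neg, 3), (.cap, 2), (.cap, 0)] [()] [()] :=
    (iso8_move [(.cup (), 0), (.cup (), 1), (.neg, 3), (.neg, 3)]
      [(.neg, 1), (.neg, 0), (.pos, 2), (.neg, 3), (.cap, 2), (.cap, 0)]
      (FBase.far .neg .neg 0) 0 5 5 rfl rfl rfl rfl).symm
  have h3 : FEqv [(.cup (), 0), (.cup (), 1), (.neg, 3), (.neg, 3), (.neg, 0), (.neg, 2),
      (.neg, 1), (.neg, 0), (.pos, 2), (.neg, 3), (.cap, 2), (.cap, 0)]
      [(.cup (), 0), (.cup (), 1), (.neg, 3), (.neg, 0), (.neg, 3), (.neg, 2), (.neg, 1),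
        (.neg, 0), (.pos, 2), (.neg, 3), (.cap, 2), (.cap, 0)] [()] [()] :=
    (iso8_move [(.cup (), 0), (.cup (), 1), (.neg, 3)]
      [(.neg, 2), (.neg, 1), (.neg, 0), (.pos, 2), (.neg, 3), (.cap, 2), (.cap, 0)]
      (FBase.far .neg .neg 1) 0 5 5 rfl rfl rfl rfl).symm
  have h4 : FEqv [(.cup (), 0), (.cup (), 1), (.neg, 3), (.neg, 0), (.neg, 3), (.neg, 2),
      (.neg, 1), (.neg, 0), (.pos, 2), (.neg, 3), (.cap, 2), (.cap, 0)]
      [(.cup (), 0), (.cup (), 1), (.neg, 0), (.neg, 3), (.neg, 3), (.neg, 2), (.neg, 1),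
        (.neg, 0), (.pos, 2), (.neg, 3), (.cap, 2), (.cap, 0)] [()] [()] :=
    (iso8_move [(.cup (), 0), (.cup (), 1)]
      [(.neg, 3), (.neg, 2), (.neg, 1), (.neg, 0), (.pos, 2), (.neg, 3), (.cap, 2), (.cap, 0)]
      (FBase.far .neg .neg 1) 0 5 5 rfl rfl rfl rfl).symm
  have h5 : FEqv [(.cup (), 0), (.cup (), 1), (.neg, 0), (.neg, 3), (.neg, 3), (.neg, 2),
      (.neg, 1), (.neg, 0), (.pos, 2), (.neg, 3), (.cap, 2), (.cap, 0)]
      [(.cup (), 0), (.cup (), 0), (.pos, 1), (.neg, 3), (.neg, 3), (.neg, 2), (.neg, 1),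
        (.neg, 0), (.pos, 2), (.neg, 3), (.cap, 2), (.cap, 0)] [()] [()] :=
    iso8_move [(.cup (), 0)]
      [(.neg, 3), (.neg, 3), (.neg, 2), (.neg, 1), (.neg, 0), (.pos, 2), (.neg, 3), (.cap, 2),
        (.cap, 0)]
      (FBase.cupUnder) 0 3 5 rfl rfl rfl rfl
  have h6 : FEqv [(.cup (), 0), (.cup (), 0), (.pos, 1), (.neg, 3), (.neg, 3), (.neg, 2),
      (.neg, 1), (.neg, 0), (.pos, 2), (.neg, 3), (.cap, 2), (.cap, 0)]
      [(.cup (), 0), (.cup (), 2), (.pos, 1), (.neg, 3), (.neg, 3), (.neg, 2), (.neg, 1),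
        (.neg, 0), (.pos, 2), (.neg, 3), (.cap, 2), (.cap, 0)] [()] [()] :=
    (iso8_move []
      [(.pos, 1), (.neg, 3), (.neg, 3), (.neg, 2), (.neg, 1), (.neg, 0), (.pos, 2), (.neg, 3),
        (.cap, 2), (.cap, 0)]
      (FBase.far (.cup ()) (.cup ()) 0) 0 1 5 rfl rfl rfl rfl).symm
  have h7 : FEqv [(.cup (), 0), (.cup (), 2), (.pos, 1), (.neg, 3), (.neg, 3), (.neg, 2),
      (.neg, 1), (.neg, 0), (.pos, 2), (.neg, 3), (.cap, 2), (.cap, 0)]
      [(.cup (), 0), (.cup (), 1), (.neg, 2), (.neg, 3), (.neg, 3), (.neg, 2), (.neg, 1),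
        (.neg, 0), (.pos, 2), (.neg, 3), (.cap, 2), (.cap, 0)] [()] [()] :=
    iso8_move [(.cup (), 0)]
      [(.neg, 3), (.neg, 3), (.neg, 2), (.neg, 1), (.neg, 0), (.pos, 2), (.neg, 3), (.cap, 2),
        (.cap, 0)]
      (FBase.cupOver) 1 3 5 rfl rfl rfl rfl
  have h8 : FEqv [(.cup (), 0), (.cup (), 1), (.neg, 2), (.neg, 3), (.neg, 3), (.neg, 2),
      (.neg, 1), (.neg, 0), (.pos, 2), (.neg, 3), (.cap, 2), (.cap, 0)]
      [(.cup (), 0), (.cup (), 1), (.neg, 2), (.neg, 3), (.neg, 3), (.neg, 2), (.neg, 1),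
        (.pos, 2), (.neg, 0), (.neg, 3), (.cap, 2), (.cap, 0)] [()] [()] :=
    iso8_move [(.cup (), 0), (.cup (), 1), (.neg, 2), (.neg, 3), (.neg, 3), (.neg, 2), (.neg, 1)]
      [(.neg, 3), (.cap, 2), (.cap, 0)]
      (FBase.far .neg .pos 0) 0 5 5 rfl rfl rfl rfl
  have h9 : FEqv [(.cup (), 0), (.cup (), 1), (.neg, 2), (.neg, 3), (.neg, 3), (.neg, 2),
      (.neg, 1), (.pos, 2), (.neg, 0), (.neg, 3), (.cap, 2), (.cap, 0)]
      [(.cup (), 0), (.cup (), 1), (.neg, 2), (.neg, 3), (.neg, 3), (.neg, 2), (.neg, 1),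
        (.pos, 2), (.neg, 3), (.neg, 0), (.cap, 2), (.cap, 0)] [()] [()] :=
    iso8_move [(.cup (), 0), (.cup (), 1), (.neg, 2), (.neg, 3), (.neg, 3), (.neg, 2),
      (.neg, 1), (.pos, 2)]
      [(.cap, 2), (.cap, 0)]
      (FBase.far .neg .neg 1) 0 5 5 rfl rfl rfl rfl
  exact ((((((((h0.trans h1).trans h2).trans h3).trans h4).trans h5).trans h6).trans h7).trans h8).trans h9

private theorem iso8_2 : FEqv
    [(.cup (), 0), (.cup (), 1), (.neg, 2), (.neg, 3), (.neg, 3), (.neg, 2), (.neg, 1),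
      (.pos, 2), (.neg, 3), (.neg, 0), (.cap, 2), (.cap, 0)]
    [(.cup (), 0), (.cup (), 1), (.neg, 2), (.pos, 1), (.neg, 3), (.neg, 2), (.pos, 3),
      (.neg, 3), (.cap, 1), (.neg, 1), (.neg, 0), (.cap, 0)]
    [()] [()] := by
  have h0 : FEqv [(.cup (), 0), (.cup (), 1), (.neg, 2), (.neg, 3), (.neg, 3), (.neg, 2),
      (.neg, 1), (.pos, 2), (.neg, 3), (.neg, 0), (.cap, 2), (.cap, 0)]
      [(.cup (), 0), (.cup (), 1), (.neg, 2), (.neg, 3), (.neg, 3), (.neg, 2), (.neg, 1),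
        (.pos, 2), (.neg, 3), (.cap, 2), (.neg, 0), (.cap, 0)] [()] [()] :=
    iso8_move [(.cup (), 0), (.cup (), 1), (.neg, 2), (.neg, 3), (.neg, 3), (.neg, 2),
      (.neg, 1), (.pos, 2), (.neg, 3)]
      [(.cap, 0)]
      (FBase.far .neg .cap 0) 0 5 3 rfl rfl rfl rfl
  have h1 : FEqv [(.cup (), 0), (.cup (), 1), (.neg, 2), (.neg, 3), (.neg, 3), (.neg, 2),
      (.neg, 1), (.pos, 2), (.neg, 3), (.cap, 2), (.neg, 0), (.cap, 0)]
      [(.cup (), 0), (.cup (), 1), (.neg, 2), (.neg, 3), (.neg, 3), (.pos, 1), (.neg, 2),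
        (.neg, 1), (.neg, 3), (.cap, 2), (.neg, 0), (.cap, 0)] [()] [()] :=
    (iso8_move [(.cup (), 0), (.cup (), 1), (.neg, 2), (.neg, 3), (.neg, 3)]
      [(.neg, 3), (.cap, 2), (.neg, 0), (.cap, 0)]
      (FBase.r3pnn) 1 5 5 rfl rfl rfl rfl).symm
  have h2 : FEqv [(.cup (), 0), (.cup (), 1), (.neg, 2), (.neg, 3), (.neg, 3), (.pos, 1),
      (.neg, 2), (.neg, 1), (.neg, 3), (.cap, 2), (.neg, 0), (.cap, 0)]
      [(.cup (), 0), (.cup (), 1), (.neg, 2), (.neg, 3), (.pos, 1), (.neg, 3), (.neg, 2),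
        (.neg, 1), (.neg, 3), (.cap, 2), (.neg, 0), (.cap, 0)] [()] [()] :=
    (iso8_move [(.cup (), 0), (.cup (), 1), (.neg, 2), (.neg, 3)]
      [(.neg, 2), (.neg, 1), (.neg, 3), (.cap, 2), (.neg, 0), (.cap, 0)]
      (FBase.far .pos .neg 0) 1 5 5 rfl rfl rfl rfl).symm
  have h3 : FEqv [(.cup (), 0), (.cup (), 1), (.neg, 2), (.neg, 3), (.pos, 1), (.neg, 3),
      (.neg, 2), (.neg, 1), (.neg, 3), (.cap, 2), (.neg, 0), (.cap, 0)]
      [(.cup (), 0), (.cup (), 1), (.neg, 2), (.pos, 1), (.neg, 3), (.neg, 3), (.neg, 2),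
        (.neg, 1), (.neg, 3), (.cap, 2), (.neg, 0), (.cap, 0)] [()] [()] :=
    (iso8_move [(.cup (), 0), (.cup (), 1), (.neg, 2)]
      [(.neg, 3), (.neg, 2), (.neg, 1), (.neg, 3), (.cap, 2), (.neg, 0), (.cap, 0)]
      (FBase.far .pos .neg 0) 1 5 5 rfl rfl rfl rfl).symm
  have h4 : FEqv [(.cup (), 0), (.cup (), 1), (.neg, 2), (.pos, 1), (.neg, 3), (.neg, 3),
      (.neg, 2), (.neg, 1), (.neg, 3), (.cap, 2), (.neg, 0), (.cap, 0)]
      [(.cup (), 0), (.cup (), 1), (.neg, 2), (.pos, 1), (.neg, 3), (.neg, 3), (.neg, 2),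
        (.neg, 3), (.neg, 1), (.cap, 2), (.neg, 0), (.cap, 0)] [()] [()] :=
    iso8_move [(.cup (), 0), (.cup (), 1), (.neg, 2), (.pos, 1), (.neg, 3), (.neg, 3), (.neg, 2)]
      [(.cap, 2), (.neg, 0), (.cap, 0)]
      (FBase.far .neg .neg 0) 1 5 5 rfl rfl rfl rfl
  have h5 : FEqv [(.cup (), 0), (.cup (), 1), (.neg, 2), (.pos, 1), (.neg, 3), (.neg, 3),
      (.neg, 2), (.neg, 3), (.neg, 1), (.cap, 2), (.neg, 0), (.cap, 0)]
      [(.cup (), 0), (.cup (), 1), (.neg, 2), (.pos, 1), (.neg, 3), (.neg, 3), (.neg, 2),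
        (.neg, 3), (.pos, 2), (.cap, 1), (.neg, 0), (.cap, 0)] [()] [()] :=
    iso8_move [(.cup (), 0), (.cup (), 1), (.neg, 2), (.pos, 1), (.neg, 3), (.neg, 3),
      (.neg, 2), (.neg, 3)]
      [(.neg, 0), (.cap, 0)]
      (FBase.capUnder) 1 5 3 rfl rfl rfl rfl
  have h6 : FEqv [(.cup (), 0), (.cup (), 1), (.neg, 2), (.pos, 1), (.neg, 3), (.neg, 3),
      (.neg, 2), (.neg, 3), (.pos, 2), (.cap, 1), (.neg, 0), (.cap, 0)]
      [(.cup (), 0), (.cup (), 1), (.neg, 2), (.pos, 1), (.neg, 3), (.neg, 2), (.neg, 3),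
        (.neg, 2), (.pos, 2), (.cap, 1), (.neg, 0), (.cap, 0)] [()] [()] :=
    (iso8_move [(.cup (), 0), (.cup (), 1), (.neg, 2), (.pos, 1), (.neg, 3)]
      [(.pos, 2), (.cap, 1), (.neg, 0), (.cap, 0)]
      (FBase.r3nnn) 2 5 5 rfl rfl rfl rfl).symm
  have h7 : FEqv [(.cup (), 0), (.cup (), 1), (.neg, 2), (.pos, 1), (.neg, 3), (.neg, 2),
      (.neg, 3), (.neg, 2), (.pos, 2), (.cap, 1), (.neg, 0), (.cap, 0)]
      [(.cup (), 0), (.cup (), 1), (.neg, 2), (.pos, 1), (.neg, 3), (.neg, 2), (.neg, 3),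
        (.cap, 1), (.neg, 0), (.cap, 0)] [()] [()] :=
    iso8_move [(.cup (), 0), (.cup (), 1), (.neg, 2), (.pos, 1), (.neg, 3), (.neg, 2), (.neg, 3)]
      [(.cap, 1), (.neg, 0), (.cap, 0)]
      (FBase.r2NegPos) 2 5 5 rfl rfl rfl rfl
  have h8 : FEqv [(.cup (), 0), (.cup (), 1), (.neg, 2), (.pos, 1), (.neg, 3), (.neg, 2),
      (.neg, 3), (.cap, 1), (.neg, 0), (.cap, 0)]
      [(.cup (), 0), (.cup (), 1), (.neg, 2), (.pos, 1), (.neg, 3), (.neg, 2), (.cap, 1),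
        (.neg, 1), (.neg, 0), (.cap, 0)] [()] [()] :=
    (iso8_move [(.cup (), 0), (.cup (), 1), (.neg, 2), (.pos, 1), (.neg, 3), (.neg, 2)]
      [(.neg, 0), (.cap, 0)]
      (FBase.far .cap .neg 0) 1 5 3 rfl rfl rfl rfl).symm
  have h9 : FEqv [(.cup (), 0), (.cup (), 1), (.neg, 2), (.pos, 1), (.neg, 3), (.neg, 2),
      (.cap, 1), (.neg, 1), (.neg, 0), (.cap, 0)]
      [(.cup (), 0), (.cup (), 1), (.neg, 2), (.pos, 1), (.neg, 3), (.neg, 2), (.pos, 3),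
        (.neg, 3), (.cap, 1), (.neg, 1), (.neg, 0), (.cap, 0)] [()] [()] :=
    (iso8_move [(.cup (), 0), (.cup (), 1), (.neg, 2), (.pos, 1), (.neg, 3), (.neg, 2)]
      [(.cap, 1), (.neg, 1), (.neg, 0), (.cap, 0)]
      (FBase.r2PosNeg) 3 5 5 rfl rfl rfl rfl).symm
  exact ((((((((h0.trans h1).trans h2).trans h3).trans h4).trans h5).trans h6).trans h7).trans h8).trans h9

private theorem iso8_3 : FEqv
    [(.cup (), 0), (.cup (), 1), (.neg, 2), (.pos, 1), (.neg, 3), (.neg, 2), (.pos, 3),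
      (.neg, 3), (.cap, 1), (.neg, 1), (.neg, 0), (.cap, 0)]
    [(.cup (), 0), (.cup (), 2), (.pos, 2), (.neg, 1), (.neg, 3), (.cap, 2), (.neg, 1),
      (.neg, 1), (.neg, 0), (.cap, 0)]
    [()] [()] := by
  have h0 : FEqv [(.cup (), 0), (.cup (), 1), (.neg, 2), (.pos, 1), (.neg, 3), (.neg, 2),
      (.pos, 3), (.neg, 3), (.cap, 1), (.neg, 1), (.neg, 0), (.cap, 0)]
      [(.cup (), 0), (.cup (), 1), (.neg, 2), (.pos, 1), (.pos, 2), (.neg, 3), (.neg, 2),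
        (.neg, 3), (.cap, 1), (.neg, 1), (.neg, 0), (.cap, 0)] [()] [()] :=
    (iso8_move [(.cup (), 0), (.cup (), 1), (.neg, 2), (.pos, 1)]
      [(.neg, 3), (.cap, 1), (.neg, 1), (.neg, 0), (.cap, 0)]
      (FBase.r3pnn) 2 5 5 rfl rfl rfl rfl).symm
  have h1 : FEqv [(.cup (), 0), (.cup (), 1), (.neg, 2), (.pos, 1), (.pos, 2), (.neg, 3),
      (.neg, 2), (.neg, 3), (.cap, 1), (.neg, 1), (.neg, 0), (.cap, 0)]
      [(.cup (), 0), (.cup (), 1), (.neg, 2), (.pos, 1), (.pos, 2), (.neg, 3), (.neg, 2),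
        (.cap, 1), (.neg, 1), (.neg, 1), (.neg, 0), (.cap, 0)] [()] [()] :=
    (iso8_move [(.cup (), 0), (.cup (), 1), (.neg, 2), (.pos, 1), (.pos, 2), (.neg, 3), (.neg, 2)]
      [(.neg, 1), (.neg, 0), (.cap, 0)]
      (FBase.far .cap .neg 0) 1 5 3 rfl rfl rfl rfl).symm
  have h2 : FEqv [(.cup (), 0), (.cup (), 1), (.neg, 2), (.pos, 1), (.pos, 2), (.neg, 3),
      (.neg, 2), (.cap, 1), (.neg, 1), (.neg, 1), (.neg, 0), (.cap, 0)]
      [(.cup (), 0), (.cup (), 1), (.neg, 2), (.pos, 1), (.pos, 2), (.neg, 3), (.pos, 1),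
        (.cap, 2), (.neg, 1), (.neg, 1), (.neg, 0), (.cap, 0)] [()] [()] :=
    (iso8_move [(.cup (), 0), (.cup (), 1), (.neg, 2), (.pos, 1), (.pos, 2), (.neg, 3)]
      [(.neg, 1), (.neg, 1), (.neg, 0), (.cap, 0)]
      (FBase.capOver) 1 5 3 rfl rfl rfl rfl).symm
  have h3 : FEqv [(.cup (), 0), (.cup (), 1), (.neg, 2), (.pos, 1), (.pos, 2), (.neg, 3),
      (.pos, 1), (.cap, 2), (.neg, 1), (.neg, 1), (.neg, 0), (.cap, 0)]
      [(.cup (), 0), (.cup (), 1), (.neg, 2), (.pos, 1), (.pos, 2), (.pos, 1), (.neg, 3),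
        (.cap, 2), (.neg, 1), (.neg, 1), (.neg, 0), (.cap, 0)] [()] [()] :=
    (iso8_move [(.cup (), 0), (.cup (), 1), (.neg, 2), (.pos, 1), (.pos, 2)]
      [(.cap, 2), (.neg, 1), (.neg, 1), (.neg, 0), (.cap, 0)]
      (FBase.far .pos .neg 0) 1 5 5 rfl rfl rfl rfl).symm
  have h4 : FEqv [(.cup (), 0), (.cup (), 1), (.neg, 2), (.pos, 1), (.pos, 2), (.pos, 1),
      (.neg, 3), (.cap, 2), (.neg, 1), (.neg, 1), (.neg, 0), (.cap, 0)]
      [(.cup (), 0), (.cup (), 1), (.neg, 2), (.pos, 2), (.pos, 1), (.pos, 2), (.neg, 3),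
        (.cap, 2), (.neg, 1), (.neg, 1), (.neg, 0), (.cap, 0)] [()] [()] :=
    iso8_move [(.cup (), 0), (.cup (), 1), (.neg, 2)]
      [(.neg, 3), (.cap, 2), (.neg, 1), (.neg, 1), (.neg, 0), (.cap, 0)]
      (FBase.r3) 1 5 5 rfl rfl rfl rfl
  have h5 : FEqv [(.cup (), 0), (.cup (), 1), (.neg, 2), (.pos, 2), (.pos, 1), (.pos, 2),
      (.neg, 3), (.cap, 2), (.neg, 1), (.neg, 1), (.neg, 0), (.cap, 0)]
      [(.cup (), 0), (.cup (), 1), (.pos, 1), (.pos, 2), (.neg, 3), (.cap, 2), (.neg, 1),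
        (.neg, 1), (.neg, 0), (.cap, 0)] [()] [()] :=
    iso8_move [(.cup (), 0), (.cup (), 1)]
      [(.pos, 1), (.pos, 2), (.neg, 3), (.cap, 2), (.neg, 1), (.neg, 1), (.neg, 0), (.cap, 0)]
      (FBase.r2NegPos) 2 5 5 rfl rfl rfl rfl
  have h6 : FEqv [(.cup (), 0), (.cup (), 1), (.pos, 1), (.pos, 2), (.neg, 3), (.cap, 2),
      (.neg, 1), (.neg, 1), (.neg, 0), (.cap, 0)]
      [(.cup (), 0), (.cup (), 1), (.pos, 1), (.pos, 2), (.pos, 1), (.neg, 1), (.neg, 3),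
        (.cap, 2), (.neg, 1), (.neg, 1), (.neg, 0), (.cap, 0)] [()] [()] :=
    (iso8_move [(.cup (), 0), (.cup (), 1), (.pos, 1), (.pos, 2)]
      [(.neg, 3), (.cap, 2), (.neg, 1), (.neg, 1), (.neg, 0), (.cap, 0)]
      (FBase.r2PosNeg) 1 5 5 rfl rfl rfl rfl).symm
  have h7 : FEqv [(.cup (), 0), (.cup (), 1), (.pos, 1), (.pos, 2), (.pos, 1), (.neg, 1),
      (.neg, 3), (.cap, 2), (.neg, 1), (.neg, 1), (.neg, 0), (.cap, 0)]
      [(.cup (), 0), (.cup (), 1), (.pos, 2), (.pos, 1), (.pos, 2), (.neg, 1), (.neg, 3),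
        (.cap, 2), (.neg, 1), (.neg, 1), (.neg, 0), (.cap, 0)] [()] [()] :=
    iso8_move [(.cup (), 0), (.cup (), 1)]
      [(.neg, 1), (.neg, 3), (.cap, 2), (.neg, 1), (.neg, 1), (.neg, 0), (.cap, 0)]
      (FBase.r3) 1 5 5 rfl rfl rfl rfl
  have h8 : FEqv [(.cup (), 0), (.cup (), 1), (.pos, 2), (.pos, 1), (.pos, 2), (.neg, 1),
      (.neg, 3), (.cap, 2), (.neg, 1), (.neg, 1), (.neg, 0), (.cap, 0)]
      [(.cup (), 0), (.cup (), 2), (.neg, 1), (.pos, 1), (.pos, 2), (.neg, 1), (.neg, 3),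
        (.cap, 2), (.neg, 1), (.neg, 1), (.neg, 0), (.cap, 0)] [()] [()] :=
    (iso8_move [(.cup (), 0)]
      [(.pos, 1), (.pos, 2), (.neg, 1), (.neg, 3), (.cap, 2), (.neg, 1), (.neg, 1), (.neg, 0),
        (.cap, 0)]
      (FBase.cupUnder) 1 3 5 rfl rfl rfl rfl).symm
  have h9 : FEqv [(.cup (), 0), (.cup (), 2), (.neg, 1), (.pos, 1), (.pos, 2), (.neg, 1),
      (.neg, 3), (.cap, 2), (.neg, 1), (.neg, 1), (.neg, 0), (.cap, 0)]
      [(.cup (), 0), (.cup (), 2), (.pos, 2), (.neg, 1), (.neg, 3), (.cap, 2), (.neg, 1),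
        (.neg, 1), (.neg, 0), (.cap, 0)] [()] [()] :=
    iso8_move [(.cup (), 0), (.cup (), 2)]
      [(.pos, 2), (.neg, 1), (.neg, 3), (.cap, 2), (.neg, 1), (.neg, 1), (.neg, 0), (.cap, 0)]
      (FBase.r2NegPos) 1 5 5 rfl rfl rfl rfl
  exact ((((((((h0.trans h1).trans h2).trans h3).trans h4).trans h5).trans h6).trans h7).trans h8).trans h9

private theorem iso8_4 : FEqv
    [(.cup (), 0), (.cup (), 2), (.pos, 2), (.neg, 1), (.neg, 3), (.cap, 2), (.neg, 1),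
      (.neg, 1), (.neg, 0), (.cap, 0)]
    [(.cup (), 0), (.pos, 0), (.neg, 1), (.cup (), 1), (.cap, 2), (.neg, 1), (.neg, 0),
      (.neg, 0), (.pos, 1), (.cap, 0)]
    [()] [()] := by
  have h0 : FEqv [(.cup (), 0), (.cup (), 2), (.pos, 2), (.neg, 1), (.neg, 3), (.cap, 2),
      (.neg, 1), (.neg, 1), (.neg, 0), (.cap, 0)]
      [(.cup (), 0), (.cup (), 2), (.pos, 2), (.neg, 1), (.neg, 3), (.cap, 2), (.neg, 1),
        (.neg, 1), (.neg, 0), (.neg, 1), (.pos, 1), (.cap, 0)] [()] [()] :=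
    (iso8_move [(.cup (), 0), (.cup (), 2), (.pos, 2), (.neg, 1), (.neg, 3), (.cap, 2),
      (.neg, 1), (.neg, 1), (.neg, 0)]
      [(.cap, 0)]
      (FBase.r2NegPos) 1 3 3 rfl rfl rfl rfl).symm
  have h1 : FEqv [(.cup (), 0), (.cup (), 2), (.pos, 2), (.neg, 1), (.neg, 3), (.cap, 2),
      (.neg, 1), (.neg, 1), (.neg, 0), (.neg, 1), (.pos, 1), (.cap, 0)]
      [(.cup (), 0), (.cup (), 2), (.pos, 2), (.neg, 1), (.neg, 3), (.cap, 2), (.neg, 1),
        (.neg, 0), (.neg, 1), (.neg, 0), (.pos, 1), (.cap, 0)] [()] [()] :=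
    (iso8_move [(.cup (), 0), (.cup (), 2), (.pos, 2), (.neg, 1), (.neg, 3), (.cap, 2), (.neg, 1)]
      [(.pos, 1), (.cap, 0)]
      (FBase.r3nnn) 0 3 3 rfl rfl rfl rfl).symm
  have h2 : FEqv [(.cup (), 0), (.cup (), 2), (.pos, 2), (.neg, 1), (.neg, 3), (.cap, 2),
      (.neg, 1), (.neg, 0), (.neg, 1), (.neg, 0), (.pos, 1), (.cap, 0)]
      [(.cup (), 0), (.cup (), 2), (.pos, 2), (.neg, 1), (.neg, 3), (.cap, 2), (.neg, 0),
        (.neg, 1), (.neg, 0), (.neg, 0), (.pos, 1), (.cap, 0)] [()] [()] :=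
    (iso8_move [(.cup (), 0), (.cup (), 2), (.pos, 2), (.neg, 1), (.neg, 3), (.cap, 2)]
      [(.neg, 0), (.pos, 1), (.cap, 0)]
      (FBase.r3nnn) 0 3 3 rfl rfl rfl rfl).symm
  have h3 : FEqv [(.cup (), 0), (.cup (), 2), (.pos, 2), (.neg, 1), (.neg, 3), (.cap, 2),
      (.neg, 0), (.neg, 1), (.neg, 0), (.neg, 0), (.pos, 1), (.cap, 0)]
      [(.cup (), 0), (.cup (), 2), (.pos, 2), (.neg, 1), (.neg, 3), (.neg, 0), (.cap, 2),
        (.neg, 1), (.neg, 0), (.neg, 0), (.pos, 1), (.cap, 0)] [()] [()] :=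
    (iso8_move [(.cup (), 0), (.cup (), 2), (.pos, 2), (.neg, 1), (.neg, 3)]
      [(.neg, 1), (.neg, 0), (.neg, 0), (.pos, 1), (.cap, 0)]
      (FBase.far .neg .cap 0) 0 5 3 rfl rfl rfl rfl).symm
  have h4 : FEqv [(.cup (), 0), (.cup (), 2), (.pos, 2), (.neg, 1), (.neg, 3), (.neg, 0),
      (.cap, 2), (.neg, 1), (.neg, 0), (.neg, 0), (.pos, 1), (.cap, 0)]
      [(.cup (), 0), (.cup (), 2), (.pos, 2), (.neg, 1), (.neg, 0), (.neg, 3), (.cap, 2),
        (.neg, 1), (.neg, 0), (.neg, 0), (.pos, 1), (.cap, 0)] [()] [()] :=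
    (iso8_move [(.cup (), 0), (.cup (), 2), (.pos, 2), (.neg, 1)]
      [(.cap, 2), (.neg, 1), (.neg, 0), (.neg, 0), (.pos, 1), (.cap, 0)]
      (FBase.far .neg .neg 1) 0 5 5 rfl rfl rfl rfl).symm
  have h5 : FEqv [(.cup (), 0), (.cup (), 2), (.pos, 2), (.neg, 1), (.neg, 0), (.neg, 3),
      (.cap, 2), (.neg, 1), (.neg, 0), (.neg, 0), (.pos, 1), (.cap, 0)]
      [(.cup (), 0), (.cup (), 0), (.pos, 2), (.neg, 1), (.neg, 0), (.neg, 3), (.cap, 2),
        (.neg, 1), (.neg, 0), (.neg, 0), (.pos, 1), (.cap, 0)] [()] [()] :=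
    iso8_move []
      [(.pos, 2), (.neg, 1), (.neg, 0), (.neg, 3), (.cap, 2), (.neg, 1), (.neg, 0), (.neg, 0),
        (.pos, 1), (.cap, 0)]
      (FBase.far (.cup ()) (.cup ()) 0) 0 1 5 rfl rfl rfl rfl
  have h6 : FEqv [(.cup (), 0), (.cup (), 0), (.pos, 2), (.neg, 1), (.neg, 0), (.neg, 3),
      (.cap, 2), (.neg, 1), (.neg, 0), (.neg, 0), (.pos, 1), (.cap, 0)]
      [(.cup (), 0), (.pos, 0), (.cup (), 0), (.neg, 1), (.neg, 0), (.neg, 3), (.cap, 2),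
        (.neg, 1), (.neg, 0), (.neg, 0), (.pos, 1), (.cap, 0)] [()] [()] :=
    iso8_move [(.cup (), 0)]
      [(.neg, 1), (.neg, 0), (.neg, 3), (.cap, 2), (.neg, 1), (.neg, 0), (.neg, 0), (.pos, 1),
        (.cap, 0)]
      (FBase.far (.cup ()) .pos 0) 0 3 5 rfl rfl rfl rfl
  have h7 : FEqv [(.cup (), 0), (.pos, 0), (.cup (), 0), (.neg, 1), (.neg, 0), (.neg, 3),
      (.cap, 2), (.neg, 1), (.neg, 0), (.neg, 0), (.pos, 1), (.cap, 0)]
      [(.cup (), 0), (.pos, 0), (.cup (), 1), (.pos, 0), (.neg, 0), (.neg, 3), (.cap, 2),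
        (.neg, 1), (.neg, 0), (.neg, 0), (.pos, 1), (.cap, 0)] [()] [()] :=
    (iso8_move [(.cup (), 0), (.pos, 0)]
      [(.neg, 0), (.neg, 3), (.cap, 2), (.neg, 1), (.neg, 0), (.neg, 0), (.pos, 1), (.cap, 0)]
      (FBase.cupOver) 0 3 5 rfl rfl rfl rfl).symm
  have h8 : FEqv [(.cup (), 0), (.pos, 0), (.cup (), 1), (.pos, 0), (.neg, 0), (.neg, 3),
      (.cap, 2), (.neg, 1), (.neg, 0), (.neg, 0), (.pos, 1), (.cap, 0)]
      [(.cup (), 0), (.pos, 0), (.cup (), 1), (.neg, 3), (.cap, 2), (.neg, 1), (.neg, 0),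
        (.neg, 0), (.pos, 1), (.cap, 0)] [()] [()] :=
    iso8_move [(.cup (), 0), (.pos, 0), (.cup (), 1)]
      [(.neg, 3), (.cap, 2), (.neg, 1), (.neg, 0), (.neg, 0), (.pos, 1), (.cap, 0)]
      (FBase.r2PosNeg) 0 5 5 rfl rfl rfl rfl
  have h9 : FEqv [(.cup (), 0), (.pos, 0), (.cup (), 1), (.neg, 3), (.cap, 2), (.neg, 1),
      (.neg, 0), (.neg, 0), (.pos, 1), (.cap, 0)]
      [(.cup (), 0), (.pos, 0), (.neg, 1), (.cup (), 1), (.cap, 2), (.neg, 1), (.neg, 0),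
        (.neg, 0), (.pos, 1), (.cap, 0)] [()] [()] :=
    iso8_move [(.cup (), 0), (.pos, 0)]
      [(.cap, 2), (.neg, 1), (.neg, 0), (.neg, 0), (.pos, 1), (.cap, 0)]
      (FBase.far (.cup ()) .neg 0) 1 3 5 rfl rfl rfl rfl
  exact ((((((((h0.trans h1).trans h2).trans h3).trans h4).trans h5).trans h6).trans h7).trans h8).trans h9

private theorem iso8_5 : FEqv
    [(.cup (), 0), (.pos, 0), (.neg, 1), (.cup (), 1), (.cap, 2), (.neg, 1), (.neg, 0),
      (.neg, 0), (.pos, 1), (.cap, 0)]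
    [(.cup (), 1), (.neg, 0), (.pos, 1), (.neg, 0), (.pos, 1), (.cap, 0)]
    [()] [()] := by
  have h0 : FEqv [(.cup (), 0), (.pos, 0), (.neg, 1), (.cup (), 1), (.cap, 2), (.neg, 1),
      (.neg, 0), (.neg, 0), (.pos, 1), (.cap, 0)]
      [(.cup (), 0), (.pos, 0), (.neg, 1), (.neg, 1), (.neg, 0), (.neg, 0), (.pos, 1),
        (.cap, 0)] [()] [()] :=
    iso8_move [(.cup (), 0), (.pos, 0), (.neg, 1)]
      [(.neg, 1), (.neg, 0), (.neg, 0), (.pos, 1), (.cap, 0)]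
      (FBase.zag) 1 3 3 rfl rfl rfl rfl
  have h1 : FEqv [(.cup (), 0), (.pos, 0), (.neg, 1), (.neg, 1), (.neg, 0), (.neg, 0),
      (.pos, 1), (.cap, 0)]
      [(.cup (), 0), (.pos, 0), (.neg, 1), (.neg, 1), (.neg, 0), (.neg, 1), (.pos, 1),
        (.neg, 0), (.pos, 1), (.cap, 0)] [()] [()] :=
    (iso8_move [(.cup (), 0), (.pos, 0), (.neg, 1), (.neg, 1), (.neg, 0)]
      [(.neg, 0), (.pos, 1), (.cap, 0)]
      (FBase.r2NegPos) 1 3 3 rfl rfl rfl rfl).symm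
  have h2 : FEqv [(.cup (), 0), (.pos, 0), (.neg, 1), (.neg, 1), (.neg, 0), (.neg, 1),
      (.pos, 1), (.neg, 0), (.pos, 1), (.cap, 0)]
      [(.cup (), 0), (.pos, 0), (.neg, 1), (.neg, 0), (.neg, 1), (.neg, 0), (.pos, 1),
        (.neg, 0), (.pos, 1), (.cap, 0)] [()] [()] :=
    (iso8_move [(.cup (), 0), (.pos, 0), (.neg, 1)]
      [(.pos, 1), (.neg, 0), (.pos, 1), (.cap, 0)]
      (FBase.r3nnn) 0 3 3 rfl rfl rfl rfl).symm
  have h3 : FEqv [(.cup (), 0), (.pos, 0), (.neg, 1), (.neg, 0), (.neg, 1), (.neg, 0),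
      (.pos, 1), (.neg, 0), (.pos, 1), (.cap, 0)]
      [(.cup (), 0), (.pos, 0), (.neg, 0), (.neg, 1), (.neg, 0), (.neg, 0), (.pos, 1),
        (.neg, 0), (.pos, 1), (.cap, 0)] [()] [()] :=
    (iso8_move [(.cup (), 0), (.pos, 0)]
      [(.neg, 0), (.pos, 1), (.neg, 0), (.pos, 1), (.cap, 0)]
      (FBase.r3nnn) 0 3 3 rfl rfl rfl rfl).symm
  have h4 : FEqv [(.cup (), 0), (.pos, 0), (.neg, 0), (.neg, 1), (.neg, 0), (.neg, 0),
      (.pos, 1), (.neg, 0), (.pos, 1), (.cap, 0)]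
      [(.cup (), 0), (.neg, 1), (.neg, 0), (.neg, 0), (.pos, 1), (.neg, 0), (.pos, 1),
        (.cap, 0)] [()] [()] :=
    iso8_move [(.cup (), 0)]
      [(.neg, 1), (.neg, 0), (.neg, 0), (.pos, 1), (.neg, 0), (.pos, 1), (.cap, 0)]
      (FBase.r2PosNeg) 0 3 3 rfl rfl rfl rfl
  have h5 : FEqv [(.cup (), 0), (.neg, 1), (.neg, 0), (.neg, 0), (.pos, 1), (.neg, 0),
      (.pos, 1), (.cap, 0)]
      [(.cup (), 1), (.pos, 0), (.neg, 0), (.neg, 0), (.pos, 1), (.neg, 0), (.pos, 1),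
        (.cap, 0)] [()] [()] :=
    (iso8_move []
      [(.neg, 0), (.neg, 0), (.pos, 1), (.neg, 0), (.pos, 1), (.cap, 0)]
      (FBase.cupOver) 0 1 3 rfl rfl rfl rfl).symm
  have h6 : FEqv [(.cup (), 1), (.pos, 0), (.neg, 0), (.neg, 0), (.pos, 1), (.neg, 0),
      (.pos, 1), (.cap, 0)]
      [(.cup (), 1), (.neg, 0), (.pos, 1), (.neg, 0), (.pos, 1), (.cap, 0)] [()] [()] :=
    iso8_move [(.cup (), 1)]
      [(.neg, 0), (.pos, 1), (.neg, 0), (.pos, 1), (.cap, 0)]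
      (FBase.r2PosNeg) 0 3 3 rfl rfl rfl rfl
  exact (((((h0.trans h1).trans h2).trans h3).trans h4).trans h5).trans h6

/-- The figure eight knot, cut open, and its mirror image are related by framed moves. -/
theorem fig8_mirror : FEqv fig8 (mirror fig8) [()] [()] :=
  ((((iso8_0.trans iso8_1).trans iso8_2).trans iso8_3).trans iso8_4).trans iso8_5

end Pool.Agent.Lib.MP_decac5_gt
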