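import Pool.Agent.Lib.MP_decac5_gt.Cab
import Pool.Agent.Lib.MP_decac5_gt.Iso8

/-!
# The knot and its mirror image are related by one crossing change
-/

set_option autoImplicit false
set_option linter.unusedSectionVars false

namespace Pool.Agent.Lib.MP_decac5_gt

open Pool.Agent.Lib.MP_131179_gt

/-- The mirror image of the diagram is the diagram with the other crossing, in which the tangles
are replaced by their mirror images. -/
private theorem cross_mirror_kW : mirror kW = kWord .pos (mirror fig8) := rfl

/-- A block on `m` strands at the position `l`. -/
private theorem cross_block (n l r : ℕ) :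
    Eqv (triv Unit) (shift l (cable n (mirror fig8))) (shift l (cable n fig8))
      (List.replicate (l + (n + r)) ()) (List.replicate (l + (n + r)) ()) := by
  have h1 := (cable_eqv n fig8_mirror).symm
  simp only [List.length_cons, List.length_nil, Nat.zero_add, Nat.mul_one] at h1
  have h2 := (h1.right (List.replicate r ())).shift_left (List.replicate l ())
  rw [List.length_replicate] at h2
  have e : List.replicate l () ++ (List.replicate n () ++ List.replicate r ()) =
      List.replicate (l + (n + r)) () := by
    rw [List.replicate_add, List.replicate_add]
  rw [e] at h2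
  exact h2

private theorem cross_mid :
    Eqv (triv Unit) (kMid (mirror fig8)) (kMid fig8) (List.replicate 8 ())
      (List.replicate 8 ()) :=
  Eqv.comp (cross_block 3 1 4) (cross_block 2 5 1)

private theorem cross_bot : Path (triv Unit) (kBot ++ [(.pos, 1)]) [] (List.replicate 8 ()) := by
  refine Path.cons (Step.cup () []) ?_
  refine Path.cons (Step.there () (Step.there () (Step.cup () []))) ?_
  refine Path.cons (Step.there () (Step.there () (Step.there () (Step.cup () [()])))) ?_
  refine Path.cons (Step.there () (Step.there () (Step.there () (Step.there ()
    (Step.cup () [(), ()]))))) ?_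
  refine Path.cons (Step.there () (Step.pos () () _)) ?_
  exact Path.nil _

private theorem cross_top : Path (triv Unit) kTop (List.replicate 8 ()) [] := by
  refine Path.cons (Step.there () (Step.there () (Step.there () (Step.cap () [(), (), ()])))) ?_
  refine Path.cons (Step.there () (Step.there () (Step.cap () [(), ()]))) ?_
  refine Path.cons (Step.cap () [(), ()]) ?_
  refine Path.cons (Step.cap () []) ?_
  exact Path.nil _

private theorem cross_split (J : Word Unit) :
    kWord .pos J = (kBot ++ [(.pos, 1)]) ++ (kMid J ++ kTop) := rfl

private theorem cross_eqv : Eqv (triv Unit) (mirror kW) (kWord .pos fig8) [] [] := by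
  rw [cross_mirror_kW, cross_split, cross_split]
  exact Eqv.comp (Eqv.refl cross_bot) (Eqv.comp cross_mid (Eqv.refl cross_top))

theorem crossing_kL : CrossingChange kL (mirrorLink kL) := by
  refine ⟨kBot, kMid fig8 ++ kTop, .neg, 1, Or.inr rfl, isDiag_kW, ?_⟩
  refine ⟨cross_eqv.path_right, ?_⟩
  exact Quotient.sound (s := linkSetoid) (a := ⟨mirror kW, path_kW.mirror⟩) cross_eqv

end Pool.Agent.Lib.MP_decac5_gt
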