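import Pool.Agent.Lib.MP_131179_gt.Iso

/-!
# Mirror images, crossing changes, parallels, Seifert forms of closed braids

Links are given by tangle words as in `Pool.Agent.Lib.MP_131179_gt.Defs`.
-/

set_option autoImplicit false

namespace Pool.Agent.Lib.MP_decac5_gt

open Pool.Agent.Lib.MP_131179_gt

/-! ### Mirror images and crossing changes -/

/-- The mirror image of a link: switch all the crossings of a diagram. -/
def mirrorLink : Link → Link :=
  Quotient.map (fun w : Diagram => (⟨mirror w.1, w.2.mirror⟩ : Diagram)) fun _ _ h =>
    Eqv.mirror h

/-- `L` can be transformed into `L'` by one crossing change: some diagram of `L` has a crossing such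
that switching it gives a diagram of `L'`. -/
def CrossingChange (L L' : Link) : Prop :=
  ∃ (u v : Word Unit) (k : Kind Unit) (i : ℕ), (k = .pos ∨ k = .neg) ∧
    IsDiag (u ++ (k, i) :: v) L ∧ IsDiag (u ++ (k.mirror, i) :: v) L'

/-! ### Closed braids and their Seifert forms -/

/-- The letter of a braid: `(true, i)` is the crossing `pos` and `(false, i)` is the crossing `neg`
of the strands number `i` and `i + 1`. -/
abbrev BLetter : Type := Bool × ℕ

/-- The word of a braid. -/
def bWord (b : List BLetter) : Word Unit := b.map fun l => (if l.1 then .pos else .neg, l.2)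

/-- The closure of a braid with `n` strands. -/
def bClosure (n : ℕ) (b : List BLetter) : Word Unit :=
  ((List.range n).map fun r => (Kind.cup (), r)) ++ bWord b ++
    ((List.range n).map fun r => (Kind.cap, n - 1 - r))

/-- The first homology of the Seifert surface of a closed braid. The surface (Seifert's algorithm)
consists of one disc for each strand, and of one half twisted band for each letter; the band of the
letter `(s, i)` connects the discs number `i` and `i + 1`. A class is given by the numbers of passages
through the bands, in the direction from the disc `i` to the disc `i + 1`; for every `i`, their sum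
over the bands from the disc `i` to the disc `i + 1` vanishes. -/
def cyc (R : Type) [CommRing R] (b : List BLetter) : Submodule R (Fin b.length → R) where
  carrier := {e | ∀ i : ℕ, ∑ k, (if b[k].2 = i then e k else 0) = 0}
  add_mem' := by
    intro e f he hf i
    have h1 : ∑ k, (if b[k].2 = i then e k else 0) = 0 := he i
    have h2 : ∑ k, (if b[k].2 = i then f k else 0) = 0 := hf i
    have h3 : ∑ k, (if b[k].2 = i then (e + f) k else 0) =
        ∑ k, (if b[k].2 = i then e k else 0) + ∑ k, (if b[k].2 = i then f k else 0) := by
      rw [← Finset.sum_add_distrib]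
      refine Finset.sum_congr rfl fun k _ => ?_
      split_ifs <;> simp
    show ∑ k, (if b[k].2 = i then (e + f) k else 0) = 0
    rw [h3, h1, h2, add_zero]
  zero_mem' := by
    intro i
    simp
  smul_mem' := by
    intro r e he i
    have h1 : ∑ k, (if b[k].2 = i then e k else 0) = 0 := he i
    have h3 : ∑ k, (if b[k].2 = i then (r • e) k else 0) =
        r * ∑ k, (if b[k].2 = i then e k else 0) := by
      rw [Finset.mul_sum]
      refine Finset.sum_congr rfl fun k _ => ?_
      split_ifs <;> simp
    show ∑ k, (if b[k].2 = i then (r • e) k else 0) = 0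
    rw [h3, h1, mul_zero]

/-- The Seifert form of the Seifert surface of a closed braid: the linking number of a class with the
push-off of a class. -/
def seif {R : Type} [CommRing R] (b : List BLetter) (e f : Fin b.length → R) : R :=
  ∑ k, e k * (∑ l, (if l < k ∧ b[l].2 + 1 = b[k].2 then f l else 0) -
    ∑ l, (if l < k ∧ b[l].2 = b[k].2 then f l else 0) - (if b[k].1 then f k else 0))

/-- A link is algebraically slice: the Seifert matrix of a closed braid diagram of the link, in a
suitable basis of the first homology of the surface, has size `2g` and its upper left block of size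
`g` vanishes. -/
def AlgSlice (L : Link) : Prop :=
  ∃ (n : ℕ) (b : List BLetter), (∀ l ∈ b, l.2 + 1 < n) ∧ IsDiag (bClosure n b) L ∧
    ∃ (g : ℕ) (v : Module.Basis (Fin g ⊕ Fin g) ℤ (cyc ℤ b)),
      ∀ i j : Fin g, seif b (v (.inl i)).1 (v (.inl j)).1 = 0

/-! ### Parallels -/

/-- The word of the `n`-parallel of an elementary tangle: every strand is replaced by `n` parallel
strands. -/
def cableL (n : ℕ) : Kind Unit × ℕ → Word Unit
  | (.cup c, i) => (List.range n).map fun r => (.cup c, n * i + r)
  | (.cap, i) => (List.range n).map fun r => (.cap, n * i + (n - 1 - r))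
  | (.pos, i) => (List.range n).flatMap fun r =>
      (List.range n).map fun s => (.pos, n * i + (n - 1 - r) + s)
  | (.neg, i) => (List.range n).flatMap fun r =>
      (List.range n).map fun s => (.neg, n * i + (n - 1 - r) + s)

/-- The `n`-parallel of a word. -/
def cable (n : ℕ) (w : Word Unit) : Word Unit := w.flatMap (cableL n)

/-! ### The knot -/

/-- The figure eight knot, as a tangle with one strand at the bottom and one strand at the top. -/
def fig8 : Word Unit := [(.cup (), 1), (.pos, 0), (.neg, 1), (.pos, 0), (.neg, 1), (.cap, 0)]

/-- The beginning of the diagram: four minima. -/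
def kBot : Word Unit := [(.cup (), 0), (.cup (), 2), (.cup (), 3), (.cup (), 4)]

/-- The end of the diagram: four maxima. -/
def kTop : Word Unit := [(.cap, 3), (.cap, 2), (.cap, 0), (.cap, 0)]

/-- The two blocks: three parallel strands are tied into the knot `J`, then two parallel strands are
tied into the knot `J`. -/
def kMid (J : Word Unit) : Word Unit := shift 1 (cable 3 J) ++ shift 5 (cable 2 J)

/-- The diagram with the crossing `k`. -/
def kWord (k : Kind Unit) (J : Word Unit) : Word Unit := kBot ++ (k, 1) :: (kMid J ++ kTop)

/-- The diagram of the knot: 53 crossings. -/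
def kW : Word Unit := kWord .neg fig8

example : cr kW = 53 := by decide

/-! ### Longitudes -/

section lon

variable {G : Type} [Group G]

/-- The palette of the lifts of the labels: the label `(y, s)` covers the label `y⁻¹ x₀ y` (if `s`) or
its inverse. -/
def lonP (x0 : G) : Palette (G × Bool) where
  bar := fun x => (x.1, !x.2)
  act := fun x z => if z.2 then (x0⁻¹ * x.1 * (z.1⁻¹ * x0 * z.1), x.2)
    else (x0 * x.1 * (z.1⁻¹ * x0⁻¹ * z.1), x.2)
  bar_bar := fun x => by simp
  act_bar := fun x y => by
    obtain ⟨x, s⟩ := x
    obtain ⟨y, r⟩ := y
    cases r <;> simp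
  act_act_bar := fun x y => by
    obtain ⟨x, s⟩ := x
    obtain ⟨y, r⟩ := y
    cases r <;> simp <;> group
  act_self := fun x => by
    obtain ⟨x, s⟩ := x
    cases s <;> simp <;> group
  act_dist := fun x y z => by
    obtain ⟨x, s⟩ := x
    obtain ⟨y, r⟩ := y
    obtain ⟨z, q⟩ := z
    cases r <;> cases q <;> simp <;> group

/-- The label covered by `(y, s)`. -/
def lonf (x0 : G) (x : G × Bool) : G := if x.2 then x.1⁻¹ * x0 * x.1 else x.1⁻¹ * x0⁻¹ * x.1

end lon

/-- The longitude is trivial in every labelling: every labelling of a diagram, by conjugates of an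
element and of its inverse, lifts to a labelling by the palette `lonP`. -/
def LonTriv (L : Link) : Prop :=
  ∀ (G : Type) (_ : Group G) (x0 : G) (W : Word G), Path (conj G) W [] [] →
    IsDiag (wmap (fun _ => ()) W) L →
    (∀ c i, (Kind.cup c, i) ∈ W → ∃ x : G × Bool, c = lonf x0 x) →
    ∃ W' : Word (G × Bool), wmap (lonf x0) W' = W ∧ Path (lonP x0) W' [] []

end Pool.Agent.Lib.MP_decac5_gt
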