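import Pool.Agent.Lib.MP_decac5_gt.Base2

/-!
# The free product of a group and of an infinite cyclic group
-/

set_option autoImplicit false

namespace Pool.Agent.Lib.MP_decac5_gt

open Pool.Agent.Lib.MP_131179_gt

section

open HNNExtension HNNExtension.NormalWord

variable (A : Type) [Group A]

/-- The free product, as an extension with trivial associated subgroups. -/
private abbrev FPH : Type := HNNExtension A (⊥ : Subgroup A) ⊥ (MulEquiv.refl _)

/-- The transversal. -/
private def fpTr : TransversalPair A (⊥ : Subgroup A) ⊥ where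
  set := fun _ => Set.univ
  compl := fun u => by
    have h : toSubgroup (⊥ : Subgroup A) ⊥ u = ⊥ := by
      unfold toSubgroup
      split_ifs <;> rfl
    rw [h]
    exact Subgroup.isComplement_singleton_univ

private def fpSg (b : Bool) : ℤˣ := if b then 1 else -1

private theorem fpSg_inj {b c : Bool} (h : fpSg b = fpSg c) : b = c := by
  cases b <;> cases c
  · rfl
  · exact absurd h (by decide)
  · exact absurd h (by decide)
  · rfl

variable {A}

private theorem mem_toSubgroup_bot {a : A} {u : ℤˣ} :
    a ∈ toSubgroup (⊥ : Subgroup A) ⊥ u ↔ a = 1 := by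
  have h : toSubgroup (⊥ : Subgroup A) ⊥ u = ⊥ := by
    unfold toSubgroup
    split_ifs <;> rfl
  rw [h, Subgroup.mem_bot]

private theorem fp_pow (b : Bool) :
    (t : FPH A) ^ ((fpSg b : ℤˣ) : ℤ) = if b then (t : FPH A) else (t : FPH A)⁻¹ := by
  cases b
  · have h : ((fpSg false : ℤˣ) : ℤ) = -1 := rfl
    rw [h, zpow_neg_one]
    rfl
  · have h : ((fpSg true : ℤˣ) : ℤ) = 1 := rfl
    rw [h, zpow_one]
    rfl

/-- The word in normal form. -/
private def fpWord (a : A) (l : List (Bool × A)) (h : RedW l) : NormalWord (fpTr A) where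
  head := a
  toList := l.map fun x => (fpSg x.1, x.2)
  chain := by
    rw [List.isChain_map]
    refine List.IsChain.imp (fun x y hxy => ?_) h
    intro h1
    simp only at h1 ⊢
    rw [hxy (mem_toSubgroup_bot.1 h1)]
  mem_set := fun _ _ _ => Set.mem_univ _

private theorem fpWord_prod (a : A) (l : List (Bool × A)) (h : RedW l) :
    (fpWord a l h).prod (MulEquiv.refl (⊥ : Subgroup A)) =
      evW (of : A →* FPH A) (t : FPH A) a l := by
  unfold ReducedWord.prod evW
  show of a * (List.map _ (l.map fun x => (fpSg x.1, x.2))).prod = _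
  rw [List.map_map]
  refine congrArg (fun z : FPH A => of a * z) ?_
  refine congrArg List.prod ?_
  refine List.map_congr_left fun x _ => ?_
  show (t : FPH A) ^ ((fpSg x.1 : ℤˣ) : ℤ) * of x.2 = _
  rw [fp_pow]

end

theorem exists_free (A : Type) [Group A] : ∃ (H : Type) (_ : Group H) (i : A →* H) (w : H),
    FreeBy i w ∧
      ∀ (G : Type) [Group G] (f : A →* G) (g : G), ∃ F : H →* G, (∀ a, F (i a) = f a) ∧ F w = g := by
  refine ⟨FPH A, inferInstance, HNNExtension.of, HNNExtension.t, ⟨?_, ?_⟩, ?_⟩
  · intro h
    obtain ⟨w, hw⟩ := (HNNExtension.NormalWord.equiv (MulEquiv.refl (⊥ : Subgroup A))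
      (fpTr A)).symm.surjective h
    have hl : (w.toList.map fun x => ((if x.1 = 1 then true else false : Bool), x.2)).map
        (fun x => (fpSg x.1, x.2)) = w.toList := by
      rw [List.map_map]
      conv_rhs => rw [← List.map_id w.toList]
      refine List.map_congr_left fun x _ => ?_
      obtain ⟨u, a⟩ := x
      rcases Int.units_eq_one_or u with rfl | rfl
      · rfl
      · rfl
    have hred : RedW (w.toList.map fun x => ((if x.1 = 1 then true else false : Bool), x.2)) := by
      unfold RedW
      rw [List.isChain_map]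
      refine List.IsChain.imp (fun x y hxy => ?_) w.chain
      intro h1
      simp only at h1 ⊢
      rw [hxy (mem_toSubgroup_bot.2 h1)]
    refine ⟨w.head, _, hred, ?_⟩
    rw [← hw, ← fpWord_prod w.head _ hred]
    show w.prod _ = _
    congr 1
    have : w = fpWord w.head _ hred := by
      apply HNNExtension.NormalWord.ext
      · rfl
      · exact hl.symm
    rw [← this]
  · intro a a' l l' hl hl' h
    rw [← fpWord_prod a l hl, ← fpWord_prod a' l' hl'] at h
    have h1 := HNNExtension.NormalWord.prod_injective (MulEquiv.refl (⊥ : Subgroup A)) (fpTr A) h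
    have h2 := congrArg (fun w => w.toReducedWord.head) h1
    have h3 := congrArg (fun w => w.toReducedWord.toList) h1
    refine ⟨h2, ?_⟩
    refine List.map_injective_iff.2 ?_ h3
    rintro ⟨b, x⟩ ⟨c, y⟩ hxy
    rw [Prod.mk.injEq] at hxy
    exact Prod.ext (fpSg_inj hxy.1) hxy.2
  · intro G _ f g
    refine ⟨HNNExtension.lift f g ?_, fun a => HNNExtension.lift_of _ _ _ _,
      HNNExtension.lift_t _ _ _⟩
    intro a
    have h1 : (a : A) = 1 := Subgroup.mem_bot.1 a.2
    have h2 : ((MulEquiv.refl (⊥ : Subgroup A) a : (⊥ : Subgroup A)) : A) = 1 := h1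
    rw [h1, h2, map_one, mul_one, one_mul]

end Pool.Agent.Lib.MP_decac5_gt
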