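import Pool.Agent.Lib.MP_decac5_gt.Blk

/-!
# The labellings of the diagram of the knot
-/

set_option autoImplicit false

namespace Pool.Agent.Lib.MP_decac5_gt

open Pool.Agent.Lib.MP_131179_gt

variable {C D : Type}

/-- A maximum to the right of the strands `l`. -/
theorem KPath_cap {P : Palette C} (l : List C) (x y : C) (r t : List C) :
    Step P .cap l.length (l ++ x :: y :: r) t ↔ y = P.bar x ∧ t = l ++ r := by
  induction l generalizing t with
  | nil =>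
    rw [List.length_nil, List.nil_append, List.nil_append, step_cap]
    constructor
    · rintro ⟨c, h⟩
      simp only [List.cons.injEq] at h
      obtain ⟨h1, h2, h3⟩ := h
      subst h1 h2 h3
      exact ⟨rfl, rfl⟩
    · rintro ⟨h1, h2⟩
      subst h1 h2
      exact ⟨x, rfl⟩
  | cons a l ih =>
    rw [List.length_cons, List.cons_append, List.cons_append, step_succ_iff]
    constructor
    · rintro ⟨b, s', t', h1, h2, h3⟩
      simp only [List.cons.injEq] at h1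
      obtain ⟨h4, h5⟩ := h1
      subst h4 h5
      obtain ⟨h6, h7⟩ := (ih t').1 h3
      exact ⟨h6, by rw [h2, h7]⟩
    · rintro ⟨h1, h2⟩
      exact ⟨a, _, l ++ r, rfl, h2, (ih _).2 ⟨h1, rfl⟩⟩

/-- The maxima at the end of the diagram. -/
theorem KPath_top {P : Palette C} (a b d o1 o2 o3 p1 p2 : C) :
    Path P [(.cap, 3), (.cap, 2), (.cap, 0), (.cap, 0)] [a, o1, o2, o3, d, p1, p2, P.bar b] [] ↔
      d = P.bar o3 ∧ p1 = P.bar o2 ∧ o1 = P.bar a ∧ P.bar b = P.bar p2 := by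
  constructor
  · intro h
    obtain ⟨t1, h1, h⟩ := path_cons_iff.1 h
    obtain ⟨e1, rfl⟩ := (KPath_cap [a, o1, o2] o3 d [p1, p2, P.bar b] t1).1 h1
    obtain ⟨t2, h2, h⟩ := path_cons_iff.1 h
    obtain ⟨e2, rfl⟩ := (KPath_cap [a, o1] o2 p1 [p2, P.bar b] t2).1 h2
    obtain ⟨t3, h3, h⟩ := path_cons_iff.1 h
    obtain ⟨e3, rfl⟩ := (KPath_cap [] a o1 [p2, P.bar b] t3).1 h3
    obtain ⟨t4, h4, h⟩ := path_cons_iff.1 h
    obtain ⟨e4, rfl⟩ := (KPath_cap [] p2 (P.bar b) [] t4).1 h4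
    exact ⟨e1, e2, e3, e4⟩
  · rintro ⟨e1, e2, e3, e4⟩
    exact Path.cons ((KPath_cap [a, o1, o2] o3 d [p1, p2, P.bar b] _).2 ⟨e1, rfl⟩)
      (Path.cons ((KPath_cap [a, o1] o2 p1 [p2, P.bar b] _).2 ⟨e2, rfl⟩)
        (Path.cons ((KPath_cap [] a o1 [p2, P.bar b] _).2 ⟨e3, rfl⟩)
          (Path.cons ((KPath_cap [] p2 (P.bar b) [] _).2 ⟨e4, rfl⟩) (Path.nil _))))

/-- The minima at the beginning of the diagram and the first crossing. -/
theorem KPath_bot {P : Palette C} (a b c d : C) :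
    Path P [(.cup a, 0), (.cup b, 2), (.cup c, 3), (.cup d, 4), (.neg, 1)] []
      [a, b, P.act (P.bar a) b, c, d, P.bar d, P.bar c, P.bar b] :=
  Path.cons (Step.cup a []) <|
  Path.cons (Step.there _ (Step.there _ (Step.cup b []))) <|
  Path.cons (Step.there _ (Step.there _ (Step.there _ (Step.cup c _)))) <|
  Path.cons (Step.there _ (Step.there _ (Step.there _ (Step.there _ (Step.cup d _))))) <|
  Path.cons (Step.there _ (Step.neg _ _ _)) (Path.nil _)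

theorem KPath_out3 {P : Palette C} (S : List C) (x1 x2 x3 : C) :
    ∃ o1 o2 o3, blkOut P S [x1, x2, x3] = [o1, o2, o3] := ⟨_, _, _, rfl⟩

theorem KPath_out2 {P : Palette C} (S : List C) (y1 y2 : C) :
    ∃ p1 p2, blkOut P S [y1, y2] = [p1, p2] := ⟨_, _, rfl⟩

theorem kWL_iff {P : Palette C} (a b c d x1 x2 x3 y1 y2 : C) :
    Path P (kWL a b c d [x1, x2, x3] [y1, y2]) [] [] ↔
      blkRel P [b, P.act (P.bar a) b, c] [x1, x2, x3] ∧ blkRel P [P.bar d, P.bar c] [y1, y2] ∧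
      ∃ o : C, blkOut P [b, P.act (P.bar a) b, c] [x1, x2, x3] = [P.bar a, o, P.bar d] ∧
        blkOut P [P.bar d, P.bar c] [y1, y2] = [P.bar o, b] := by
  obtain ⟨o1, o2, o3, ho⟩ := KPath_out3 (P := P) [b, P.act (P.bar a) b, c] x1 x2 x3
  obtain ⟨p1, p2, hp⟩ := KPath_out2 (P := P) [P.bar d, P.bar c] y1 y2
  rw [ho, hp]
  have hblk3 : ∀ t, Path P (blkL 3 [x1, x2, x3])
      ([b, P.act (P.bar a) b, c] ++ [d, P.bar d, P.bar c, P.bar b]) t ↔
      blkRel P [b, P.act (P.bar a) b, c] [x1, x2, x3] ∧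
        t = blkOut P [b, P.act (P.bar a) b, c] [x1, x2, x3] ++ [d, P.bar d, P.bar c, P.bar b] :=
    fun t => blkL_path_iff (n := 3) rfl rfl
  have hblk2 : ∀ t, Path P (blkL 2 [y1, y2]) ([P.bar d, P.bar c] ++ [P.bar b]) t ↔
      blkRel P [P.bar d, P.bar c] [y1, y2] ∧
        t = blkOut P [P.bar d, P.bar c] [y1, y2] ++ [P.bar b] :=
    fun t => blkL_path_iff (n := 2) rfl rfl
  have hA : ∀ t, Path P (shift 1 (blkL 3 [x1, x2, x3]))
      [a, b, P.act (P.bar a) b, c, d, P.bar d, P.bar c, P.bar b] t ↔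
      blkRel P [b, P.act (P.bar a) b, c] [x1, x2, x3] ∧
        t = [a, o1, o2, o3, d, P.bar d, P.bar c, P.bar b] := by
    intro t
    have h1 := path_shift_append_iff (P := P) (w := blkL 3 [x1, x2, x3]) (l := [a])
      (s := [b, P.act (P.bar a) b, c] ++ [d, P.bar d, P.bar c, P.bar b]) (t := t)
    refine h1.trans ?_
    constructor
    · rintro ⟨t', h2, h3⟩
      obtain ⟨h4, h5⟩ := (hblk3 _).1 h3
      refine ⟨h4, ?_⟩
      rw [h2, h5, ho]
      rfl
    · rintro ⟨h2, h3⟩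
      refine ⟨[o1, o2, o3] ++ [d, P.bar d, P.bar c, P.bar b], h3, ?_⟩
      exact (hblk3 _).2 ⟨h2, by rw [ho]⟩
  have hB : ∀ t, Path P (shift 5 (blkL 2 [y1, y2]))
      [a, o1, o2, o3, d, P.bar d, P.bar c, P.bar b] t ↔
      blkRel P [P.bar d, P.bar c] [y1, y2] ∧ t = [a, o1, o2, o3, d, p1, p2, P.bar b] := by
    intro t
    have h1 := path_shift_append_iff (P := P) (w := blkL 2 [y1, y2]) (l := [a, o1, o2, o3, d])
      (s := [P.bar d, P.bar c] ++ [P.bar b]) (t := t)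
    refine h1.trans ?_
    constructor
    · rintro ⟨t', h2, h3⟩
      obtain ⟨h4, h5⟩ := (hblk2 _).1 h3
      refine ⟨h4, ?_⟩
      rw [h2, h5, hp]
      rfl
    · rintro ⟨h2, h3⟩
      refine ⟨[p1, p2] ++ [P.bar b], h3, ?_⟩
      exact (hblk2 _).2 ⟨h2, by rw [hp]⟩
  have hbar : ∀ x y : C, P.bar x = P.bar y → x = y := by
    intro x y h
    rw [← P.bar_bar x, h, P.bar_bar]
  have hC : Path P (kWL a b c d [x1, x2, x3] [y1, y2]) [] [] ↔
      blkRel P [b, P.act (P.bar a) b, c] [x1, x2, x3] ∧ blkRel P [P.bar d, P.bar c] [y1, y2] ∧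
      Path P [(.cap, 3), (.cap, 2), (.cap, 0), (.cap, 0)] [a, o1, o2, o3, d, p1, p2, P.bar b] [] := by
    unfold kWL
    rw [path_append_iff]
    constructor
    · rintro ⟨s1, h1, h2⟩
      obtain rfl := (KPath_bot a b c d).det h1
      rw [path_append_iff] at h2
      obtain ⟨s2, h3, h4⟩ := h2
      obtain ⟨h5, rfl⟩ := (hA s2).1 h3
      rw [path_append_iff] at h4
      obtain ⟨s3, h6, h7⟩ := h4
      obtain ⟨h8, rfl⟩ := (hB s3).1 h6
      exact ⟨h5, h8, h7⟩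
    · rintro ⟨h5, h8, h7⟩
      refine ⟨_, KPath_bot a b c d, ?_⟩
      rw [path_append_iff]
      refine ⟨_, (hA _).2 ⟨h5, rfl⟩, ?_⟩
      rw [path_append_iff]
      exact ⟨_, (hB _).2 ⟨h8, rfl⟩, h7⟩
  rw [hC, KPath_top]
  constructor
  · rintro ⟨h1, h2, e1, e2, e3, e4⟩
    refine ⟨h1, h2, o2, ?_, ?_⟩
    · rw [e3, e1, P.bar_bar]
    · rw [e2, hbar _ _ e4]
  · rintro ⟨h1, h2, o, h3, h4⟩
    simp only [List.cons.injEq, and_true] at h3 h4
    obtain ⟨e1, e2, e3⟩ := h3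
    obtain ⟨e4, e5⟩ := h4
    refine ⟨h1, h2, ?_, ?_, e1, ?_⟩
    · rw [e3, P.bar_bar]
    · rw [e4, e2]
    · rw [e5]

end Pool.Agent.Lib.MP_decac5_gt
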