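import Pool.Agent.Lib.MP_131179_gt.Dehn.Wirt

/-!
# Longitudes: how the labels change along one edge of a lattice link, for all palettes
-/

set_option autoImplicit false

namespace Pool.Agent.Lib.MP_decac5_gt

open Pool.Agent.Lib.MP_131179_gt Pool.Agent.Lib.MP_131179_gt.Dehn

variable {C : Type} {Q : Palette C}

/-- The label of a strand with label `x` after passing under the strands with labels `l`. -/
def und (Q : Palette C) (x : C) (l : List C) : C := l.foldl Q.act x

theorem und_surj (Q : Palette C) (l : List C) (y : C) : ∃ x, und Q x l = y := by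
  induction l generalizing y with
  | nil => exact ⟨y, rfl⟩
  | cons b l ih =>
    obtain ⟨x, hx⟩ := ih y
    refine ⟨Q.act x (Q.bar b), ?_⟩
    show und Q (Q.act (Q.act x (Q.bar b)) b) l = y
    have h : Q.act (Q.act x (Q.bar b)) b = x := by
      have := Q.act_act_bar x (Q.bar b)
      rwa [Q.bar_bar] at this
    rw [h, hx]

theorem und_bar (Q : Palette C) (x : C) (l : List C) : und Q (Q.bar x) l = Q.bar (und Q x l) := by
  induction l generalizing x with
  | nil => rfl
  | cons b l ih =>
    show und Q (Q.act (Q.bar x) b) l = Q.bar (und Q (Q.act x b) l)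
    rw [Q.act_bar, ih]

theorem lonA_crR_under (z : ℤ) (x : C) (f : Site → C) (B : List Site) (hB : ∀ b ∈ B, z < cz b) :
    Path Q (crR z 0 B) (x :: B.map f) (B.map f ++ [und Q x (B.map f)]) := by
  induction B generalizing x with
  | nil => exact Path.nil _
  | cons b B ih =>
    rw [crR, crR_shift z 0 1, if_pos (hB b List.mem_cons_self)]
    have h1 := (ih (Q.act x (f b)) fun c hc => hB c (List.mem_cons_of_mem _ hc)).left [f b]
    exact Path.cons (Step.neg (P := Q) x (f b) (B.map f)) h1

theorem lonA_crR_over (z : ℤ) (x : C) (f : Site → C) (B : List Site) (hB : ∀ b ∈ B, ¬ z < cz b) :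
    Path Q (crR z 0 B) (x :: B.map f) (B.map (fun b => Q.act (f b) (Q.bar x)) ++ [x]) := by
  induction B with
  | nil => exact Path.nil _
  | cons b B ih =>
    rw [crR, crR_shift z 0 1, if_neg (hB b List.mem_cons_self)]
    have h1 := (ih fun c hc => hB c (List.mem_cons_of_mem _ hc)).left [Q.act (f b) (Q.bar x)]
    exact Path.cons (Step.pos (P := Q) x (f b) (B.map f)) h1

theorem lonA_crL_under (z : ℤ) (x : C) (f : Site → C) (B : List Site) (hB : ∀ b ∈ B, z < cz b) :
    Path Q (crL z 0 B) (B.map f ++ [und Q x (B.map f)]) (x :: B.map f) := by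
  induction B generalizing x with
  | nil => exact Path.nil _
  | cons b B ih =>
    rw [crL, crL_shift z 0 1, if_pos (hB b List.mem_cons_self)]
    have h1 := (ih (Q.act x (f b)) fun c hc => hB c (List.mem_cons_of_mem _ hc)).left [f b]
    refine Path.append (t := [f b] ++ (Q.act x (f b) :: B.map f)) h1 (path_single_iff.2 ?_)
    have h2 := Step.pos (P := Q) (f b) (Q.act x (f b)) (B.map f)
    rw [Q.act_act_bar] at h2
    exact h2

theorem lonA_crL_over (z : ℤ) (x : C) (f : Site → C) (B : List Site) (hB : ∀ b ∈ B, ¬ z < cz b) :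
    Path Q (crL z 0 B) (B.map f ++ [x]) (x :: B.map (fun b => Q.act (f b) x)) := by
  induction B with
  | nil => exact Path.nil _
  | cons b B ih =>
    rw [crL, crL_shift z 0 1, if_neg (hB b List.mem_cons_self)]
    have h1 := (ih fun c hc => hB c (List.mem_cons_of_mem _ hc)).left [f b]
    refine Path.append (t := [f b] ++ (x :: B.map fun b => Q.act (f b) x)) h1 (path_single_iff.2 ?_)
    exact Step.neg (P := Q) (f b) x (B.map fun b => Q.act (f b) x)

theorem lonA_crR_both (z : ℤ) (x x' : C) (f : Site → C) (A B : List Site)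
    (hA : ∀ b ∈ A, z < cz b) (hB : ∀ b ∈ B, ¬ z < cz b)
    (hx : x' = und Q x (A.map f)) (L R : List C) {r : ℕ} (hr : L.length = r) :
    Path Q (crR z r (A ++ B)) (L ++ (x :: (A.map f ++ (B.map f ++ R))))
      (L ++ (A.map f ++ (B.map (fun b => Q.act (f b) (Q.bar x')) ++ (x' :: R)))) := by
  subst hr
  rw [LabRun_crR_append]
  have h1 := LabRun_ctx (lonA_crR_under (Q := Q) z x f A hA) L (B.map f ++ R) rfl rfl
  rw [← LabRun_crR_shift0] at h1
  have h2 := LabRun_ctx (lonA_crR_over (Q := Q) z x' f B hB) (L ++ A.map f) R rfl rfl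
  rw [← LabRun_crR_shift0, List.length_append, List.length_map] at h2
  rw [← hx] at h1
  refine Path.append (h1.cast ?_ rfl) (h2.cast ?_ ?_)
  · simp
  · simp
  · simp

theorem lonA_crL_both (z : ℤ) (x x' : C) (f : Site → C) (A B : List Site)
    (hA : ∀ b ∈ A, z < cz b) (hB : ∀ b ∈ B, ¬ z < cz b)
    (hx : x = und Q x' (A.map f)) (L R : List C) {r : ℕ} (hr : L.length = r) :
    Path Q (crL z r (A ++ B)) (L ++ (A.map f ++ (B.map f ++ (x :: R))))
      (L ++ (x' :: (A.map f ++ (B.map (fun b => Q.act (f b) x) ++ R)))) := by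
  subst hr
  rw [LabRun_crL_append]
  have h1 := LabRun_ctx (lonA_crL_under (Q := Q) z x' f A hA) L (B.map (fun b => Q.act (f b) x) ++ R) rfl rfl
  rw [← LabRun_crL_shift0] at h1
  have h2 := LabRun_ctx (lonA_crL_over (Q := Q) z x f B hB) (L ++ A.map f) R rfl rfl
  rw [← LabRun_crL_shift0, List.length_append, List.length_map] at h2
  rw [← hx] at h1
  refine Path.append (t := L ++ (A.map f ++ (x :: (B.map (fun b => Q.act (f b) x) ++ R))))
    (h2.cast ?_ ?_) (h1.cast ?_ ?_)
  · simp
  · simp
  · simp
  · simp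

/-! ### Words without minima -/

/-- A word without minima is determined by its diagram. -/
theorem lonA_eq {u v : Word C} (hv : ∀ l ∈ v, l.1 = .cap ∨ l.1 = .pos ∨ l.1 = .neg)
    (h : wmap (fun _ => ()) u = wmap (fun _ => ()) v) : u = v := by
  induction v generalizing u with
  | nil =>
    cases u with
    | nil => rfl
    | cons a u => simp [wmap] at h
  | cons l v ih =>
    cases u with
    | nil => simp [wmap] at h
    | cons a u =>
      obtain ⟨k, i⟩ := a
      obtain ⟨k', i'⟩ := l
      rw [wmap_cons, wmap_cons] at h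
      have h1 := (List.cons.inj h).1
      have h2 := (List.cons.inj h).2
      have h3 : k.map (fun _ => ()) = k'.map (fun _ => ()) := (Prod.mk.inj h1).1
      have h4 : i = i' := (Prod.mk.inj h1).2
      rw [ih (fun l hl => hv l (List.mem_cons_of_mem _ hl)) h2, h4]
      have h5 := hv (k', i') List.mem_cons_self
      congr 2
      rcases h5 with h5 | h5 | h5 <;> simp only [] at h5 <;> subst h5 <;>
        cases k <;> simp [Kind.map] at h3 ⊢

theorem lonA_crR_mem (z : ℤ) (r : ℕ) (B : List Site) :
    ∀ l ∈ (crR z r B : Word C), l.1 = .cap ∨ l.1 = .pos ∨ l.1 = .neg := by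
  induction B generalizing r with
  | nil => intro l hl; simp [crR] at hl
  | cons b B ih =>
    intro l hl
    rw [crR, List.mem_cons] at hl
    rcases hl with rfl | hl
    · by_cases h : z < cz b
      · rw [if_pos h]; exact Or.inr (Or.inr rfl)
      · rw [if_neg h]; exact Or.inr (Or.inl rfl)
    · exact ih _ l hl

theorem lonA_crL_mem (z : ℤ) (r : ℕ) (B : List Site) :
    ∀ l ∈ (crL z r B : Word C), l.1 = .cap ∨ l.1 = .pos ∨ l.1 = .neg := by
  induction B generalizing r with
  | nil => intro l hl; simp [crL] at hl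
  | cons b B ih =>
    intro l hl
    rw [crL, List.mem_append, List.mem_singleton] at hl
    rcases hl with hl | rfl
    · exact ih _ l hl
    · by_cases h : z < cz b
      · rw [if_pos h]; exact Or.inr (Or.inl rfl)
      · rw [if_neg h]; exact Or.inr (Or.inr rfl)

/-! ### The rules -/

/-- The strands of the column of `s` which are deeper than `s`. -/
def dep (P : Finset Site) (s : Site) : List Site :=
  (P.filter fun q => cx q = cx s ∧ cz s < cz q).sort (· ≤ ·)

theorem mem_dep {P : Finset Site} {s q : Site} : q ∈ dep P s ↔ q ∈ P ∧ cx q = cx s ∧ cz s < cz q := by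
  unfold dep
  rw [Finset.mem_sort, Finset.mem_filter]

/-- The rules for an edge between two columns. -/
structure RelX (Q : Palette C) (P : Finset Site) (i k : ℤ) (f f' : Site → C) : Prop where
  same : ∀ s ∈ P, s ≠ st i k → s ≠ st (i + 1) k → ¬ (cx s = i + 1 ∧ cz s < k) → f' s = f s
  right : st i k ∈ P → st (i + 1) k ∉ P →
    f' (st (i + 1) k) = und Q (f (st i k)) ((dep P (st i k)).map f) ∧
      ∀ s ∈ P, cx s = i + 1 → cz s < k → f' s = Q.act (f s) (Q.bar (f' (st (i + 1) k)))
  left : st i k ∉ P → st (i + 1) k ∈ P →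
    f (st (i + 1) k) = und Q (f' (st i k)) ((dep P (st i k)).map f) ∧
      ∀ s ∈ P, cx s = i + 1 → cz s < k → f' s = Q.act (f s) (f (st (i + 1) k))

/-- The rules for an edge in the direction of the depth. -/
structure RelZ (Q : Palette C) (P : Finset Site) (i k : ℤ) (f f' : Site → C) : Prop where
  same : ∀ s ∈ P, s ≠ st i k → s ≠ st i (k + 1) → f' s = f s
  right : st i k ∈ P → st i (k + 1) ∉ P → f' (st i (k + 1)) = f (st i k)
  left : st i k ∉ P → st i (k + 1) ∈ P → f' (st i k) = f (st i (k + 1))
  cup : st i k ∉ P → st i (k + 1) ∉ P → f' (st i (k + 1)) = Q.bar (f' (st i k))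
  cap : st i k ∈ P → st i (k + 1) ∈ P → f (st i (k + 1)) = Q.bar (f (st i k))

/-- The rules for an edge. -/
def Rel (Q : Palette C) (P : Finset Site) : HE → (Site → C) → (Site → C) → Prop
  | .ex i k, f, f' => RelX Q P i k f f'
  | .ez i k, f, f' => RelZ Q P i k f f'

end Pool.Agent.Lib.MP_decac5_gt
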