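import Pool.Agent.Lib.MP_decac5_gt.LonA

/-!
# Longitudes: the labels after one edge of a lattice link
-/

set_option autoImplicit false

namespace Pool.Agent.Lib.MP_decac5_gt

open Pool.Agent.Lib.MP_131179_gt Pool.Agent.Lib.MP_131179_gt.Dehn

variable {C : Type} {Q : Palette C}

theorem dep_st (P : Finset Site) (i k : ℤ) :
    dep P (st i k) = (P.filter fun q => cx q = i ∧ k + 1 ≤ cz q).sort (· ≤ ·) := by
  unfold dep
  congr 1

private theorem lonB_ex {P : Finset Site} {i k : ℤ} {f : Site → C} {w' : Word C} {τ : List C}
    (hx : st i k ∈ P ↔ st (i + 1) k ∉ P)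
    (hw : wmap (fun _ => ()) w' = wd (fun _ => ()) P (.ex i k)) (hp : Path Q w' (lst f P) τ) :
    ∃ f' : Site → C, τ = lst f' (nxs P (.ex i k)) ∧ w' = wd f' P (.ex i k) ∧ RelX Q P i k f f' := by
  set A := (P.filter fun q => cx q = i ∧ k + 1 ≤ cz q).sort (· ≤ ·) with hA
  set B := (P.filter fun q => cx q = i + 1 ∧ cz q < k).sort (· ≤ ·) with hB
  have hAz : ∀ b ∈ A, k < cz b := by
    intro b hb
    rw [hA, Finset.mem_sort, Finset.mem_filter] at hb
    omega
  have hAx : ∀ b ∈ A, cx b = i := by
    intro b hb
    rw [hA, Finset.mem_sort, Finset.mem_filter] at hb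
    omega
  have hBz : ∀ b ∈ B, ¬ k < cz b := by
    intro b hb
    rw [hB, Finset.mem_sort, Finset.mem_filter] at hb
    omega
  have hBx : ∀ b ∈ B, cx b = i + 1 ∧ cz b < k := by
    intro b hb
    rw [hB, Finset.mem_sort, Finset.mem_filter] at hb
    exact hb.2
  have hL : ((lef P (st i k)).map f).length = rk P (st i k) := by
    rw [List.length_map, length_lef]
  have hdep : dep P (st i k) = A := dep_st P i k
  have n1 := @lo_mem_nxs P (.ex i k)
  have n2 := @hi_mem_nxs P (.ex i k)
  have ne1 : st i k ≠ st (i + 1) k := by
    intro h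
    have : cx (st i k) = cx (st (i + 1) k) := by rw [h]
    have h2 : i = i + 1 := this
    omega
  have c1 : cx (st i k) = i := rfl
  have c2 : cz (st i k) = k := rfl
  have c3 : cx (st (i + 1) k) = i + 1 := rfl
  have c4 : cz (st (i + 1) k) = k := rfl
  by_cases h2 : st i k ∈ P
  · have h3 : st (i + 1) k ∉ P := hx.1 h2
    set x' := und Q (f (st i k)) (A.map f) with hx'
    set f' : Site → C := fun s => if s = st (i + 1) k then x' else
      if cx s = i + 1 ∧ cz s < k then Q.act (f s) (Q.bar x') else f s with hf'
    have e1 : f' (st (i + 1) k) = x' := by simp only [hf', if_true]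
    have e2 : ∀ s, cx s = i + 1 → cz s < k → f' s = Q.act (f s) (Q.bar x') := by
      intro s hs1 hs2
      have : s ≠ st (i + 1) k := by
        rintro rfl
        rw [c4] at hs2
        omega
      simp only [hf', if_neg this, if_pos (And.intro hs1 hs2)]
    have e3 : ∀ s, s ≠ st (i + 1) k → ¬ (cx s = i + 1 ∧ cz s < k) → f' s = f s := by
      intro s hs1 hs2
      simp only [hf', if_neg hs1, if_neg hs2]
    have m1 : (lef P (st i k)).map f' = (lef P (st i k)).map f := by
      apply List.map_congr_left
      intro s hs
      rw [LabRun_mem_lef, LabRun_lt_iff, c1, c2] at hs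
      refine e3 s ?_ ?_
      · rintro rfl
        rw [c3, c4] at hs
        omega
      · omega
    have m3 : (rig P (st (i + 1) k)).map f' = (rig P (st (i + 1) k)).map f := by
      apply List.map_congr_left
      intro s hs
      rw [LabRun_mem_rig, LabRun_lt_iff, c3, c4] at hs
      refine e3 s ?_ ?_
      · rintro rfl
        rw [c3, c4] at hs
        omega
      · omega
    have m2 : A.map f' = A.map f := by
      apply List.map_congr_left
      intro s hs
      have h4 := hAx s hs
      refine e3 s ?_ (by omega)
      rintro rfl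
      rw [c3] at h4
      omega
    have m4 : B.map f' = B.map (fun b => Q.act (f b) (Q.bar x')) := by
      apply List.map_congr_left
      intro s hs
      exact e2 s (hBx s hs).1 (hBx s hs).2
    have key : Path Q (wd f' P (.ex i k)) (lst f P) (lst f' (nxs P (.ex i k))) := by
      have key := lonA_crR_both (Q := Q) (cz (st i k)) (f (st i k)) x' f A B hAz hBz rfl
        ((lef P (st i k)).map f) ((rig P (st (i + 1) k)).map f) hL
      unfold lst
      rw [sort_edge P (.ex i k), sort_edge (nxs P (.ex i k)) (.ex i k), lef_nxs, rig_nxs, btw_nxs,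
        LabRun_btw_ex, ← hA, ← hB]
      unfold opt wd
      rw [LabRun_btw_ex, ← hA, ← hB]
      simp only [lo_mem_nxs, hi_mem_nxs]
      simp only [HE.lo, HE.hi] at n1 n2 ⊢
      simp only [h2, h3, if_true, not_true_eq_false, not_false_eq_true, if_false, List.map_append,
        List.map_cons, List.map_nil, List.nil_append, m1, m2, m3, m4, e1]
      refine key.cast ?_ ?_
      · simp
      · simp
    have hww : w' = wd f' P (.ex i k) := by
      refine lonA_eq ?_ ?_
      · unfold wd
        simp only [HE.lo, HE.hi, h2, h3, if_true, if_false]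
        exact lonA_crR_mem _ _ _
      · rw [hw, wmap_wd]
    rw [hww] at hp
    refine ⟨f', hp.det key, hww, ⟨?_, ?_, ?_⟩⟩
    · intro s _ _ hs1 hs2
      exact e3 s hs1 hs2
    · intro _ _
      rw [hdep, e1]
      exact ⟨rfl, fun s _ hs1 hs2 => e2 s hs1 hs2⟩
    · intro h
      exact absurd h2 h
  · have h3 : st (i + 1) k ∈ P := by
      by_contra h
      exact h2 (hx.2 h)
    obtain ⟨x', hx'⟩ := und_surj Q (A.map f) (f (st (i + 1) k))
    set f' : Site → C := fun s => if s = st i k then x' else
      if cx s = i + 1 ∧ cz s < k then Q.act (f s) (f (st (i + 1) k)) else f s with hf'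
    have e1 : f' (st i k) = x' := by simp only [hf', if_true]
    have e2 : ∀ s, cx s = i + 1 → cz s < k → f' s = Q.act (f s) (f (st (i + 1) k)) := by
      intro s hs1 hs2
      have : s ≠ st i k := by
        rintro rfl
        rw [c1] at hs1
        omega
      simp only [hf', if_neg this, if_pos (And.intro hs1 hs2)]
    have e3 : ∀ s, s ≠ st i k → ¬ (cx s = i + 1 ∧ cz s < k) → f' s = f s := by
      intro s hs1 hs2
      simp only [hf', if_neg hs1, if_neg hs2]
    have m1 : (lef P (st i k)).map f' = (lef P (st i k)).map f := by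
      apply List.map_congr_left
      intro s hs
      rw [LabRun_mem_lef, LabRun_lt_iff, c1, c2] at hs
      refine e3 s ?_ ?_
      · rintro rfl
        rw [c1, c2] at hs
        omega
      · omega
    have m3 : (rig P (st (i + 1) k)).map f' = (rig P (st (i + 1) k)).map f := by
      apply List.map_congr_left
      intro s hs
      rw [LabRun_mem_rig, LabRun_lt_iff, c3, c4] at hs
      refine e3 s ?_ ?_
      · rintro rfl
        rw [c1, c2] at hs
        omega
      · omega
    have m2 : A.map f' = A.map f := by
      apply List.map_congr_left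
      intro s hs
      have h4 := hAx s hs
      have h5 := hAz s hs
      refine e3 s ?_ (by omega)
      rintro rfl
      rw [c2] at h5
      omega
    have m4 : B.map f' = B.map (fun b => Q.act (f b) (f (st (i + 1) k))) := by
      apply List.map_congr_left
      intro s hs
      exact e2 s (hBx s hs).1 (hBx s hs).2
    have key : Path Q (wd f' P (.ex i k)) (lst f P) (lst f' (nxs P (.ex i k))) := by
      have key := lonA_crL_both (Q := Q) (cz (st i k)) (f (st (i + 1) k)) x' f A B hAz hBz hx'.symm
        ((lef P (st i k)).map f) ((rig P (st (i + 1) k)).map f) hL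
      unfold lst
      rw [sort_edge P (.ex i k), sort_edge (nxs P (.ex i k)) (.ex i k), lef_nxs, rig_nxs, btw_nxs,
        LabRun_btw_ex, ← hA, ← hB]
      unfold opt wd
      rw [LabRun_btw_ex, ← hA, ← hB]
      simp only [lo_mem_nxs, hi_mem_nxs]
      simp only [HE.lo, HE.hi] at n1 n2 ⊢
      simp only [h2, h3, if_true, not_true_eq_false, not_false_eq_true, if_false, List.map_append,
        List.map_cons, List.map_nil, List.nil_append, m1, m2, m3, m4, e1]
      refine key.cast ?_ ?_
      · simp
      · simp
    have hww : w' = wd f' P (.ex i k) := by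
      refine lonA_eq ?_ ?_
      · unfold wd
        simp only [HE.lo, HE.hi, h2, h3, if_true, if_false]
        exact lonA_crL_mem _ _ _
      · rw [hw, wmap_wd]
    rw [hww] at hp
    refine ⟨f', hp.det key, hww, ⟨?_, ?_, ?_⟩⟩
    · intro s _ hs1 _ hs2
      exact e3 s hs1 hs2
    · intro h
      exact absurd h h2
    · intro _ _
      rw [hdep, e1]
      exact ⟨hx'.symm, fun s _ hs1 hs2 => e2 s hs1 hs2⟩

private theorem lonB_ez {P : Finset Site} {i k : ℤ} {f : Site → C} {w' : Word C} {τ : List C}
    (hw : wmap (fun _ => ()) w' = wd (fun _ => ()) P (.ez i k)) (hp : Path Q w' (lst f P) τ) :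
    ∃ f' : Site → C, τ = lst f' (nxs P (.ez i k)) ∧ w' = wd f' P (.ez i k) ∧ RelZ Q P i k f f' := by
  have hL : ((lef P (st i k)).map f).length = rk P (st i k) := by
    rw [List.length_map, length_lef]
  have n1 := @lo_mem_nxs P (.ez i k)
  have n2 := @hi_mem_nxs P (.ez i k)
  have c1 : cx (st i k) = i := rfl
  have c2 : cz (st i k) = k := rfl
  have c3 : cx (st i (k + 1)) = i := rfl
  have c4 : cz (st i (k + 1)) = k + 1 := rfl
  have ne1 : st i k ≠ st i (k + 1) := by
    intro h
    have : cz (st i k) = cz (st i (k + 1)) := by rw [h]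
    rw [c2, c4] at this
    omega
  have hm : ∀ f' : Site → C, (∀ s, s ≠ st i k → s ≠ st i (k + 1) → f' s = f s) →
      (lef P (st i k)).map f' = (lef P (st i k)).map f ∧
      (rig P (st i (k + 1))).map f' = (rig P (st i (k + 1))).map f := by
    intro f' h
    constructor
    · apply List.map_congr_left
      intro s hs
      rw [LabRun_mem_lef, LabRun_lt_iff, c1, c2] at hs
      refine h s ?_ ?_
      · rintro rfl
        rw [c1, c2] at hs
        omega
      · rintro rfl
        rw [c3, c4] at hs
        omega
    · apply List.map_congr_left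
      intro s hs
      rw [LabRun_mem_rig, LabRun_lt_iff, c3, c4] at hs
      refine h s ?_ ?_
      · rintro rfl
        rw [c1, c2] at hs
        omega
      · rintro rfl
        rw [c3, c4] at hs
        omega
  have hsplit : ∀ (g : Site → C), lst g P = (lef P (st i k)).map g ++
      ((opt P (st i k)).map g ++ ((opt P (st i (k + 1))).map g ++ (rig P (st i (k + 1))).map g)) := by
    intro g
    unfold lst
    rw [sort_edge P (.ez i k), btw_ez]
    simp [HE.lo, HE.hi]
  have hsplit' : ∀ (g : Site → C), lst g (nxs P (.ez i k)) = (lef P (st i k)).map g ++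
      ((opt (nxs P (.ez i k)) (st i k)).map g ++
        ((opt (nxs P (.ez i k)) (st i (k + 1))).map g ++ (rig P (st i (k + 1))).map g)) := by
    intro g
    unfold lst
    rw [sort_edge (nxs P (.ez i k)) (.ez i k), lef_nxs, rig_nxs, btw_nxs, btw_ez]
    simp [HE.lo, HE.hi]
  simp only [HE.lo, HE.hi] at n1 n2
  by_cases h2 : st i k ∈ P <;> by_cases h3 : st i (k + 1) ∈ P
  · -- a maximum
    have hww : w' = [(.cap, rk P (st i k))] := by
      refine lonA_eq (by simp) ?_
      rw [hw]
      unfold wd
      rw [btw_ez]
      simp [HE.lo, HE.hi, h2, h3, crL]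
    have h4 : ¬ st i k ∈ nxs P (.ez i k) := by rw [n1]; exact not_not.2 h2
    have h5 : ¬ st i (k + 1) ∈ nxs P (.ez i k) := by rw [n2]; exact not_not.2 h3
    rw [hww, path_single_iff, hsplit] at hp
    simp only [opt, h2, h3, if_true, List.map_cons, List.map_nil, List.cons_append,
      List.nil_append] at hp
    rw [← hL] at hp
    have h6 : Step Q .cap (0 + ((lef P (st i k)).map f).length) ((lef P (st i k)).map f ++
        (f (st i k) :: f (st i (k + 1)) :: (rig P (st i (k + 1))).map f)) τ := by
      rw [Nat.zero_add]
      exact hp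
    rw [step_add_iff] at h6
    obtain ⟨l, s', t', h7, h8, h9, h10⟩ := h6
    obtain ⟨h11, h12⟩ := List.append_inj h8 h7.symm
    subst h11
    subst h12
    have h13 : f (st i (k + 1)) = Q.bar (f (st i k)) ∧ t' = (rig P (st i (k + 1))).map f := by
      generalize f (st i (k + 1)) = y at h10
      generalize f (st i k) = x at h10
      generalize (rig P (st i (k + 1))).map f = r at h10
      cases h10
      exact ⟨rfl, rfl⟩
    refine ⟨f, ?_, ?_, ⟨fun s _ _ _ => rfl, fun _ h => absurd h3 h, fun h => absurd h2 h,
      fun h => absurd h2 h, fun _ _ => h13.1⟩⟩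
    · rw [hsplit', h9, h13.2]
      simp only [opt, h4, h5, if_false, List.map_nil, List.nil_append]
    · rw [hww]
      unfold wd
      rw [btw_ez]
      simp [HE.lo, HE.hi, h2, h3, crL]
  · have hww : w' = [] := by
      refine lonA_eq (by simp) ?_
      rw [hw]
      unfold wd
      rw [btw_ez]
      simp [HE.lo, HE.hi, h2, h3, crR]
    have h4 : ¬ st i k ∈ nxs P (.ez i k) := by rw [n1]; exact not_not.2 h2
    have h5 : st i (k + 1) ∈ nxs P (.ez i k) := by rw [n2]; exact h3
    rw [hww, path_nil_iff, hsplit] at hp
    set f' : Site → C := fun s => if s = st i (k + 1) then f (st i k) else f s with hf'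
    have e1 : f' (st i (k + 1)) = f (st i k) := by simp only [hf', if_true]
    have e2 : ∀ s, s ≠ st i k → s ≠ st i (k + 1) → f' s = f s := by
      intro s _ hs
      simp only [hf', if_neg hs]
    obtain ⟨m1, m3⟩ := hm f' e2
    refine ⟨f', ?_, ?_, ⟨fun s _ h h' => e2 s h h', fun _ _ => e1, fun h => absurd h2 h,
      fun h => absurd h2 h, fun _ h => absurd h h3⟩⟩
    · rw [hsplit', ← hp, m1, m3]
      simp only [opt, h2, h3, h4, h5, if_true, if_false, List.map_nil, List.map_cons, List.nil_append,
        List.cons_append, e1]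
    · rw [hww]
      unfold wd
      rw [btw_ez]
      simp [HE.lo, HE.hi, h2, h3, crR]
  · have hww : w' = [] := by
      refine lonA_eq (by simp) ?_
      rw [hw]
      unfold wd
      rw [btw_ez]
      simp [HE.lo, HE.hi, h2, h3, crL]
    have h4 : st i k ∈ nxs P (.ez i k) := by rw [n1]; exact h2
    have h5 : ¬ st i (k + 1) ∈ nxs P (.ez i k) := by rw [n2]; exact not_not.2 h3
    rw [hww, path_nil_iff, hsplit] at hp
    set f' : Site → C := fun s => if s = st i k then f (st i (k + 1)) else f s with hf'
    have e1 : f' (st i k) = f (st i (k + 1)) := by simp only [hf', if_true]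
    have e2 : ∀ s, s ≠ st i k → s ≠ st i (k + 1) → f' s = f s := by
      intro s hs _
      simp only [hf', if_neg hs]
    obtain ⟨m1, m3⟩ := hm f' e2
    refine ⟨f', ?_, ?_, ⟨fun s _ h h' => e2 s h h', fun h => absurd h h2, fun _ _ => e1,
      fun _ h => absurd h3 h, fun h => absurd h h2⟩⟩
    · rw [hsplit', ← hp, m1, m3]
      simp only [opt, h2, h3, h4, h5, if_true, if_false, List.map_nil, List.map_cons, List.nil_append,
        List.cons_append, e1]
    · rw [hww]
      unfold wd
      rw [btw_ez]
      simp [HE.lo, HE.hi, h2, h3, crL]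
  · have hw2 : wmap (fun _ => ()) w' = [(Kind.cup (), rk P (st i k))] := by
      rw [hw]
      unfold wd
      rw [btw_ez]
      simp [HE.lo, HE.hi, h2, h3, crR]
    obtain ⟨c, hww⟩ : ∃ c, w' = [(Kind.cup c, rk P (st i k))] := by
      cases w' with
      | nil => simp [wmap] at hw2
      | cons a u =>
        obtain ⟨kk, n⟩ := a
        rw [wmap_cons] at hw2
        have q1 := (List.cons.inj hw2).1
        have q2 := (List.cons.inj hw2).2
        have q3 : kk.map (fun _ => ()) = Kind.cup () := (Prod.mk.inj q1).1
        have q4 : n = rk P (st i k) := (Prod.mk.inj q1).2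
        have q5 : u = [] := by
          cases u with
          | nil => rfl
          | cons a u => simp [wmap] at q2
        cases kk with
        | cup c => exact ⟨c, by rw [q4, q5]⟩
        | cap => simp [Kind.map] at q3
        | pos => simp [Kind.map] at q3
        | neg => simp [Kind.map] at q3
    have h4 : st i k ∈ nxs P (.ez i k) := by rw [n1]; exact h2
    have h5 : st i (k + 1) ∈ nxs P (.ez i k) := by rw [n2]; exact h3
    set f' : Site → C := fun s => if s = st i k then c else if s = st i (k + 1) then Q.bar c
      else f s with hf'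
    have e1 : f' (st i k) = c := by simp only [hf', if_true]
    have e3 : f' (st i (k + 1)) = Q.bar c := by simp only [hf', if_neg ne1.symm, if_true]
    have e2 : ∀ s, s ≠ st i k → s ≠ st i (k + 1) → f' s = f s := by
      intro s hs hs'
      simp only [hf', if_neg hs, if_neg hs']
    obtain ⟨m1, m3⟩ := hm f' e2
    have key : Step Q (.cup c) (rk P (st i k)) (lst f P) (lst f' (nxs P (.ez i k))) := by
      have a3 := (Step.cup (P := Q) c ((rig P (st i (k + 1))).map f)).left ((lef P (st i k)).map f)
      rw [hL, Nat.zero_add] at a3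
      rw [hsplit, hsplit', m1, m3]
      simp only [opt, h2, h3, h4, h5, if_true, if_false, List.map_nil, List.map_cons, List.nil_append,
        List.cons_append, e1, e3]
      exact a3
    refine ⟨f', ?_, ?_, ⟨fun s _ h h' => e2 s h h', fun h => absurd h h2, fun _ h => absurd h h3,
      fun _ _ => by rw [e3, e1], fun h => absurd h h2⟩⟩
    · rw [hww, path_single_iff] at hp
      exact hp.det key
    · rw [hww]
      unfold wd
      rw [btw_ez]
      simp [HE.lo, HE.hi, h2, h3, crR, e1]

/-- The labels after one edge are given by the rules. -/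
theorem rel_of_path {P : Finset Site} {e : HE} {f : Site → C} {w' : Word C} {τ : List C}
    (hx : ∀ i k, e = .ex i k → (st i k ∈ P ↔ st (i + 1) k ∉ P))
    (hw : wmap (fun _ => ()) w' = wd (fun _ => ()) P e) (hp : Path Q w' (lst f P) τ) :
    ∃ f' : Site → C, τ = lst f' (nxs P e) ∧ w' = wd f' P e ∧ Rel Q P e f f' := by
  cases e with
  | ex i k => exact lonB_ex (hx i k rfl) hw hp
  | ez i k => exact lonB_ez hw hp

end Pool.Agent.Lib.MP_decac5_gt
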