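import Pool.Agent.Lib.MP_decac5_gt.LonB
import Pool.Agent.Lib.MP_131179_gt.Dehn.Lam
import Pool.Agent.Lib.MP_131179_gt.Dehn.OneComp

/-!
# Longitudes: lifts of the labels of a lattice link
-/

set_option autoImplicit false

namespace Pool.Agent.Lib.MP_decac5_gt

open Pool.Agent.Lib.MP_131179_gt Pool.Agent.Lib.MP_131179_gt.Dehn

variable {C D : Type} {Q : Palette C} {R : Palette D}

theorem lonC_runL_succ (F : ℕ → Site → C) (j : ℕ) (P : Finset Site) (es : List HE) :
    runL F (j + 1) P es = runL (fun i => F (i + 1)) j P es := by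
  induction es generalizing j P with
  | nil => rfl
  | cons e es ih =>
    show wd (F (j + 1 + 1)) P e ++ runL F (j + 1 + 1) (nxs P e) es = _
    rw [ih]
    rfl

theorem lonC_lst_eq {f f' : Site → C} {P : Finset Site} (h : lst f P = lst f' P) :
    ∀ s ∈ P, f s = f' s := by
  intro s hs
  exact List.map_inj_left.1 h s ((Finset.mem_sort _).2 hs)

/-- A lift of a labelled run is given by functions which satisfy the rules. -/
theorem lonC_lifts {g : C → D} (hg : IsHom Q R g) (es : List HE) :
    ∀ (G : ℕ → Site → D) (P : Finset Site) (f0 : Site → C) (W' : Word C) (τ : List C),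
      (∀ j e, es[j]? = some e → Path R (wd (G (j + 1)) (fin P (es.take j)) e)
        (lst (G j) (fin P (es.take j))) (lst (G (j + 1)) (fin P (es.take (j + 1))))) →
      (∀ j a k, es[j]? = some (.ex a k) →
        (st a k ∈ fin P (es.take j) ↔ st (a + 1) k ∉ fin P (es.take j))) →
      (∀ s ∈ P, g (f0 s) = G 0 s) → wmap g W' = runL G 0 P es → Path Q W' (lst f0 P) τ →
      ∃ F : ℕ → Site → C, F 0 = f0 ∧
        (∀ j e, es[j]? = some e → Rel Q (fin P (es.take j)) e (F j) (F (j + 1))) ∧
        ∀ j ≤ es.length, ∀ s ∈ fin P (es.take j), g (F j s) = G j s := by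
  induction es with
  | nil =>
    intro G P f0 W' τ _ _ h3 _ _
    refine ⟨fun _ => f0, rfl, ?_, ?_⟩
    · intro j e h
      simp at h
    · intro j hj s hs
      have : j = 0 := by simpa using hj
      subst this
      exact h3 s hs
  | cons e es ih =>
    intro G P f0 W' τ h1 h2 h3 h4 h5
    have h6 : runL G 0 P (e :: es) = wd (G 1) P e ++ runL (fun i => G (i + 1)) 0 (nxs P e) es := by
      show wd (G 1) P e ++ runL G (0 + 1) (nxs P e) es = _
      rw [lonC_runL_succ]
    rw [h6] at h4
    obtain ⟨w1, w2, hw, hw1, hw2⟩ := List.map_eq_append_iff.1 h4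
    have hw1' : wmap g w1 = wd (G 1) P e := hw1
    have hw2' : wmap g w2 = runL (fun i => G (i + 1)) 0 (nxs P e) es := hw2
    rw [hw] at h5
    obtain ⟨μ, h7, h8⟩ := path_append_iff.1 h5
    have h9 : wmap (fun _ => ()) w1 = wd (fun _ => ()) P e := by
      have h10 : wmap (fun _ : D => ()) (wmap g w1) = wmap (fun _ : D => ()) (wd (G 1) P e) := by
        rw [hw1']
      rw [wmap_wd, wmap_wmap] at h10
      exact h10
    have h2' : ∀ i k, e = .ex i k → (st i k ∈ P ↔ st (i + 1) k ∉ P) :=
      fun i k hik => h2 0 i k (by rw [hik]; rfl)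
    obtain ⟨f', hf1, _, hf3⟩ := rel_of_path h2' h9 h7
    have h11 : ∀ s ∈ nxs P e, g (f' s) = G 1 s := by
      have h12 := h7.map hg
      rw [hw1', hf1] at h12
      have h13 : (lst f0 P).map g = lst (G 0) P := by
        unfold lst
        rw [List.map_map]
        apply List.map_congr_left
        intro s hs
        exact h3 s ((Finset.mem_sort _).1 hs)
      rw [h13] at h12
      have h14 := h1 0 e rfl
      have h15 := h12.det h14
      have h16 : (lst f' (nxs P e)).map g = lst (fun s => g (f' s)) (nxs P e) := by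
        unfold lst
        rw [List.map_map]
        rfl
      rw [h16] at h15
      exact lonC_lst_eq h15
    rw [hf1] at h8
    obtain ⟨F, hF0, hF1, hF2⟩ := ih (fun i => G (i + 1)) (nxs P e) f' w2 τ
      (fun j e' he' => h1 (j + 1) e' he') (fun j a k he' => h2 (j + 1) a k he') h11 hw2' h8
    refine ⟨fun j => Nat.casesOn j f0 F, rfl, ?_, ?_⟩
    · intro j e' he'
      cases j with
      | zero =>
        have : e = e' := by simpa using he'
        subst this
        show Rel Q P e f0 (F 0)
        rw [hF0]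
        exact hf3
      | succ j => exact hF1 j e' he'
    · intro j hj s hs
      cases j with
      | zero => exact h3 s hs
      | succ j => exact hF2 j (by simpa using hj) s hs

/-! ### Orientations -/

/-- The product of two orientations is constant along the strands. -/
theorem lonC_const {es : List HE} {β ε : ℕ → Site → ℤ} (hβ : OrRule es β) (hε : OrRule es ε) :
    ConstRule es fun j s => β j s * ε j s := by
  have hlo : ∀ j e, es[j]? = some e → (e.lo ∈ Pt es (j + 1) ↔ e.lo ∉ Pt es j) := by
    intro j e he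
    rw [coarse_Pt_succ he]
    exact lo_mem_nxs
  have hhi : ∀ j e, es[j]? = some e → (e.hi ∈ Pt es (j + 1) ↔ e.hi ∉ Pt es j) := by
    intro j e he
    rw [coarse_Pt_succ he]
    exact hi_mem_nxs
  refine ⟨?_, ?_, ?_, ?_, ?_⟩
  · intro j e s he _ h1 h2
    show _ * _ = _ * _
    rw [hβ.keep j e s he h1 h2, hε.keep j e s he h1 h2]
  · intro j e he h1 h2
    have n1 : e.lo ∉ Pt es (j + 1) := fun hh => (hlo j e he).1 hh h1
    have e1 := hβ.sum j e he
    have e2 := hε.sum j e he
    rw [hβ.out _ _ n1, hβ.out _ _ h2, zero_add, add_zero] at e1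
    rw [hε.out _ _ n1, hε.out _ _ h2, zero_add, add_zero] at e2
    show _ * _ = _ * _
    rw [e1, e2]
  · intro j e he h1 h2
    have n1 : e.hi ∉ Pt es (j + 1) := fun hh => (hhi j e he).1 hh h2
    have e1 := hβ.sum j e he
    have e2 := hε.sum j e he
    rw [hβ.out _ _ n1, hβ.out _ _ h1, zero_add, add_zero] at e1
    rw [hε.out _ _ n1, hε.out _ _ h1, zero_add, add_zero] at e2
    show _ * _ = _ * _
    rw [e1, e2]
  · intro j e he h1 h2
    have e1 := hβ.sum j e he
    have e2 := hε.sum j e he
    rw [hβ.out _ _ h1, hβ.out _ _ h2, add_zero] at e1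
    rw [hε.out _ _ h1, hε.out _ _ h2, add_zero] at e2
    show _ * _ = _ * _
    have e3 : β (j + 1) e.hi = - β (j + 1) e.lo := by omega
    have e4 : ε (j + 1) e.hi = - ε (j + 1) e.lo := by omega
    rw [e3, e4, neg_mul_neg]
  · intro j e he h1 h2
    have n1 : e.lo ∉ Pt es (j + 1) := fun hh => (hlo j e he).1 hh h1
    have n2 : e.hi ∉ Pt es (j + 1) := fun hh => (hhi j e he).1 hh h2
    have e1 := hβ.sum j e he
    have e2 := hε.sum j e he
    rw [hβ.out _ _ n1, hβ.out _ _ n2, add_zero] at e1
    rw [hε.out _ _ n1, hε.out _ _ n2, add_zero] at e2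
    show _ * _ = _ * _
    have e3 : β j e.hi = - β j e.lo := by omega
    have e4 : ε j e.hi = - ε j e.lo := by omega
    rw [e3, e4, neg_mul_neg]

/-- Two orientations of a knot agree up to the sign. -/
theorem lonC_sign {L : Link} (h1 : ¬ AtLeastTwoComponents L) {es : List HE} (h0 : fin ∅ es = ∅)
    (hd : IsDiag (run1 ∅ es) L) {β ε : ℕ → Site → ℤ} (hβ : OrRule es β) (hε : OrRule es ε) :
    ∃ κ : ℤ, ∀ j s, β j s = κ * ε j s := by
  have hC := lonC_const hβ hε
  by_cases hex : ∃ j0 s0, s0 ∈ Pt es j0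
  · obtain ⟨j0, s0, hs0⟩ := hex
    refine ⟨β j0 s0 * ε j0 s0, fun j s => ?_⟩
    by_cases hs : s ∈ Pt es j
    · have h2 : β j s * ε j s = β j0 s0 * ε j0 s0 := one_comp h1 h0 hd hC hs hs0
      rw [← h2]
      rcases hε.one j s hs with h3 | h3 <;> rw [h3] <;> ring
    · rw [hβ.out j s hs, hε.out j s hs, mul_zero]
  · refine ⟨1, fun j s => ?_⟩
    have hs : s ∉ Pt es j := fun h => hex ⟨j, s, h⟩
    rw [hβ.out j s hs, hε.out j s hs, mul_zero]

/-- The exponents are linear in the orientation. -/
theorem lonC_lamX (es : List HE) {β ε : ℕ → Site → ℤ} {κ : ℤ} (h : ∀ j s, β j s = κ * ε j s) (e : LE) :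
    lamX es β e = κ * lamX es ε e := by
  unfold lamX
  split_ifs
  · rw [Finset.mul_sum]
    exact Finset.sum_congr rfl fun s _ => h _ s
  · cases h2 : es[((e.1.2.1 + 1) / 2).toNat]? with
    | none => simp
    | some e' =>
      show enY _ _ _ _ e' = κ * enY _ _ _ _ e'
      cases e' with
      | ez i k => simp [enY]
      | ex i k =>
        simp only [enY, h]
        split_ifs <;> ring
  · simp
  · simp

end Pool.Agent.Lib.MP_decac5_gt
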