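import Pool.Agent.Lib.MP_decac5_gt.Defs
import Pool.Agent.Lib.MP_decac5_gt.LonC

/-!
# Longitudes: the labels of the second curve
-/

set_option autoImplicit false

namespace Pool.Agent.Lib.MP_decac5_gt

open Pool.Agent.Lib.MP_131179_gt Pool.Agent.Lib.MP_131179_gt.Dehn

variable {Γ : Type} [Group Γ] {x0 : Γ}

/-- The sign of a label. -/
def sgb (b : Bool) : ℤ := if b then 1 else -1

theorem sgb_not (b : Bool) : sgb (!b) = - sgb b := by
  cases b <;> rfl

theorem lonf_eq (p : Γ × Bool) : lonf x0 p = p.1⁻¹ * x0 ^ (sgb p.2) * p.1 := by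
  obtain ⟨y, b⟩ := p
  cases b
  · show y⁻¹ * x0⁻¹ * y = y⁻¹ * x0 ^ (-1 : ℤ) * y
    rw [zpow_neg_one]
  · show y⁻¹ * x0 * y = y⁻¹ * x0 ^ (1 : ℤ) * y
    rw [zpow_one]

theorem lonP_act (p q : Γ × Bool) : (lonP x0).act p q = (x0 ^ (-sgb q.2) * p.1 * lonf x0 q, p.2) := by
  obtain ⟨y, b⟩ := p
  obtain ⟨z, r⟩ := q
  rw [lonf_eq]
  cases r
  · show (x0 * y * (z⁻¹ * x0⁻¹ * z), b) = (x0 ^ (-(-1 : ℤ)) * y * (z⁻¹ * x0 ^ (-1 : ℤ) * z), b)
    rw [neg_neg, zpow_one, zpow_neg_one]
  · show (x0⁻¹ * y * (z⁻¹ * x0 * z), b) = (x0 ^ (-(1 : ℤ)) * y * (z⁻¹ * x0 ^ (1 : ℤ) * z), b)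
    rw [zpow_neg_one, zpow_one]

theorem lonP_bar (p : Γ × Bool) : (lonP x0).bar p = (p.1, !p.2) := rfl

theorem lonf_bar (p : Γ × Bool) : lonf x0 ((lonP x0).bar p) = (lonf x0 p)⁻¹ := by
  rw [lonf_eq, lonf_eq, lonP_bar, sgb_not, zpow_neg]
  group

theorem isHom_lonf (x0 : Γ) : IsHom (lonP x0) (conj Γ) (lonf x0) := by
  refine ⟨fun p => lonf_bar p, fun p q => ?_⟩
  rw [lonP_act]
  show lonf x0 (_, _) = (lonf x0 q)⁻¹ * lonf x0 p * lonf x0 q
  rw [lonf_eq (_, _), lonf_eq p]
  simp only []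
  group

theorem und_lonP (p : Γ × Bool) (l : List (Γ × Bool)) : und (lonP x0) p l =
    (x0 ^ (-(l.map fun q => sgb q.2).sum) * p.1 * (l.map (lonf x0)).prod, p.2) := by
  induction l generalizing p with
  | nil =>
    refine Prod.ext ?_ rfl
    show p.1 = x0 ^ (-(0 : ℤ)) * p.1 * 1
    simp
  | cons q l ih =>
    show und (lonP x0) ((lonP x0).act p q) l = _
    rw [ih, lonP_act]
    refine Prod.ext ?_ rfl
    simp only [List.map_cons, List.sum_cons, List.prod_cons]
    rw [neg_add_rev, zpow_add]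
    simp only [mul_assoc]

variable {es : List HE} {gx gy : P3 → Γ} {F : ℕ → Site → Γ × Bool}

/-- The functions `F` are a lift of the labels of the strands. -/
structure Lft (x0 : Γ) (es : List HE) (gx : P3 → Γ) (F : ℕ → Site → Γ × Bool) : Prop where
  rel : ∀ j e, es[j]? = some e → Rel (lonP x0) (Pt es j) e (F j) (F (j + 1))
  lab : ∀ j, ∀ s ∈ Pt es j, lonf x0 (F j s) = lab (Gt gx j) s

/-- The signs of the lift. -/
noncomputable def bet (es : List HE) (F : ℕ → Site → Γ × Bool) (j : ℕ) (s : Site) : ℤ :=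
  if s ∈ Pt es j then sgb (F j s).2 else 0

theorem bet_in {j : ℕ} {s : Site} (h : s ∈ Pt es j) : bet es F j s = sgb (F j s).2 := if_pos h

theorem bet_out {j : ℕ} {s : Site} (h : s ∉ Pt es j) : bet es F j s = 0 := if_neg h

theorem lonD_lo {j : ℕ} {e : HE} (he : es[j]? = some e) : e.lo ∈ Pt es (j + 1) ↔ e.lo ∉ Pt es j := by
  rw [coarse_Pt_succ he]
  exact lo_mem_nxs

theorem lonD_hi {j : ℕ} {e : HE} (he : es[j]? = some e) : e.hi ∈ Pt es (j + 1) ↔ e.hi ∉ Pt es j := by
  rw [coarse_Pt_succ he]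
  exact hi_mem_nxs

theorem lonD_mem {j : ℕ} {e : HE} (he : es[j]? = some e) {s : Site} (h1 : s ≠ e.lo) (h2 : s ≠ e.hi) :
    s ∈ Pt es (j + 1) ↔ s ∈ Pt es j := by
  rw [coarse_Pt_succ he]
  exact mem_nxs h1 h2

theorem bet_rule (h : Lft x0 es gx F) (hn : Nice ∅ es) : OrRule es (bet es F) := by
  refine ⟨fun j s hs => bet_out hs, ?_, ?_, ?_⟩
  · intro j s hs
    rw [bet_in hs]
    cases (F j s).2
    · exact Or.inr rfl
    · exact Or.inl rfl
  · intro j e s he h1 h2
    by_cases hs : s ∈ Pt es j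
    · have hs' : s ∈ Pt es (j + 1) := (lonD_mem he h1 h2).2 hs
      rw [bet_in hs, bet_in hs']
      have hr := h.rel j e he
      cases e with
      | ez i k =>
        have hr : RelZ _ _ _ _ _ _ := hr
        rw [hr.same s hs h1 h2]
      | ex i k =>
        have hr : RelX _ _ _ _ _ _ := hr
        by_cases h3 : cx s = i + 1 ∧ cz s < k
        · have h4 : st i k ∈ Pt es j ↔ st (i + 1) k ∉ Pt es j := hn.ex j i k he
          by_cases h5 : st i k ∈ Pt es j
          · rw [(hr.right h5 (h4.1 h5)).2 s hs h3.1 h3.2, lonP_act]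
          · have h6 : st (i + 1) k ∈ Pt es j := by
              by_contra h7
              exact h5 (h4.2 h7)
            rw [(hr.left h5 h6).2 s hs h3.1 h3.2, lonP_act]
        · rw [hr.same s hs h1 h2 h3]
    · have hs' : s ∉ Pt es (j + 1) := fun h' => hs ((lonD_mem he h1 h2).1 h')
      rw [bet_out hs, bet_out hs']
  · intro j e he
    have hlo := lonD_lo he
    have hhi := lonD_hi he
    have hr := h.rel j e he
    cases e with
    | ex i k =>
      have hr : RelX _ _ _ _ _ _ := hr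
      have h4 : st i k ∈ Pt es j ↔ st (i + 1) k ∉ Pt es j := hn.ex j i k he
      simp only [HE.lo, HE.hi] at hlo hhi ⊢
      by_cases h5 : st i k ∈ Pt es j
      · have h6 := h4.1 h5
        rw [bet_out (fun h' => hlo.1 h' h5), bet_in (hhi.2 h6), bet_in h5, bet_out h6,
          (hr.right h5 h6).1, und_lonP]
        ring
      · have h6 : st (i + 1) k ∈ Pt es j := by
          by_contra h7
          exact h5 (h4.2 h7)
        rw [bet_in (hlo.2 h5), bet_out (fun h' => hhi.1 h' h6), bet_out h5, bet_in h6,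
          (hr.left h5 h6).1, und_lonP]
        ring
    | ez i k =>
      have hr : RelZ _ _ _ _ _ _ := hr
      simp only [HE.lo, HE.hi] at hlo hhi ⊢
      by_cases h5 : st i k ∈ Pt es j <;> by_cases h6 : st i (k + 1) ∈ Pt es j
      · rw [bet_out (fun h' => hlo.1 h' h5), bet_out (fun h' => hhi.1 h' h6), bet_in h5, bet_in h6,
          hr.cap h5 h6, lonP_bar, sgb_not]
        ring
      · rw [bet_out (fun h' => hlo.1 h' h5), bet_in (hhi.2 h6), bet_in h5, bet_out h6, hr.right h5 h6]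
        ring
      · rw [bet_in (hlo.2 h5), bet_out (fun h' => hhi.1 h' h6), bet_out h5, bet_in h6, hr.left h5 h6]
        ring
      · rw [bet_in (hlo.2 h5), bet_in (hhi.2 h6), bet_out h5, bet_out h6, hr.cup h5 h6, lonP_bar, sgb_not]
        ring

/-- The sum of the signs of the deeper strands. -/
def TT (es : List HE) (β : ℕ → Site → ℤ) (j : ℕ) (x a : ℤ) : ℤ :=
  ∑ q ∈ (Pt es j).filter (fun q => cx q = x ∧ a < cz q), β j q

theorem TT_step {β : ℕ → Site → ℤ} (hβ : OrRule es β) {j : ℕ} {e : HE} (he : es[j]? = some e) (x a : ℤ) :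
    TT es β (j + 1) x a = TT es β j x a +
      (if cx e.lo = x ∧ a < cz e.lo then β (j + 1) e.lo - β j e.lo else 0) +
      (if cx e.hi = x ∧ a < cz e.hi then β (j + 1) e.hi - β j e.hi else 0) := by
  classical
  set U : Finset Site := Pt es j ∪ {e.lo, e.hi} with hU
  have hne : e.lo ≠ e.hi := e.lo_lt_hi.ne
  have h1 : TT es β j x a = ∑ q ∈ U.filter (fun q => cx q = x ∧ a < cz q), β j q := by
    unfold TT
    refine Finset.sum_subset ?_ ?_
    · intro q hq
      rw [Finset.mem_filter] at hq ⊢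
      exact ⟨Finset.mem_union_left _ hq.1, hq.2⟩
    · intro q hq hq'
      rw [Finset.mem_filter] at hq hq'
      exact hβ.out j q fun h => hq' ⟨h, hq.2⟩
  have h2 : TT es β (j + 1) x a = ∑ q ∈ U.filter (fun q => cx q = x ∧ a < cz q), β (j + 1) q := by
    unfold TT
    refine Finset.sum_subset ?_ ?_
    · intro q hq
      rw [Finset.mem_filter] at hq ⊢
      refine ⟨?_, hq.2⟩
      by_cases hq1 : q = e.lo
      · rw [hU, hq1]; simp
      by_cases hq2 : q = e.hi
      · rw [hU, hq2]; simp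
      exact Finset.mem_union_left _ ((lonD_mem he hq1 hq2).1 hq.1)
    · intro q hq hq'
      rw [Finset.mem_filter] at hq hq'
      exact hβ.out (j + 1) q fun h => hq' ⟨h, hq.2⟩
  have h3 : ∑ q ∈ U.filter (fun q => cx q = x ∧ a < cz q), (β (j + 1) q - β j q) =
      ∑ q ∈ ({e.lo, e.hi} : Finset Site).filter (fun q => cx q = x ∧ a < cz q), (β (j + 1) q - β j q) := by
    symm
    refine Finset.sum_subset ?_ ?_
    · intro q hq
      rw [Finset.mem_filter] at hq ⊢
      exact ⟨Finset.mem_union_right _ hq.1, hq.2⟩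
    · intro q hq hq'
      rw [Finset.mem_filter] at hq hq'
      have hq3 : q ∉ ({e.lo, e.hi} : Finset Site) := fun h => hq' ⟨h, hq.2⟩
      rw [Finset.mem_insert, Finset.mem_singleton, not_or] at hq3
      rw [hβ.keep j e q he hq3.1 hq3.2, sub_self]
  rw [Finset.sum_sub_distrib, ← h1, ← h2, Finset.sum_filter, Finset.sum_insert (by simpa using hne),
    Finset.sum_singleton] at h3
  linarith

/-- The label of the strand, pulled back to the second curve. -/
noncomputable def Yh (x0 : Γ) (es : List HE) (gx : P3 → Γ) (F : ℕ → Site → Γ × Bool) (j : ℕ) (s : Site) : Γ :=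
  x0 ^ (-(TT es (bet es F) j (cx s) (cz s))) * (F j s).1 * Gt gx j (cx s) (cz s + 1)

theorem lonD_sum (P : Finset Site) (s : Site) (g : Site → ℤ) :
    ((dep P s).map g).sum = ∑ q ∈ P.filter (fun q => cx q = cx s ∧ cz s < cz q), g q := by
  unfold dep
  rw [← Multiset.sum_coe, ← Multiset.map_coe, Finset.sort_eq]
  rfl

theorem Yh_eq (h : Lft x0 es gx F) (hrel : PiRel (Kc es) gx gy) (h0 : fin ∅ es = ∅) (j : ℕ) (s : Site) :
    (und (lonP x0) (F j s) ((dep (Pt es j) s).map (F j))).1 = Yh x0 es gx F j s := by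
  rw [und_lonP]
  have h1 : (((dep (Pt es j) s).map (F j)).map fun q => sgb q.2).sum =
      TT es (bet es F) j (cx s) (cz s) := by
    rw [List.map_map, lonD_sum]
    unfold TT
    refine Finset.sum_congr rfl fun q hq => ?_
    rw [Finset.mem_filter] at hq
    rw [bet_in hq.1]
    rfl
  have h2 : (((dep (Pt es j) s).map (F j)).map (lonf x0)).prod = Gt gx j (cx s) (cz s + 1) := by
    have h3 : ((dep (Pt es j) s).map (F j)).map (lonf x0) = (dep (Pt es j) s).map (lab (Gt gx j)) := by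
      rw [List.map_map]
      apply List.map_congr_left
      intro q hq
      exact h.lab j q (mem_dep.1 hq).1
    rw [h3]
    have h4 : ∃ Z0 : ℤ, ∀ x z, Z0 ≤ z → Gt gx j x z = 1 := by
      obtain ⟨Z0, hZ⟩ := hrel.front
      exact ⟨Z0 + 1, fun x z hz => (hZ _ (by show Z0 ≤ z - 1; omega)).1⟩
    exact LabRun_prod (fun s hs => gt_lab hrel h0 hs) h4 (cx s) (cz s + 1)
  rw [h1, h2]
  rfl

end Pool.Agent.Lib.MP_decac5_gt
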