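import Pool.Agent.Lib.MP_decac5_gt.LonD

/-!
# Longitudes: the rules for the second curve
-/

set_option autoImplicit false

namespace Pool.Agent.Lib.MP_decac5_gt

open Pool.Agent.Lib.MP_131179_gt Pool.Agent.Lib.MP_131179_gt.Dehn

variable {Γ : Type} [Group Γ] {x0 : Γ} {es : List HE} {gx gy : P3 → Γ} {F : ℕ → Site → Γ × Bool}

private theorem e_cx (x z : ℤ) : cx (st x z) = x := rfl

private theorem e_cz (x z : ℤ) : cz (st x z) = z := rfl

private theorem e_ext {s : Site} {x z : ℤ} (h1 : cx s = x) (h2 : cz s = z) : s = st x z := by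
  rw [← h1, ← h2]
  rfl

/-- A strand which does not move. -/
theorem lonE_keep (h : Lft x0 es gx F) (hn : Nice ∅ es) (hrel : PiRel (Kc es) gx gy) (h0 : fin ∅ es = ∅)
    {j : ℕ} {e : HE} (he : es[j]? = some e) {s : Site} (hs : s ∈ Pt es j) (hs' : s ∈ Pt es (j + 1)) :
    Yh x0 es gx F (j + 1) s = x0 ^ (-(lamX es (bet es F) (vert (2 * (j : ℤ) - 1) s))) *
      Yh x0 es gx F j s * gy (cx s, 2 * (j : ℤ) - 1, cz s) := by
  have hβ := bet_rule h hn
  have hne1 : s ≠ e.lo := by
    rintro rfl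
    exact (lonD_lo he).1 hs' hs
  have hne2 : s ≠ e.hi := by
    rintro rfl
    exact (lonD_hi he).1 hs' hs
  have hT := TT_step hβ he (cx s) (cz s)
  rw [lamX_1o, he]
  have hr := h.rel j e he
  cases e with
  | ez i k =>
    have hr : RelZ _ _ _ _ _ _ := hr
    simp only [HE.lo, HE.hi, e_cx, e_cz] at hne1 hne2 hT
    rw [gy_odd_ez hrel he]
    show _ = x0 ^ (-(0 : ℤ)) * _ * 1
    rw [neg_zero, zpow_zero, one_mul, mul_one]
    unfold Yh
    rw [hr.same s hs hne1 hne2]
    have h2 : Gt gx (j + 1) (cx s) (cz s + 1) = Gt gx j (cx s) (cz s + 1) := by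
      have h3 : GStep (Gt gx j) (Gt gx (j + 1)) (.ez i k) := gt_step hrel he
      refine h3 _ _ fun h4 => hne1 ?_
      rw [Prod.mk.injEq] at h4
      exact e_ext h4.1 (by omega)
    have h5 : TT es (bet es F) (j + 1) (cx s) (cz s) = TT es (bet es F) j (cx s) (cz s) := by
      have h6 := hβ.sum j _ he
      simp only [HE.lo, HE.hi] at h6
      rw [hT]
      by_cases h7 : i = cx s
      · have h8 : cz s ≠ k := fun h9 => hne1 (e_ext h7.symm h9)
        by_cases h9 : cz s < k
        · rw [if_pos ⟨h7, h9⟩, if_pos ⟨h7, by omega⟩]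
          linarith
        · rw [if_neg (fun h10 => h9 h10.2), if_neg (fun h10 => by omega)]
          ring
      · rw [if_neg (fun h10 => h7 h10.1), if_neg (fun h10 => h7 h10.1)]
        ring
    rw [h2, h5]
  | ex i k =>
    have hr : RelX _ _ _ _ _ _ := hr
    have hlo := lonD_lo he
    have hhi := lonD_hi he
    simp only [HE.lo, HE.hi, e_cx, e_cz] at hne1 hne2 hT hlo hhi
    have h4 : st i k ∈ Pt es j ↔ st (i + 1) k ∉ Pt es j := hn.ex j i k he
    have hgy := gy_odd_ex hrel he (cx s) (cz s)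
    have hw : GStep (Gt gx j) (Gt gx (j + 1)) (.ex i k) := gt_step hrel he
    obtain ⟨y, hy⟩ := hw
    have hyy : y = (Gt gx j i k)⁻¹ * Gt gx (j + 1) i k := by
      rw [hy i k, if_neg (by omega), if_pos ⟨rfl, le_rfl⟩]
      group
    have hG1 : Gt gx (j + 1) (i + 1) k = y⁻¹ * Gt gx j (i + 1) k := by
      rw [hy, if_pos ⟨rfl, le_rfl⟩, if_neg (by omega), mul_one]
    have hG2 : Gt gx (j + 1) (i + 1) (k + 1) = Gt gx j (i + 1) (k + 1) := by
      rw [hy, if_neg (by omega), if_neg (by omega), one_mul, mul_one]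
    have hlab1 : lab (Gt gx (j + 1)) (st (i + 1) k) = y⁻¹ * lab (Gt gx j) (st (i + 1) k) := by
      show Gt gx (j + 1) (i + 1) k * (Gt gx (j + 1) (i + 1) (k + 1))⁻¹ =
        y⁻¹ * (Gt gx j (i + 1) k * (Gt gx j (i + 1) (k + 1))⁻¹)
      rw [hG1, hG2, mul_assoc]
    show _ = x0 ^ (-(enY (bet es F j) (bet es F (j + 1)) (cx s) (cz s) (.ex i k))) * _ * _
    rw [hgy]
    simp only [enY]
    by_cases c1 : cx s = i ∧ cz s < k
    · -- the column of the lower end
      rw [if_pos c1, if_pos c1, ← hyy]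
      rw [if_pos ⟨c1.1.symm, c1.2⟩, if_neg (fun h10 => by omega), add_zero] at hT
      unfold Yh
      rw [hr.same s hs hne1 hne2 (by omega), hT, hy (cx s) (cz s + 1), if_neg (by omega),
        if_pos ⟨c1.1, by omega⟩, one_mul, neg_add, zpow_add]
      have : ∀ u v : ℤ, x0 ^ u * x0 ^ v = x0 ^ v * x0 ^ u := fun u v => by
        rw [← zpow_add, ← zpow_add, add_comm]
      rw [this]
      simp only [mul_assoc]
    · rw [if_neg c1, if_neg c1, neg_zero, zpow_zero, one_mul, mul_one]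
      by_cases c2 : cx s = i + 1 ∧ cz s < k
      · -- the moving strand passes over `s`
        rw [if_neg (fun h10 => by omega), if_pos ⟨c2.1.symm, c2.2⟩, add_zero] at hT
        have hG3 : Gt gx (j + 1) (cx s) (cz s + 1) = y⁻¹ * Gt gx j (cx s) (cz s + 1) := by
          rw [hy, if_pos ⟨c2.1, by omega⟩, if_neg (by omega), mul_one]
        by_cases h5 : st i k ∈ Pt es j
        · have h6 := h4.1 h5
          have h7 := (hr.right h5 h6).2 s hs c2.1 c2.2
          have h8 : lonf x0 (F (j + 1) (st (i + 1) k)) = y⁻¹ := by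
            rw [h.lab (j + 1) _ (hhi.2 h6), hlab1, gt_lab hrel h0 h6, mul_one]
          rw [bet_in (hhi.2 h6), bet_out h6, sub_zero] at hT
          unfold Yh
          rw [h7, lonP_act, hT, hG3, lonf_bar, h8, lonP_bar, sgb_not, neg_neg]
          simp only []
          rw [neg_add, zpow_add, zpow_neg x0 (sgb (F (j + 1) (st (i + 1) k)).2)]
          group
        · have h6 : st (i + 1) k ∈ Pt es j := by
            by_contra h7
            exact h5 (h4.2 h7)
          have h7 := (hr.left h5 h6).2 s hs c2.1 c2.2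
          have h8 : lonf x0 (F j (st (i + 1) k)) = y := by
            have h9 := gt_lab hrel h0 (fun h' => hhi.1 h' h6)
            rw [hlab1, inv_mul_eq_one] at h9
            rw [h.lab j _ h6, h9]
          rw [bet_in h6, bet_out (fun h' => hhi.1 h' h6), zero_sub] at hT
          unfold Yh
          rw [h7, lonP_act, hT, hG3, h8]
          simp only []
          rw [neg_add, neg_neg, zpow_add, zpow_neg x0 (sgb (F j (st (i + 1) k)).2)]
          group
      · rw [if_neg (fun h10 => c1 ⟨h10.1.symm, h10.2⟩), if_neg (fun h10 => c2 ⟨h10.1.symm, h10.2⟩),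
          add_zero, add_zero] at hT
        unfold Yh
        have hz : ¬ (cx s = i ∧ cz s = k) := fun h9 => hne1 (e_ext h9.1 h9.2)
        have hz2 : ¬ (cx s = i + 1 ∧ cz s = k) := fun h9 => hne2 (e_ext h9.1 h9.2)
        rw [hr.same s hs hne1 hne2 c2, hT, hy, if_neg (fun h10 => by omega),
          if_neg (fun h10 => by omega), one_mul, mul_one]

/-- The value at a point of the level `2 j`. -/
noncomputable def Y2 (x0 : Γ) (es : List HE) (gx gy : P3 → Γ) (F : ℕ → Site → Γ × Bool) (j : ℕ)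
    (s : Site) : Γ :=
  if s ∈ Pt es (j + 1) then Yh x0 es gx F (j + 1) s else
    x0 ^ (-(lamX es (bet es F) (vert (2 * (j : ℤ) - 1) s))) * Yh x0 es gx F j s *
      gy (cx s, 2 * (j : ℤ) - 1, cz s)

theorem Y2_up (h : Lft x0 es gx F) (hn : Nice ∅ es) (hrel : PiRel (Kc es) gx gy) (h0 : fin ∅ es = ∅)
    {j : ℕ} {e : HE} (he : es[j]? = some e) {s : Site} (hs : s ∈ Pt es j) :
    Y2 x0 es gx gy F j s = x0 ^ (-(lamX es (bet es F) (vert (2 * (j : ℤ) - 1) s))) *
      Yh x0 es gx F j s * gy (cx s, 2 * (j : ℤ) - 1, cz s) := by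
  unfold Y2
  split_ifs with h1
  · exact lonE_keep h hn hrel h0 he hs h1
  · rfl

theorem und_cons_bar {C : Type} {Q : Palette C} (x : C) (l : List C) :
    und Q x (Q.bar x :: l) = und Q x l := by
  show und Q (Q.act x (Q.bar x)) l = _
  have h := Q.act_act_bar x x
  rw [Q.act_self] at h
  rw [h]

/-- An edge in the direction of the depth. -/
theorem lonE_ez (h : Lft x0 es gx F) (hn : Nice ∅ es) (hrel : PiRel (Kc es) gx gy) (h0 : fin ∅ es = ∅)
    {j : ℕ} {i k : ℤ} (he : es[j]? = some (.ez i k)) :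
    Y2 x0 es gx gy F j (st i (k + 1)) = Y2 x0 es gx gy F j (st i k) := by
  have hr : RelZ _ _ _ _ _ _ := h.rel j _ he
  have hlo := lonD_lo he
  have hhi := lonD_hi he
  simp only [HE.lo, HE.hi] at hlo hhi
  have hne : st i (k + 1) ≠ st i k := by
    intro h1
    have h2 : cz (st i (k + 1)) = cz (st i k) := by rw [h1]
    rw [e_cz, e_cz] at h2
    omega
  have hdown : ∀ s, s ∉ Pt es (j + 1) → Y2 x0 es gx gy F j s = Yh x0 es gx F j s := by
    intro s hs
    unfold Y2
    rw [if_neg hs, lamX_1o, he, gy_odd_ez hrel he]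
    show x0 ^ (-(0 : ℤ)) * _ * 1 = _
    rw [neg_zero, zpow_zero, one_mul, mul_one]
  have hup : ∀ s, s ∈ Pt es (j + 1) → Y2 x0 es gx gy F j s = Yh x0 es gx F (j + 1) s := by
    intro s hs
    unfold Y2
    rw [if_pos hs]
  have hmem : ∀ s, s ≠ st i k → s ≠ st i (k + 1) → (s ∈ Pt es (j + 1) ↔ s ∈ Pt es j) :=
    fun s h1 h2 => lonD_mem he h1 h2
  -- the strands behind the upper end
  have hd1 : dep (Pt es (j + 1)) (st i (k + 1)) = dep (Pt es j) (st i (k + 1)) := by
    unfold dep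
    congr 1
    ext q
    rw [Finset.mem_filter, Finset.mem_filter, e_cx, e_cz]
    constructor
    · rintro ⟨h1, h2, h3⟩
      refine ⟨(hmem q ?_ ?_).1 h1, h2, h3⟩
      · rintro rfl; rw [e_cz] at h3; omega
      · rintro rfl; rw [e_cz] at h3; omega
    · rintro ⟨h1, h2, h3⟩
      refine ⟨(hmem q ?_ ?_).2 h1, h2, h3⟩
      · rintro rfl; rw [e_cz] at h3; omega
      · rintro rfl; rw [e_cz] at h3; omega
  have hd2 : (dep (Pt es j) (st i (k + 1))).map (F (j + 1)) = (dep (Pt es j) (st i (k + 1))).map (F j) := by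
    apply List.map_congr_left
    intro q hq
    obtain ⟨h1, h2, h3⟩ := mem_dep.1 hq
    rw [e_cx] at h2
    rw [e_cz] at h3
    refine hr.same q h1 ?_ ?_
    · rintro rfl; rw [e_cz] at h3; omega
    · rintro rfl; rw [e_cz] at h3; omega
  have hd3 : ∀ P : Finset Site, st i (k + 1) ∉ P → dep P (st i k) = dep P (st i (k + 1)) := by
    intro P hP
    unfold dep
    congr 1
    ext q
    rw [Finset.mem_filter, Finset.mem_filter, e_cx, e_cz, e_cz, e_cx]
    constructor
    · rintro ⟨h1, h2, h3⟩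
      refine ⟨h1, h2, ?_⟩
      by_contra h4
      apply hP
      have h5 : q = st i (k + 1) := e_ext h2 (by omega)
      rw [← h5]
      exact h1
    · rintro ⟨h1, h2, h3⟩
      exact ⟨h1, h2, by omega⟩
  have hd4 : ∀ P : Finset Site, st i (k + 1) ∈ P → dep P (st i k) = st i (k + 1) :: dep P (st i (k + 1)) := by
    intro P hP
    unfold dep
    have h1 : P.filter (fun q => cx q = cx (st i k) ∧ cz (st i k) < cz q) =
        {st i (k + 1)} ∪ P.filter (fun q => cx q = cx (st i (k + 1)) ∧ cz (st i (k + 1)) < cz q) := by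
      ext q
      rw [Finset.mem_union, Finset.mem_singleton, Finset.mem_filter, Finset.mem_filter, e_cx, e_cz, e_cz,
        e_cx]
      constructor
      · rintro ⟨h1, h2, h3⟩
        by_cases h4 : cz q = k + 1
        · exact Or.inl (e_ext h2 h4)
        · exact Or.inr ⟨h1, h2, by omega⟩
      · rintro (rfl | ⟨h1, h2, h3⟩)
        · refine ⟨hP, ?_, ?_⟩
          · rw [e_cx]
          · rw [e_cz]; omega
        · exact ⟨h1, h2, by omega⟩
    rw [h1, sort_union]
    · rw [Finset.sort_singleton]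
      rfl
    · intro s hs t ht
      rw [Finset.mem_singleton] at hs
      rw [Finset.mem_filter, e_cx, e_cz] at ht
      rw [hs, LabRun_lt_iff, e_cx, e_cz]
      right
      exact ⟨ht.2.1.symm, ht.2.2⟩
  by_cases h5 : st i k ∈ Pt es j <;> by_cases h6 : st i (k + 1) ∈ Pt es j
  · -- a maximum
    rw [hdown _ (fun h' => hhi.1 h' h6), hdown _ (fun h' => hlo.1 h' h5), ← Yh_eq h hrel h0,
      ← Yh_eq h hrel h0, hd4 _ h6, List.map_cons, hr.cap h5 h6, und_cons_bar, und_bar]
    rfl
  · rw [hup _ (hhi.2 h6), hdown _ (fun h' => hlo.1 h' h5), ← Yh_eq h hrel h0,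
      ← Yh_eq h hrel h0, hd3 _ h6, hd1, hd2, hr.right h5 h6]
  · rw [hdown _ (fun h' => hhi.1 h' h6), hup _ (hlo.2 h5), ← Yh_eq h hrel h0,
      ← Yh_eq h hrel h0, hd3 _ (fun h' => hhi.1 h' h6), hd1, hd2, hr.left h5 h6]
  · rw [hup _ (hhi.2 h6), hup _ (hlo.2 h5), ← Yh_eq h hrel h0,
      ← Yh_eq h hrel h0, hd4 _ (hhi.2 h6), List.map_cons, hr.cup h5 h6, und_cons_bar, und_bar]
    rfl

/-- An edge between two columns. -/
theorem lonE_ex (h : Lft x0 es gx F) (hn : Nice ∅ es) (hrel : PiRel (Kc es) gx gy) (h0 : fin ∅ es = ∅)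
    {j : ℕ} {i k : ℤ} (he : es[j]? = some (.ex i k)) :
    Y2 x0 es gx gy F j (st (i + 1) k) = x0 ^ (-(TT es (bet es F) (j + 1) (i + 1) k)) *
      Y2 x0 es gx gy F j (st i k) * Gt gx (j + 1) (i + 1) (k + 1) := by
  have hβ := bet_rule h hn
  have hr : RelX _ _ _ _ _ _ := h.rel j _ he
  have hlo := lonD_lo he
  have hhi := lonD_hi he
  simp only [HE.lo, HE.hi] at hlo hhi
  have h4 : st i k ∈ Pt es j ↔ st (i + 1) k ∉ Pt es j := hn.ex j i k he
  have hdown : ∀ s, s ∉ Pt es (j + 1) → ¬ (cx s = i ∧ cz s < k) →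
      Y2 x0 es gx gy F j s = Yh x0 es gx F j s := by
    intro s hs h1
    unfold Y2
    rw [if_neg hs, lamX_1o, he, gy_odd_ex hrel he, if_neg h1]
    show x0 ^ (-(if cx s = i ∧ cz s < k then bet es F (j + 1) (st i k) - bet es F j (st i k) else 0)) *
      _ * 1 = _
    rw [if_neg h1, neg_zero, zpow_zero, one_mul, mul_one]
  have hup : ∀ s, s ∈ Pt es (j + 1) → Y2 x0 es gx gy F j s = Yh x0 es gx F (j + 1) s := by
    intro s hs
    unfold Y2
    rw [if_pos hs]
  have hd1 : dep (Pt es (j + 1)) (st i k) = dep (Pt es j) (st i k) := by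
    unfold dep
    congr 1
    ext q
    rw [Finset.mem_filter, Finset.mem_filter, e_cx, e_cz]
    constructor
    · rintro ⟨h1, h2, h3⟩
      refine ⟨(lonD_mem he ?_ ?_).1 h1, h2, h3⟩
      · show q ≠ st i k
        rintro rfl; rw [e_cz] at h3; omega
      · show q ≠ st (i + 1) k
        rintro rfl; rw [e_cx] at h2; omega
    · rintro ⟨h1, h2, h3⟩
      refine ⟨(lonD_mem he ?_ ?_).2 h1, h2, h3⟩
      · show q ≠ st i k
        rintro rfl; rw [e_cz] at h3; omega
      · show q ≠ st (i + 1) k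
        rintro rfl; rw [e_cx] at h2; omega
  have hd2 : (dep (Pt es j) (st i k)).map (F (j + 1)) = (dep (Pt es j) (st i k)).map (F j) := by
    apply List.map_congr_left
    intro q hq
    obtain ⟨h1, h2, h3⟩ := mem_dep.1 hq
    rw [e_cx] at h2
    rw [e_cz] at h3
    refine hr.same q h1 ?_ ?_ (by omega)
    · rintro rfl; rw [e_cz] at h3; omega
    · rintro rfl; rw [e_cx] at h2; omega
  by_cases h5 : st i k ∈ Pt es j
  · have h6 := h4.1 h5
    rw [hup _ (hhi.2 h6), hdown _ (fun h' => hlo.1 h' h5) (by rw [e_cz]; omega)]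
    have h7 : (F (j + 1) (st (i + 1) k)).1 = Yh x0 es gx F j (st i k) := by
      rw [(hr.right h5 h6).1, Yh_eq h hrel h0]
    conv_lhs => unfold Yh
    rw [h7, e_cx, e_cz]
  · have h6 : st (i + 1) k ∈ Pt es j := by
      by_contra h7
      exact h5 (h4.2 h7)
    rw [hdown _ (fun h' => hhi.1 h' h6) (by rw [e_cz]; omega), hup _ (hlo.2 h5)]
    have h7 : (F j (st (i + 1) k)).1 = Yh x0 es gx F (j + 1) (st i k) := by
      rw [(hr.left h5 h6).1, ← Yh_eq h hrel h0, hd1, hd2]
    have hT := TT_step hβ he (i + 1) k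
    simp only [HE.lo, HE.hi, e_cx, e_cz] at hT
    rw [if_neg (by omega), if_neg (by omega), add_zero, add_zero] at hT
    have hG2 : Gt gx (j + 1) (i + 1) (k + 1) = Gt gx j (i + 1) (k + 1) := by
      have hw : GStep (Gt gx j) (Gt gx (j + 1)) (.ex i k) := gt_step hrel he
      obtain ⟨y, hy⟩ := hw
      rw [hy, if_neg (by omega), if_neg (by omega), one_mul, mul_one]
    conv_lhs => unfold Yh
    rw [h7, e_cx, e_cz, hT, hG2]

end Pool.Agent.Lib.MP_decac5_gt
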