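import Pool.Agent.Lib.MP_decac5_gt.LonE

/-!
# Longitudes: the label of the second curve
-/

set_option autoImplicit false

namespace Pool.Agent.Lib.MP_decac5_gt

open Pool.Agent.Lib.MP_131179_gt Pool.Agent.Lib.MP_131179_gt.Dehn

variable {Γ : Type} [Group Γ] {x0 : Γ} {es : List HE} {gx gy : P3 → Γ} {F : ℕ → Site → Γ × Bool}

/-- The value at a point of the curve. -/
noncomputable def Th (x0 : Γ) (es : List HE) (gx gy : P3 → Γ) (F : ℕ → Site → Γ × Bool) (p : P3) : Γ :=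
  if p.2.1 % 2 = 1 then Yh x0 es gx F ((p.2.1 + 1) / 2).toNat (st p.1 p.2.2) else
    Y2 x0 es gx gy F (p.2.1 / 2).toNat (st p.1 p.2.2)

theorem Th_even (j : ℕ) (x z : ℤ) : Th x0 es gx gy F (x, 2 * (j : ℤ), z) = Y2 x0 es gx gy F j (st x z) := by
  unfold Th
  have h1 : ¬ (2 * (j : ℤ)) % 2 = 1 := by omega
  have h2 : ((2 * (j : ℤ)) / 2).toNat = j := by omega
  simp only [h1, if_false, h2]

theorem Th_odd (j : ℕ) (x z : ℤ) :
    Th x0 es gx gy F (x, 2 * (j : ℤ) + 1, z) = Yh x0 es gx F (j + 1) (st x z) := by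
  unfold Th
  have h1 : (2 * (j : ℤ) + 1) % 2 = 1 := by omega
  have h2 : ((2 * (j : ℤ) + 1 + 1) / 2).toNat = j + 1 := by omega
  simp only [h1, if_true, h2]

/-- The rule for one edge. -/
theorem Th_edge (h : Lft x0 es gx F) (hn : Nice ∅ es) (hrel : PiRel (Kc es) gx gy) (h0 : fin ∅ es = ∅)
    {E : LE} (hE : E ∈ Kc es) : Th x0 es gx gy F (E.1 + e3 E.2) =
      x0 ^ (-(lamX es (bet es F) E)) * Th x0 es gx gy F E.1 * glab gx gy E := by
  obtain ⟨⟨x, y, z⟩, k⟩ := E
  fin_cases k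
  · -- direction 0
    obtain ⟨j, rfl, hj⟩ := mem_Kc_0.1 hE
    have e1 : ((x, 2 * (j : ℤ), z) : P3) + e3 0 = (x + 1, 2 * (j : ℤ), z) := by simp [e3]
    show Th x0 es gx gy F ((x, 2 * (j : ℤ), z) + e3 0) =
      x0 ^ (-(lamX es (bet es F) ((x, 2 * (j : ℤ), z), 0))) * Th x0 es gx gy F (x, 2 * (j : ℤ), z) *
        gx (x, 2 * (j : ℤ), z)
    rw [e1, Th_even, Th_even, lamX_0, gx_even hrel]
    exact lonE_ex h hn hrel h0 hj
  · obtain ⟨j, hj, hy, hs⟩ := mem_Kc_1.1 hE
    rcases hy with rfl | rfl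
    · have e1 : ((x, 2 * (j : ℤ), z) : P3) + e3 1 = (x, 2 * (j : ℤ) + 1, z) := by simp [e3]
      show Th x0 es gx gy F ((x, 2 * (j : ℤ), z) + e3 1) =
        x0 ^ (-(lamX es (bet es F) (vert (2 * (j : ℤ)) (st x z)))) * Th x0 es gx gy F (x, 2 * (j : ℤ), z) *
          gy (x, 2 * (j : ℤ), z)
      rw [e1, Th_even, Th_odd, lamX_1e, gy_even hrel h0, neg_zero, zpow_zero, one_mul, mul_one]
      unfold Y2
      rw [if_pos hs]
    · have e0 : (2 * (j : ℤ) + 1) = 2 * ((j + 1 : ℕ) : ℤ) - 1 := by push_cast; ring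
      have e1 : ((x, 2 * (j : ℤ) + 1, z) : P3) + e3 1 = (x, 2 * ((j + 1 : ℕ) : ℤ), z) := by
        simp only [e3]
        ext
        · simp
        · simp; ring
        · simp
      show Th x0 es gx gy F ((x, 2 * (j : ℤ) + 1, z) + e3 1) =
        x0 ^ (-(lamX es (bet es F) (vert (2 * (j : ℤ) + 1) (st x z)))) *
          Th x0 es gx gy F (x, 2 * (j : ℤ) + 1, z) * gy (x, 2 * (j : ℤ) + 1, z)
      rw [e1, Th_even, Th_odd, e0]
      cases he2 : es[j + 1]? with
      | none =>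
        exfalso
        rw [List.getElem?_eq_none_iff] at he2
        rw [lam_fin_len h0 he2] at hs
        exact absurd hs (Finset.notMem_empty _)
      | some e => exact Y2_up h hn hrel h0 he2 hs
  · obtain ⟨j, rfl, hj⟩ := mem_Kc_2.1 hE
    have e1 : ((x, 2 * (j : ℤ), z) : P3) + e3 2 = (x, 2 * (j : ℤ), z + 1) := by simp [e3]
    show Th x0 es gx gy F ((x, 2 * (j : ℤ), z) + e3 2) =
      x0 ^ (-(lamX es (bet es F) ((x, 2 * (j : ℤ), z), 2))) * Th x0 es gx gy F (x, 2 * (j : ℤ), z) * 1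
    rw [e1, Th_even, Th_even, lamX_2, neg_zero, zpow_zero, one_mul, mul_one]
    exact lonE_ez h hn hrel h0 hj

variable {m : ℕ} [NeZero m] {c : Curve m}

/-- The rule for one step of the curve. -/
theorem Th_step (h : Lft x0 es gx F) (hn : Nice ∅ es) (hrel : PiRel (Kc es) gx gy) (h0 : fin ∅ es = ∅)
    (hc : c.K = Kc es) (i : ZMod m) : Th x0 es gx gy F (c.v i) * lel gx gy (c.v i) (c.dir i) =
      x0 ^ (lamX es (bet es F) (c.edge i) * (if (c.dir i).2 then (1 : ℤ) else -1)) *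
        Th x0 es gx gy F (c.v (i + 1)) := by
  have hE : c.edge i ∈ Kc es := hc ▸ c.mem_K.2 ⟨i, rfl⟩
  have h1 := Th_edge h hn hrel h0 hE
  rw [lam_lel]
  cases h2 : (c.dir i).2
  · have h3 : c.edge i = (c.v (i + 1), (c.dir i).1) := c.edge_neg h2
    have h4 : c.v (i + 1) + e3 (c.dir i).1 = c.v i := c.step_neg h2
    rw [h3] at h1 ⊢
    simp only [] at h1
    rw [h4] at h1
    rw [h1]
    simp only [Bool.false_eq_true, if_false, zpow_neg, zpow_one, mul_neg, mul_one]
    group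
  · have h3 : c.edge i = (c.v i, (c.dir i).1) := c.edge_pos h2
    have h4 : c.v i + e3 (c.dir i).1 = c.v (i + 1) := (c.step_pos h2).symm
    rw [h3] at h1 ⊢
    simp only [] at h1
    rw [h4] at h1
    rw [h1]
    simp only [if_true, zpow_one, mul_one, zpow_neg]
    group

theorem Th_prod (h : Lft x0 es gx F) (hn : Nice ∅ es) (hrel : PiRel (Kc es) gx gy) (h0 : fin ∅ es = ∅)
    (hc : c.K = Kc es) (n : ℕ) : Th x0 es gx gy F (c.v 0) *
      ((List.range n).map fun j : ℕ => lel gx gy (c.v (j : ZMod m)) (c.dir (j : ZMod m))).prod =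
      x0 ^ (((List.range n).map fun j : ℕ => lamX es (bet es F) (c.edge (j : ZMod m)) *
        (if (c.dir (j : ZMod m)).2 then (1 : ℤ) else -1)).sum) * Th x0 es gx gy F (c.v (n : ZMod m)) := by
  induction n with
  | zero => simp
  | succ n ih =>
    have h2 := Th_step h hn hrel h0 hc (n : ZMod m)
    rw [List.range_succ, List.map_append, List.prod_append, ← mul_assoc, ih, List.map_append,
      List.sum_append, List.map_cons, List.map_nil, List.prod_singleton, List.map_cons, List.map_nil,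
      List.sum_singleton, mul_assoc, h2, ← mul_assoc, ← zpow_add, Nat.cast_succ]

/-- The label of the second curve is trivial. -/
theorem prod_lel_one {L : Link} (h1 : ¬ AtLeastTwoComponents L) (hd : IsDiag (run1 ∅ es) L)
    (h : Lft x0 es gx F) (hn : Nice ∅ es) (hrel : PiRel (Kc es) gx gy) (h0 : fin ∅ es = ∅)
    (h3 : 3 ≤ m) (hc : c.K = Kc es) (hEn : En es c.eps = 0) :
    ((List.range m).map fun j : ℕ => lel gx gy (c.v (j : ZMod m)) (c.dir (j : ZMod m))).prod = 1 := by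
  obtain ⟨κ, hκ⟩ := lonC_sign h1 h0 hd (bet_rule h hn) (orRule_eps h3 h0 hc)
  have h4 := Th_prod (c := c) h hn hrel h0 hc m
  have h5 : ((List.range m).map fun j : ℕ => lamX es (bet es F) (c.edge (j : ZMod m)) *
      (if (c.dir (j : ZMod m)).2 then (1 : ℤ) else -1)).sum = 0 := by
    rw [lam_sum_zmod (fun i => lamX es (bet es F) (c.edge i) * (if (c.dir i).2 then (1 : ℤ) else -1)),
      lam_sum_edges hc]
    have h6 : ∀ e ∈ Kc es, c.sgn e * lamX es (bet es F) e = κ * (c.sgn e * lamX es c.eps e) := by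
      intro e _
      rw [lonC_lamX es hκ e]
      ring
    rw [Finset.sum_congr rfl h6, ← Finset.mul_sum, lam_total h3 h0 hc, hEn, mul_zero]
  rw [h5, zpow_zero, one_mul, ZMod.natCast_self] at h4
  exact mul_eq_left.1 h4

end Pool.Agent.Lib.MP_decac5_gt
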