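import Pool.Agent.Lib.MP_decac5_gt.Defs

/-!
# The kernel of the symmetrized Seifert form modulo 25 of an algebraically slice link
-/

set_option autoImplicit false

namespace Pool.Agent.Lib.MP_decac5_gt

open Pool.Agent.Lib.MP_131179_gt Matrix

/-- Reduction from `ℤ / 25` to `ℤ / 5`. -/
def metabR : ZMod 25 →+* ZMod 5 := ZMod.castHom (by norm_num) (ZMod 5)

theorem metabR_zero (x : ZMod 25) (h : metabR x = 0) : ∃ y : ZMod 25, x = 5 * y := by
  revert x
  decide

theorem metabR_five (x : ZMod 25) : 5 * x = 0 ↔ metabR x = 0 := by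
  revert x
  decide

theorem metabR_lift (x : ZMod 5) : ∃ y : ZMod 25, metabR y = x := by
  revert x
  decide

section Lin

variable {g : ℕ}

theorem metab_mulVec_red {ι : Type} [Fintype ι] (M : Matrix ι ι (ZMod 25)) (c : ι → ZMod 25) :
    (M.map metabR) *ᵥ (fun i => metabR (c i)) = fun i => metabR ((M *ᵥ c) i) := by
  funext i
  rw [mulVec, mulVec, dotProduct, dotProduct, map_sum]
  refine Finset.sum_congr rfl fun j _ => ?_
  rw [map_mul, Matrix.map_apply]

theorem metab_vec_zero {ι : Type} (x : ι → ZMod 25) (h : (fun i => metabR (x i)) = 0) :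
    ∃ y : ι → ZMod 25, x = (5 : ZMod 25) • y := by
  choose y hy using fun i => metabR_zero (x i) (congrFun h i)
  exact ⟨y, funext fun i => by rw [hy i]; rfl⟩

theorem metab_vec_five {ι : Type} (x : ι → ZMod 25) :
    (5 : ZMod 25) • x = 0 ↔ (fun i => metabR (x i)) = 0 := by
  constructor
  · intro h
    funext i
    exact (metabR_five (x i)).1 (congrFun h i)
  · intro h
    funext i
    exact (metabR_five (x i)).2 (congrFun h i)

theorem metab_vec_lift {ι : Type} (x : ι → ZMod 5) :
    ∃ y : ι → ZMod 25, (fun i => metabR (y i)) = x := by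
  choose y hy using fun i => metabR_lift (x i)
  exact ⟨y, funext hy⟩

theorem metab_five_five : (5 : ZMod 25) * 5 = 0 := by decide

theorem metab_card (M : Matrix (Fin g ⊕ Fin g) (Fin g ⊕ Fin g) (ZMod 25)) (hs : Mᵀ = M)
    (h0 : ∀ i j : Fin g, M (.inl i) (.inl j) = 0) :
    Nat.card {c : Fin g ⊕ Fin g → ZMod 25 // M *ᵥ c = 0} ≠ 5 := by
  intro hcard
  obtain ⟨K, hK⟩ : ∃ K : AddSubgroup (Fin g ⊕ Fin g → ZMod 25), ∀ c, c ∈ K ↔ M *ᵥ c = 0 :=
    ⟨(LinearMap.ker M.mulVecLin).toAddSubgroup, fun c => by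
      rw [Submodule.mem_toAddSubgroup, LinearMap.mem_ker, mulVecLin_apply]⟩
  have hK5 : Nat.card K = 5 := by
    rw [← hcard]
    exact Nat.card_congr (Equiv.subtypeEquivRight hK)
  have h5 : ∀ c, M *ᵥ c = 0 → (5 : ZMod 25) • c = 0 := by
    intro c hc
    have h := card_nsmul_eq_zero' (G := K) (x := ⟨c, (hK c).2 hc⟩)
    rw [hK5] at h
    have h1 := congrArg Subtype.val h
    funext i
    have h2 := congrFun h1 i
    simpa using h2
  have : Fact (Nat.Prime 5) := ⟨by norm_num⟩
  have hker : ∀ c, (M.map metabR) *ᵥ (fun i => metabR (c i)) = 0 → M *ᵥ ((5 : ZMod 25) • c) = 0 := by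
    intro c hc
    rw [metab_mulVec_red] at hc
    rw [mulVec_smul]
    exact (metab_vec_five _).2 hc
  have hker' : ∀ c, M *ᵥ ((5 : ZMod 25) • c) = 0 → (M.map metabR) *ᵥ (fun i => metabR (c i)) = 0 := by
    intro c hc
    rw [mulVec_smul] at hc
    rw [metab_mulVec_red]
    exact (metab_vec_five _).1 hc
  have hsym : ∀ i j, M i j = M j i := fun i j => by
    conv_lhs => rw [← hs, transpose_apply]
  -- a vector in the kernel modulo 5
  have hdet : ∃ x : Fin g → ZMod 5, x ≠ 0 ∧
      ∀ j : Fin g, ∑ i, x i * metabR (M (.inl i) (.inr j)) = 0 := by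
    obtain ⟨c, hc, hc0⟩ : ∃ c, M *ᵥ c = 0 ∧ c ≠ 0 := by
      by_contra hne
      push Not at hne
      have h1 : Nat.card K = 1 := by
        rw [AddSubgroup.card_eq_one, eq_bot_iff]
        intro c hc
        rw [AddSubgroup.mem_bot]
        exact hne c ((hK c).1 hc)
      omega
    obtain ⟨p, rfl⟩ := metab_vec_zero c ((metab_vec_five c).1 (h5 c hc))
    have hp := hker' p hc
    have hp0 : (fun i => metabR (p i)) ≠ 0 := by
      intro h
      exact hc0 ((metab_vec_five p).2 h)
    by_cases hr : (fun j : Fin g => metabR (p (.inr j))) = 0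
    · refine ⟨fun i => metabR (p (.inl i)), ?_, ?_⟩
      · intro h
        apply hp0
        funext i
        rcases i with i | i
        · exact congrFun h i
        · exact congrFun hr i
      · intro j
        have h := congrFun hp (.inr j)
        rw [mulVec, dotProduct, Fintype.sum_sum_type] at h
        have h2 : ∑ x, (M.map metabR) (.inr j) (.inr x) * metabR (p (.inr x)) = 0 := by
          apply Finset.sum_eq_zero
          intro x _
          have := congrFun hr x
          rw [show metabR (p (.inr x)) = 0 from this, mul_zero]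
        rw [h2, add_zero] at h
        rw [← show (0 : Fin g ⊕ Fin g → ZMod 5) (.inr j) = 0 from rfl, ← h]
        refine Finset.sum_congr rfl fun i _ => ?_
        rw [Matrix.map_apply, hsym (.inr j), mul_comm]
    · have h1 : (Matrix.of fun i j : Fin g => metabR (M (.inl i) (.inr j))).det = 0 := by
        rw [← Matrix.exists_mulVec_eq_zero_iff]
        refine ⟨_, hr, ?_⟩
        funext i
        have h := congrFun hp (.inl i)
        rw [mulVec, dotProduct, Fintype.sum_sum_type] at h
        have h2 : ∑ x, (M.map metabR) (.inl i) (.inl x) * metabR (p (.inl x)) = 0 := by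
          apply Finset.sum_eq_zero
          intro x _
          rw [Matrix.map_apply, h0, map_zero, zero_mul]
        rw [h2, zero_add] at h
        exact h
      obtain ⟨x, hx0, hx⟩ := Matrix.exists_vecMul_eq_zero_iff.2 h1
      exact ⟨x, hx0, fun j => congrFun hx j⟩
  obtain ⟨x, hx0, hx⟩ := hdet
  obtain ⟨x', hx'⟩ := metab_vec_lift x
  obtain ⟨n, hn⟩ : ∃ n : Fin g ⊕ Fin g → ZMod 25, n = Sum.elim x' 0 := ⟨_, rfl⟩
  obtain ⟨nb, hnb⟩ : ∃ nb : Fin g ⊕ Fin g → ZMod 5, nb = fun i => metabR (n i) := ⟨_, rfl⟩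
  have hnl : ∀ i, nb (.inl i) = x i := fun i => by rw [hnb, hn, ← hx']; rfl
  have hnr : ∀ i, nb (.inr i) = 0 := fun i => by rw [hnb, hn]; exact map_zero _
  have hMn : (M.map metabR) *ᵥ nb = 0 := by
    funext i
    rw [mulVec, dotProduct, Fintype.sum_sum_type]
    have h2 : ∑ j, (M.map metabR) i (.inr j) * nb (.inr j) = 0 := by
      apply Finset.sum_eq_zero
      intro j _
      rw [hnr, mul_zero]
    rw [h2, add_zero]
    rcases i with i | i
    · apply Finset.sum_eq_zero
      intro j _
      rw [Matrix.map_apply, h0, map_zero, zero_mul]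
    · rw [Pi.zero_apply, ← hx i]
      refine Finset.sum_congr rfl fun j _ => ?_
      rw [Matrix.map_apply, hsym (.inr i), hnl, mul_comm]
  have hn5 : M *ᵥ ((5 : ZMod 25) • n) = 0 := hker n (by rw [← hnb]; exact hMn)
  have hn0 : (5 : ZMod 25) • n ≠ 0 := by
    intro h
    rw [metab_vec_five, ← hnb] at h
    apply hx0
    funext i
    rw [← hnl, h]
    rfl
  -- the kernel modulo 5 is spanned by `nb`
  have hspan : ∀ p : Fin g ⊕ Fin g → ZMod 5, (M.map metabR) *ᵥ p = 0 →
      ∃ m : ℤ, p = m • nb := by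
    intro p hp
    obtain ⟨q, rfl⟩ := metab_vec_lift p
    have h1 := hker q hp
    have h2 := mem_zmultiples_of_prime_card (G := K) (p := 5) hK5
      (g := ⟨(5 : ZMod 25) • n, (hK _).2 hn5⟩) (g' := ⟨(5 : ZMod 25) • q, (hK _).2 h1⟩)
      (fun h => hn0 (congrArg Subtype.val h))
    obtain ⟨m, hm⟩ := AddSubgroup.mem_zmultiples_iff.1 h2
    have h3 : m • ((5 : ZMod 25) • n) = (5 : ZMod 25) • q := congrArg Subtype.val hm
    refine ⟨m, ?_⟩
    have h4 : (5 : ZMod 25) • (q - m • n) = 0 := by
      rw [smul_sub, ← h3, smul_comm, sub_self]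
    rw [metab_vec_five] at h4
    funext i
    have h5 := congrFun h4 i
    rw [Pi.sub_apply, map_sub, Pi.smul_apply, map_zsmul, Pi.zero_apply, sub_eq_zero] at h5
    rw [hnb]
    exact h5
  have hMs : (M.map metabR)ᵀ = M.map metabR := by
    rw [← Matrix.transpose_map, hs]
  obtain ⟨w, hw⟩ := metab_vec_zero (M *ᵥ n) (by
    rw [← metab_mulVec_red, ← hnb]
    exact hMn)
  have hnw : nb ⬝ᵥ (fun i => metabR (w i)) = 0 := by
    have h1 : n ⬝ᵥ (M *ᵥ n) = 0 := by
      rw [dotProduct, Fintype.sum_sum_type]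
      have e2 : ∑ i, n (.inr i) * (M *ᵥ n) (.inr i) = 0 := by
        apply Finset.sum_eq_zero
        intro i _
        rw [hn]
        exact zero_mul _
      rw [e2, add_zero]
      apply Finset.sum_eq_zero
      intro i _
      have e3 : (M *ᵥ n) (.inl i) = 0 := by
        rw [mulVec, dotProduct, Fintype.sum_sum_type]
        have e4 : ∑ j, M (.inl i) (.inl j) * n (.inl j) = 0 := by
          apply Finset.sum_eq_zero
          intro j _
          rw [h0, zero_mul]
        have e5 : ∑ j, M (.inl i) (.inr j) * n (.inr j) = 0 := by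
          apply Finset.sum_eq_zero
          intro j _
          rw [hn]
          exact mul_zero _
        rw [e4, e5, add_zero]
      rw [e3, mul_zero]
    rw [hw, dotProduct_smul, smul_eq_mul, metabR_five, dotProduct, map_sum] at h1
    rw [dotProduct, ← h1]
    refine Finset.sum_congr rfl fun i _ => ?_
    rw [map_mul, hnb]
  have hrange : ∃ z : Fin g ⊕ Fin g → ZMod 5,
      (M.map metabR) *ᵥ z = fun i => metabR (w i) := by
    by_contra hne
    have h1 : (fun i => metabR (w i)) ∉ LinearMap.range (M.map metabR).mulVecLin := by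
      rintro ⟨z, hz⟩
      exact hne ⟨z, hz⟩
    obtain ⟨f, hf, hf2⟩ := Submodule.exists_dual_map_eq_bot_of_notMem h1 inferInstance
    have hf3 : ∀ z, f ((M.map metabR) *ᵥ z) = 0 := by
      intro z
      have : f ((M.map metabR).mulVecLin z) ∈
          (LinearMap.range (M.map metabR).mulVecLin).map f :=
        Submodule.mem_map_of_mem ⟨z, rfl⟩
      rw [hf2, Submodule.mem_bot] at this
      exact this
    obtain ⟨p, hp⟩ : ∃ p : Fin g ⊕ Fin g → ZMod 5, ∀ z, f z = p ⬝ᵥ z := by
      refine ⟨fun i => f (Pi.single i 1), fun z => ?_⟩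
      rw [LinearMap.pi_apply_eq_sum_univ f z, dotProduct]
      refine Finset.sum_congr rfl fun i _ => ?_
      rw [smul_eq_mul, mul_comm]
      congr 2
      funext j
      rw [Pi.single_apply]
      simp only [eq_comm]
    have hp2 : (M.map metabR) *ᵥ p = 0 := by
      rw [← hMs, mulVec_transpose]
      funext i
      have h2 := hf3 (Pi.single i 1)
      rw [hp, dotProduct_mulVec, dotProduct_single_one] at h2
      exact h2
    obtain ⟨m, rfl⟩ := hspan p hp2
    apply hf
    rw [hp, smul_dotProduct, hnw, smul_zero]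
  obtain ⟨z', hz'⟩ := hrange
  obtain ⟨z, rfl⟩ := metab_vec_lift z'
  rw [metab_mulVec_red] at hz'
  have h6 : (5 : ZMod 25) • (w - M *ᵥ z) = 0 := by
    rw [metab_vec_five]
    funext i
    have := congrFun hz' i
    rw [Pi.sub_apply, map_sub, Pi.zero_apply, sub_eq_zero]
    exact this.symm
  have h7 : M *ᵥ (n - (5 : ZMod 25) • z) = 0 := by
    rw [mulVec_sub, mulVec_smul, hw, ← smul_sub, h6]
  have h8 := h5 _ h7
  rw [smul_sub, smul_smul, metab_five_five, zero_smul, sub_zero] at h8
  exact hn0 h8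

end Lin

section Seif

variable (b : List BLetter)

/-- The matrix of the form `seif`. -/
def metabS (R : Type) [CommRing R] : Matrix (Fin b.length) (Fin b.length) R :=
  Matrix.of fun k l => (if l < k ∧ b[l].2 + 1 = b[k].2 then 1 else 0) -
    (if l < k ∧ b[l].2 = b[k].2 then 1 else 0) - (if l = k ∧ b[k].1 then 1 else 0)

theorem metab_seif {R : Type} [CommRing R] (e f : Fin b.length → R) :
    seif b e f = e ⬝ᵥ (metabS b R *ᵥ f) := by
  unfold seif
  rw [dotProduct]
  refine Finset.sum_congr rfl fun k _ => ?_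
  congr 1
  have h1 : (if b[k].1 then f k else 0) = ∑ l, (if l = k ∧ b[k].1 then f l else 0) := by
    rw [Finset.sum_eq_single k]
    · simp
    · intro l _ hl
      rw [if_neg fun h => hl h.1]
    · intro h
      exact absurd (Finset.mem_univ _) h
  rw [h1, mulVec, dotProduct, ← Finset.sum_sub_distrib, ← Finset.sum_sub_distrib]
  refine Finset.sum_congr rfl fun l _ => ?_
  rw [metabS, Matrix.of_apply, sub_mul, sub_mul, ite_mul, ite_mul, ite_mul, one_mul, zero_mul]

/-- Reduction of the cycles. -/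
def metabC (e : cyc ℤ b) : cyc (ZMod 25) b :=
  ⟨fun k => ((e.1 k : ℤ) : ZMod 25), fun i => by
    have h : ∑ k, (if b[k].2 = i then e.1 k else 0) = 0 := e.2 i
    have h1 := congrArg (fun t : ℤ => (t : ZMod 25)) h
    simp only [Int.cast_sum, Int.cast_zero] at h1
    refine Eq.trans ?_ h1
    refine Finset.sum_congr rfl fun k _ => ?_
    split_ifs <;> simp⟩

theorem metabC_add (e f : cyc ℤ b) : metabC b (e + f) = metabC b e + metabC b f := by
  apply Subtype.ext
  funext k
  exact Int.cast_add _ _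

theorem metabC_smul (n : ℤ) (e : cyc ℤ b) : metabC b (n • e) = (n : ZMod 25) • metabC b e := by
  apply Subtype.ext
  funext k
  show ((n • e.1 k : ℤ) : ZMod 25) = _
  rw [smul_eq_mul, Int.cast_mul]
  rfl

theorem metabC_sum {ι : Type} (s : Finset ι) (n : ι → ℤ) (v : ι → cyc ℤ b) :
    metabC b (∑ i ∈ s, n i • v i) = ∑ i ∈ s, (n i : ZMod 25) • metabC b (v i) := by
  classical
  induction s using Finset.induction_on with
  | empty =>
    rw [Finset.sum_empty, Finset.sum_empty]
    apply Subtype.ext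
    funext k
    exact Int.cast_zero
  | insert a s ha ih => rw [Finset.sum_insert ha, Finset.sum_insert ha, metabC_add, metabC_smul, ih]

/-- The cycles lift. -/
theorem metabC_surj (e : cyc (ZMod 25) b) : ∃ f : cyc ℤ b, metabC b f = e := by
  classical
  obtain ⟨u, hu⟩ : ∃ u : Fin b.length → ℤ, ∀ k, ((u k : ℤ) : ZMod 25) = e.1 k :=
    ⟨fun k => (e.1 k).val, fun k => by simp⟩
  obtain ⟨d, hd⟩ : ∃ d : ℕ → ℤ, ∀ i, ∑ k : Fin b.length, (if b[k].2 = i then u k else 0) = 25 * d i := by
    have : ∀ i : ℕ, ∃ d : ℤ, ∑ k : Fin b.length, (if b[k].2 = i then u k else 0) = 25 * d := by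
      intro i
      have h : ∑ k, (if b[k].2 = i then e.1 k else 0) = 0 := e.2 i
      have h1 : ((∑ k : Fin b.length, (if b[k].2 = i then u k else 0) : ℤ) : ZMod 25) = 0 := by
        rw [← h, Int.cast_sum]
        refine Finset.sum_congr rfl fun k _ => ?_
        rw [← hu k]
        split_ifs <;> simp
      rw [ZMod.intCast_zmod_eq_zero_iff_dvd] at h1
      exact h1
    choose d hd using this
    exact ⟨d, hd⟩
  -- the first letter with given index
  obtain ⟨F, hF⟩ : ∃ F : Fin b.length → Prop, ∀ k, F k ↔ ∀ l, b[l].2 = b[k].2 → k ≤ l :=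
    ⟨_, fun _ => Iff.rfl⟩
  obtain ⟨w, hw⟩ : ∃ w : Fin b.length → ℤ, ∀ k, w k = if F k then d b[k].2 else 0 :=
    ⟨_, fun _ => rfl⟩
  refine ⟨⟨fun k => u k - 25 * w k, fun i => ?_⟩, ?_⟩
  · have h1 : ∑ k : Fin b.length, (if b[k].2 = i then u k - 25 * w k else 0) =
        ∑ k : Fin b.length, (if b[k].2 = i then u k else 0) -
          25 * ∑ k : Fin b.length, (if b[k].2 = i then w k else 0) := by
      rw [Finset.mul_sum, ← Finset.sum_sub_distrib]
      refine Finset.sum_congr rfl fun k _ => ?_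
      split_ifs <;> simp
    rw [h1, hd]
    have h2 : ∑ k : Fin b.length, (if b[k].2 = i then w k else 0) = d i := by
      by_cases hex : ∃ k : Fin b.length, b[k].2 = i
      · obtain ⟨k, hk, hmin⟩ : ∃ k : Fin b.length, b[k].2 = i ∧
            ∀ l : Fin b.length, b[l].2 = i → k ≤ l := by
          have hne : (Finset.univ.filter fun k : Fin b.length => b[k].2 = i).Nonempty := by
            obtain ⟨k, hk⟩ := hex
            exact ⟨k, by simpa using hk⟩
          refine ⟨Finset.min' _ hne, ?_, ?_⟩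
          · have := Finset.min'_mem _ hne
            simpa using this
          · intro l hl
            exact Finset.min'_le _ _ (by simpa using hl)
        rw [Finset.sum_eq_single k]
        · rw [if_pos hk, hw, if_pos, hk]
          rw [hF]
          intro l hl
          exact hmin l (hl.trans hk)
        · intro l _ hl
          split_ifs with h
          · rw [hw, if_neg]
            rw [hF]
            intro h3
            exact hl (le_antisymm (h3 k (hk.trans h.symm)) (hmin l h))
          · rfl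
        · intro h
          exact absurd (Finset.mem_univ _) h
      · push Not at hex
        have h3 : ∑ k : Fin b.length, (if b[k].2 = i then w k else 0) = 0 := by
          apply Finset.sum_eq_zero
          intro k _
          rw [if_neg (hex k)]
        have h4 := hd i
        have h5 : ∑ k : Fin b.length, (if b[k].2 = i then u k else 0) = 0 := by
          apply Finset.sum_eq_zero
          intro k _
          rw [if_neg (hex k)]
        rw [h3]
        omega
    rw [h2, sub_self]
  · apply Subtype.ext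
    funext k
    show ((u k - 25 * w k : ℤ) : ZMod 25) = e.1 k
    rw [Int.cast_sub, Int.cast_mul, hu]
    have : ((25 : ℤ) : ZMod 25) = 0 := by decide
    rw [this, zero_mul, sub_zero]

/-- A cycle which reduces to zero is divisible by `25`. -/
theorem metabC_zero (e : cyc ℤ b) (h : metabC b e = 0) : ∃ f : cyc ℤ b, e = (25 : ℤ) • f := by
  have h1 : ∀ k, ∃ n : ℤ, e.1 k = 25 * n := by
    intro k
    have h2 : ((e.1 k : ℤ) : ZMod 25) = 0 := congrFun (congrArg Subtype.val h) k
    rw [ZMod.intCast_zmod_eq_zero_iff_dvd] at h2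
    exact h2
  choose n hn using h1
  refine ⟨⟨n, fun i => ?_⟩, ?_⟩
  · have h3 : ∑ k, (if b[k].2 = i then e.1 k else 0) = 0 := e.2 i
    have h4 : ∑ k, (if b[k].2 = i then e.1 k else 0) =
        25 * ∑ k, (if b[k].2 = i then n k else 0) := by
      rw [Finset.mul_sum]
      refine Finset.sum_congr rfl fun k _ => ?_
      rw [hn k]
      split_ifs <;> simp
    rw [h3] at h4
    omega
  · apply Subtype.ext
    funext k
    exact hn k

end Seif

theorem metab_cast (b : List BLetter) (e f : cyc ℤ b) :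
    seif b (metabC b e).1 (metabC b f).1 = ((seif b e.1 f.1 : ℤ) : ZMod 25) := by
  rw [metab_seif, metab_seif, dotProduct, dotProduct, Int.cast_sum]
  refine Finset.sum_congr rfl fun k _ => ?_
  rw [Int.cast_mul, mulVec, mulVec, dotProduct, dotProduct, Int.cast_sum]
  refine congrArg _ (Finset.sum_congr rfl fun l _ => ?_)
  rw [Int.cast_mul, metabS, metabS, Matrix.of_apply, Matrix.of_apply]
  refine congrArg₂ _ ?_ rfl
  push_cast
  rfl

theorem no_metab {b : List BLetter} (g : ℕ) (v : Module.Basis (Fin g ⊕ Fin g) ℤ (cyc ℤ b))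
    (hv : ∀ i j : Fin g, seif b (v (.inl i)).1 (v (.inl j)).1 = 0) :
    Nat.card {e : cyc (ZMod 25) b // ∀ f : cyc (ZMod 25) b, seif b e.1 f.1 + seif b f.1 e.1 = 0} ≠ 5 := by
  obtain ⟨Φ, hΦ⟩ : ∃ Φ : (Fin g ⊕ Fin g → ZMod 25) → cyc (ZMod 25) b,
      ∀ c, Φ c = ∑ i, c i • metabC b (v i) := ⟨_, fun _ => rfl⟩
  have hlift : ∀ c : Fin g ⊕ Fin g → ZMod 25, ∃ n : Fin g ⊕ Fin g → ℤ, ∀ i, (n i : ZMod 25) = c i :=
    fun c => ⟨fun i => (c i).val, fun i => by simp⟩
  have hsurj : Function.Surjective Φ := by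
    intro e
    obtain ⟨f, rfl⟩ := metabC_surj b e
    refine ⟨fun i => (v.repr f i : ZMod 25), ?_⟩
    rw [hΦ, ← metabC_sum, v.sum_repr]
  have hinj0 : ∀ c, Φ c = 0 → c = 0 := by
    intro c hc
    obtain ⟨n, hn⟩ := hlift c
    rw [hΦ] at hc
    simp only [← hn] at hc
    rw [← metabC_sum] at hc
    obtain ⟨f, hf⟩ := metabC_zero b _ hc
    funext i
    have h1 : v.repr (∑ i, n i • v i) i = n i := by
      rw [v.repr_sum_self]
    rw [hf, map_smul, Finsupp.smul_apply, smul_eq_mul] at h1
    rw [← hn, ← h1, Int.cast_mul, Pi.zero_apply]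
    have : ((25 : ℤ) : ZMod 25) = 0 := by decide
    rw [this, zero_mul]
  have hsub : ∀ c d, Φ (c - d) = Φ c - Φ d := by
    intro c d
    rw [hΦ, hΦ, hΦ, ← Finset.sum_sub_distrib]
    refine Finset.sum_congr rfl fun i _ => ?_
    exact sub_smul (c i) (d i) (metabC b (v i))
  have hinj : Function.Injective Φ := by
    intro c d h
    have h1 := hinj0 (c - d) (by rw [hsub, h, sub_self])
    exact sub_eq_zero.1 h1
  have hcoe : ∀ c, (Φ c).1 = ∑ i, c i • (metabC b (v i)).1 := by
    intro c
    rw [hΦ]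
    exact map_sum (cyc (ZMod 25) b).subtype _ _
  have hval : ∀ c d, seif b (Φ c).1 (Φ d).1 =
      ∑ i, ∑ j, c i * (d j * ((seif b (v i).1 (v j).1 : ℤ) : ZMod 25)) := by
    intro c d
    rw [metab_seif, hcoe, hcoe, sum_dotProduct]
    refine Finset.sum_congr rfl fun i _ => ?_
    rw [smul_dotProduct, mulVec_sum, dotProduct_sum, smul_eq_mul, Finset.mul_sum]
    refine Finset.sum_congr rfl fun j _ => ?_
    rw [mulVec_smul, dotProduct_smul, smul_eq_mul, ← metab_seif, metab_cast]
  obtain ⟨M, hM⟩ : ∃ M : Matrix (Fin g ⊕ Fin g) (Fin g ⊕ Fin g) (ZMod 25), ∀ i j,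
      M i j = ((seif b (v i).1 (v j).1 : ℤ) : ZMod 25) + ((seif b (v j).1 (v i).1 : ℤ) : ZMod 25) :=
    ⟨Matrix.of fun i j => _, fun _ _ => rfl⟩
  have hT : ∀ c d, seif b (Φ c).1 (Φ d).1 + seif b (Φ d).1 (Φ c).1 = d ⬝ᵥ (M *ᵥ c) := by
    intro c d
    rw [hval, hval, Finset.sum_comm, ← Finset.sum_add_distrib, dotProduct]
    refine Finset.sum_congr rfl fun j _ => ?_
    rw [← Finset.sum_add_distrib, mulVec, dotProduct, Finset.mul_sum]
    refine Finset.sum_congr rfl fun i _ => ?_
    rw [hM]
    ring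
  have hiff : ∀ c, (∀ f : cyc (ZMod 25) b, seif b (Φ c).1 f.1 + seif b f.1 (Φ c).1 = 0) ↔
      M *ᵥ c = 0 := by
    intro c
    constructor
    · intro h
      funext i
      have h1 := h (Φ (Pi.single i 1))
      rw [hT, single_one_dotProduct] at h1
      exact h1
    · intro h f
      obtain ⟨d, rfl⟩ := hsurj f
      rw [hT, h, dotProduct_zero]
  have hcard : Nat.card {e : cyc (ZMod 25) b // ∀ f : cyc (ZMod 25) b,
      seif b e.1 f.1 + seif b f.1 e.1 = 0} = Nat.card {c : Fin g ⊕ Fin g → ZMod 25 // M *ᵥ c = 0} :=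
    (Nat.card_congr ((Equiv.ofBijective Φ ⟨hinj, hsurj⟩).subtypeEquiv fun c => (hiff c).symm)).symm
  rw [hcard]
  refine metab_card M ?_ ?_
  · ext i j
    rw [transpose_apply, hM, hM, add_comm]
  · intro i j
    rw [hM, hv, hv, Int.cast_zero, add_zero]

end Pool.Agent.Lib.MP_decac5_gt
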