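import Pool.Agent.Lib.MP_decac5_gt.CompD
import Pool.Agent.Lib.MP_decac5_gt.Cross
import Pool.Agent.Lib.MP_decac5_gt.Brk
import Pool.Agent.Lib.MP_decac5_gt.BrkEval
import Pool.Agent.Lib.MP_decac5_gt.ColB
import Pool.Agent.Lib.MP_decac5_gt.ColOne
import Pool.Agent.Lib.MP_decac5_gt.Metab

/-!
# A prime knot, one crossing change away from its mirror image, which is neither achiral nor
algebraically slice
-/

set_option autoImplicit false

namespace Pool.Agent.Lib.MP_decac5_gt

open Pool.Agent.Lib.MP_131179_gt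

theorem isDiag_mirror {w : Word Unit} {L : Link} (h : IsDiag w L) :
    IsDiag (mirror w) (mirrorLink L) := by
  obtain ⟨h1, rfl⟩ := h
  exact ⟨h1.mirror, rfl⟩

theorem kL_ne_mirror : kL ≠ mirrorLink kL := by
  intro h
  have h1 : IsDiag (mirror kW) kL := by
    rw [h]
    exact isDiag_mirror isDiag_kW
  have h2 := bra_pow_eq (eqv_of_isDiag isDiag_kW h1)
  rw [bra_kW, bra_mirror_kW] at h2
  exact absurd h2 (by decide)

theorem not_algSlice_kL : ¬ AlgSlice kL := by
  rintro ⟨n, b, hb, hd, g, v, hv⟩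
  obtain ⟨hn, hcol⟩ := col_of_one hb hd not_two_kL prime_kL.1
  have h1 := card_col_eq 25 hd isDiag_kW
  rw [card_col_kW, card_col_bClosure 25 n b hb hn hcol] at h1
  exact no_metab g v hv (by omega)

/-- **Main theorem.** -/
theorem exists_counterexample : ∃ K : Link, IsPrime K ∧ ¬ AtLeastTwoComponents K ∧
    CrossingChange K (mirrorLink K) ∧ K ≠ mirrorLink K ∧ ¬ AlgSlice K :=
  ⟨kL, prime_kL, not_two_kL, crossing_kL, kL_ne_mirror, not_algSlice_kL⟩

end Pool.Agent.Lib.MP_decac5_gt
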